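import Pool.Agent.H22.LPP.Basics

/-!
# Symmetries, measurability and independence for the i.i.d. environment
-/

open MeasureTheory ProbabilityTheory
open Pool.Agent.H99.NS

namespace Pool.Agent.H22.LPP

/-! ### Symmetries -/

/-- Translation of the environment. -/
def shiftE (a : Site) (ω : Env) : Env := fun x => ω (x + a)

/-- Reflection of space. -/
def reflE (ω : Env) : Env := fun x => ω (x.1, -x.2)

/-- Reflection of time. -/
def revE (ω : Env) : Env := fun x => ω (-x.1, x.2)

theorem reach_shift {u v : Site} (a : Site) : Reach (u + a) (v + a) ↔ Reach u v := by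
  unfold Reach
  simp only [Prod.fst_add, Prod.snd_add]
  rw [show v.2 + a.2 - (u.2 + a.2) = v.2 - u.2 by ring,
    show v.1 + a.1 - (u.1 + a.1) = v.1 - u.1 by ring]

theorem conn_shift {u v : Site} (a : Site) {γ : ℤ → ℤ} (h : Conn u v γ) :
    Conn (u + a) (v + a) (fun r => γ (r - a.1) + a.2) := by
  obtain ⟨h1, h2, h3⟩ := h
  refine ⟨?_, ?_, ?_⟩
  · intro r hr1 hr2
    simp only [Prod.fst_add] at hr1 hr2
    have := h1 (r - a.1) (by omega) (by omega)
    rw [show r - a.1 + 1 = r + 1 - a.1 by ring] at this
    simp only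
    omega
  · simp only [Prod.fst_add, Prod.snd_add, add_sub_cancel_right]
    rw [h2]
  · simp only [Prod.fst_add, Prod.snd_add, add_sub_cancel_right]
    rw [h3]

theorem wt_shift (ω : Env) (a : Site) (s t : ℤ) (γ : ℤ → ℤ) :
    wt (shiftE a ω) s t γ = wt ω (s + a.1) (t + a.1) (fun r => γ (r - a.1) + a.2) := by
  unfold wt shiftE
  refine Finset.sum_nbij' (fun r => r + a.1) (fun r => r - a.1) ?_ ?_ ?_ ?_ ?_
  · intro r hr
    rw [Finset.mem_Ioc] at hr ⊢
    omega
  · intro r hr
    rw [Finset.mem_Ioc] at hr ⊢
    omega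
  · intro r _
    ring
  · intro r _
    ring
  · intro r _
    simp only [add_sub_cancel_right]
    rfl

theorem T_shift_le (ω : Env) (a u v : Site) (h : Reach u v) :
    T (shiftE a ω) u v ≤ T ω (u + a) (v + a) := by
  refine T_le _ h fun γ hγ => ?_
  rw [wt_shift]
  exact le_T ω (reach_le ((reach_shift a).2 h)) (conn_shift a hγ)

/-- B3: translation. -/
theorem T_shift (ω : Env) (a u v : Site) : T (shiftE a ω) u v = T ω (u + a) (v + a) := by
  by_cases h : Reach u v
  · refine le_antisymm (T_shift_le ω a u v h) ?_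
    have h1 := T_shift_le (shiftE a ω) (-a) (u + a) (v + a) ((reach_shift a).2 h)
    have h2 : shiftE (-a) (shiftE a ω) = ω := by
      funext x
      unfold shiftE
      rw [neg_add_cancel_right]
    rw [h2, add_neg_cancel_right, add_neg_cancel_right] at h1
    exact h1
  · rw [T_eq_zero_of_not_reach _ h,
      T_eq_zero_of_not_reach _ (fun h' => h ((reach_shift a).1 h'))]

/-- Reflection of a site. -/
def refl (u : Site) : Site := (u.1, -u.2)

/-- Time reversal of a site. -/
def rev (u : Site) : Site := (-u.1, u.2)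

@[simp] theorem refl_refl (u : Site) : refl (refl u) = u := by unfold refl; simp
@[simp] theorem rev_rev (u : Site) : rev (rev u) = u := by unfold rev; simp

theorem reach_refl' {u v : Site} : Reach (refl u) (refl v) ↔ Reach u v := by
  unfold Reach refl
  simp only
  rw [show -v.2 - -u.2 = -(v.2 - u.2) by ring, abs_neg]
  constructor
  · rintro ⟨h1, k, hk⟩
    exact ⟨h1, k + (v.2 - u.2), by omega⟩
  · rintro ⟨h1, k, hk⟩
    exact ⟨h1, k - (v.2 - u.2), by omega⟩

theorem reach_rev {u v : Site} : Reach (rev v) (rev u) ↔ Reach u v := by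
  unfold Reach rev
  simp only
  rw [show u.2 - v.2 = -(v.2 - u.2) by ring, abs_neg]
  constructor
  · rintro ⟨h1, k, hk⟩
    exact ⟨by omega, k + (v.2 - u.2), by omega⟩
  · rintro ⟨h1, k, hk⟩
    exact ⟨by omega, k - (v.2 - u.2), by omega⟩

theorem T_refl_le (ω : Env) (u v : Site) (h : Reach u v) :
    T (reflE ω) u v ≤ T ω (refl u) (refl v) := by
  refine T_le _ h fun γ hγ => ?_
  have h1 : wt (reflE ω) u.1 v.1 γ = wt ω (refl u).1 (refl v).1 (fun r => -γ r) := by
    unfold wt reflE refl
    rfl
  rw [h1]
  refine le_T ω (reach_le (reach_refl'.2 h)) ⟨?_, ?_, ?_⟩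
  · intro r hr1 hr2
    have := hγ.1 r hr1 hr2
    simp only
    omega
  · have := hγ.2.1
    unfold refl
    simp only
    omega
  · have := hγ.2.2
    unfold refl
    simp only
    omega

/-- B3: reflection of space. -/
theorem T_reflE (ω : Env) (u v : Site) : T (reflE ω) u v = T ω (refl u) (refl v) := by
  by_cases h : Reach u v
  · refine le_antisymm (T_refl_le ω u v h) ?_
    have h1 := T_refl_le (reflE ω) (refl u) (refl v) (reach_refl'.2 h)
    have h2 : reflE (reflE ω) = ω := by
      funext x
      unfold reflE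
      simp
    rw [h2, refl_refl, refl_refl] at h1
    exact h1
  · rw [T_eq_zero_of_not_reach _ h,
      T_eq_zero_of_not_reach _ (fun h' => h (reach_refl'.1 h'))]

theorem T_rev_le (ω : Env) (u v : Site) (h : Reach u v) :
    T (revE ω) u v ≤ T ω (rev v) (rev u) + ω (rev v) - ω (rev u) := by
  refine T_le _ h fun γ hγ => ?_
  have hle := reach_le h
  have h1 : wt (revE ω) u.1 v.1 γ =
      wt ω (rev v).1 (rev u).1 (fun r => γ (-r)) + ω (rev v) - ω (rev u) := by
    have e1 : wt (revE ω) u.1 v.1 γ = ∑ r ∈ Finset.Ico (-v.1) (-u.1), (ω (r, γ (-r)) : ℝ) := by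
      unfold wt revE
      refine Finset.sum_nbij' (fun r => -r) (fun r => -r) ?_ ?_ ?_ ?_ ?_
      · intro r hr
        rw [Finset.mem_Ioc] at hr
        rw [Finset.mem_Ico]
        omega
      · intro r hr
        rw [Finset.mem_Ico] at hr
        rw [Finset.mem_Ioc]
        omega
      · intro r _
        simp
      · intro r _
        simp
      · intro r _
        simp
    have e2 : wt ω (rev v).1 (rev u).1 (fun r => γ (-r)) =
        ∑ r ∈ Finset.Ioc (-v.1) (-u.1), (ω (r, γ (-r)) : ℝ) := rfl
    have e3 : ∑ r ∈ Finset.Icc (-v.1) (-u.1), (ω (r, γ (-r)) : ℝ) =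
        ∑ r ∈ Finset.Ico (-v.1) (-u.1), (ω (r, γ (-r)) : ℝ) + ω (rev u) := by
      rw [← Finset.Ico_insert_right (by omega : -v.1 ≤ -u.1), Finset.sum_insert (by simp),
        add_comm]
      congr 2
      unfold rev
      simp only [neg_neg]
      rw [hγ.2.1]
    have e4 : ∑ r ∈ Finset.Icc (-v.1) (-u.1), (ω (r, γ (-r)) : ℝ) =
        ∑ r ∈ Finset.Ioc (-v.1) (-u.1), (ω (r, γ (-r)) : ℝ) + ω (rev v) := by
      rw [← Finset.Ioc_insert_left (by omega : -v.1 ≤ -u.1), Finset.sum_insert (by simp),
        add_comm]
      congr 2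
      unfold rev
      simp only [neg_neg]
      rw [hγ.2.2]
    rw [e1, e2]
    linarith
  rw [h1]
  have h2 : wt ω (rev v).1 (rev u).1 (fun r => γ (-r)) ≤ T ω (rev v) (rev u) := by
    refine le_T ω (reach_le (reach_rev.2 h)) ⟨?_, ?_, ?_⟩
    · intro r hr1 hr2
      unfold rev at hr1 hr2
      simp only at hr1 hr2
      have := hγ.1 (-(r + 1)) (by omega) (by omega)
      rw [show -(r + 1) + 1 = -r by ring] at this
      simp only
      omega
    · unfold rev
      simp only [neg_neg]
      exact hγ.2.2
    · unfold rev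
      simp only [neg_neg]
      exact hγ.2.1
  linarith

/-- B3: reflection of time. The weight of the starting point is exchanged with the weight of the
end point. -/
theorem T_revE (ω : Env) {u v : Site} (h : Reach u v) :
    T (revE ω) u v + ω (rev u) = T ω (rev v) (rev u) + ω (rev v) := by
  apply le_antisymm
  · have := T_rev_le ω u v h
    linarith
  · have h1 := T_rev_le (revE ω) (rev v) (rev u) (reach_rev.2 h)
    have h2 : revE (revE ω) = ω := by
      funext x
      unfold revE
      simp
    have h3 : revE ω (rev (rev u)) = ω (rev u) := by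
      unfold revE rev
      simp
    have h4 : revE ω (rev (rev v)) = ω (rev v) := by
      unfold revE rev
      simp
    rw [h2, h3, h4, rev_rev, rev_rev] at h1
    linarith

/-! ### Measure preserving maps -/

theorem measurePreserving_reindex (q : ℝ) {f : Site → Site} (hf : Function.Injective f) :
    MeasurePreserving (fun (ω : Env) (x : Site) => ω (f x)) (PE q) (PE q) := by
  refine ⟨by fun_prop, ?_⟩
  unfold PE
  exact Measure.map_infinitePi_infinitePi_of_inj (P := fun _ : Site => geo q) hf

theorem mp_shiftE (q : ℝ) (a : Site) : MeasurePreserving (shiftE a) (PE q) (PE q) :=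
  measurePreserving_reindex q (f := fun x => x + a) (add_left_injective a)

theorem mp_reflE (q : ℝ) : MeasurePreserving reflE (PE q) (PE q) := by
  refine measurePreserving_reindex q (f := fun x => (x.1, -x.2)) ?_
  intro x y h
  simp only [Prod.mk.injEq, neg_inj] at h
  exact Prod.ext h.1 h.2

theorem mp_revE (q : ℝ) : MeasurePreserving revE (PE q) (PE q) := by
  refine measurePreserving_reindex q (f := fun x => (-x.1, x.2)) ?_
  intro x y h
  simp only [Prod.mk.injEq, neg_inj] at h
  exact Prod.ext h.1 h.2

open Classical in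
/-- The environment equal to `ω` on `A` and to `ω'` outside. -/
noncomputable def splice (A : Set Site) (ω ω' : Env) : Env := fun x => if x ∈ A then ω x else ω' x

theorem splice_of_mem {A : Set Site} (ω ω' : Env) {x : Site} (h : x ∈ A) :
    splice A ω ω' x = ω x := by
  unfold splice; rw [if_pos h]

theorem splice_of_not_mem {A : Set Site} (ω ω' : Env) {x : Site} (h : x ∉ A) :
    splice A ω ω' x = ω' x := by
  unfold splice; rw [if_neg h]

theorem measurable_splice (A : Set Site) :
    Measurable (fun p : Env × Env => splice A p.1 p.2) := by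
  classical
  refine measurable_pi_lambda _ fun x => ?_
  by_cases h : x ∈ A
  · have : (fun p : Env × Env => splice A p.1 p.2 x) = fun p => p.1 x := by
      funext p; exact splice_of_mem _ _ h
    rw [this]
    fun_prop
  · have : (fun p : Env × Env => splice A p.1 p.2 x) = fun p => p.2 x := by
      funext p; exact splice_of_not_mem _ _ h
    rw [this]
    fun_prop

/-- SPL: splicing two independent environments gives an environment with the same law. -/
theorem mp_splice (q : ℝ) (A : Set Site) :
    MeasurePreserving (fun p : Env × Env => splice A p.1 p.2) ((PE q).prod (PE q)) (PE q) := by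
  classical
  refine ⟨measurable_splice A, ?_⟩
  refine Measure.eq_infinitePi (fun _ : Site => geo q) fun s t ht => ?_
  rw [Measure.map_apply (measurable_splice A)
    (MeasurableSet.pi s.countable_toSet fun i _ => ht i)]
  have hset : (fun p : Env × Env => splice A p.1 p.2) ⁻¹' ((s : Set Site).pi t) =
      ((s.filter (fun x => x ∈ A) : Finset Site) : Set Site).pi t ×ˢ
        ((s.filter (fun x => x ∉ A) : Finset Site) : Set Site).pi t := by
    ext p
    simp only [Set.mem_preimage, Set.mem_pi, Set.mem_prod, Finset.coe_filter, Set.mem_ofPred_eq,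
      Finset.mem_coe]
    constructor
    · intro h
      refine ⟨fun x hx => ?_, fun x hx => ?_⟩
      · have := h x hx.1
        rwa [splice_of_mem _ _ hx.2] at this
      · have := h x hx.1
        rwa [splice_of_not_mem _ _ hx.2] at this
    · rintro ⟨h1, h2⟩ x hx
      by_cases hA : x ∈ A
      · rw [splice_of_mem _ _ hA]; exact h1 x ⟨hx, hA⟩
      · rw [splice_of_not_mem _ _ hA]; exact h2 x ⟨hx, hA⟩
  rw [hset, Measure.prod_prod]
  unfold PE
  rw [Measure.infinitePi_pi _ (fun i _ => ht i), Measure.infinitePi_pi _ (fun i _ => ht i),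
    Finset.prod_filter_mul_prod_filter_not]

/-! ### Measurability -/

theorem measurable_Gq {w : Env → ℕ → ℕ → ℕ} (hw : ∀ i j, Measurable fun ω => w ω i j) (a b : ℕ) :
    Measurable fun ω => Gq (w ω) a b := by
  induction a, b using Gq.induct with
  | case1 => simp only [Gq]; exact hw 0 0
  | case2 i ih => simp only [Gq]; exact ih.add (hw _ _)
  | case3 j ih => simp only [Gq]; exact ih.add (hw _ _)
  | case4 i j ih1 ih2 => simp only [Gq]; exact (ih1.max ih2).add (hw _ _)

theorem measurable_Tq (u : Site) (a b : ℕ) : Measurable fun ω => Tq ω u a b := by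
  unfold Tq
  refine measurable_Gq (fun i j => ?_) a b
  split_ifs
  · exact measurable_const
  · exact measurable_pi_apply _

theorem measurable_Lq (u : Site) (a b : ℕ) : Measurable fun ω => Lq ω u a b := by
  unfold Lq
  exact measurable_Gq (fun i j => measurable_pi_apply _) a b

/-- B4: measurability. -/
theorem measurable_T (u v : Site) : Measurable fun ω => T ω u v := by
  by_cases h : Reach u v
  · obtain ⟨a, b, rfl, _⟩ := exists_qs h
    have : (fun ω => T ω u (qs u a b)) = fun ω => ((Tq ω u a b : ℕ) : ℝ) := by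
      funext ω; exact T_eq_Tq ω u a b
    rw [this]
    exact (measurable_from_top (f := fun n : ℕ => (n : ℝ))).comp (measurable_Tq u a b)
  · have : (fun ω => T ω u v) = fun _ => (0 : ℝ) := by
      funext ω; exact T_eq_zero_of_not_reach ω h
    rw [this]
    exact measurable_const

/-! ### Laws -/

/-- The law of `T ω u v` is invariant under translation. -/
theorem law_shift (q : ℝ) (a u v : Site) (S : Set ℝ) (hS : MeasurableSet S) :
    PE q {ω | T ω (u + a) (v + a) ∈ S} = PE q {ω | T ω u v ∈ S} := by
  have h1 : {ω | T ω (u + a) (v + a) ∈ S} = shiftE a ⁻¹' {ω | T ω u v ∈ S} := by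
    ext ω
    simp only [Set.mem_preimage, Set.mem_ofPred_eq, T_shift]
  rw [h1]
  exact (mp_shiftE q a).measure_preimage ((measurable_T u v) hS).nullMeasurableSet

/-- The law of `T ω u v` is invariant under reflection of space. -/
theorem law_refl (q : ℝ) (u v : Site) (S : Set ℝ) (hS : MeasurableSet S) :
    PE q {ω | T ω (refl u) (refl v) ∈ S} = PE q {ω | T ω u v ∈ S} := by
  have h1 : {ω | T ω (refl u) (refl v) ∈ S} = reflE ⁻¹' {ω | T ω u v ∈ S} := by
    ext ω
    simp only [Set.mem_preimage, Set.mem_ofPred_eq, T_reflE]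
  rw [h1]
  exact (mp_reflE q).measure_preimage ((measurable_T u v) hS).nullMeasurableSet

/-- The law of `T ω u v` depends only on the differences. -/
theorem law_diff (q : ℝ) {u v u' v' : Site} (h : v - u = v' - u') (S : Set ℝ)
    (hS : MeasurableSet S) : PE q {ω | T ω u v ∈ S} = PE q {ω | T ω u' v' ∈ S} := by
  have h1 := law_shift q (u' - u) u v S hS
  rw [← h1]
  have h2 : u + (u' - u) = u' := by abel
  have h3 : v + (u' - u) = v' := by
    have : v = v' - u' + u := by rw [← h]; abel
    rw [this]; abel
  rw [h2, h3]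

/-! ### Independence -/

/-- `F` depends only on the weights in `A`. -/
def DepOn {β : Type*} (A : Set Site) (F : Env → β) : Prop :=
  ∀ ω ω' : Env, (∀ x ∈ A, ω x = ω' x) → F ω = F ω'

theorem DepOn.mono {β : Type*} {A B : Set Site} {F : Env → β} (h : DepOn A F) (hAB : A ⊆ B) :
    DepOn B F := fun ω ω' h' => h ω ω' fun x hx => h' x (hAB hx)

theorem depOn_T (u v : Site) : DepOn (dom u v) fun ω => T ω u v :=
  fun _ _ h => T_congr h

/-- The open-closed slab of times. -/
def slab (s t : ℤ) : Set Site := {x | s < x.1 ∧ x.1 ≤ t}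

theorem dom_subset_slab (u v : Site) : dom u v ⊆ slab u.1 v.1 :=
  fun _ h => ⟨h.1, reach_le h.2.2⟩

theorem depOn_T_slab {s t : ℤ} {u v : Site} (h1 : s ≤ u.1) (h2 : v.1 ≤ t) :
    DepOn (slab s t) fun ω => T ω u v := by
  refine (depOn_T u v).mono fun x hx => ?_
  have := dom_subset_slab u v hx
  exact ⟨by have := this.1; omega, by have := this.2; omega⟩

theorem slab_disjoint {s t s' t' : ℤ} (h : t ≤ s') : Disjoint (slab s t) (slab s' t') := by
  rw [Set.disjoint_left]
  rintro x ⟨_, h2⟩ ⟨h3, _⟩
  omega

/-- B5 for events. -/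
theorem measure_inter_of_depOn (q : ℝ) {A B : Set Site} (hAB : Disjoint A B) {E F : Set Env}
    (hE : MeasurableSet E) (hF : MeasurableSet F) (hEA : DepOn A (fun ω => ω ∈ E))
    (hFB : DepOn B (fun ω => ω ∈ F)) : PE q (E ∩ F) = PE q E * PE q F := by
  have h1 := (mp_splice q A).measure_preimage (hE.inter hF).nullMeasurableSet
  have h2 : (fun p : Env × Env => splice A p.1 p.2) ⁻¹' (E ∩ F) = E ×ˢ F := by
    ext p
    simp only [Set.mem_preimage, Set.mem_inter_iff, Set.mem_prod]
    have e1 : (splice A p.1 p.2 ∈ E) = (p.1 ∈ E) :=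
      hEA _ _ fun x hx => splice_of_mem _ _ hx
    have e2 : (splice A p.1 p.2 ∈ F) = (p.2 ∈ F) :=
      hFB _ _ fun x hx => splice_of_not_mem _ _ (Set.disjoint_right.1 hAB hx)
    rw [e1, e2]
  rw [← h1, h2, Measure.prod_prod]

/-- B5: independence of functions of disjoint sets of weights. -/
theorem indepFun_of_depOn (q : ℝ) {β γ : Type*} [MeasurableSpace β] [MeasurableSpace γ]
    {A B : Set Site} (hAB : Disjoint A B) {F : Env → β} {G : Env → γ} (hF : Measurable F)
    (hG : Measurable G) (hFA : DepOn A F) (hGB : DepOn B G) : IndepFun F G (PE q) := by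
  rw [indepFun_iff_measure_inter_preimage_eq_mul]
  intro S S' hS hS'
  refine measure_inter_of_depOn q hAB (hF hS) (hG hS') ?_ ?_
  · intro ω ω' h
    simp only [Set.mem_preimage]
    rw [hFA ω ω' h]
  · intro ω ω' h
    simp only [Set.mem_preimage]
    rw [hGB ω ω' h]

/-- Independence of finitely many events depending on disjoint sets of weights. -/
theorem measure_biInter_of_depOn (q : ℝ) {ι : Type*} [DecidableEq ι] (s : Finset ι)
    (A : ι → Set Site) (E : ι → Set Env) (hE : ∀ i ∈ s, MeasurableSet (E i))
    (hEA : ∀ i ∈ s, DepOn (A i) (fun ω => ω ∈ E i))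
    (hA : ∀ i ∈ s, ∀ j ∈ s, i ≠ j → Disjoint (A i) (A j)) :
    PE q (⋂ i ∈ s, E i) = ∏ i ∈ s, PE q (E i) := by
  induction s using Finset.induction_on with
  | empty => simp
  | insert a s ha ih =>
    rw [Finset.set_biInter_insert, Finset.prod_insert ha]
    rw [measure_inter_of_depOn q (A := A a) (B := ⋃ i ∈ s, A i)]
    · rw [ih (fun i hi => hE i (Finset.mem_insert_of_mem hi))
        (fun i hi => hEA i (Finset.mem_insert_of_mem hi))
        (fun i hi j hj => hA i (Finset.mem_insert_of_mem hi) j (Finset.mem_insert_of_mem hj))]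
    · rw [Set.disjoint_iUnion₂_right]
      intro i hi
      exact hA a (Finset.mem_insert_self _ _) i (Finset.mem_insert_of_mem hi)
        (fun h => ha (h ▸ hi))
    · exact hE a (Finset.mem_insert_self _ _)
    · exact Finset.measurableSet_biInter _ fun i hi => hE i (Finset.mem_insert_of_mem hi)
    · exact hEA a (Finset.mem_insert_self _ _)
    · intro ω ω' h
      simp only [Set.mem_iInter, eq_iff_iff]
      refine forall₂_congr fun i hi => ?_
      have := hEA i (Finset.mem_insert_of_mem hi) ω ω' fun x hx =>
        h x (Set.mem_iUnion₂.2 ⟨i, hi, hx⟩)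
      simp only [eq_iff_iff] at this
      exact this

end Pool.Agent.H22.LPP
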