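import Pool.Agent.H99.NS.Defs

/-!
# Basic facts on the last passage times `T`

Deterministic facts: the supremum is attained, superadditivity, decomposition at a level,
dependence on the weights, comparison with the quadrant recursion, symmetries.
-/

open MeasureTheory ProbabilityTheory
open Pool.Agent.H99.NS

namespace Pool.Agent.H22.LPP

/-- `γ` is a path from `u` to `v`. -/
def Conn (u v : Site) (γ : ℤ → ℤ) : Prop :=
  IsPath u.1 v.1 γ ∧ γ u.1 = u.2 ∧ γ v.1 = v.2

/-- The sites whose weights are used by `T ω u v`. -/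
def dom (u v : Site) : Set Site := {x | u.1 < x.1 ∧ Reach u x ∧ Reach x v}

theorem reach_le {u v : Site} (h : Reach u v) : u.1 ≤ v.1 := by
  have := h.1
  have h2 := abs_nonneg (v.2 - u.2)
  linarith

theorem reach_refl (u : Site) : Reach u u := by
  refine ⟨by simp, by simp⟩

theorem reach_trans {u v w : Site} (h : Reach u v) (h' : Reach v w) : Reach u w := by
  refine ⟨?_, ?_⟩
  · have h1 := h.1
    have h2 := h'.1
    have h3 : |w.2 - u.2| ≤ |w.2 - v.2| + |v.2 - u.2| := abs_sub_le _ _ _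
    linarith
  · have h1 := h.2
    have h2 := h'.2
    have : (w.1 - u.1) + (w.2 - u.2) = ((v.1 - u.1) + (v.2 - u.2)) + ((w.1 - v.1) + (w.2 - v.2)) := by
      ring
    rw [this]
    exact h1.add h2

theorem path_lip {s t : ℤ} {γ : ℤ → ℤ} (h : IsPath s t γ) {a b : ℤ} (ha : s ≤ a) (hab : a ≤ b)
    (hb : b ≤ t) : |γ b - γ a| ≤ b - a ∧ Even ((b - a) + (γ b - γ a)) := by
  induction b, hab using Int.leInduction with
  | base => simp
  | succ b hab ih =>
    obtain ⟨h1, h2⟩ := ih (by omega)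
    rcases h b (by omega) (by omega) with h3 | h3
    · constructor
      · rw [abs_le] at *
        constructor <;> omega
      · obtain ⟨k, hk⟩ := h2
        exact ⟨k + 1, by omega⟩
    · constructor
      · rw [abs_le] at *
        constructor <;> omega
      · obtain ⟨k, hk⟩ := h2
        exact ⟨k, by omega⟩

theorem Conn.reach {u v : Site} {γ : ℤ → ℤ} (h : Conn u v γ) (huv : u.1 ≤ v.1) : Reach u v := by
  have := path_lip h.1 le_rfl huv le_rfl
  rw [h.2.1, h.2.2] at this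
  exact this

theorem Conn.reach_mid {u v : Site} {γ : ℤ → ℤ} (h : Conn u v γ) {a b : ℤ} (ha : u.1 ≤ a)
    (hab : a ≤ b) (hb : b ≤ v.1) : Reach (a, γ a) (b, γ b) :=
  path_lip h.1 ha hab hb

theorem exists_conn {u v : Site} (h : Reach u v) : ∃ γ, Conn u v γ := by
  obtain ⟨h1, k, hk⟩ := h
  rw [abs_le] at h1
  refine ⟨fun r => u.2 + min (r - u.1) (2 * k - (r - u.1)), ?_, ?_, ?_⟩
  · intro r hr1 hr2
    simp only
    omega
  · simp only
    omega
  · simp only
    omega

theorem T_def (ω : Env) (u v : Site) :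
    T ω u v = sSup {x | ∃ γ, Conn u v γ ∧ x = wt ω u.1 v.1 γ} := by
  unfold T Conn
  congr 1
  ext x
  simp only [Set.mem_ofPred_eq, and_assoc]

theorem wt_nonneg (ω : Env) (s t : ℤ) (γ : ℤ → ℤ) : 0 ≤ wt ω s t γ :=
  Finset.sum_nonneg fun _ _ => Nat.cast_nonneg _

theorem wt_nat (ω : Env) (s t : ℤ) (γ : ℤ → ℤ) :
    wt ω s t γ = ((∑ r ∈ Finset.Ioc s t, ω (r, γ r) : ℕ) : ℝ) := by
  unfold wt
  push_cast
  rfl

/-- The total weight of the cone, an upper bound for all paths. -/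
noncomputable def coneW (ω : Env) (u v : Site) : ℕ :=
  ∑ r ∈ Finset.Ioc u.1 v.1, ∑ y ∈ Finset.Icc (u.2 - (r - u.1)) (u.2 + (r - u.1)), ω (r, y)

theorem wt_le_coneW (ω : Env) {u v : Site} {γ : ℤ → ℤ} (h : Conn u v γ) :
    ∑ r ∈ Finset.Ioc u.1 v.1, ω (r, γ r) ≤ coneW ω u v := by
  unfold coneW
  refine Finset.sum_le_sum fun r hr => ?_
  rw [Finset.mem_Ioc] at hr
  have h1 := path_lip h.1 le_rfl hr.1.le hr.2
  rw [h.2.1, abs_le] at h1
  refine Finset.single_le_sum (f := fun y => ω (r, y)) (fun _ _ => Nat.zero_le _) ?_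
  rw [Finset.mem_Icc]
  constructor <;> omega

theorem T_attained (ω : Env) {u v : Site} (h : Reach u v) :
    ∃ γ, Conn u v γ ∧ T ω u v = wt ω u.1 v.1 γ ∧
      ∀ γ', Conn u v γ' → wt ω u.1 v.1 γ' ≤ wt ω u.1 v.1 γ := by
  classical
  obtain ⟨γ0, hγ0⟩ := exists_conn h
  -- the set of values in `ℕ`
  let S : Set ℕ := {n | ∃ γ, Conn u v γ ∧ n = ∑ r ∈ Finset.Ioc u.1 v.1, ω (r, γ r)}
  have hS : S.Nonempty := ⟨_, γ0, hγ0, rfl⟩
  have hB : BddAbove S := by
    refine ⟨coneW ω u v, ?_⟩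
    rintro n ⟨γ, hγ, rfl⟩
    exact wt_le_coneW ω hγ
  obtain ⟨γ, hγ, hγe⟩ := Nat.sSup_mem hS hB
  have hmax : ∀ γ', Conn u v γ' → wt ω u.1 v.1 γ' ≤ wt ω u.1 v.1 γ := by
    intro γ' hγ'
    rw [wt_nat, wt_nat, ← hγe]
    exact_mod_cast le_csSup hB ⟨γ', hγ', rfl⟩
  refine ⟨γ, hγ, ?_, hmax⟩
  rw [T_def]
  apply le_antisymm
  · refine csSup_le ⟨_, γ, hγ, rfl⟩ ?_
    rintro x ⟨γ', hγ', rfl⟩
    exact hmax γ' hγ'
  · refine le_csSup ⟨wt ω u.1 v.1 γ, ?_⟩ ⟨γ, hγ, rfl⟩
    rintro x ⟨γ', hγ', rfl⟩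
    exact hmax γ' hγ'

theorem le_T (ω : Env) {u v : Site} {γ : ℤ → ℤ} (huv : u.1 ≤ v.1) (h : Conn u v γ) :
    wt ω u.1 v.1 γ ≤ T ω u v := by
  obtain ⟨γ', _, h2, h3⟩ := T_attained ω (h.reach huv)
  rw [h2]
  exact h3 γ h

theorem T_le (ω : Env) {u v : Site} (h : Reach u v) {C : ℝ}
    (hC : ∀ γ, Conn u v γ → wt ω u.1 v.1 γ ≤ C) : T ω u v ≤ C := by
  obtain ⟨γ', h1, h2, _⟩ := T_attained ω h
  rw [h2]
  exact hC _ h1

theorem T_nonneg (ω : Env) (u v : Site) : 0 ≤ T ω u v := by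
  rw [T_def]
  apply Real.sSup_nonneg
  rintro x ⟨γ, _, rfl⟩
  exact wt_nonneg _ _ _ _

theorem T_eq_zero_of_le (ω : Env) {u v : Site} (h : v.1 ≤ u.1) : T ω u v = 0 := by
  apply le_antisymm _ (T_nonneg _ _ _)
  rw [T_def]
  apply Real.sSup_le _ le_rfl
  rintro x ⟨γ, _, rfl⟩
  unfold wt
  rw [Finset.Ioc_eq_empty (by omega)]
  simp

theorem T_eq_zero_of_not_reach (ω : Env) {u v : Site} (h : ¬ Reach u v) : T ω u v = 0 := by
  rcases le_total v.1 u.1 with h1 | h1
  · exact T_eq_zero_of_le ω h1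
  · rw [T_def]
    have : {x | ∃ γ, Conn u v γ ∧ x = wt ω u.1 v.1 γ} = ∅ := by
      ext x
      simp only [Set.mem_ofPred_eq, Set.mem_empty_iff_false, iff_false]
      rintro ⟨γ, hγ, _⟩
      exact h (hγ.reach h1)
    rw [this]
    simp

@[simp] theorem T_self (ω : Env) (u : Site) : T ω u u = 0 := T_eq_zero_of_le ω le_rfl

/-- `T` is a natural number. -/
theorem T_nat (ω : Env) (u v : Site) : ∃ n : ℕ, T ω u v = n := by
  by_cases h : Reach u v
  · obtain ⟨γ, _, h2, _⟩ := T_attained ω h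
    exact ⟨_, by rw [h2, wt_nat]⟩
  · exact ⟨0, by rw [T_eq_zero_of_not_reach ω h]; simp⟩

theorem wt_congr {ω ω' : Env} {s t : ℤ} {γ γ' : ℤ → ℤ}
    (h : ∀ r, s < r → r ≤ t → ω (r, γ r) = ω' (r, γ' r)) : wt ω s t γ = wt ω' s t γ' := by
  unfold wt
  refine Finset.sum_congr rfl fun r hr => ?_
  rw [Finset.mem_Ioc] at hr
  rw [h r hr.1 hr.2]

theorem wt_add (ω : Env) {s m t : ℤ} (h1 : s ≤ m) (h2 : m ≤ t) (γ : ℤ → ℤ) :
    wt ω s t γ = wt ω s m γ + wt ω m t γ := by
  unfold wt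
  rw [← Finset.sum_union]
  · congr 1
    ext r
    simp only [Finset.mem_Ioc, Finset.mem_union]
    omega
  · rw [Finset.disjoint_left]
    intro r hr hr'
    rw [Finset.mem_Ioc] at hr hr'
    omega

/-- Concatenation of paths. -/
theorem conn_concat {u v w : Site} {γ γ' : ℤ → ℤ} (huv : u.1 ≤ v.1) (hvw : v.1 ≤ w.1)
    (h : Conn u v γ) (h' : Conn v w γ') :
    Conn u w (fun r => if r ≤ v.1 then γ r else γ' r) := by
  obtain ⟨h1, h2, h3⟩ := h
  obtain ⟨h1', h2', h3'⟩ := h'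
  refine ⟨?_, ?_, ?_⟩
  · intro r hr1 hr2
    simp only
    rcases lt_trichotomy r v.1 with h4 | h4 | h4
    · rw [if_pos (by omega), if_pos (by omega)]
      exact h1 r hr1 h4
    · rw [if_neg (by omega), if_pos (by omega), h4, h3, ← h2']
      exact h1' v.1 le_rfl (by omega)
    · rw [if_neg (by omega), if_neg (by omega)]
      exact h1' r (by omega) hr2
  · simp only
    rw [if_pos huv, h2]
  · simp only
    rcases eq_or_lt_of_le hvw with h4 | h4
    · rw [if_pos (by omega), ← h4, h3, ← h2', h4, h3']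
    · rw [if_neg (by omega), h3']

/-- B2: superadditivity. -/
theorem T_superadd (ω : Env) {u v w : Site} (h : Reach u v) (h' : Reach v w) :
    T ω u v + T ω v w ≤ T ω u w := by
  obtain ⟨γ, h1, h2, _⟩ := T_attained ω h
  obtain ⟨γ', h1', h2', _⟩ := T_attained ω h'
  have h3 := conn_concat (reach_le h) (reach_le h') h1 h1'
  have h4 := le_T ω ((reach_le h).trans (reach_le h')) h3
  rw [wt_add ω (reach_le h) (reach_le h')] at h4
  rw [h2, h2']
  refine le_trans (le_of_eq ?_) h4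
  congr 1
  · apply wt_congr
    intro r _ hr
    rw [if_pos hr]
  · apply wt_congr
    intro r hr _
    rw [if_neg (by omega)]

theorem Conn.restrict {u w : Site} {γ : ℤ → ℤ} (h : Conn u w γ) {s t : ℤ} (h1 : u.1 ≤ s)
    (h2 : t ≤ w.1) : Conn (s, γ s) (t, γ t) γ :=
  ⟨fun r hr1 hr2 => h.1 r (by simp only at hr1; omega) (by simp only at hr2; omega), rfl, rfl⟩

theorem Conn.left {u w : Site} {γ : ℤ → ℤ} (h : Conn u w γ) {t : ℤ}
    (h2 : t ≤ w.1) : Conn u (t, γ t) γ :=
  ⟨fun r hr1 hr2 => h.1 r (by omega) (by simp only at hr2; omega), h.2.1, rfl⟩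

theorem Conn.right {u w : Site} {γ : ℤ → ℤ} (h : Conn u w γ) {s : ℤ} (h1 : u.1 ≤ s) :
    Conn (s, γ s) w γ :=
  ⟨fun r hr1 hr2 => h.1 r (by simp only at hr1; omega) (by omega), rfl, h.2.2⟩

/-- B2: decomposition at a level. -/
theorem T_mid (ω : Env) {u w : Site} (h : Reach u w) {s : ℤ} (h1 : u.1 ≤ s) (h2 : s ≤ w.1) :
    ∃ y, Reach u (s, y) ∧ Reach (s, y) w ∧ T ω u w = T ω u (s, y) + T ω (s, y) w := by
  obtain ⟨γ, h3, h4, _⟩ := T_attained ω h
  have h5 : Reach u (s, γ s) := (h3.left h2).reach h1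
  have h6 : Reach (s, γ s) w := (h3.right h1).reach h2
  refine ⟨γ s, h5, h6, le_antisymm ?_ (T_superadd ω h5 h6)⟩
  rw [h4, wt_add ω h1 h2]
  exact add_le_add (le_T ω h1 (h3.left h2)) (le_T ω h2 (h3.right h1))

/-- One step. -/
theorem T_one (ω : Env) {t y y' : ℤ} (h : y' - y = 1 ∨ y' - y = -1) :
    T ω (t, y) (t + 1, y') = ω (t + 1, y') := by
  have hr : Reach (t, y) (t + 1, y') := by
    refine ⟨?_, ?_⟩
    · simp only
      rcases h with h | h <;> rw [h] <;> simp
    · simp only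
      rcases h with h | h
      · exact ⟨1, by omega⟩
      · exact ⟨0, by omega⟩
  obtain ⟨γ, h1, h2, _⟩ := T_attained ω hr
  rw [h2]
  unfold wt
  simp only
  have : Finset.Ioc t (t + 1) = {t + 1} := by
    ext r
    simp only [Finset.mem_Ioc, Finset.mem_singleton]
    omega
  rw [this, Finset.sum_singleton, h1.2.2]

/-- Dependence on the weights in `dom`. -/
theorem T_congr {ω ω' : Env} {u v : Site} (h : ∀ x ∈ dom u v, ω x = ω' x) :
    T ω u v = T ω' u v := by
  by_cases hr : Reach u v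
  · have key : ∀ γ, Conn u v γ → wt ω u.1 v.1 γ = wt ω' u.1 v.1 γ := by
      intro γ hγ
      apply wt_congr
      intro r hr1 hr2
      exact h _ ⟨hr1, (hγ.left hr2).reach hr1.le, (hγ.right hr1.le).reach hr2⟩
    apply le_antisymm
    · refine T_le ω hr fun γ hγ => ?_
      rw [key γ hγ]
      exact le_T ω' (reach_le hr) hγ
    · refine T_le ω' hr fun γ hγ => ?_
      rw [← key γ hγ]
      exact le_T ω (reach_le hr) hγ
  · rw [T_eq_zero_of_not_reach _ hr, T_eq_zero_of_not_reach _ hr]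

/-- Dependence on the weights in the slab `(s, t]`. -/
theorem T_congr_slab {ω ω' : Env} {u v : Site} (h : ∀ x : Site, u.1 < x.1 → x.1 ≤ v.1 → ω x = ω' x) :
    T ω u v = T ω' u v := by
  apply T_congr
  rintro x ⟨h1, _, h3⟩
  exact h x h1 (reach_le h3)

theorem dom_finite (u v : Site) : (dom u v).Finite := by
  refine Set.Finite.subset
    (Finset.finite_toSet (Finset.Icc (u.1, u.2 - (v.1 - u.1)) (v.1, u.2 + (v.1 - u.1)))) ?_
  rintro x ⟨h1, h2, h3⟩
  have h4 := h2.1
  have h5 := reach_le h3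
  rw [abs_le] at h4
  rw [Finset.coe_Icc, Set.mem_Icc, Prod.le_def, Prod.le_def]
  simp only
  refine ⟨⟨h1.le, by omega⟩, h5, by omega⟩

/-- Monotonicity in the weights. -/
theorem T_mono {ω ω' : Env} {u v : Site} (h : ∀ x ∈ dom u v, ω x ≤ ω' x) :
    T ω u v ≤ T ω' u v := by
  by_cases hr : Reach u v
  · refine T_le ω hr fun γ hγ => le_trans ?_ (le_T ω' (reach_le hr) hγ)
    unfold wt
    refine Finset.sum_le_sum fun r hr => ?_
    rw [Finset.mem_Ioc] at hr
    exact_mod_cast h _ ⟨hr.1, (hγ.left hr.2).reach hr.1.le, (hγ.right hr.1.le).reach hr.2⟩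
  · rw [T_eq_zero_of_not_reach _ hr, T_eq_zero_of_not_reach _ hr]

/-! ### Quadrant coordinates -/

theorem reach_qs (u : Site) (a b : ℕ) : Reach u (qs u a b) := by
  unfold qs
  refine ⟨?_, ?_⟩
  · simp only
    rw [abs_le]
    constructor <;> omega
  · simp only
    exact ⟨a, by ring⟩

theorem exists_qs {u v : Site} (h : Reach u v) : ∃ a b : ℕ, v = qs u a b ∧
    (v.1 - u.1 = a + b) ∧ (v.2 - u.2 = a - b) := by
  obtain ⟨h1, k, hk⟩ := h
  rw [abs_le] at h1
  refine ⟨k.toNat, (v.1 - u.1 - k).toNat, ?_, ?_, ?_⟩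
  · unfold qs
    apply Prod.ext
    · simp only
      rw [Int.toNat_of_nonneg (by omega), Int.toNat_of_nonneg (by omega)]
      ring
    · simp only
      rw [Int.toNat_of_nonneg (by omega), Int.toNat_of_nonneg (by omega)]
      omega
  · rw [Int.toNat_of_nonneg (by omega), Int.toNat_of_nonneg (by omega)]
    omega
  · rw [Int.toNat_of_nonneg (by omega), Int.toNat_of_nonneg (by omega)]
    omega

/-- One step to the right. -/
theorem qs_succ_left (u : Site) (a b : ℕ) :
    qs u (a + 1) b = ((qs u a b).1 + 1, (qs u a b).2 + 1) := by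
  unfold qs
  apply Prod.ext
  · simp only; push_cast; ring
  · simp only; push_cast; ring

/-- One step to the left. -/
theorem qs_succ_right (u : Site) (a b : ℕ) :
    qs u a (b + 1) = ((qs u a b).1 + 1, (qs u a b).2 - 1) := by
  unfold qs
  apply Prod.ext
  · simp only; push_cast; ring
  · simp only; push_cast; ring

theorem T_step_left (ω : Env) (u : Site) (a b : ℕ) :
    T ω u (qs u a b) + ω (qs u (a + 1) b) ≤ T ω u (qs u (a + 1) b) := by
  have h1 : T ω (qs u a b) (qs u (a + 1) b) = ω (qs u (a + 1) b) := by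
    rw [qs_succ_left]
    exact T_one ω (t := (qs u a b).1) (y := (qs u a b).2) (Or.inl (by ring))
  rw [← h1]
  refine T_superadd ω (reach_qs u a b) ?_
  rw [qs_succ_left]
  refine ⟨by simp, ⟨1, by simp⟩⟩

theorem T_step_right (ω : Env) (u : Site) (a b : ℕ) :
    T ω u (qs u a b) + ω (qs u a (b + 1)) ≤ T ω u (qs u a (b + 1)) := by
  have h1 : T ω (qs u a b) (qs u a (b + 1)) = ω (qs u a (b + 1)) := by
    rw [qs_succ_right]
    exact T_one ω (t := (qs u a b).1) (y := (qs u a b).2) (Or.inr (by ring))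
  rw [← h1]
  refine T_superadd ω (reach_qs u a b) ?_
  rw [qs_succ_right]
  refine ⟨by simp, ⟨0, by simp⟩⟩

/-- Last step of a path to a point at time at least one. -/
theorem T_last (ω : Env) (u : Site) (a b : ℕ) (h : 0 < a + b) :
    (∃ a', a = a' + 1 ∧ T ω u (qs u a b) = T ω u (qs u a' b) + ω (qs u a b)) ∨
    (∃ b', b = b' + 1 ∧ T ω u (qs u a b) = T ω u (qs u a b') + ω (qs u a b)) := by
  have hr := reach_qs u a b
  obtain ⟨y, h1, h2, h3⟩ := T_mid ω hr (s := (qs u a b).1 - 1)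
    (by unfold qs; simp only; omega) (by omega)
  have h2' := h2
  obtain ⟨h4, k, hk⟩ := h2
  obtain ⟨h5, l, hl⟩ := h1
  simp only at h4 hk h5 hl
  have e1 : (qs u a b).1 = u.1 + a + b := rfl
  have e2 : (qs u a b).2 = u.2 + a - b := rfl
  rw [abs_le] at h4 h5
  have hcase : (qs u a b).2 - y = 1 ∨ (qs u a b).2 - y = -1 := by omega
  have h6 : T ω ((qs u a b).1 - 1, y) (qs u a b) = ω (qs u a b) := by
    have := T_one ω (t := (qs u a b).1 - 1) (y := y) (y' := (qs u a b).2) hcase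
    rw [sub_add_cancel] at this
    exact this
  rw [h6] at h3
  rcases hcase with hc | hc
  · left
    have ha : 0 < a := by omega
    obtain ⟨a', rfl⟩ : ∃ a', a = a' + 1 := ⟨a - 1, by omega⟩
    refine ⟨a', rfl, ?_⟩
    have : ((qs u (a' + 1) b).1 - 1, y) = qs u a' b := by
      rw [qs_succ_left] at hc ⊢
      apply Prod.ext
      · simp
      · simp only at hc ⊢; omega
    rw [this] at h3
    exact h3
  · right
    have hb : 0 < b := by omega
    obtain ⟨b', rfl⟩ : ∃ b', b = b' + 1 := ⟨b - 1, by omega⟩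
    refine ⟨b', rfl, ?_⟩
    have : ((qs u a (b' + 1)).1 - 1, y) = qs u a b' := by
      rw [qs_succ_right] at hc ⊢
      apply Prod.ext
      · simp
      · simp only at hc ⊢; omega
    rw [this] at h3
    exact h3

/-- B1: the passage time in quadrant coordinates. -/
theorem T_eq_Tq (ω : Env) (u : Site) (a b : ℕ) : T ω u (qs u a b) = Tq ω u a b := by
  unfold Tq
  induction a, b using Gq.induct with
  | case1 =>
    have : qs u 0 0 = u := by unfold qs; simp
    rw [this, T_self]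
    simp [Gq]
  | case2 i ih =>
    rw [Gq, Nat.cast_add, ← ih]
    have h1 := T_step_left ω u i 0
    simp only [Nat.add_eq_zero_iff, one_ne_zero, and_false, and_true, if_false]
    rcases T_last ω u (i + 1) 0 (by omega) with ⟨a', ha, h2⟩ | ⟨b', hb, h2⟩
    · obtain rfl : i = a' := by omega
      exact h2
    · omega
  | case3 j ih =>
    rw [Gq, Nat.cast_add, ← ih]
    simp only [Nat.add_eq_zero_iff, one_ne_zero, and_false, if_false]
    rcases T_last ω u 0 (j + 1) (by omega) with ⟨a', ha, h2⟩ | ⟨b', hb, h2⟩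
    · omega
    · obtain rfl : j = b' := by omega
      exact h2
  | case4 i j ih1 ih2 =>
    rw [Gq, Nat.cast_add, Nat.cast_max, ← ih1, ← ih2]
    simp only [Nat.add_eq_zero_iff, one_ne_zero, and_false, if_false]
    have h1 := T_step_left ω u i (j + 1)
    have h2 := T_step_right ω u (i + 1) j
    apply le_antisymm
    · rcases T_last ω u (i + 1) (j + 1) (by omega) with ⟨a', ha, h3⟩ | ⟨b', hb, h3⟩
      · obtain rfl : i = a' := by omega
        rw [h3]
        gcongr
        exact le_max_left _ _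
      · obtain rfl : j = b' := by omega
        rw [h3]
        gcongr
        exact le_max_right _ _
    · rcases max_cases (T ω u (qs u i (j + 1))) (T ω u (qs u (i + 1) j)) with ⟨h3, _⟩ | ⟨h3, _⟩
      · rw [h3]; exact h1
      · rw [h3]; exact h2

end Pool.Agent.H22.LPP
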