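import Pool.Agent.H22.LPP.TargetsB

/-!
# Definitions of the all pairs lower bound
-/

open MeasureTheory ProbabilityTheory
open Pool.Agent.H99.NS

namespace Pool.Agent.H22.LPP

/-- The weight of the pair. -/
noncomputable def wg (L : ℝ) (b u v : Site) (lam : ℝ) : ℝ :=
  ((1 + |dx u v - lam * dt u v| / dt u v ^ (2 / 3 : ℝ)) *
    (1 + (|dx b u - lam * dt b u| + |dx u v - lam * dt u v|) / L ^ (2 / 3 : ℝ))) ^ (1 / 2 : ℝ)

/-- The sites near the segment from `u` to `v` are in the region. -/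
def NearIn (Reg : Set Site) (u v : Site) : Prop :=
  ∀ g : Site, u.1 ≤ g.1 → g.1 ≤ v.1 →
    |dx u g - dx u v / dt u v * dt u g| ≤ 2 * dt u v ^ (2 / 3 : ℝ) → g ∈ Reg

/-- The pairs considered in the all pairs lower bound. -/
def AliPair (Reg : Set Site) (L : ℝ) (b u v : Site) : Prop :=
  b.1 ≤ u.1 ∧ u.1 < v.1 ∧ dt b v ≤ L ∧ Reach u v ∧ |dx u v| ≤ dt u v ^ (3 / 4 : ℝ) / 8 + 2 ∧
    |dx b u| ≤ 8 * L ∧ NearIn Reg u v

theorem one_le_wg (L : ℝ) (b u v : Site) (lam : ℝ) (hL : 0 ≤ L) (h : 0 ≤ dt u v) :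
    1 ≤ wg L b u v lam := by
  unfold wg
  apply Real.one_le_rpow _ (by norm_num)
  have e1 : 0 ≤ |dx u v - lam * dt u v| / dt u v ^ (2 / 3 : ℝ) := by positivity
  have e2 : 0 ≤ (|dx b u - lam * dt b u| + |dx u v - lam * dt u v|) / L ^ (2 / 3 : ℝ) := by
    positivity
  exact one_le_mul_of_one_le_of_one_le (by linarith) (by linarith)

end Pool.Agent.H22.LPP
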