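import Pool.Agent.H22.LPP.Chain
import Pool.Agent.H22.LPP.AliDef

/-!
# All pairs lower bound (B_ALI)
-/

open MeasureTheory ProbabilityTheory
open Pool.Agent.H99.NS

namespace Pool.Agent.H22.LPP

/-- The data of a pair of sites of even parity in the slab. -/
structure PairData (Reg : Set Site) (L : ℝ) (b u v : Site) (s : ℝ) : Prop where
  hReg : ∀ g : Site, u.1 ≤ g.1 → g.1 ≤ v.1 →
    |dx u g - s * dt u g| ≤ 2 * dt u v ^ (2 / 3 : ℝ) → g ∈ Reg
  hL : 1 ≤ L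
  hbu : b.1 ≤ u.1
  hvL : dt b v ≤ L
  heu : Even (u.1 + u.2)
  hr : Reach u v
  hs : dx u v = s * dt u v
  hs4 : |s| * dt u v ^ (1 / 4 : ℝ) ≤ 1 / 4
  hbx : |dx b u| ≤ 8 * L
  hτ : 16 * (2 : ℝ) ^ 32 ≤ dt u v

theorem PairData.s_le {Reg : Set Site} {L : ℝ} {b u v : Site} {s : ℝ}
    (h : PairData Reg L b u v s) :
    |s| ≤ 1 / 4 := by
  have h1 := h.hs4
  have h2 : (1 : ℝ) ≤ dt u v ^ (1 / 4 : ℝ) := by
    apply Real.one_le_rpow _ (by norm_num)
    have := h.hτ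
    linarith [show (1 : ℝ) ≤ 16 * (2 : ℝ) ^ 32 by norm_num]
  have h3 := abs_nonneg s
  nlinarith

/-- One step between two grid points near the segment. -/
theorem pair_step {Ω : Type*} {X : Ω → Site → Site → ℝ} {Reg : Set Site} {q : ℝ} (hq : q < 1)
    {L : ℝ} {b u v : Site} {s lam Y : ℝ}
    (hp : PairData Reg L b u v s) (hY : 0 ≤ Y) {ω : Ω} (hω : GridGood X Reg q L b lam Y ω) {j : ℕ}
    (hj : 32 ≤ j) (hjτ : (2 : ℝ) ^ j ≤ dt u v) {g g' : Site} {a β m n : ℤ} (hg : g = gp j a β)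
    (hg' : g' = gp j (a + m) (β + n)) (hm1 : 1 ≤ m) (hm2 : m ≤ 32) (hug : u.1 ≤ g.1)
    (hgv : g'.1 ≤ v.1)
    (hn : |dx u g - s * dt u g| ≤ 2 * ((2 : ℝ) ^ j) ^ (2 / 3 : ℝ))
    (hn' : |dx u g' - s * dt u g'| ≤ 2 * ((2 : ℝ) ^ j) ^ (2 / 3 : ℝ))
    (hd : |dx g g' - s * dt g g'| ≤ 3 * ((2 : ℝ) ^ j) ^ (2 / 3 : ℝ)) :
    Reach g g' ∧
      lin q s g g' - (5 * sg q + 40 * (Y * wg L b u v lam)) * ((2 : ℝ) ^ j * L) ^ (1 / 6 : ℝ) ≤
      X ω g g' := by
  obtain ⟨hReg, hL, hbu, hvL, heu, hr, hs, hs4, hbx, hτ⟩ := hp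
  set r : ℝ := (2 : ℝ) ^ j with hrdef
  have hr1 : 1 ≤ r := one_le_pow₀ (by norm_num)
  have hr0 : 0 < r := by linarith
  set τ : ℝ := dt u v with hτdef
  have hτ0 : 0 < τ := by linarith
  have hτL : τ ≤ L := by
    have h1 := dt_add b u v
    have h2 := dt_nonneg hbu
    linarith
  have hrL : r ≤ L := by linarith
  have hL0 : 0 < L := by linarith
  have hm1' : (1 : ℝ) ≤ m := by exact_mod_cast hm1
  have hm2' : (m : ℝ) ≤ 32 := by exact_mod_cast hm2
  have hdt : dt g g' = m * r := by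
    rw [hg, hg', hrdef]; unfold dt gp; push_cast; ring
  have hdt1 : r ≤ dt g g' := by rw [hdt]; nlinarith
  have hdt2 : dt g g' ≤ 32 * r := by rw [hdt]; nlinarith
  have hdt0 : 0 < dt g g' := by linarith
  have hgg : g.1 ≤ g'.1 := by
    have : (0 : ℝ) < dt g g' := hdt0
    unfold dt at this
    have := Int.cast_pos.1 this
    omega
  have hug0 : 0 ≤ dt u g := dt_nonneg hug
  have hgv0 : 0 ≤ dt g' v := dt_nonneg hgv
  have hsum : dt u g + dt g g' + dt g' v = τ := by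
    rw [hτdef, ← dt_add u g v, ← dt_add g g' v]; ring
  have hdtτ : dt g g' ≤ τ := by linarith
  have hugτ : dt u g ≤ τ := by linarith
  have hs0 := abs_nonneg s
  have hs1 : |s| ≤ 1 := by
    have h2 : (1 : ℝ) ≤ τ ^ (1 / 4 : ℝ) := by
      apply Real.one_le_rpow _ (by norm_num)
      linarith [show (1 : ℝ) ≤ 16 * (2 : ℝ) ^ 32 by norm_num]
    nlinarith
  have hrr0 : 0 < r ^ (2 / 3 : ℝ) := Real.rpow_pos_of_pos hr0 _
  have hrr1 : r ^ (2 / 3 : ℝ) ≤ r := by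
    calc r ^ (2 / 3 : ℝ) ≤ r ^ (1 : ℝ) := Real.rpow_le_rpow_of_exponent_le hr1 (by norm_num)
      _ = r := Real.rpow_one _
  have hLL0 : 0 < L ^ (2 / 3 : ℝ) := Real.rpow_pos_of_pos hL0 _
  -- slope condition
  have hslope : |s| * dt g g' ≤ dt g g' ^ (3 / 4 : ℝ) / 4 := by
    have h1 : dt g g' ^ (1 / 4 : ℝ) ≤ τ ^ (1 / 4 : ℝ) :=
      Real.rpow_le_rpow hdt0.le hdtτ (by norm_num)
    have h2 : dt g g' = dt g g' ^ (3 / 4 : ℝ) * dt g g' ^ (1 / 4 : ℝ) := by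
      rw [← Real.rpow_add hdt0]; norm_num
    have h3 : 0 ≤ dt g g' ^ (3 / 4 : ℝ) := by positivity
    have h4 : |s| * dt g g' ^ (1 / 4 : ℝ) ≤ 1 / 4 := by
      calc |s| * dt g g' ^ (1 / 4 : ℝ) ≤ |s| * τ ^ (1 / 4 : ℝ) := by gcongr
        _ ≤ _ := hs4
    calc |s| * dt g g' = dt g g' ^ (3 / 4 : ℝ) * (|s| * dt g g' ^ (1 / 4 : ℝ)) := by
          nth_rewrite 1 [h2]; ring
      _ ≤ dt g g' ^ (3 / 4 : ℝ) * (1 / 4) := by gcongr
      _ = _ := by ring
  -- deviations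
  have hdev0 : |dx u v - lam * τ| = |s - lam| * τ := by
    rw [hs, ← sub_mul, abs_mul, abs_of_pos hτ0]
  set dev : ℝ := |dx u v - lam * τ| with hdevdef
  set dist : ℝ := |dx b u - lam * dt b u| with hdist
  have hdevn : 0 ≤ dev := abs_nonneg _
  have hdistn : 0 ≤ dist := abs_nonneg _
  set k : ℝ := dev / τ ^ (2 / 3 : ℝ) with hk
  set D : ℝ := (dist + dev) / L ^ (2 / 3 : ℝ) with hD
  have hττ0 : 0 < τ ^ (2 / 3 : ℝ) := Real.rpow_pos_of_pos hτ0 _
  have hk0 : 0 ≤ k := by positivity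
  have hD0 : 0 ≤ D := by positivity
  have hwg : wg L b u v lam = ((1 + k) * (1 + D)) ^ (1 / 2 : ℝ) := rfl
  have hM : Wt L b lam j g g' ≤ 10 * wg L b u v lam := by
    have h1 : |dx g g' - lam * dt g g'| / r ^ (2 / 3 : ℝ) ≤ 3 + 32 * k := by
      rw [div_le_iff₀ hrr0]
      have h2 : |dx g g' - lam * dt g g'| ≤ |dx g g' - s * dt g g'| + |s - lam| * dt g g' := by
        have : dx g g' - lam * dt g g' = (dx g g' - s * dt g g') + (s - lam) * dt g g' := by ring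
        rw [this]
        refine (abs_add_le _ _).trans ?_
        rw [abs_mul, abs_of_pos hdt0]
      have h3 : |s - lam| * dt g g' ≤ 32 * k * r ^ (2 / 3 : ℝ) := by
        have h4 : |s - lam| = k * τ ^ (2 / 3 : ℝ) / τ := by
          rw [hk, div_mul_cancel₀ _ hττ0.ne', hdev0]
          field_simp
        have h5 : τ ^ (2 / 3 : ℝ) / τ * r ≤ r ^ (2 / 3 : ℝ) := by
          rw [div_mul_eq_mul_div, div_le_iff₀ hτ0]
          have e1 : τ = τ ^ (2 / 3 : ℝ) * τ ^ (1 / 3 : ℝ) := by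
            rw [← Real.rpow_add hτ0]; norm_num
          have e2 : r = r ^ (2 / 3 : ℝ) * r ^ (1 / 3 : ℝ) := by
            rw [← Real.rpow_add hr0]; norm_num
          have e3 : r ^ (1 / 3 : ℝ) ≤ τ ^ (1 / 3 : ℝ) :=
            Real.rpow_le_rpow hr0.le hjτ (by norm_num)
          calc τ ^ (2 / 3 : ℝ) * r = τ ^ (2 / 3 : ℝ) * r ^ (2 / 3 : ℝ) * r ^ (1 / 3 : ℝ) := by
                nth_rewrite 1 [e2]; ring
            _ ≤ τ ^ (2 / 3 : ℝ) * r ^ (2 / 3 : ℝ) * τ ^ (1 / 3 : ℝ) := by gcongr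
            _ = r ^ (2 / 3 : ℝ) * (τ ^ (2 / 3 : ℝ) * τ ^ (1 / 3 : ℝ)) := by ring
            _ = r ^ (2 / 3 : ℝ) * τ := by rw [← e1]
        calc |s - lam| * dt g g' ≤ |s - lam| * (32 * r) := by gcongr
          _ = 32 * k * (τ ^ (2 / 3 : ℝ) / τ * r) := by rw [h4]; ring
          _ ≤ _ := by gcongr
      linarith
    have h2 : |dx b g - lam * dt b g| / L ^ (2 / 3 : ℝ) ≤ D + 2 := by
      rw [hD, div_add' _ _ _ hLL0.ne']
      apply div_le_div_of_nonneg_right _ hLL0.le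
      have h3 : dx b g - lam * dt b g = (dx b u - lam * dt b u) + (dx u g - s * dt u g) +
          (s - lam) * dt u g := by
        rw [← dx_add b u g, ← dt_add b u g]; ring
      rw [h3]
      refine (abs_add_three _ _ _).trans ?_
      rw [abs_mul (s - lam), abs_of_nonneg hug0]
      have h4 : |s - lam| * dt u g ≤ |s - lam| * τ := by gcongr
      have h5 : r ^ (2 / 3 : ℝ) ≤ L ^ (2 / 3 : ℝ) := Real.rpow_le_rpow hr0.le hrL (by norm_num)
      rw [← hdev0] at h4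
      linarith
    have h3 : (1 + |dx g g' - lam * dt g g'| / r ^ (2 / 3 : ℝ)) *
        (1 + |dx b g - lam * dt b g| / L ^ (2 / 3 : ℝ)) ≤ 100 * ((1 + k) * (1 + D)) := by
      have h4 : 0 ≤ |dx b g - lam * dt b g| / L ^ (2 / 3 : ℝ) := by positivity
      have h5 : 0 ≤ |dx g g' - lam * dt g g'| / r ^ (2 / 3 : ℝ) := by positivity
      calc (1 + |dx g g' - lam * dt g g'| / r ^ (2 / 3 : ℝ)) *
          (1 + |dx b g - lam * dt b g| / L ^ (2 / 3 : ℝ))
          ≤ (1 + (3 + 32 * k)) * (1 + (D + 2)) := by gcongr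
        _ ≤ _ := by nlinarith [mul_nonneg hk0 hD0]
    calc Wt L b lam j g g' ≤ (100 * ((1 + k) * (1 + D))) ^ (1 / 2 : ℝ) := by
          unfold Wt
          apply Real.rpow_le_rpow (by positivity) h3 (by norm_num)
      _ = 10 * wg L b u v lam := by
          rw [hwg, Real.mul_rpow (by norm_num) (by positivity)]
          congr 1
          rw [show (100 : ℝ) = 10 ^ (2 : ℝ) by norm_num, ← Real.rpow_mul (by norm_num)]
          norm_num
  have hrτ : ((2 : ℝ) ^ j) ^ (2 / 3 : ℝ) ≤ dt u v ^ (2 / 3 : ℝ) :=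
    Real.rpow_le_rpow hr0.le hjτ (by norm_num)
  have hRg : g ∈ Reg := hReg g hug (hgg.trans hgv) (by linarith)
  have hRg' : g' ∈ Reg := hReg g' (hug.trans hgg) hgv (by linarith)
  have key := chain_step hq hY hω hj hrL hg hg' hm1 hm2 hRg hRg' (hbu.trans hug) ?_ ?_ hslope
    hd hM
  · refine ⟨key.1, le_trans (le_of_eq ?_) key.2⟩
    ring
  · have h1 : dt b g ≤ dt b v := by
      rw [← dt_add b g v, ← dt_add g g' v]
      linarith
    linarith
  · have h1 : dx b g = dx b u + ((dx u g - s * dt u g) + s * dt u g) := by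
      rw [← dx_add b u g]; ring
    rw [h1]
    refine (abs_add_le _ _).trans ?_
    have h2 : |(dx u g - s * dt u g) + s * dt u g| ≤ 2 * r ^ (2 / 3 : ℝ) + 1 * L := by
      refine (abs_add_le _ _).trans ?_
      rw [abs_mul, abs_of_nonneg hug0]
      have : |s| * dt u g ≤ 1 * L := by
        apply mul_le_mul hs1 (by linarith) hug0 (by norm_num)
      linarith
    linarith

/-- The constant of the base scale. -/
noncomputable def C0 (q : ℝ) : ℝ := (mu q + 4 * sg q) * 2 ^ 34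

theorem C0_nonneg {q : ℝ} (hq : q < 1) : 0 ≤ C0 q := by
  unfold C0
  have h1 := mu_nonneg hq
  have h2 := sg_nonneg hq
  positivity

/-- The base of the chains. -/
theorem base_step {q : ℝ} (hq : q < 1) {s : ℝ} (hs : |s| ≤ 1 / 4) {V : ℝ} (hV : 0 ≤ V)
    {g g' : Site}
    (h1 : (2 : ℝ) ^ 32 ≤ dt g g') (h2 : dt g g' ≤ 2 * (2 : ℝ) ^ 32)
    (h3 : |dx g g' - s * dt g g'| ≤ ((2 : ℝ) ^ 32) ^ (2 / 3 : ℝ))
    (he : Even ((g'.1 - g.1) + (g'.2 - g.2))) :
    Reach g g' ∧ lin q s g g' - C0 q ≤ V := by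
  have hmu := mu_nonneg hq
  have hsg := sg_nonneg hq
  set r : ℝ := (2 : ℝ) ^ 32 with hr
  have hr0 : 0 < r := by positivity
  have hr1 : 1 ≤ r := by rw [hr]; norm_num
  have h6 : 6 * r ^ (2 / 3 : ℝ) ≤ r := by
    calc 6 * r ^ (2 / 3 : ℝ) ≤ r ^ (1 / 12 : ℝ) * r ^ (2 / 3 : ℝ) := by
          gcongr; exact pow32
      _ = r ^ (3 / 4 : ℝ) := by rw [← Real.rpow_add hr0]; norm_num
      _ ≤ r ^ (1 : ℝ) := Real.rpow_le_rpow_of_exponent_le hr1 (by norm_num)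
      _ = r := Real.rpow_one _
  have hdt0 : 0 < dt g g' := by linarith
  have hdx : |dx g g'| ≤ dt g g' / 2 := by
    have e1 : |dx g g'| ≤ |dx g g' - s * dt g g'| + |s * dt g g'| := by
      calc |dx g g'| = |(dx g g' - s * dt g g') + s * dt g g'| := by rw [sub_add_cancel]
        _ ≤ _ := abs_add_le _ _
    rw [abs_mul, abs_of_pos hdt0] at e1
    nlinarith
  refine ⟨⟨?_, he⟩, ?_⟩
  · have : |dx g g'| ≤ dt g g' := by linarith
    unfold dx dt at this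
    exact_mod_cast this
  · refine le_trans ?_ hV
    unfold lin C0
    have e1 : s ^ 2 ≤ 1 := by
      rw [← sq_abs]; nlinarith [abs_nonneg s]
    have e2 : -(sg q * s * dx g g') ≤ sg q * (dt g g' / 2) := by
      have : -(s * dx g g') ≤ dt g g' / 2 := by
        have h7 : |s * dx g g'| ≤ 1 / 4 * (dt g g' / 2) := by
          rw [abs_mul]
          gcongr
        have := neg_abs_le (s * dx g g')
        linarith
      nlinarith
    have e3 : (mu q + sg q / 2 * s ^ 2) * dt g g' ≤ (mu q + sg q / 2 * 1) * (2 * r) := by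
      apply mul_le_mul _ h2 hdt0.le (by positivity)
      have := mul_le_mul_of_nonneg_left e1 (by linarith : 0 ≤ sg q / 2)
      linarith
    have e4 : (2 : ℝ) ^ 34 = 4 * r := by rw [hr]; norm_num
    have e5 : 0 ≤ mu q * r := by positivity
    have e6 : 0 ≤ sg q * r := by positivity
    have e7 : sg q * (dt g g' / 2) ≤ sg q * r := by
      apply mul_le_mul_of_nonneg_left _ hsg
      linarith
    rw [e4]
    nlinarith

theorem two_rpow_sixth : (10 / 9 : ℝ) ≤ (2 : ℝ) ^ (1 / 6 : ℝ) := by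
  calc (10 / 9 : ℝ) = ((10 / 9 : ℝ) ^ (6 : ℕ)) ^ (1 / 6 : ℝ) := by
        rw [← Real.rpow_natCast, ← Real.rpow_mul (by norm_num)]
        norm_num
    _ ≤ _ := Real.rpow_le_rpow (by norm_num) (by norm_num) (by norm_num)

theorem succ_sixth {L : ℝ} (hL : 0 < L) (J : ℕ) :
    10 * ((2 : ℝ) ^ J * L) ^ (1 / 6 : ℝ) ≤ 9 * ((2 : ℝ) ^ (J + 1) * L) ^ (1 / 6 : ℝ) := by
  have h1 : (2 : ℝ) ^ (J + 1) * L = 2 * ((2 : ℝ) ^ J * L) := by rw [pow_succ]; ring
  have h4 : (2 * ((2 : ℝ) ^ J * L)) ^ (1 / 6 : ℝ) =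
      (2 : ℝ) ^ (1 / 6 : ℝ) * ((2 : ℝ) ^ J * L) ^ (1 / 6 : ℝ) :=
    Real.mul_rpow (by norm_num) (by positivity)
  rw [h1, h4]
  have h2 := two_rpow_sixth
  have h3 : 0 ≤ ((2 : ℝ) ^ J * L) ^ (1 / 6 : ℝ) := by positivity
  nlinarith

theorem pow_succ_rpow_le (j : ℕ) :
    ((2 : ℝ) ^ (j + 1)) ^ (2 / 3 : ℝ) ≤ 2 * ((2 : ℝ) ^ j) ^ (2 / 3 : ℝ) := by
  rw [pow_succ, mul_comm, Real.mul_rpow (by norm_num) (by positivity)]
  have : (2 : ℝ) ^ (2 / 3 : ℝ) ≤ 2 := by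
    calc (2 : ℝ) ^ (2 / 3 : ℝ) ≤ (2 : ℝ) ^ (1 : ℝ) :=
          Real.rpow_le_rpow_of_exponent_le (by norm_num) (by norm_num)
      _ = 2 := Real.rpow_one _
  gcongr

/-- Nonnegative superadditive fields. -/
def Super (X : Site → Site → ℝ) : Prop :=
  (∀ u v, 0 ≤ X u v) ∧ ∀ u v w, Reach u v → Reach v w → X u v + X v w ≤ X u w

/-- The chain going up from `u`. -/
theorem chain_up {Ω : Type*} {X : Ω → Site → Site → ℝ} {Reg : Set Site} {q : ℝ} (hq : q < 1)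
    {L : ℝ} {b u v : Site} {s lam Y : ℝ}
    (hp : PairData Reg L b u v s) (hY : 0 ≤ Y) {ω : Ω} (hω : GridGood X Reg q L b lam Y ω)
    (hX : Super (X ω)) {J : ℕ}
    (hJ : 32 ≤ J) (hJτ : 2 * (2 : ℝ) ^ J ≤ dt u v) :
    Reach u (gl u s J (aU u.1 J)) ∧
      lin q s u (gl u s J (aU u.1 J)) - C0 q -
        9 * (5 * sg q + 40 * (Y * wg L b u v lam)) * ((2 : ℝ) ^ J * L) ^ (1 / 6 : ℝ) ≤
      X ω u (gl u s J (aU u.1 J)) := by
  have hL0 : 0 < L := by linarith [hp.hL]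
  have hsg := sg_nonneg hq
  have hwg0 : 0 ≤ wg L b u v lam := by
    unfold wg
    have : 0 ≤ dt u v := by linarith [hp.hτ, show (0 : ℝ) < 16 * (2 : ℝ) ^ 32 by norm_num]
    positivity
  set B : ℝ := 5 * sg q + 40 * (Y * wg L b u v lam) with hB
  have hB0 : 0 ≤ B := by positivity
  induction J, hJ using Nat.le_induction with
  | base =>
    have h1 := aU_bounds u.1 32
    have hdt : dt u (gl u s 32 (aU u.1 32)) = ((aU u.1 32 * 2 ^ 32 - u.1 : ℤ) : ℝ) :=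
      gl_dt _ _ _ _ _
    have h2 : (2 : ℝ) ^ 32 ≤ dt u (gl u s 32 (aU u.1 32)) := by
      rw [hdt]
      exact_mod_cast (by omega : (2 : ℤ) ^ 32 ≤ aU u.1 32 * 2 ^ 32 - u.1)
    have h3 : dt u (gl u s 32 (aU u.1 32)) ≤ 2 * (2 : ℝ) ^ 32 := by
      rw [hdt]
      exact_mod_cast (by omega : aU u.1 32 * 2 ^ 32 - u.1 ≤ 2 * (2 : ℤ) ^ 32)
    have h4 := gl_dev u s 32 (aU u.1 32)
    have h5 : Even (((gl u s 32 (aU u.1 32)).1 - u.1) + ((gl u s 32 (aU u.1 32)).2 - u.2)) := by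
      have h6 := gp_even (j := 32) (by norm_num) (aU u.1 32)
        (round (((u.2 : ℝ) + s * ((aU u.1 32 * 2 ^ 32 - u.1 : ℤ) : ℝ)) / gw 32))
      have h7 := hp.heu
      have h8 : ((gl u s 32 (aU u.1 32)).1 - u.1) + ((gl u s 32 (aU u.1 32)).2 - u.2) =
        ((gl u s 32 (aU u.1 32)).1 + (gl u s 32 (aU u.1 32)).2) - (u.1 + u.2) := by ring
      rw [h8]
      exact (h6.1.add h6.2).sub h7
    obtain ⟨h9, h10⟩ := base_step hq hp.s_le (hX.1 _ _) h2 h3 h4 h5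
    refine ⟨h9, le_trans ?_ h10⟩
    have : 0 ≤ 9 * B * ((2 : ℝ) ^ 32 * L) ^ (1 / 6 : ℝ) := by positivity
    linarith
  | succ J hJ ih =>
    have h2J : (2 : ℝ) ^ (J + 1) = 2 * 2 ^ J := by rw [pow_succ]; ring
    have hpos : (0 : ℝ) < 2 ^ J := by positivity
    obtain ⟨ih1, ih2⟩ := ih (by rw [h2J] at hJτ; linarith)
    set g := gl u s J (aU u.1 J) with hg
    set g' := gl u s (J + 1) (aU u.1 (J + 1)) with hg'
    obtain ⟨κ, hκ⟩ := gp_succ J (aU u.1 (J + 1))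
      (round (((u.2 : ℝ) + s * ((aU u.1 (J + 1) * 2 ^ (J + 1) - u.1 : ℤ) : ℝ)) / gw (J + 1)))
    set β' := round (((u.2 : ℝ) + s * ((aU u.1 (J + 1) * 2 ^ (J + 1) - u.1 : ℤ) : ℝ)) /
      gw (J + 1)) with hβ'
    set β := round (((u.2 : ℝ) + s * ((aU u.1 J * 2 ^ J - u.1 : ℤ) : ℝ)) / gw J) with hβ
    have hgg : g = gp J (aU u.1 J) β := rfl
    have hgg' : g' = gp J (aU u.1 J + (2 * aU u.1 (J + 1) - aU u.1 J)) (β + (κ * β' - β)) := by
      have : g' = gp (J + 1) (aU u.1 (J + 1)) β' := rfl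
      rw [this, hκ]
      congr 1 <;> ring
    obtain ⟨hm1, hm2⟩ := aU_succ u.1 J
    have hb := aU_bounds u.1 J
    have hb' := aU_bounds u.1 (J + 1)
    have hg1 : g.1 = aU u.1 J * 2 ^ J := rfl
    have hg1' : g'.1 = aU u.1 (J + 1) * 2 ^ (J + 1) := rfl
    have hp2 : (0 : ℤ) < 2 ^ J := by positivity
    have hug : u.1 ≤ g.1 := by rw [hg1]; linarith
    have hgv : g'.1 ≤ v.1 := by
      have h1 : (((2 * 2 ^ (J + 1) : ℤ)) : ℝ) ≤ ((v.1 - u.1 : ℤ) : ℝ) := by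
        push_cast
        have := hJτ
        unfold dt at this
        push_cast at this
        exact this
      have h2 : 2 * 2 ^ (J + 1) ≤ v.1 - u.1 := by exact_mod_cast h1
      rw [hg1']
      linarith
    have hd1 : |dx u g - s * dt u g| ≤ ((2 : ℝ) ^ J) ^ (2 / 3 : ℝ) := gl_dev u s J _
    have hd2 : |dx u g' - s * dt u g'| ≤ ((2 : ℝ) ^ (J + 1)) ^ (2 / 3 : ℝ) := gl_dev u s (J + 1) _
    have hd3 := pow_succ_rpow_le J
    have hd4 : |dx g g' - s * dt g g'| ≤ 3 * ((2 : ℝ) ^ J) ^ (2 / 3 : ℝ) := by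
      have : dx g g' - s * dt g g' = (dx u g' - s * dt u g') - (dx u g - s * dt u g) := by
        rw [← dx_add u g g', ← dt_add u g g']; ring
      rw [this]
      exact (abs_sub _ _).trans (by linarith)
    obtain ⟨k1, k2⟩ := pair_step hq hp hY hω hJ (by linarith) hgg hgg' hm1 (by omega) hug hgv
      (by
        have : 0 ≤ ((2 : ℝ) ^ J) ^ (2 / 3 : ℝ) := by positivity
        linarith) (by linarith) hd4
    refine ⟨reach_trans ih1 k1, ?_⟩
    have h5 := hX.2 _ _ _ ih1 k1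
    have h6 := lin_add q s u g g'
    have h7 := succ_sixth hL0 J
    have h8 : B * (10 * ((2 : ℝ) ^ J * L) ^ (1 / 6 : ℝ)) ≤
        B * (9 * ((2 : ℝ) ^ (J + 1) * L) ^ (1 / 6 : ℝ)) := mul_le_mul_of_nonneg_left h7 hB0
    linarith

/-- The chain going down from `v`. -/
theorem chain_down {Ω : Type*} {X : Ω → Site → Site → ℝ} {Reg : Set Site} {q : ℝ} (hq : q < 1)
    {L : ℝ} {b u v : Site} {s lam Y : ℝ}
    (hp : PairData Reg L b u v s) (hY : 0 ≤ Y) {ω : Ω} (hω : GridGood X Reg q L b lam Y ω)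
    (hX : Super (X ω)) {J : ℕ}
    (hJ : 32 ≤ J) (hJτ : 2 * (2 : ℝ) ^ J ≤ dt u v) :
    Reach (gl v s J (-aU (-v.1) J)) v ∧
      lin q s (gl v s J (-aU (-v.1) J)) v - C0 q -
        9 * (5 * sg q + 40 * (Y * wg L b u v lam)) * ((2 : ℝ) ^ J * L) ^ (1 / 6 : ℝ) ≤
      X ω (gl v s J (-aU (-v.1) J)) v := by
  have hL0 : 0 < L := by linarith [hp.hL]
  have hsg := sg_nonneg hq
  have hwg0 : 0 ≤ wg L b u v lam := by
    unfold wg
    have : 0 ≤ dt u v := by linarith [hp.hτ, show (0 : ℝ) < 16 * (2 : ℝ) ^ 32 by norm_num]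
    positivity
  set B : ℝ := 5 * sg q + 40 * (Y * wg L b u v lam) with hB
  have hB0 : 0 ≤ B := by positivity
  have hev : Even (v.1 + v.2) := by
    have h1 := hp.heu
    have h2 := hp.hr.2
    have h3 : v.1 + v.2 = (u.1 + u.2) + ((v.1 - u.1) + (v.2 - u.2)) := by ring
    rw [h3]
    exact h1.add h2
  -- deviations seen from `v`
  have hswap : ∀ g g' : Site, dx g g' - s * dt g g' = -(dx g' g - s * dt g' g) := by
    intro g g'
    unfold dx dt
    push_cast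
    ring
  induction J, hJ using Nat.le_induction with
  | base =>
    have h1 := aU_bounds (-v.1) 32
    have hg1 : (gl v s 32 (-aU (-v.1) 32)).1 = -aU (-v.1) 32 * 2 ^ 32 := rfl
    have hdt : dt (gl v s 32 (-aU (-v.1) 32)) v = ((v.1 + aU (-v.1) 32 * 2 ^ 32 : ℤ) : ℝ) := by
      unfold dt
      rw [hg1]
      congr 1
      ring
    have h2 : (2 : ℝ) ^ 32 ≤ dt (gl v s 32 (-aU (-v.1) 32)) v := by
      rw [hdt]
      exact_mod_cast (by omega : (2 : ℤ) ^ 32 ≤ v.1 + aU (-v.1) 32 * 2 ^ 32)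
    have h3 : dt (gl v s 32 (-aU (-v.1) 32)) v ≤ 2 * (2 : ℝ) ^ 32 := by
      rw [hdt]
      exact_mod_cast (by omega : v.1 + aU (-v.1) 32 * 2 ^ 32 ≤ 2 * (2 : ℤ) ^ 32)
    have h4 := gl_dev v s 32 (-aU (-v.1) 32)
    rw [hswap, abs_neg] at h4
    have h5 : Even ((v.1 - (gl v s 32 (-aU (-v.1) 32)).1) +
        (v.2 - (gl v s 32 (-aU (-v.1) 32)).2)) := by
      have h6 := gp_even (j := 32) (by norm_num) (-aU (-v.1) 32)
        (round (((v.2 : ℝ) + s * ((-aU (-v.1) 32 * 2 ^ 32 - v.1 : ℤ) : ℝ)) / gw 32))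
      have h8 : (v.1 - (gl v s 32 (-aU (-v.1) 32)).1) + (v.2 - (gl v s 32 (-aU (-v.1) 32)).2) =
        (v.1 + v.2) - ((gl v s 32 (-aU (-v.1) 32)).1 + (gl v s 32 (-aU (-v.1) 32)).2) := by ring
      rw [h8]
      exact hev.sub (h6.1.add h6.2)
    obtain ⟨h9, h10⟩ := base_step hq hp.s_le (hX.1 _ _) h2 h3 h4 h5
    refine ⟨h9, le_trans ?_ h10⟩
    have : 0 ≤ 9 * B * ((2 : ℝ) ^ 32 * L) ^ (1 / 6 : ℝ) := by positivity
    linarith
  | succ J hJ ih =>
    have h2J : (2 : ℝ) ^ (J + 1) = 2 * 2 ^ J := by rw [pow_succ]; ring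
    have hpos : (0 : ℝ) < 2 ^ J := by positivity
    obtain ⟨ih1, ih2⟩ := ih (by rw [h2J] at hJτ; linarith)
    set g' := gl v s J (-aU (-v.1) J) with hg'
    set g := gl v s (J + 1) (-aU (-v.1) (J + 1)) with hg
    set β := round (((v.2 : ℝ) + s * ((-aU (-v.1) (J + 1) * 2 ^ (J + 1) - v.1 : ℤ) : ℝ)) /
      gw (J + 1)) with hβ
    set β' := round (((v.2 : ℝ) + s * ((-aU (-v.1) J * 2 ^ J - v.1 : ℤ) : ℝ)) / gw J) with hβ'
    obtain ⟨κ, hκ⟩ := gp_succ J (-aU (-v.1) (J + 1)) β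
    have hgg : g = gp J (2 * -aU (-v.1) (J + 1)) (κ * β) := by
      have : g = gp (J + 1) (-aU (-v.1) (J + 1)) β := rfl
      rw [this, hκ]
    have hgg' : g' = gp J (2 * -aU (-v.1) (J + 1) + (2 * aU (-v.1) (J + 1) - aU (-v.1) J))
        (κ * β + (β' - κ * β)) := by
      have : g' = gp J (-aU (-v.1) J) β' := rfl
      rw [this]
      congr 1 <;> ring
    obtain ⟨hm1, hm2⟩ := aU_succ (-v.1) J
    have hb := aU_bounds (-v.1) J
    have hb' := aU_bounds (-v.1) (J + 1)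
    have hg1 : g.1 = -aU (-v.1) (J + 1) * 2 ^ (J + 1) := rfl
    have hg1' : g'.1 = -aU (-v.1) J * 2 ^ J := rfl
    have hp2 : (0 : ℤ) < 2 ^ J := by positivity
    have hgv : g'.1 ≤ v.1 := by rw [hg1']; linarith
    have hug : u.1 ≤ g.1 := by
      have h1 : (((2 * 2 ^ (J + 1) : ℤ)) : ℝ) ≤ ((v.1 - u.1 : ℤ) : ℝ) := by
        push_cast
        have := hJτ
        unfold dt at this
        push_cast at this
        exact this
      have h2 : 2 * 2 ^ (J + 1) ≤ v.1 - u.1 := by exact_mod_cast h1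
      rw [hg1]
      linarith
    have hline : ∀ g : Site, dx u g - s * dt u g = dx v g - s * dt v g := by
      intro g
      have h1 := dx_add u v g
      have h2 := dt_add u v g
      have h3 := hp.hs
      linear_combination (-1) * h1 + s * h2 + h3
    have hd1 : |dx v g' - s * dt v g'| ≤ ((2 : ℝ) ^ J) ^ (2 / 3 : ℝ) := gl_dev v s J _
    have hd2 : |dx v g - s * dt v g| ≤ ((2 : ℝ) ^ (J + 1)) ^ (2 / 3 : ℝ) := gl_dev v s (J + 1) _
    have hd3 := pow_succ_rpow_le J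
    have hd4 : |dx g g' - s * dt g g'| ≤ 3 * ((2 : ℝ) ^ J) ^ (2 / 3 : ℝ) := by
      have : dx g g' - s * dt g g' = (dx v g' - s * dt v g') - (dx v g - s * dt v g) := by
        rw [← dx_add v g g', ← dt_add v g g']; ring
      rw [this]
      exact (abs_sub _ _).trans (by linarith)
    obtain ⟨k1, k2⟩ := pair_step hq hp hY hω hJ (by linarith) hgg hgg' hm1 (by omega) hug hgv
      (by rw [hline]; linarith)
      (by
        have : 0 ≤ ((2 : ℝ) ^ J) ^ (2 / 3 : ℝ) := by positivity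
        rw [hline]; linarith) hd4
    refine ⟨reach_trans k1 ih1, ?_⟩
    have h5 := hX.2 _ _ _ k1 ih1
    have h6 := lin_add q s g g' v
    have h7 := succ_sixth hL0 J
    have h8 : B * (10 * ((2 : ℝ) ^ J * L) ^ (1 / 6 : ℝ)) ≤
        B * (9 * ((2 : ℝ) ^ (J + 1) * L) ^ (1 / 6 : ℝ)) := mul_le_mul_of_nonneg_left h7 hB0
    linarith

/-- Deterministic form of the all pairs lower bound. -/
theorem pair_lower {Ω : Type*} {X : Ω → Site → Site → ℝ} {Reg : Set Site} {q : ℝ} (hq : q < 1)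
    {L : ℝ} {b u v : Site} {s lam Y : ℝ}
    (hp : PairData Reg L b u v s) (hY : 1 ≤ Y) {ω : Ω} (hω : GridGood X Reg q L b lam Y ω)
    (hX : Super (X ω))
    (hτ2 : 16 * (2 : ℝ) ^ 32 ≤ dt u v) :
    par q u v - (2 * C0 q + 95 * sg q + 760) * Y * (dt u v * L) ^ (1 / 6 : ℝ) *
      wg L b u v lam ≤ X ω u v := by
  have hL0 : 0 < L := by linarith [hp.hL]
  have hsg := sg_nonneg hq
  have hY0 : 0 ≤ Y := by linarith
  set τ : ℝ := dt u v with hτdef
  have hτ0 : 0 < τ := by linarith [show (0 : ℝ) < 16 * (2 : ℝ) ^ 32 by norm_num]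
  -- the scale
  have h3 : 1 ≤ τ / 16 := by
    rw [le_div_iff₀ (by norm_num)]
    linarith [show (1 : ℝ) * 16 ≤ 16 * (2 : ℝ) ^ 32 by norm_num]
  obtain ⟨J, hJ1, hJ2⟩ := exists_nat_pow_near h3 (by norm_num : (1 : ℝ) < 2)
  rw [le_div_iff₀ (by norm_num)] at hJ1
  rw [div_lt_iff₀ (by norm_num)] at hJ2
  have hJ32 : 32 ≤ J := by
    by_contra hcon
    push Not at hcon
    have h4 : (2 : ℝ) ^ (J + 1) ≤ 2 ^ 32 := pow_le_pow_right₀ (by norm_num) (by omega)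
    linarith
  set r : ℝ := (2 : ℝ) ^ J with hr
  have hr0 : 0 < r := by positivity
  obtain ⟨u1, u2⟩ := chain_up hq hp hY0 hω hX hJ32 (by linarith)
  obtain ⟨d1, d2⟩ := chain_down hq hp hY0 hω hX hJ32 (by linarith)
  set g := gl u s J (aU u.1 J) with hg
  set g' := gl v s J (-aU (-v.1) J) with hg'
  have hwg1 : 1 ≤ wg L b u v lam := by
    unfold wg
    apply Real.one_le_rpow _ (by norm_num)
    have e1 : 0 ≤ |dx u v - lam * dt u v| / dt u v ^ (2 / 3 : ℝ) := by positivity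
    have e2 : 0 ≤ (|dx b u - lam * dt b u| + |dx u v - lam * dt u v|) / L ^ (2 / 3 : ℝ) := by
      positivity
    nlinarith
  set W : ℝ := wg L b u v lam with hW
  set B : ℝ := 5 * sg q + 40 * (Y * W) with hB
  have hB0 : 0 ≤ B := by positivity
  -- the middle piece
  have hline : ∀ g : Site, dx u g - s * dt u g = dx v g - s * dt v g := by
    intro g
    have h1 := dx_add u v g
    have h2 := dt_add u v g
    have h3 := hp.hs
    linear_combination (-1) * h1 + s * h2 + h3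
  have hb := aU_bounds u.1 J
  have hb' := aU_bounds (-v.1) J
  have hp2 : (0 : ℤ) < 2 ^ J := by positivity
  set m : ℤ := -aU (-v.1) J - aU u.1 J with hm
  have hτz : ((v.1 - u.1 : ℤ) : ℝ) = τ := rfl
  have hJ1z : 2 ^ J * 16 ≤ v.1 - u.1 := by
    have : (((2 ^ J * 16 : ℤ)) : ℝ) ≤ ((v.1 - u.1 : ℤ) : ℝ) := by
      rw [hτz]; push_cast; rw [← hr]; exact hJ1
    exact_mod_cast this
  have hJ2z : v.1 - u.1 < 2 ^ J * 32 := by
    have : ((v.1 - u.1 : ℤ) : ℝ) < (((2 ^ J * 32 : ℤ)) : ℝ) := by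
      rw [hτz]; push_cast; rw [← hr]
      rw [pow_succ] at hJ2
      linarith
    exact_mod_cast this
  have hm1 : 1 ≤ m := by
    by_contra hcon
    push Not at hcon
    have h5 : m * 2 ^ J ≤ 0 := mul_nonpos_of_nonpos_of_nonneg (by omega) hp2.le
    have h6 : m * 2 ^ J = -(aU (-v.1) J * 2 ^ J) - aU u.1 J * 2 ^ J := by rw [hm]; ring
    linarith
  have hm2 : m ≤ 32 := by
    by_contra hcon
    push Not at hcon
    have h5 : 33 * 2 ^ J ≤ m * 2 ^ J := mul_le_mul_of_nonneg_right (by omega) hp2.le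
    have h6 : m * 2 ^ J = -(aU (-v.1) J * 2 ^ J) - aU u.1 J * 2 ^ J := by rw [hm]; ring
    linarith
  set β := round (((u.2 : ℝ) + s * ((aU u.1 J * 2 ^ J - u.1 : ℤ) : ℝ)) / gw J) with hβ
  set β' := round (((v.2 : ℝ) + s * ((-aU (-v.1) J * 2 ^ J - v.1 : ℤ) : ℝ)) / gw J) with hβ'
  have hgg : g = gp J (aU u.1 J) β := rfl
  have hgg' : g' = gp J (aU u.1 J + m) (β + (β' - β)) := by
    have : g' = gp J (-aU (-v.1) J) β' := rfl
    rw [this, hm]
    congr 1 <;> ring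
  have hg1 : g.1 = aU u.1 J * 2 ^ J := rfl
  have hg1' : g'.1 = -aU (-v.1) J * 2 ^ J := rfl
  have hug : u.1 ≤ g.1 := by rw [hg1]; linarith
  have hgv : g'.1 ≤ v.1 := by rw [hg1']; linarith
  have hd1 : |dx u g - s * dt u g| ≤ r ^ (2 / 3 : ℝ) := gl_dev u s J _
  have hd2 : |dx v g' - s * dt v g'| ≤ r ^ (2 / 3 : ℝ) := gl_dev v s J _
  have hrr : 0 ≤ r ^ (2 / 3 : ℝ) := by positivity
  have hd4 : |dx g g' - s * dt g g'| ≤ 3 * r ^ (2 / 3 : ℝ) := by
    have : dx g g' - s * dt g g' = (dx v g' - s * dt v g') - (dx u g - s * dt u g) := by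
      rw [← hline, ← dx_add u g g', ← dt_add u g g']; ring
    rw [this]
    exact (abs_sub _ _).trans (by linarith)
  obtain ⟨k1, k2⟩ := pair_step hq hp hY0 hω hJ32 (by linarith) hgg hgg' hm1 hm2 hug hgv
    (by linarith) (by rw [hline]; linarith) hd4
  have h5 := hX.2 _ _ _ u1 k1
  have h6 := hX.2 _ _ _ (reach_trans u1 k1) d1
  have h7 := lin_add q s u g g'
  have h8 := lin_add q s u g' v
  have huv : u.1 < v.1 := by linarith
  have hpar : par q u v = lin q s u v := by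
    rw [par_eq_lin q s huv, hp.hs]
    simp
  have hC0 := C0_nonneg hq
  set Z : ℝ := (τ * L) ^ (1 / 6 : ℝ) with hZ
  have hZ1 : 1 ≤ Z := by
    apply Real.one_le_rpow _ (by norm_num)
    have h9 : (1 : ℝ) ≤ τ := by linarith [show (1 : ℝ) ≤ 16 * (2 : ℝ) ^ 32 by norm_num]
    nlinarith [hp.hL]
  have hrZ : (r * L) ^ (1 / 6 : ℝ) ≤ Z := by
    apply Real.rpow_le_rpow (by positivity) _ (by norm_num)
    gcongr
    linarith
  have hXr : B * (r * L) ^ (1 / 6 : ℝ) ≤ B * Z := mul_le_mul_of_nonneg_left hrZ hB0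
  have hYW : 1 ≤ Y * W := by nlinarith
  have hYWZ : 1 ≤ Y * W * Z := by nlinarith
  have e1 : C0 q ≤ C0 q * (Y * W * Z) := by nlinarith
  have e2 : sg q * Z ≤ sg q * (Y * W * Z) := by
    apply mul_le_mul_of_nonneg_left _ hsg
    nlinarith
  have e3 : B * Z = 5 * (sg q * Z) + 40 * (Y * W * Z) := by rw [hB]; ring
  rw [hpar]
  have e4 : (2 * C0 q + 95 * sg q + 760) * Y * Z * W =
      2 * (C0 q * (Y * W * Z)) + 95 * (sg q * (Y * W * Z)) + 760 * (Y * W * Z) := by ring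
  rw [e4]
  linarith

end Pool.Agent.H22.LPP
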