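import Pool.Agent.H22.LPP.Ali

/-!
# All pairs lower bound for random fields
-/

open MeasureTheory ProbabilityTheory
open Pool.Agent.H99.NS

namespace Pool.Agent.H22.LPP

theorem not_gridGood_prob {C e : ℝ} (hC : 0 < C) (he : 0 ≤ e) {Ω : Type*} [MeasurableSpace Ω]
    (P : Measure Ω) [IsProbabilityMeasure P] (X : Ω → Site → Site → ℝ) (Reg : Set Site)
    (q L : ℝ) (hL : 1 ≤ L) (b : Site) (lam Y : ℝ)
    (h : ∀ j : ℕ, (2 : ℝ) ^ j ≤ L → P.real (gridBad X Reg q L b lam Y j) ≤ C * (2 ^ j / L) * e) :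
    P.real {ω | ¬ GridGood X Reg q L b lam Y ω} ≤ 2 * C * e := by
  classical
  have hL0 : 0 < L := by linarith
  set F : Finset ℕ := (Finset.range (⌊L⌋₊ + 1)).filter (fun j => (2 : ℝ) ^ j ≤ L) with hF
  have hcov : {ω | ¬ GridGood X Reg q L b lam Y ω} ⊆ ⋃ j ∈ F, gridBad X Reg q L b lam Y j := by
    intro ω hω
    simp only [GridGood, not_forall, not_not, Set.mem_ofPred_eq] at hω
    obtain ⟨j, hj, hb⟩ := hω
    rw [Set.mem_iUnion₂]
    refine ⟨j, ?_, hb⟩
    rw [hF, Finset.mem_filter, Finset.mem_range]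
    refine ⟨?_, hj⟩
    have h4 : j < 2 ^ j := Nat.lt_two_pow_self
    have h5 : ((2 ^ j : ℕ) : ℝ) ≤ L := by push_cast; exact hj
    have h6 : 2 ^ j ≤ ⌊L⌋₊ := Nat.le_floor h5
    omega
  refine (real_iUnion_le' P F _ _ (fun j => C * (2 ^ j / L) * e) hcov ?_).trans ?_
  · intro j hj
    rw [hF, Finset.mem_filter] at hj
    exact h j hj.2
  · have h1 : ∑ j ∈ F, C * ((2 : ℝ) ^ j / L) * e = C * e / L * ∑ j ∈ F, (2 : ℝ) ^ j := by
      rw [Finset.mul_sum]
      refine Finset.sum_congr rfl fun j _ => ?_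
      ring
    rw [h1]
    have h2 := sum_two_pow_le F L hL0.le (fun j hj => by
      rw [hF, Finset.mem_filter] at hj; exact hj.2)
    calc C * e / L * ∑ j ∈ F, (2 : ℝ) ^ j ≤ C * e / L * (2 * L) := by gcongr
      _ = 2 * C * e := by field_simp

/-- The constant of the deterministic bound. -/
noncomputable def C3 (q : ℝ) : ℝ := 2 * C0 q + 95 * sg q + 760 + mu q * 2 ^ 36

theorem one_le_C3 {q : ℝ} (hq : q < 1) : 1 ≤ C3 q := by
  unfold C3
  have h1 := mu_nonneg hq
  have h2 := sg_nonneg hq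
  have h3 := C0_nonneg hq
  have : 0 ≤ mu q * 2 ^ 36 := by positivity
  linarith

/-- On the good event all pairs of even parity satisfy the lower bound. -/
theorem ali_det {Ω : Type*} {X : Ω → Site → Site → ℝ} {Reg : Set Site} {q : ℝ} (hq : q < 1)
    {L : ℝ} (hL : 1 ≤ L) {b u v : Site} {lam Y : ℝ} (hY : 1 ≤ Y) {ω : Ω}
    (hω : GridGood X Reg q L b lam Y ω) (hX : Super (X ω)) (heu : Even (u.1 + u.2))
    (hp : AliPair Reg L b u v) :
    par q u v - C3 q * Y * (dt u v * L) ^ (1 / 6 : ℝ) * wg L b u v lam ≤ X ω u v := by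
  obtain ⟨h1, h2, h3, h4, h5, h6, h7⟩ := hp
  have hsg := sg_nonneg hq
  have hmu := mu_nonneg hq
  have hC0 := C0_nonneg hq
  have hdt1 := one_le_dt h2
  have hdt0 : 0 < dt u v := by linarith
  have hw1 := one_le_wg L b u v lam (by linarith) hdt0.le
  have hZ1 : 1 ≤ (dt u v * L) ^ (1 / 6 : ℝ) := by
    apply Real.one_le_rpow _ (by norm_num)
    nlinarith
  have hprod : 1 ≤ Y * (dt u v * L) ^ (1 / 6 : ℝ) * wg L b u v lam := by
    have e1 : 1 ≤ Y * (dt u v * L) ^ (1 / 6 : ℝ) := by nlinarith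
    nlinarith
  rcases lt_or_ge (dt u v) (16 * (2 : ℝ) ^ 32) with hs | hs
  · refine le_trans ?_ (hX.1 u v)
    have e1 : par q u v ≤ mu q * (16 * (2 : ℝ) ^ 32) := by
      rw [par_def]
      have e2 : 0 ≤ sg q / 2 * dx u v ^ 2 / dt u v := by positivity
      have e3 : mu q * dt u v ≤ mu q * (16 * (2 : ℝ) ^ 32) := by gcongr
      linarith
    have e2 : mu q * (16 * (2 : ℝ) ^ 32) ≤ C3 q := by
      unfold C3
      have : (16 : ℝ) * (2 : ℝ) ^ 32 = 2 ^ 36 := by norm_num
      rw [this]
      linarith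
    have e3 := one_le_C3 hq
    have e4 : C3 q ≤ C3 q * (Y * (dt u v * L) ^ (1 / 6 : ℝ) * wg L b u v lam) := by nlinarith
    have e5 : C3 q * Y * (dt u v * L) ^ (1 / 6 : ℝ) * wg L b u v lam =
        C3 q * (Y * (dt u v * L) ^ (1 / 6 : ℝ) * wg L b u v lam) := by ring
    linarith
  · have hpd : PairData Reg L b u v (dx u v / dt u v) := by
      refine ⟨h7, hL, h1, h3, heu, h4, ?_, ?_, h6, hs⟩
      · field_simp
      · rw [abs_div, abs_of_pos hdt0]
        have e1 : dt u v = dt u v ^ (3 / 4 : ℝ) * dt u v ^ (1 / 4 : ℝ) := by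
          rw [← Real.rpow_add hdt0]; norm_num
        have e0 : 0 < dt u v ^ (1 / 4 : ℝ) := Real.rpow_pos_of_pos hdt0 _
        have e0' : 0 < dt u v ^ (3 / 4 : ℝ) := Real.rpow_pos_of_pos hdt0 _
        have e2 : |dx u v| / dt u v * dt u v ^ (1 / 4 : ℝ) = |dx u v| / dt u v ^ (3 / 4 : ℝ) := by
          nth_rewrite 1 [e1]
          field_simp
        rw [e2, div_le_iff₀ e0']
        have e3 : (16 : ℝ) ≤ dt u v ^ (3 / 4 : ℝ) := by
          calc (16 : ℝ) ≤ (2 : ℝ) ^ (27 : ℝ) := by norm_num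
            _ = ((2 : ℝ) ^ (36 : ℝ)) ^ (3 / 4 : ℝ) := by
                rw [← Real.rpow_mul (by norm_num)]; norm_num
            _ ≤ _ := by
                apply Real.rpow_le_rpow (by positivity) _ (by norm_num)
                refine le_trans ?_ hs
                norm_num
        linarith
    have key := pair_lower hq hpd hY hω hX hs
    refine le_trans ?_ key
    have e1 : (2 * C0 q + 95 * sg q + 760) * (Y * (dt u v * L) ^ (1 / 6 : ℝ) * wg L b u v lam) ≤
        C3 q * (Y * (dt u v * L) ^ (1 / 6 : ℝ) * wg L b u v lam) := by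
      apply mul_le_mul_of_nonneg_right _ (by linarith)
      unfold C3
      have : 0 ≤ mu q * 2 ^ 36 := by positivity
      linarith
    have e2 : C3 q * Y * (dt u v * L) ^ (1 / 6 : ℝ) * wg L b u v lam =
        C3 q * (Y * (dt u v * L) ^ (1 / 6 : ℝ) * wg L b u v lam) := by ring
    have e3 : (2 * C0 q + 95 * sg q + 760) * Y * (dt u v * L) ^ (1 / 6 : ℝ) * wg L b u v lam =
      (2 * C0 q + 95 * sg q + 760) * (Y * (dt u v * L) ^ (1 / 6 : ℝ) * wg L b u v lam) := by ring
    linarith

/-- All pairs lower bound for a random field satisfying a one-point bound on a region. -/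
theorem ali_gen {A c s₀ q : ℝ} (hA : 0 < A) (hc : 0 < c) (hs₀ : 0 < s₀) (hq : q < 1) :
    ∃ C c' : ℝ, 0 < C ∧ 0 < c' ∧ ∀ {Ω : Type*} [MeasurableSpace Ω] (P : Measure Ω)
      [IsProbabilityMeasure P] (X : Ω → Site → Site → ℝ) (Reg : Set Site),
      LTX P X Reg q A c s₀ → (∀ ω, Super (X ω)) →
      ∀ (L : ℝ), 1 ≤ L → ∀ (b : Site) (lam Y : ℝ), 0 ≤ Y →
        P.real {ω | ∃ u v : Site, AliPair Reg L b u v ∧
          X ω u v ≤ par q u v - Y * (dt u v * L) ^ (1 / 6 : ℝ) * wg L b u v lam} ≤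
        C * Real.exp (-c' * Y ^ s₀) := by
  obtain ⟨C, hC, hgrid⟩ := grid_prob hA hc hs₀
  have hC3 := one_le_C3 hq
  set K : ℝ := 2 * C3 q with hK
  have hK0 : 0 < K := by linarith
  set c' : ℝ := c / 2 / K ^ s₀ with hc'
  have hKs : 0 < K ^ s₀ := Real.rpow_pos_of_pos hK0 _
  have hc'0 : 0 < c' := by positivity
  refine ⟨4 * C + Real.exp (c / 2), c', by positivity, hc'0, ?_⟩
  intro Ω _ P _ X Reg hLT hX L hL b lam Y hY
  rcases lt_or_ge Y K with hYK | hYK
  · have h1 : (1 : ℝ) ≤ Real.exp (c / 2) * Real.exp (-c' * Y ^ s₀) := by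
      rw [← Real.exp_add]
      apply Real.one_le_exp
      have h2 : Y ^ s₀ ≤ K ^ s₀ := Real.rpow_le_rpow hY hYK.le hs₀.le
      have h3 : c' * Y ^ s₀ ≤ c' * K ^ s₀ := by gcongr
      have h4 : c' * K ^ s₀ = c / 2 := by rw [hc']; field_simp
      linarith
    refine le_trans measureReal_le_one (h1.trans ?_)
    apply mul_le_mul_of_nonneg_right _ (Real.exp_pos _).le
    linarith
  set Y1 : ℝ := Y / K with hY1
  have hY11 : 1 ≤ Y1 := by rw [hY1, le_div_iff₀ hK0]; linarith
  have hexp : Real.exp (-(c / 2) * Y1 ^ s₀) = Real.exp (-c' * Y ^ s₀) := by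
    congr 1
    rw [hY1, hc', Real.div_rpow hY hK0.le]
    field_simp
  -- the shifted field
  set a : Site := (0, 1) with ha
  set X' : Ω → Site → Site → ℝ := fun ω u v => X ω (u + a) (v + a) with hX'
  set Reg' : Set Site := {g | g + a ∈ Reg} with hReg'
  have hdta : ∀ u v : Site, dt (u + a) (v + a) = dt u v := by
    intro u v; unfold dt; simp
  have hdxa : ∀ u v : Site, dx (u + a) (v + a) = dx u v := by
    intro u v; unfold dx; simp
  have hpara : ∀ u v : Site, par q (u + a) (v + a) = par q u v := by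
    intro u v; rw [par_def, par_def, hdta, hdxa]
  have hLT' : LTX P X' Reg' q A c s₀ := by
    intro u v hu hv hr hlt hd x hx
    have := hLT (u + a) (v + a) hu hv ((reach_shift a).2 hr) (by simpa [ha] using hlt)
      (by rw [hdxa, hdta]; exact hd) x hx
    rw [hpara, hdta] at this
    exact this
  have hXs' : ∀ ω, Super (X' ω) := by
    intro ω
    refine ⟨fun u v => (hX ω).1 _ _, fun u v w h1 h2 => ?_⟩
    exact (hX ω).2 _ _ _ ((reach_shift a).2 h1) ((reach_shift a).2 h2)
  have p1 := not_gridGood_prob hC (Real.exp_pos _).le P X Reg q L hL b lam Y1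
    (fun j hj => hgrid P X Reg q hLT L j hL hj b lam Y1 hY11)
  have p2 := not_gridGood_prob hC (Real.exp_pos _).le P X' Reg' q L hL (b - a) lam Y1
    (fun j hj => hgrid P X' Reg' q hLT' L j hL hj (b - a) lam Y1 hY11)
  have hsub : {ω | ∃ u v : Site, AliPair Reg L b u v ∧
      X ω u v ≤ par q u v - Y * (dt u v * L) ^ (1 / 6 : ℝ) * wg L b u v lam} ⊆
      {ω | ¬ GridGood X Reg q L b lam Y1 ω} ∪ {ω | ¬ GridGood X' Reg' q L (b - a) lam Y1 ω} := by
    rintro ω ⟨u, v, hp, hle⟩
    by_contra hcon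
    simp only [Set.mem_union, Set.mem_ofPred_eq, not_or, not_not] at hcon
    obtain ⟨hg1, hg2⟩ := hcon
    have hdt0 : 0 < dt u v := by linarith [one_le_dt hp.2.1]
    have hw1 := one_le_wg L b u v lam (by linarith) hdt0.le
    have hZ1 : 0 < (dt u v * L) ^ (1 / 6 : ℝ) := Real.rpow_pos_of_pos (by positivity) _
    have hYK2 : Y = 2 * C3 q * Y1 := by rw [hY1, ← hK]; field_simp
    have hstrict : C3 q * Y1 * (dt u v * L) ^ (1 / 6 : ℝ) * wg L b u v lam <
        Y * (dt u v * L) ^ (1 / 6 : ℝ) * wg L b u v lam := by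
      have e1 : 0 < C3 q * Y1 * (dt u v * L) ^ (1 / 6 : ℝ) * wg L b u v lam := by positivity
      rw [hYK2]
      nlinarith
    rcases Int.even_or_odd (u.1 + u.2) with heu | hou
    · have := ali_det hq hL hY11 hg1 (hX ω) heu hp
      linarith
    · -- the shifted pair
      have hu : u - a + a = u := sub_add_cancel u a
      have hv : v - a + a = v := sub_add_cancel v a
      have hb : b - a + a = b := sub_add_cancel b a
      have hdt' : ∀ x y : Site, dt (x - a) (y - a) = dt x y := by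
        intro x y
        rw [← hdta (x - a) (y - a), sub_add_cancel, sub_add_cancel]
      have hdx' : ∀ x y : Site, dx (x - a) (y - a) = dx x y := by
        intro x y
        rw [← hdxa (x - a) (y - a), sub_add_cancel, sub_add_cancel]
      obtain ⟨h1, h2, h3, h4, h5, h6, h7⟩ := hp
      have hp' : AliPair Reg' L (b - a) (u - a) (v - a) := by
        refine ⟨by simpa [ha] using h1, by simpa [ha] using h2, by rw [hdt']; exact h3, ?_, ?_, ?_,
          ?_⟩
        · have := (reach_shift (u := u - a) (v := v - a) a).1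
          rw [hu, hv] at this
          exact this h4
        · rw [hdx', hdt']; exact h5
        · rw [hdx']; exact h6
        · intro g g1 g2 g3
          have e1 := h7 (g + a) (by simp only [ha, Prod.fst_sub, Prod.fst_add] at g1 ⊢; omega)
            (by simp only [ha, Prod.fst_sub, Prod.fst_add] at g2 ⊢; omega)
          have e2 : dx u (g + a) = dx (u - a) g := by
            rw [← hdxa (u - a) g, hu]
          have e3 : dt u (g + a) = dt (u - a) g := by
            rw [← hdta (u - a) g, hu]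
          rw [e2, e3] at e1
          rw [hdx', hdt'] at g3
          exact e1 g3
      have heu' : Even ((u - a).1 + (u - a).2) := by
        have : (u - a).1 + (u - a).2 = (u.1 + u.2) - 1 := by
          simp only [ha, Prod.fst_sub, Prod.snd_sub]; ring
        rw [this]
        exact hou.sub_odd odd_one
      have := ali_det hq hL hY11 hg2 (hXs' ω) heu' hp'
      have e1 : X' ω (u - a) (v - a) = X ω u v := by
        rw [hX']; simp only; rw [hu, hv]
      have e2 : par q (u - a) (v - a) = par q u v := by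
        rw [← hpara (u - a) (v - a), hu, hv]
      have e3 : wg L (b - a) (u - a) (v - a) lam = wg L b u v lam := by
        unfold wg
        rw [hdx', hdt', hdx', hdt']
      rw [e1, e2, e3, hdt'] at this
      linarith
  calc P.real {ω | ∃ u v : Site, AliPair Reg L b u v ∧
      X ω u v ≤ par q u v - Y * (dt u v * L) ^ (1 / 6 : ℝ) * wg L b u v lam}
      ≤ _ := measureReal_mono hsub (measure_ne_top _ _)
    _ ≤ _ := measureReal_union_le _ _
    _ ≤ 2 * C * Real.exp (-(c / 2) * Y1 ^ s₀) + 2 * C * Real.exp (-(c / 2) * Y1 ^ s₀) :=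
        add_le_add p1 p2
    _ = 4 * C * Real.exp (-c' * Y ^ s₀) := by rw [hexp]; ring
    _ ≤ _ := by
        apply mul_le_mul_of_nonneg_right _ (Real.exp_pos _).le
        linarith [Real.exp_pos (c / 2)]

end Pool.Agent.H22.LPP
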