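import Pool.Agent.H22.LPP.Bl1

/-!
# Interior lower bound: the deterministic part
-/

open MeasureTheory ProbabilityTheory
open Pool.Agent.H99.NS

namespace Pool.Agent.H22.LPP

/-- The comparison of the two parabolas. -/
theorem bli_par {q : ℝ} (hq : q < 1) {u v : Site} {lam : ℝ} (hdt1 : 1 ≤ dt u v)
    (hlam1 : |lam| ≤ 1) (g6 : |dx u v - lam * dt u v| ≤ 2) :
    mu q * dt u v - sg q / 2 * lam ^ 2 * dt u v ≤ par q u v + 4 * sg q := by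
  have hsg := sg_nonneg hq
  have hdt0 : 0 < dt u v := by linarith
  rw [par_def]
  have e5 : dx u v ^ 2 / dt u v ≤ lam ^ 2 * dt u v + 8 := by
    rw [div_le_iff₀ hdt0]
    obtain ⟨ε, hε⟩ : ∃ ε : ℝ, ε = dx u v - lam * dt u v := ⟨_, rfl⟩
    rw [← hε] at g6
    have e6 : dx u v = lam * dt u v + ε := by rw [hε]; ring
    rw [e6]
    have e7 : ε ^ 2 ≤ 4 := by
      rw [← sq_abs]
      calc |ε| ^ 2 ≤ 2 ^ 2 := by gcongr
        _ = 4 := by norm_num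
    have e8 : lam * ε ≤ 2 := by
      calc lam * ε ≤ |lam * ε| := le_abs_self _
        _ = |lam| * |ε| := abs_mul _ _
        _ ≤ 1 * 2 := by gcongr
        _ = 2 := by ring
    have e9 : dt u v * (lam * ε) ≤ dt u v * 2 := by gcongr
    have e10 : (lam * dt u v + ε) ^ 2 =
        lam ^ 2 * dt u v * dt u v + 2 * (dt u v * (lam * ε)) + ε ^ 2 := by ring
    rw [e10]
    linarith
  have e9 : sg q / 2 * (dx u v ^ 2 / dt u v) ≤ sg q / 2 * (lam ^ 2 * dt u v + 8) := by gcongr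
  have e10 : sg q / 2 * dx u v ^ 2 / dt u v = sg q / 2 * (dx u v ^ 2 / dt u v) := by ring
  rw [e10]
  linarith

theorem XL_div_le {L : ℕ} (hL : 1 ≤ L) : XL L / L ≤ 1 := by
  have hLr : (1 : ℝ) ≤ L := by exact_mod_cast hL
  rw [div_le_one (by linarith)]
  unfold XL
  calc (L : ℝ) ^ (17 / 24 : ℝ) ≤ (L : ℝ) ^ (1 : ℝ) :=
        Real.rpow_le_rpow_of_exponent_le hLr (by norm_num)
    _ = L := Real.rpow_one _

/-- A moderate slope is small at every scale. -/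
theorem bli_slope {L : ℕ} (hL : 1 ≤ L) (h8 : (8 : ℝ) ≤ (L : ℝ) ^ (1 / 24 : ℝ)) {lam t : ℝ}
    (ht : 0 < t) (htL : t ≤ L) (g5 : |lam| ≤ XL L / L) : |lam| * t ^ (1 / 4 : ℝ) ≤ 1 / 8 := by
  have hLr : (1 : ℝ) ≤ L := by exact_mod_cast hL
  have hLpos : (0 : ℝ) < L := by linarith
  have e1 : t ^ (1 / 4 : ℝ) ≤ (L : ℝ) ^ (1 / 4 : ℝ) :=
    Real.rpow_le_rpow ht.le htL (by norm_num)
  have e2 : (L : ℝ) ^ (17 / 24 : ℝ) * (L : ℝ) ^ (1 / 4 : ℝ) * (L : ℝ) ^ (1 / 24 : ℝ) = L := by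
    rw [← Real.rpow_add hLpos, ← Real.rpow_add hLpos]; norm_num
  have hX0 : 0 < (L : ℝ) ^ (17 / 24 : ℝ) := Real.rpow_pos_of_pos hLpos _
  have hL40 : 0 < (L : ℝ) ^ (1 / 4 : ℝ) := Real.rpow_pos_of_pos hLpos _
  have e3 : (L : ℝ) ^ (17 / 24 : ℝ) * (L : ℝ) ^ (1 / 4 : ℝ) * 8 ≤ L := by
    calc _ ≤ (L : ℝ) ^ (17 / 24 : ℝ) * (L : ℝ) ^ (1 / 4 : ℝ) * (L : ℝ) ^ (1 / 24 : ℝ) := by
          gcongr
      _ = L := e2
  calc |lam| * t ^ (1 / 4 : ℝ) ≤ (XL L / L) * (L : ℝ) ^ (1 / 4 : ℝ) := by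
        have : 0 ≤ t ^ (1 / 4 : ℝ) := Real.rpow_nonneg ht.le _
        gcongr
    _ = (L : ℝ) ^ (17 / 24 : ℝ) * (L : ℝ) ^ (1 / 4 : ℝ) / L := by unfold XL; ring
    _ ≤ 1 / 8 := by
        rw [div_le_div_iff₀ hLpos (by norm_num)]
        linarith

/-- An interior pair of moderate slope is a pair of the all pairs lower bound. -/
theorem bli_pt {Reg : Set Site} {L : ℕ} (hL : 1 ≤ L) (h8 : (8 : ℝ) ≤ (L : ℝ) ^ (1 / 24 : ℝ))
    {b u v : Site} {lam : ℝ} (g1 : b.1 ≤ u.1) (g2 : u.1 < v.1) (g3 : v.1 ≤ b.1 + L)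
    (g4 : Reach u v) (g5 : |lam| ≤ XL L / L) (g6 : |dx u v - lam * dt u v| ≤ 2)
    (g7 : |dx b u| ≤ (L : ℝ) ^ (2 / 3 : ℝ) ∨ |dx b v| ≤ (L : ℝ) ^ (2 / 3 : ℝ))
    (g8 : NearIn Reg u v) :
    AliPair Reg L b u v ∧ wg L b u v 0 ≤ 5 * (1 + |lam| * (L : ℝ) ^ (1 / 3 : ℝ)) := by
  have hLr : (1 : ℝ) ≤ L := by exact_mod_cast hL
  have hLpos : (0 : ℝ) < L := by linarith
  have hR1 : 1 ≤ (L : ℝ) ^ (2 / 3 : ℝ) := Real.one_le_rpow hLr (by norm_num)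
  have hRL : (L : ℝ) ^ (2 / 3 : ℝ) ≤ L := by
    calc (L : ℝ) ^ (2 / 3 : ℝ) ≤ (L : ℝ) ^ (1 : ℝ) :=
          Real.rpow_le_rpow_of_exponent_le hLr (by norm_num)
      _ = L := Real.rpow_one _
  have hQR : (L : ℝ) ^ (1 / 3 : ℝ) * (L : ℝ) ^ (2 / 3 : ℝ) = L := by
    rw [← Real.rpow_add hLpos]; norm_num
  have hQ1 : 1 ≤ (L : ℝ) ^ (1 / 3 : ℝ) := Real.one_le_rpow hLr (by norm_num)
  have hdt1 := one_le_dt g2
  have hdt0 : 0 < dt u v := by linarith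
  have hdtL : dt u v ≤ L := by
    unfold dt
    exact_mod_cast (by omega : v.1 - u.1 ≤ (L : ℤ))
  have hlam0 := abs_nonneg lam
  have hlam1 : |lam| ≤ 1 := g5.trans (XL_div_le hL)
  have hlam14 := bli_slope hL h8 hdt0 hdtL g5
  have hdx1 : |dx u v| ≤ |lam| * dt u v + 2 := by
    have e1 : dx u v = (dx u v - lam * dt u v) + lam * dt u v := by ring
    rw [e1]
    refine (abs_add_le _ _).trans ?_
    rw [abs_mul, abs_of_pos hdt0]
    linarith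
  have hdx2 : |dx u v| ≤ dt u v ^ (3 / 4 : ℝ) / 8 + 2 := by
    have e1 : dt u v ^ (3 / 4 : ℝ) * dt u v ^ (1 / 4 : ℝ) = dt u v := by
      rw [← Real.rpow_add hdt0]; norm_num
    have e2 : |lam| * dt u v ≤ dt u v ^ (3 / 4 : ℝ) / 8 := by
      have e3 : 0 ≤ dt u v ^ (3 / 4 : ℝ) := by positivity
      calc |lam| * dt u v = dt u v ^ (3 / 4 : ℝ) * (|lam| * dt u v ^ (1 / 4 : ℝ)) := by
            nth_rewrite 1 [← e1]; ring
        _ ≤ dt u v ^ (3 / 4 : ℝ) * (1 / 8) := by gcongr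
        _ = _ := by ring
    linarith
  have hdxL : |dx u v| ≤ 3 * L := by
    have : |lam| * dt u v ≤ 1 * L := mul_le_mul hlam1 hdtL hdt0.le (by norm_num)
    linarith
  have e0 : 0 < dt u v ^ (2 / 3 : ℝ) := Real.rpow_pos_of_pos hdt0 _
  have e01 : 1 ≤ dt u v ^ (2 / 3 : ℝ) := Real.one_le_rpow hdt1 (by norm_num)
  have e1 : dt u v ^ (1 / 3 : ℝ) * dt u v ^ (2 / 3 : ℝ) = dt u v := by
    rw [← Real.rpow_add hdt0]; norm_num
  have e2 : dt u v ^ (1 / 3 : ℝ) ≤ (L : ℝ) ^ (1 / 3 : ℝ) :=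
    Real.rpow_le_rpow hdt0.le hdtL (by norm_num)
  obtain ⟨R, hR⟩ : ∃ R : ℝ, (L : ℝ) ^ (2 / 3 : ℝ) = R := ⟨_, rfl⟩
  rw [hR] at hR1 hRL hQR g7
  obtain ⟨Q, hQ⟩ : ∃ Q : ℝ, (L : ℝ) ^ (1 / 3 : ℝ) = Q := ⟨_, rfl⟩
  rw [hQ] at hQR hQ1 e2 ⊢
  have hR0 : 0 < R := by linarith
  have hbu : |dx b u| ≤ R + |dx u v| := by
    rcases g7 with h | h
    · have := abs_nonneg (dx u v); linarith
    · have e1 : dx b u = dx b v - dx u v := by rw [← dx_add b u v]; ring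
      rw [e1]
      exact (abs_sub _ _).trans (by linarith)
  refine ⟨⟨g1, g2, ?_, g4, hdx2, by linarith, g8⟩, ?_⟩
  · unfold dt
    exact_mod_cast (by omega : v.1 - b.1 ≤ (L : ℤ))
  · obtain ⟨z, hz⟩ : ∃ z : ℝ, z = |lam| * Q := ⟨_, rfl⟩
    have hz0 : 0 ≤ z := by rw [hz]; positivity
    rw [← hz]
    have hk : |dx u v| / dt u v ^ (2 / 3 : ℝ) ≤ z + 2 := by
      rw [div_le_iff₀ e0]
      have e3 : |lam| * dt u v ≤ z * dt u v ^ (2 / 3 : ℝ) := by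
        calc |lam| * dt u v = |lam| * dt u v ^ (1 / 3 : ℝ) * dt u v ^ (2 / 3 : ℝ) := by
              nth_rewrite 1 [← e1]; ring
          _ ≤ |lam| * Q * dt u v ^ (2 / 3 : ℝ) := by gcongr
          _ = _ := by rw [hz]
      have e4 : (z + 2) * dt u v ^ (2 / 3 : ℝ) =
          z * dt u v ^ (2 / 3 : ℝ) + 2 * dt u v ^ (2 / 3 : ℝ) := by ring
      rw [e4]
      linarith
    have hD : |dx u v| ≤ (z + 2) * R := by
      have e3 : |lam| * dt u v ≤ z * R := by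
        calc |lam| * dt u v ≤ |lam| * L := by gcongr
          _ = z * R := by rw [hz, mul_assoc, hQR]
      have e4 : (z + 2) * R = z * R + 2 * R := by ring
      rw [e4]
      linarith
    have e6 : (|dx b u| + |dx u v|) / R ≤ 2 * z + 5 := by
      rw [div_le_iff₀ hR0]
      linarith
    apply wg_le hR hR0 (by positivity) e0.le
    rw [zero_mul, sub_zero, zero_mul, sub_zero]
    calc (1 + |dx u v| / dt u v ^ (2 / 3 : ℝ)) * (1 + (|dx b u| + |dx u v|) / R)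
        ≤ (1 + (z + 2)) * (1 + (2 * z + 5)) := by gcongr
      _ ≤ (5 * (1 + z)) ^ 2 := by
        have e7 : (5 * (1 + z)) ^ 2 - (1 + (z + 2)) * (1 + (2 * z + 5)) =
          23 * z ^ 2 + 38 * z + 7 := by ring
        have : 0 ≤ 23 * z ^ 2 + 38 * z + 7 := by positivity
        linarith

end Pool.Agent.H22.LPP
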