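import Pool.Agent.H22.LPP.TargetsB

/-!
# The one point tails in a convenient form
-/

open MeasureTheory ProbabilityTheory
open Pool.Agent.H99.NS
open Pool.Agent.H84.GL (D_UT D_LT)

namespace Pool.Agent.H22.LPP

theorem ut1_of (hU : D_UT) {q : ℝ} (hq0 : 0 < q) (hq1 : q < 1) :
    ∃ C c : ℝ, 0 < C ∧ 0 < c ∧ UT1 q C c := by
  obtain ⟨C, c, hC, hc, h⟩ := hU q hq0 hq1
  refine ⟨C * Real.exp c, c, by positivity, hc, ?_⟩
  intro u v hr hlt x hx
  have h1 := h u v hr hlt x hx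
  have hdt : 1 ≤ dt u v := one_le_dt hlt
  have h2 : x - 1 ≤ min (x ^ ((3 : ℝ) / 2)) (x * dt u v ^ ((1 : ℝ) / 3)) := by
    apply le_min
    · rcases le_total x 1 with h3 | h3
      · have : 0 ≤ x ^ ((3 : ℝ) / 2) := by positivity
        linarith
      · have : x ^ (1 : ℝ) ≤ x ^ ((3 : ℝ) / 2) :=
          Real.rpow_le_rpow_of_exponent_le h3 (by norm_num)
        rw [Real.rpow_one] at this
        linarith
    · have : 1 ≤ dt u v ^ ((1 : ℝ) / 3) := Real.one_le_rpow hdt (by norm_num)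
      nlinarith
  have h3 : (PE q).real {ω | par q u v + x * dt u v ^ ((1 : ℝ) / 3) ≤ T ω u v} ≤
      C * Real.exp (-(c * min (x ^ ((3 : ℝ) / 2)) (x * dt u v ^ ((1 : ℝ) / 3)))) :=
    ENNReal.toReal_le_of_le_ofReal (by positivity) h1
  refine h3.trans ?_
  rw [mul_assoc, ← Real.exp_add]
  apply mul_le_mul_of_nonneg_left _ hC.le
  apply Real.exp_le_exp.2
  nlinarith

theorem lt1_of (hL : D_LT) {q : ℝ} (hq0 : 0 < q) (hq1 : q < 1) :
    ∃ A c : ℝ, 0 < A ∧ 0 < c ∧ LT1 q A c (3 / 2) := by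
  obtain ⟨A, c, hA, hc, h⟩ := hL q hq0 hq1
  refine ⟨A, c, hA, hc, ?_⟩
  intro u v hr hlt hd x hx
  have h1 := h u v hr hlt hd x hx
  have h3 : (PE q).real {ω | T ω u v ≤ par q u v - x * dt u v ^ ((1 : ℝ) / 3)} ≤
      A * Real.exp (-(c * x ^ ((3 : ℝ) / 2))) :=
    ENNReal.toReal_le_of_le_ofReal (by positivity) h1
  refine h3.trans (le_of_eq ?_)
  congr 2
  ring

end Pool.Agent.H22.LPP
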