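import Pool.Agent.H22.LPP.AliGen
import Pool.Agent.H22.LPP.Bl2
import Pool.Agent.H22.LPP.Tails

/-!
# Crossing and interior lower bounds for random fields and for passage times
-/

open MeasureTheory ProbabilityTheory
open Pool.Agent.H99.NS
open Pool.Agent.H84.GL (D_UT D_LT)

namespace Pool.Agent.H22.LPP

theorem big_root {L m : ℕ} {a : ℝ} (ha : 0 ≤ a) (hm : (m : ℝ) = a ^ (24 : ℕ)) (h : m ≤ L) :
    a ≤ (L : ℝ) ^ (1 / 24 : ℝ) := by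
  have h1 : (m : ℝ) ≤ L := by exact_mod_cast h
  calc a = (a ^ (24 : ℕ)) ^ (1 / 24 : ℝ) := by
        rw [← Real.rpow_natCast, ← Real.rpow_mul ha]
        norm_num
    _ ≤ _ := Real.rpow_le_rpow (by positivity) (hm ▸ h1) (by norm_num)

/-- Crossing lower bound for random fields, exact parabola. -/
theorem bl_gen {A c s₀ q : ℝ} (hA : 0 < A) (hc : 0 < c) (hs₀ : 0 < s₀) (hq : q < 1) :
    ∃ C c' : ℝ, 0 < C ∧ 0 < c' ∧ ∀ {Ω : Type*} [MeasurableSpace Ω] (P : Measure Ω)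
      [IsProbabilityMeasure P] (X : Ω → Site → Site → ℝ) (Reg : Set Site),
      LTX P X Reg q A c s₀ → (∀ ω, Super (X ω)) →
      ∀ (L : ℕ), 1 ≤ L → ∀ (b : Site) (E : ℤ), |(E : ℝ)| ≤ XL L → ∀ Y : ℝ, 0 ≤ Y →
        P.real {ω | ∃ x y : ℤ, Reach (b.1, x) (b.1 + L, y) ∧
          |((x - b.2 : ℤ) : ℝ)| ≤ (L : ℝ) ^ (2 / 3 : ℝ) ∧
          |((y - (b.2 + E) : ℤ) : ℝ)| ≤ (L : ℝ) ^ (2 / 3 : ℝ) ∧
          NearIn Reg (b.1, x) (b.1 + L, y) ∧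
          X ω (b.1, x) (b.1 + L, y) ≤ par q (b.1, x) (b.1 + L, y) - Y * (L : ℝ) ^ (1 / 3 : ℝ)} ≤
        C * Real.exp (-c' * Y ^ s₀) := by
  obtain ⟨C1, c1, hC1, hc1, hali⟩ := ali_gen hA hc hs₀ hq
  have hmu := mu_nonneg hq
  obtain ⟨L1, hL1⟩ : ∃ n : ℕ, (n : ℝ) = 24 ^ (24 : ℕ) := ⟨24 ^ 24, by norm_num⟩
  obtain ⟨C', c', hC', hc', htail⟩ := tail_all (Y₀ := mu q * L1 + 1) (K := 4) hC1 hc1 hs₀
    (by norm_num) (by positivity)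
  refine ⟨C', c', hC', hc', ?_⟩
  intro Ω _ P _ X Reg hLT hX L hL b E hE
  have hLr : (1 : ℝ) ≤ L := by exact_mod_cast hL
  have hLpos : (0 : ℝ) < L := by linarith
  have hQ1 : 1 ≤ (L : ℝ) ^ (1 / 3 : ℝ) := Real.one_le_rpow hLr (by norm_num)
  refine htail (fun Y => P.real {ω | ∃ x y : ℤ, Reach (b.1, x) (b.1 + L, y) ∧
          |((x - b.2 : ℤ) : ℝ)| ≤ (L : ℝ) ^ (2 / 3 : ℝ) ∧
          |((y - (b.2 + E) : ℤ) : ℝ)| ≤ (L : ℝ) ^ (2 / 3 : ℝ) ∧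
          NearIn Reg (b.1, x) (b.1 + L, y) ∧
          X ω (b.1, x) (b.1 + L, y) ≤ par q (b.1, x) (b.1 + L, y) - Y * (L : ℝ) ^ (1 / 3 : ℝ)})
    (fun Y => measureReal_le_one) ?_
  intro Y hY
  have hY1 : 0 ≤ (Y - (mu q * L1 + 1)) / 4 := by linarith
  refine le_trans (measureReal_mono ?_ (measure_ne_top _ _))
    (hali P X Reg hLT hX L hLr b (E / (L : ℤ)) ((Y - (mu q * L1 + 1)) / 4) hY1)
  rintro ω ⟨x, y, g1, g2, g3, g4, g5⟩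
  have hdt : dt (b.1, x) (b.1 + L, y) = L := by unfold dt; simp
  rcases lt_or_ge L L1 with hsm | hbig
  · -- small slabs: the field is nonnegative
    exfalso
    have h1 := (hX ω).1 (b.1, x) (b.1 + L, y)
    have h2 := par_le_mu hq (show ((b.1, x) : Site).1 < ((b.1 + L, y) : Site).1 by
      simp only; omega)
    rw [hdt] at h2
    have h3 : mu q * L ≤ mu q * L1 := by
      have : (L : ℝ) ≤ L1 := by exact_mod_cast hsm.le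
      gcongr
    have h4 : mu q * L1 + 1 ≤ Y * (L : ℝ) ^ (1 / 3 : ℝ) := by
      have hY0 : 0 ≤ Y := le_trans (by positivity) hY
      have := mul_le_mul_of_nonneg_left hQ1 hY0
      linarith
    linarith
  obtain ⟨k1, hwg⟩ := bl_pt hL (big_root (by norm_num) hL1 hbig) hE g1 g2 g3 g4
  refine ⟨(b.1, x), (b.1 + L, y), k1, g5.trans ?_⟩
  have hwg0 : 0 ≤ wg L b (b.1, x) (b.1 + L, y) (E / (L : ℤ)) := by
    have := one_le_wg L b (b.1, x) (b.1 + L, y) (E / (L : ℤ)) hLpos.le (by rw [hdt]; linarith)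
    linarith
  have h6 := sixth_le hLpos (le_refl (L : ℝ))
  rw [hdt]
  have e1 : (Y - (mu q * L1 + 1)) / 4 * ((L : ℝ) * L) ^ (1 / 6 : ℝ) *
      wg L b (b.1, x) (b.1 + L, y) (E / (L : ℤ)) ≤
      (Y - (mu q * L1 + 1)) / 4 * (L : ℝ) ^ (1 / 3 : ℝ) * 4 := by
    gcongr
  have e2 : (Y - (mu q * L1 + 1)) / 4 * (L : ℝ) ^ (1 / 3 : ℝ) * 4 ≤
      Y * (L : ℝ) ^ (1 / 3 : ℝ) := by
    have : 0 ≤ (mu q * L1 + 1) * (L : ℝ) ^ (1 / 3 : ℝ) := by positivity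
    linarith
  linarith

/-- Interior lower bound for random fields. -/
theorem bli_gen {A c s₀ q : ℝ} (hA : 0 < A) (hc : 0 < c) (hs₀ : 0 < s₀) (hq : q < 1) :
    ∃ C c' : ℝ, 0 < C ∧ 0 < c' ∧ ∀ {Ω : Type*} [MeasurableSpace Ω] (P : Measure Ω)
      [IsProbabilityMeasure P] (X : Ω → Site → Site → ℝ) (Reg : Set Site),
      LTX P X Reg q A c s₀ → (∀ ω, Super (X ω)) →
      ∀ (L : ℕ), 1 ≤ L → ∀ (b : Site) (Y : ℝ), 0 ≤ Y →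
        P.real {ω | ∃ u v : Site, ∃ lam : ℝ, b.1 ≤ u.1 ∧ u.1 < v.1 ∧ v.1 ≤ b.1 + L ∧ Reach u v ∧
          |lam| ≤ XL L / L ∧ |dx u v - lam * dt u v| ≤ 2 ∧
          (|dx b u| ≤ (L : ℝ) ^ (2 / 3 : ℝ) ∨ |dx b v| ≤ (L : ℝ) ^ (2 / 3 : ℝ)) ∧
          NearIn Reg u v ∧
          X ω u v ≤ mu q * dt u v - sg q / 2 * lam ^ 2 * dt u v -
            Y * (1 + |lam| * (L : ℝ) ^ (1 / 3 : ℝ)) * (L : ℝ) ^ (1 / 3 : ℝ)} ≤
        C * Real.exp (-c' * Y ^ s₀) := by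
  obtain ⟨C1, c1, hC1, hc1, hali⟩ := ali_gen hA hc hs₀ hq
  have hmu := mu_nonneg hq
  have hsg := sg_nonneg hq
  obtain ⟨L1, hL1⟩ : ∃ n : ℕ, (n : ℝ) = 8 ^ (24 : ℕ) := ⟨8 ^ 24, by norm_num⟩
  obtain ⟨Y₀, hY₀⟩ : ∃ Y₀ : ℝ, Y₀ = mu q * L1 + 4 * sg q + 1 := ⟨_, rfl⟩
  have hmL : 0 ≤ mu q * L1 := by positivity
  have hY₀0 : 0 < Y₀ := by rw [hY₀]; positivity
  obtain ⟨C', c', hC', hc', htail⟩ := tail_all (Y₀ := Y₀) (K := 5) hC1 hc1 hs₀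
    (by norm_num) hY₀0.le
  refine ⟨C', c', hC', hc', ?_⟩
  intro Ω _ P _ X Reg hLT hX L hL b
  have hLr : (1 : ℝ) ≤ L := by exact_mod_cast hL
  have hLpos : (0 : ℝ) < L := by linarith
  have hQ1 : 1 ≤ (L : ℝ) ^ (1 / 3 : ℝ) := Real.one_le_rpow hLr (by norm_num)
  refine htail (fun Y => P.real {ω | ∃ u v : Site, ∃ lam : ℝ, b.1 ≤ u.1 ∧ u.1 < v.1 ∧
          v.1 ≤ b.1 + L ∧ Reach u v ∧
          |lam| ≤ XL L / L ∧ |dx u v - lam * dt u v| ≤ 2 ∧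
          (|dx b u| ≤ (L : ℝ) ^ (2 / 3 : ℝ) ∨ |dx b v| ≤ (L : ℝ) ^ (2 / 3 : ℝ)) ∧
          NearIn Reg u v ∧
          X ω u v ≤ mu q * dt u v - sg q / 2 * lam ^ 2 * dt u v -
            Y * (1 + |lam| * (L : ℝ) ^ (1 / 3 : ℝ)) * (L : ℝ) ^ (1 / 3 : ℝ)})
    (fun Y => measureReal_le_one) ?_
  intro Y hY
  have hY1 : 0 ≤ (Y - Y₀) / 5 := by linarith
  refine le_trans (measureReal_mono ?_ (measure_ne_top _ _))
    (hali P X Reg hLT hX L hLr b 0 ((Y - Y₀) / 5) hY1)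
  rintro ω ⟨u, v, lam, g1, g2, g3, g4, g5, g6, g7, g8, g9⟩
  have hdt1 := one_le_dt g2
  have hdt0 : 0 < dt u v := by linarith
  have hdtL : dt u v ≤ L := by
    unfold dt
    exact_mod_cast (by omega : v.1 - u.1 ≤ (L : ℤ))
  have hlam1 : |lam| ≤ 1 := g5.trans (XL_div_le hL)
  have hz0 : 0 ≤ |lam| * (L : ℝ) ^ (1 / 3 : ℝ) := by positivity
  rcases lt_or_ge L L1 with hsm | hbig
  · exfalso
    have h1 := (hX ω).1 u v
    have h3 : mu q * dt u v ≤ mu q * L1 := by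
      have : (L : ℝ) ≤ L1 := by exact_mod_cast hsm.le
      gcongr
      linarith
    have h4 : Y₀ ≤ Y * (1 + |lam| * (L : ℝ) ^ (1 / 3 : ℝ)) * (L : ℝ) ^ (1 / 3 : ℝ) := by
      have hY0 : 0 ≤ Y := hY₀0.le.trans hY
      have e1 : Y * 1 ≤ Y * (1 + |lam| * (L : ℝ) ^ (1 / 3 : ℝ)) :=
        mul_le_mul_of_nonneg_left (by linarith) hY0
      have e2 : Y * (1 + |lam| * (L : ℝ) ^ (1 / 3 : ℝ)) * 1 ≤
          Y * (1 + |lam| * (L : ℝ) ^ (1 / 3 : ℝ)) * (L : ℝ) ^ (1 / 3 : ℝ) :=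
        mul_le_mul_of_nonneg_left hQ1 (by positivity)
      linarith
    have h5 : 0 ≤ sg q / 2 * lam ^ 2 * dt u v := by positivity
    linarith
  obtain ⟨k1, hwg⟩ := bli_pt hL (big_root (by norm_num) hL1 hbig) g1 g2 g3 g4 g5 g6 g7 g8
  refine ⟨u, v, k1, g9.trans ?_⟩
  have hwg0 : 0 ≤ wg L b u v 0 := by
    have := one_le_wg L b u v 0 hLpos.le hdt0.le
    linarith
  have h6 := sixth_le hdt0 hdtL
  have e4 := bli_par hq hdt1 hlam1 g6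
  generalize (L : ℝ) ^ (1 / 3 : ℝ) = Q at *
  generalize |lam| * Q = z at *
  have e1 : (Y - Y₀) / 5 * (dt u v * L) ^ (1 / 6 : ℝ) * wg L b u v 0 ≤
      (Y - Y₀) / 5 * Q * (5 * (1 + z)) := by
    gcongr
  have e2 : (Y - Y₀) / 5 * Q * (5 * (1 + z)) = Y * (1 + z) * Q - Y₀ * (1 + z) * Q := by ring
  have e3 : Y₀ ≤ Y₀ * (1 + z) * Q := by
    have h1 : Y₀ * 1 ≤ Y₀ * (1 + z) := mul_le_mul_of_nonneg_left (by linarith) hY₀0.le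
    have h2 : Y₀ * (1 + z) * 1 ≤ Y₀ * (1 + z) * Q :=
      mul_le_mul_of_nonneg_left hQ1 (by positivity)
    linarith
  linarith

theorem super_T (ω : Env) : Super (fun u v => T ω u v) :=
  ⟨fun u v => T_nonneg ω u v, fun _ _ _ h h' => T_superadd ω h h'⟩

theorem ltx_T (hL : D_LT) {q : ℝ} (hq0 : 0 < q) (hq1 : q < 1) : ∃ A c : ℝ, 0 < A ∧ 0 < c ∧
    LTX (PE q) (fun ω u v => T ω u v) Set.univ q A c (3 / 2) := by
  obtain ⟨A, c, hA, hc, h⟩ := lt1_of hL hq0 hq1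
  exact ⟨A, c, hA, hc, fun u v _ _ hr hlt hd x hx => h u v hr hlt hd x hx⟩

theorem b_ali (hL : D_LT) : B_ALI := by
  intro q hq0 hq1
  obtain ⟨A, c, hA, hc, hLT⟩ := ltx_T hL hq0 hq1
  obtain ⟨C, c', hC, hc', h⟩ := ali_gen hA hc (by norm_num : (0 : ℝ) < 3 / 2) hq1
  refine ⟨C, c', hC, hc', fun L hL1 b lam _ Y hY => ?_⟩
  refine le_trans (measureReal_mono ?_ (measure_ne_top _ _))
    (h (PE q) (fun ω u v => T ω u v) Set.univ hLT super_T L (by exact_mod_cast hL1) b lam Y hY)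
  rintro ω ⟨u, v, g1, g2, g3, g4, g5, g6, g7⟩
  refine ⟨u, v, ⟨g1, g2, ?_, g4, g5, g6, fun _ _ _ _ => Set.mem_univ _⟩, g7⟩
  unfold dt
  exact_mod_cast (by omega : v.1 - b.1 ≤ (L : ℤ))

theorem b_bl (hL : D_LT) : B_BL := by
  intro q hq0 hq1
  obtain ⟨A, c, hA, hc, hLT⟩ := ltx_T hL hq0 hq1
  obtain ⟨C, c', hC, hc', h⟩ := bl_gen hA hc (by norm_num : (0 : ℝ) < 3 / 2) hq1
  refine ⟨C, c', hC, hc', fun L hL1 b E hE Y hY => ?_⟩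
  refine le_trans (measureReal_mono ?_ (measure_ne_top _ _))
    (h (PE q) (fun ω u v => T ω u v) Set.univ hLT super_T L hL1 b E hE Y hY)
  rintro ω ⟨x, y, g1, g2, g3, g4⟩
  exact ⟨x, y, g1, g2, g3, fun _ _ _ _ => Set.mem_univ _, g4⟩

theorem b_bli (hL : D_LT) : B_BLI := by
  intro q hq0 hq1
  obtain ⟨A, c, hA, hc, hLT⟩ := ltx_T hL hq0 hq1
  obtain ⟨C, c', hC, hc', h⟩ := bli_gen hA hc (by norm_num : (0 : ℝ) < 3 / 2) hq1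
  refine ⟨C, c', hC, hc', fun L hL1 b Y hY => ?_⟩
  refine le_trans (measureReal_mono ?_ (measure_ne_top _ _))
    (h (PE q) (fun ω u v => T ω u v) Set.univ hLT super_T L hL1 b Y hY)
  rintro ω ⟨u, v, lam, g1, g2, g3, g4, g5, g6, g7, g8⟩
  exact ⟨u, v, lam, g1, g2, g3, g4, g5, g6, g7, fun _ _ _ _ => Set.mem_univ _, g8⟩

end Pool.Agent.H22.LPP
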