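import Pool.Agent.H22.LPP.Bcs
import Pool.Agent.H22.LPP.Bl
import Pool.Agent.H26.LPP.CR
import Pool.Agent.H26.LPP.GR
import Pool.Agent.H26.LPP.REG
import Pool.Agent.H73.LPP.LAM
import Pool.Agent.H73.LPP.MEET
import Pool.Agent.H34.LPP.LAMM
import Pool.Agent.H2.LPB.LAMR
import Pool.Agent.H84.GL.UTS

/-!
# Part B: summary

Every estimate of `TargetsB` from the tails `D_UT`, `D_LT` at a point (and the sharp crossing bound
from the sharp tail `D_UTMS`).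
-/

open MeasureTheory ProbabilityTheory
open Pool.Agent.H99.NS
open Pool.Agent.H84.GL (D_UT D_LT D_UTMS cst cf_pos)

namespace Pool.Agent.H22.LPP

theorem a_lam : B_LAM := Pool.Agent.H73.LPP.LAM.m_lam

theorem a_lamr : B_LAMR := Pool.Agent.H2.LPB.m_lamr a_lam

theorem a_lamm : B_LAMM := Pool.Agent.H34.LPP.m_lamm

theorem a_lamo : B_LAMO := Pool.Agent.H73.LPP.LAM.m_lamo a_lam

theorem a_meet : B_MEET := Pool.Agent.H73.LPP.MEET.m_meet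

theorem a_gr : B_GR := Pool.Agent.H26.LPP.m_gr

theorem a_cr (hU : D_UT) (hL : D_LT) : B_CR := Pool.Agent.H26.LPP.m_cr hU hL

theorem a_reg : B_REG := Pool.Agent.H26.LPP.m_reg

theorem a_sup (hU : D_UT) (hL : D_LT) : B_SUP := b_sup hU hL

theorem a_ba (hU : D_UT) (hL : D_LT) : B_BA := b_ba (b_sup hU hL)

theorem a_bc (hU : D_UT) (hL : D_LT) : B_BC := b_bc hU hL

theorem a_bl (hL : D_LT) : B_BL := b_bl hL

theorem a_bli (hL : D_LT) : B_BLI := b_bli hL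

theorem a_ali (hL : D_LT) : B_ALI := b_ali hL

theorem cst_pos' {q : ℝ} (hq0 : 0 < q) (hq1 : q < 1) : 0 < cst q := by
  have := cf_pos hq0 hq1
  unfold cst
  positivity

/-- The sharp tail in the form of `UTS`. -/
theorem uts_of (h : D_UTMS) {q : ℝ} (hq0 : 0 < q) (hq1 : q < 1) : UTS q (cst q) := by
  intro ε hε
  obtain ⟨K₀, hK₀, H⟩ := Pool.Agent.H84.GL.UTS_gen h q hq0 hq1 ε hε 2 (by norm_num)
  refine ⟨K₀, by linarith, ?_⟩
  intro K hK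
  obtain ⟨N₀, hN⟩ := H K hK
  refine ⟨max N₀ 1, ?_⟩
  intro u v huv hdt hdx
  have h1 : 1 ≤ dt u v := le_trans (le_max_right _ _) hdt
  have hlt : u.1 < v.1 := by
    unfold dt at h1
    have : (0 : ℝ) < ((v.1 - u.1 : ℤ) : ℝ) := by linarith
    have h2 : 0 < v.1 - u.1 := by exact_mod_cast this
    omega
  have h2 := hN u v huv hlt (le_trans (le_max_left _ _) hdt) hdx
  rw [Measure.real, show -(cst q - ε) * K ^ (3 / 2 : ℝ) = -((cst q - ε) * K ^ ((3 : ℝ) / 2)) by ring]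
  exact ENNReal.toReal_le_of_le_ofReal (Real.exp_pos _).le h2

/-- The sharp crossing bound with the constant `cst q`. -/
theorem a_bcs (hL : D_LT) (h : D_UTMS) {q : ℝ} (hq0 : 0 < q) (hq1 : q < 1) :
    ∀ ε : ℝ, 0 < ε →
  ∃ K₀ : ℝ, 0 < K₀ ∧ ∀ K : ℝ, K₀ ≤ K → ∃ L₀ : ℕ, ∀ L : ℕ, L₀ ≤ L → ∀ b : Site, ∀ E : ℤ,
    |(E : ℝ)| ≤ K * (L : ℝ) ^ (2 / 3 : ℝ) →
    (PE q).real {ω | ∃ x y : ℤ, Reach (b.1, x) (b.1 + L, y) ∧
      |((x - b.2 : ℤ) : ℝ)| ≤ (L : ℝ) ^ (2 / 3 : ℝ) ∧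
      |((y - (b.2 + E) : ℤ) : ℝ)| ≤ (L : ℝ) ^ (2 / 3 : ℝ) ∧
      par q (b.1, x) (b.1 + L, y) + K * (L : ℝ) ^ (1 / 3 : ℝ) ≤ T ω (b.1, x) (b.1 + L, y)} ≤
    Real.exp (-(cst q - ε) * K ^ (3 / 2 : ℝ)) :=
  b_bcs hL q (cst q) hq0 hq1 (cst_pos' hq0 hq1) (uts_of h hq0 hq1)

end Pool.Agent.H22.LPP
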