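import Mathlib

/-!
# Real inequalities for the sharp crossing upper bound
-/

namespace Pool.Agent.H22.LPP

/-- The choice of constants. -/
theorem bcs_const {cs ε B η K r : ℝ} (hcs : 0 < cs) (hε : 0 < ε) (hεc : ε < cs) (hB : 0 ≤ B)
    (hη : 0 < η) (hη1 : η ≤ 1 / 9) (hη2 : η * (6 * cs) ≤ ε) (hr : r = (1 + 3 * η) ^ (1 / 3 : ℝ))
    (hK1 : 3 * B + 3 ≤ K) (hK2 : 12 + 8 * B * cs ≤ ε * K) :
    1 ≤ r ∧ r ≤ 10 / 9 ∧ 9 / 10 * (K - B) ≤ (K - B) / r ∧ K * r + 2 ≤ 2 * ((K - B) / r) ∧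
    8 * Real.exp (-(cs - ε / 2) * ((K - B) / r) ^ (3 / 2 : ℝ)) ≤
      Real.exp (-(cs - ε) * K ^ (3 / 2 : ℝ)) := by
  have hr1 : 1 ≤ r := by rw [hr]; exact Real.one_le_rpow (by linarith) (by norm_num)
  have hr0 : 0 < r := by linarith
  have hr2 : r ≤ 1 + η := by
    rw [hr]
    have := rpow_one_add_le_one_add_mul_self (s := 3 * η) (by linarith)
      (by norm_num : (0 : ℝ) ≤ 1 / 3) (by norm_num)
    linarith
  have hr3 : r ≤ 10 / 9 := by linarith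
  have hKB : 0 < K - B := by linarith
  have hK0 : 0 < K := by linarith
  have h9 : 9 / 10 * (K - B) ≤ (K - B) / r := by
    rw [le_div_iff₀ hr0]
    calc 9 / 10 * (K - B) * r ≤ 9 / 10 * (K - B) * (10 / 9) := by gcongr
      _ = K - B := by ring
  refine ⟨hr1, hr3, h9, ?_, ?_⟩
  · have h1 : K * r ≤ K * (10 / 9) := by gcongr
    linarith
  · have hr32 : r ^ (3 / 2 : ℝ) ≤ 1 + 3 * η / 2 := by
      rw [hr, ← Real.rpow_mul (by linarith)]
      have := rpow_one_add_le_one_add_mul_self (s := 3 * η) (by linarith)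
        (by norm_num : (0 : ℝ) ≤ 1 / 2) (by norm_num)
      have e : (1 / 3 * (3 / 2) : ℝ) = 1 / 2 := by norm_num
      rw [e]
      linarith
    have hr320 : 0 < r ^ (3 / 2 : ℝ) := Real.rpow_pos_of_pos hr0 _
    have hP : (K - B) ^ (3 / 2 : ℝ) ≥ K ^ (3 / 2 : ℝ) - 2 * B * K ^ (1 / 2 : ℝ) := by
      have h1 : K - B = K * (1 + -(B / K)) := by field_simp; ring
      have hBK : B / K ≤ 1 := by rw [div_le_one hK0]; linarith
      have h2 := one_add_mul_self_le_rpow_one_add (s := -(B / K)) (by linarith)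
        (by norm_num : (1 : ℝ) ≤ 3 / 2)
      have h3 : K ^ (3 / 2 : ℝ) = K ^ (1 / 2 : ℝ) * K := by
        nth_rewrite 3 [← Real.rpow_one K]
        rw [← Real.rpow_add hK0]
        norm_num
      have hs : 0 < K ^ (1 / 2 : ℝ) := Real.rpow_pos_of_pos hK0 _
      rw [h1, Real.mul_rpow hK0.le (by linarith)]
      calc K ^ (3 / 2 : ℝ) * (1 + -(B / K)) ^ (3 / 2 : ℝ) ≥
            K ^ (3 / 2 : ℝ) * (1 + 3 / 2 * -(B / K)) := by
              have : 0 < K ^ (3 / 2 : ℝ) := Real.rpow_pos_of_pos hK0 _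
              gcongr
        _ = K ^ (3 / 2 : ℝ) - 3 / 2 * B * K ^ (1 / 2 : ℝ) := by
              rw [h3]; field_simp; ring
        _ ≥ _ := by nlinarith
    have hs1 : 1 ≤ K ^ (1 / 2 : ℝ) := Real.one_le_rpow (by linarith) (by norm_num)
    have h3 : K ^ (3 / 2 : ℝ) = K ^ (1 / 2 : ℝ) * K := by
      nth_rewrite 3 [← Real.rpow_one K]
      rw [← Real.rpow_add hK0]
      norm_num
    have hlog : Real.log 8 ≤ 3 := by
      have e : (8 : ℝ) = 2 ^ 3 := by norm_num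
      rw [e, Real.log_pow]
      have := Real.log_two_lt_d9
      norm_num
      linarith
    have key : Real.log 8 + (cs - ε) * K ^ (3 / 2 : ℝ) ≤
        (cs - ε / 2) * ((K - B) / r) ^ (3 / 2 : ℝ) := by
      rw [Real.div_rpow hKB.le hr0.le]
      have a0 : 0 < (K - B) ^ (3 / 2 : ℝ) := Real.rpow_pos_of_pos hKB _
      have a1 : (cs - 3 * ε / 4) * (K - B) ^ (3 / 2 : ℝ) ≤
          (cs - ε / 2) * ((K - B) ^ (3 / 2 : ℝ) / r ^ (3 / 2 : ℝ)) := by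
        rw [mul_div_assoc', le_div_iff₀ hr320]
        have b1 : (cs - 3 * ε / 4) * r ^ (3 / 2 : ℝ) ≤ cs - ε / 2 := by
          calc (cs - 3 * ε / 4) * r ^ (3 / 2 : ℝ) ≤ (cs - 3 * ε / 4) * (1 + 3 * η / 2) := by
                apply mul_le_mul_of_nonneg_left hr32
                linarith
            _ ≤ _ := by nlinarith
        calc (cs - 3 * ε / 4) * (K - B) ^ (3 / 2 : ℝ) * r ^ (3 / 2 : ℝ) =
            ((cs - 3 * ε / 4) * r ^ (3 / 2 : ℝ)) * (K - B) ^ (3 / 2 : ℝ) := by ring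
          _ ≤ _ := by gcongr
      refine le_trans ?_ a1
      have a2 : (cs - 3 * ε / 4) * (K ^ (3 / 2 : ℝ) - 2 * B * K ^ (1 / 2 : ℝ)) ≤
          (cs - 3 * ε / 4) * (K - B) ^ (3 / 2 : ℝ) :=
        mul_le_mul_of_nonneg_left hP (by linarith)
      refine le_trans ?_ a2
      rw [h3]
      set S := K ^ (1 / 2 : ℝ) with hS
      have a3 : 0 ≤ ε * K / 4 - 2 * B * cs - 3 := by linarith
      have a4 : 3 ≤ S * (ε * K / 4 - 2 * B * cs) := by nlinarith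
      have a5 : 0 ≤ 2 * B * S * (3 * ε / 4) := by positivity
      nlinarith
    calc 8 * Real.exp (-(cs - ε / 2) * ((K - B) / r) ^ (3 / 2 : ℝ)) =
        Real.exp (Real.log 8) * Real.exp (-(cs - ε / 2) * ((K - B) / r) ^ (3 / 2 : ℝ)) := by
          rw [Real.exp_log (by norm_num)]
      _ = Real.exp (Real.log 8 + -(cs - ε / 2) * ((K - B) / r) ^ (3 / 2 : ℝ)) :=
          (Real.exp_add _ _).symm
      _ ≤ _ := by
          apply Real.exp_le_exp.2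
          linarith

/-- The slope condition. -/
theorem bcs_slope {η K L w s : ℝ} (hη0 : 0 < η) (hη1 : η ≤ 1 / 9) (hK0 : 0 < K) (hL : 1 ≤ L)
    (hLc : ((4 * K + 5) / η) ^ 12 ≤ L) (hs : |s| ≤ K / L ^ (1 / 3 : ℝ))
    (hw : w ≤ L ^ (2 / 3 : ℝ)) : |s| * (4 * (η * L)) + (2 * w + 3) ≤ (η * L) ^ (3 / 4 : ℝ) := by
  have hLpos : 0 < L := by linarith
  have hR1 : 1 ≤ L ^ (2 / 3 : ℝ) := Real.one_le_rpow hL (by norm_num)
  have hQ0 : 0 < L ^ (1 / 3 : ℝ) := Real.rpow_pos_of_pos hLpos _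
  have hQR : L ^ (1 / 3 : ℝ) * L ^ (2 / 3 : ℝ) = L := by
    rw [← Real.rpow_add hLpos]; norm_num
  have e2 : ((4 * K + 5) / η) ≤ L ^ (1 / 12 : ℝ) := by
    have e3 : 0 ≤ (4 * K + 5) / η := by positivity
    calc (4 * K + 5) / η = (((4 * K + 5) / η) ^ 12) ^ (1 / 12 : ℝ) := by
          rw [← Real.rpow_natCast, ← Real.rpow_mul e3]; norm_num
      _ ≤ _ := Real.rpow_le_rpow (by positivity) hLc (by norm_num)
  have e5 : η ≤ η ^ (3 / 4 : ℝ) := by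
    nth_rewrite 1 [← Real.rpow_one η]
    exact Real.rpow_le_rpow_of_exponent_ge hη0 (by linarith) (by norm_num)
  have e6 : L ^ (3 / 4 : ℝ) = L ^ (1 / 12 : ℝ) * L ^ (2 / 3 : ℝ) := by
    rw [← Real.rpow_add hLpos]; norm_num
  have e7 : 0 < L ^ (1 / 12 : ℝ) := Real.rpow_pos_of_pos hLpos _
  rw [div_le_iff₀' hη0] at e2
  rw [Real.mul_rpow hη0.le hLpos.le, e6]
  have e1 : |s| * (4 * (η * L)) ≤ 4 * K * L ^ (2 / 3 : ℝ) := by
    calc |s| * (4 * (η * L)) ≤ (K / L ^ (1 / 3 : ℝ)) * (4 * (1 * L)) := by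
          gcongr
          linarith
      _ = (K / L ^ (1 / 3 : ℝ)) * (4 * (1 * (L ^ (1 / 3 : ℝ) * L ^ (2 / 3 : ℝ)))) := by rw [hQR]
      _ = 4 * K * L ^ (2 / 3 : ℝ) := by
          field_simp
  have e8 : 2 * w + 3 ≤ 5 * L ^ (2 / 3 : ℝ) := by linarith
  calc |s| * (4 * (η * L)) + (2 * w + 3) ≤ 4 * K * L ^ (2 / 3 : ℝ) + 5 * L ^ (2 / 3 : ℝ) := by
        linarith
    _ = (4 * K + 5) * L ^ (2 / 3 : ℝ) := by ring
    _ ≤ (η * L ^ (1 / 12 : ℝ)) * L ^ (2 / 3 : ℝ) := by gcongr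
    _ ≤ (η ^ (3 / 4 : ℝ) * L ^ (1 / 12 : ℝ)) * L ^ (2 / 3 : ℝ) := by gcongr
    _ = _ := by ring

/-- The displacement of the extended pair. -/
theorem bcs_dx {K K' r Q s t x : ℝ} (hK : 0 < K) (hQ : 0 < Q) (ht : 1 ≤ t)
    (hr4 : K * r + 2 ≤ 2 * K') (hEL : |s| ≤ K / Q) (hdQ : t ^ (1 / 3 : ℝ) ≤ r * Q)
    (g3 : |x - s * t| ≤ 2) : |x| ≤ 2 * K' * t ^ (2 / 3 : ℝ) := by
  have ht0 : 0 < t := by linarith
  have hdR1 : 1 ≤ t ^ (2 / 3 : ℝ) := Real.one_le_rpow ht (by norm_num)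
  have hdeq : t ^ (1 / 3 : ℝ) * t ^ (2 / 3 : ℝ) = t := by
    rw [← Real.rpow_add ht0]; norm_num
  generalize t ^ (2 / 3 : ℝ) = P at *
  have hP : 0 < P := by linarith
  have e1 : x = (x - s * t) + s * t := by ring
  have e2 : |s * t| ≤ K * r * P := by
    rw [abs_mul, abs_of_pos ht0]
    calc |s| * t ≤ K / Q * t := by gcongr
      _ = K / Q * (t ^ (1 / 3 : ℝ) * P) := by rw [hdeq]
      _ ≤ K / Q * ((r * Q) * P) := by gcongr
      _ = _ := by field_simp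
  calc |x| = |(x - s * t) + s * t| := by rw [← e1]
    _ ≤ |x - s * t| + |s * t| := abs_add_le _ _
    _ ≤ 2 + K * r * P := by linarith
    _ ≤ (K * r + 2) * P := by
        have : (K * r + 2) * P = K * r * P + 2 * P := by ring
        linarith
    _ ≤ 2 * K' * P := by gcongr

/-- The final comparison. -/
theorem bcs_fin {S η K K' K1 B r Q R L w : ℝ} (hS : 0 ≤ S) (hη : 0 < η) (hη1 : η ≤ 1 / 9)
    (hK1 : 0 ≤ K1) (hr : 0 < r) (hL : 0 < L) (hw : 1 ≤ w) (hwR : w ≤ R)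
    (hQR : Q * R = L) (hQQ : Q * Q = R) (hQ : Q = L ^ (1 / 3 : ℝ))
    (hB : B = 2 * S + 25 * S / η + 4 * K1) (hK' : K' = (K - B) / r) :
    K' * (r * Q) ≤ (K - 2 * S) * Q - S * (2 * w + 3) ^ 2 / (η * L) -
      4 * K1 * (η * L) ^ (1 / 3 : ℝ) := by
  have h1 : K' * (r * Q) = (K - B) * Q := by rw [hK']; field_simp
  have h2 : S * (2 * w + 3) ^ 2 / (η * L) ≤ 25 * S / η * Q := by
    rw [div_le_iff₀ (by positivity)]
    have e8 : 2 * w + 3 ≤ 5 * R := by linarith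
    have e9 : (2 * w + 3) ^ 2 ≤ 25 * (Q * L) := by
      calc (2 * w + 3) ^ 2 ≤ (5 * R) ^ 2 := by gcongr
        _ = 25 * (Q * L) := by rw [← hQR, mul_pow, sq R]; nth_rewrite 1 [← hQQ]; ring
    calc S * (2 * w + 3) ^ 2 ≤ S * (25 * (Q * L)) := by gcongr
      _ = _ := by field_simp
  have h3 : 4 * K1 * (η * L) ^ (1 / 3 : ℝ) ≤ 4 * K1 * Q := by
    have e1 : η * L ≤ L := mul_le_of_le_one_left hL.le (by linarith)
    have : (η * L) ^ (1 / 3 : ℝ) ≤ Q := by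
      rw [hQ]
      exact Real.rpow_le_rpow (by positivity) e1 (by norm_num)
    gcongr
  have h4 : (K - B) * Q = (K - 2 * S) * Q - 25 * S / η * Q - 4 * K1 * Q := by
    rw [hB]; ring
  linarith

end Pool.Agent.H22.LPP
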