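import Pool.Agent.H22.LPP.Cross
import Pool.Agent.H22.LPP.BcsNum

/-!
# Sharp crossing upper bound (B_BCS)
-/

open MeasureTheory ProbabilityTheory
open Pool.Agent.H99.NS
open Pool.Agent.H84.GL (D_UT D_LT)

namespace Pool.Agent.H22.LPP

theorem lt_of_dt_pos {u v : Site} (h : 0 < dt u v) : u.1 < v.1 := by
  unfold dt at h
  have := Int.cast_pos.1 h
  omega

theorem b_bcs (hL : D_LT) : B_BCS := by
  classical
  intro q cs hq0 hq1 hcs hU ε hε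
  rcases le_or_gt cs ε with hce | hce
  · refine ⟨1, one_pos, fun K hK => ⟨0, fun L _ b E _ => ?_⟩⟩
    refine measureReal_le_one.trans (Real.one_le_exp ?_)
    have h1 : 0 ≤ K ^ (3 / 2 : ℝ) := by positivity
    exact mul_nonneg (by linarith) h1
  obtain ⟨A, cl, _, hcl, hLT⟩ := lt1_of hL hq0 hq1
  obtain ⟨K1, hK1, hhalf⟩ := exists_half hcl (by norm_num) hLT
  have hsg := sg_pos hq0 hq1
  obtain ⟨K2, hK2, hUT⟩ := hU (ε / 2) (by linarith)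
  obtain ⟨η, hη⟩ : ∃ η : ℝ, η = min (1 / 9) (ε / (6 * cs)) := ⟨_, rfl⟩
  have hη0 : 0 < η := by rw [hη]; exact lt_min (by norm_num) (by positivity)
  have hη1 : η ≤ 1 / 9 := by rw [hη]; exact min_le_left _ _
  have hη2 : η * (6 * cs) ≤ ε := by
    rw [← le_div_iff₀ (by positivity), hη]; exact min_le_right _ _
  clear hη
  obtain ⟨B, hB⟩ : ∃ B : ℝ, B = 2 * sg q + 25 * sg q / η + 4 * K1 := ⟨_, rfl⟩
  have hB0 : 0 ≤ B := by rw [hB]; positivity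
  obtain ⟨r, hr⟩ : ∃ r : ℝ, r = (1 + 3 * η) ^ (1 / 3 : ℝ) := ⟨_, rfl⟩
  refine ⟨3 * B + 3 + 2 * K2 + (12 + 8 * B * cs) / ε, by positivity, ?_⟩
  intro K hK
  have hpos1 : 0 ≤ (12 + 8 * B * cs) / ε := by positivity
  have hKa : 3 * B + 3 ≤ K := by linarith
  have hKb : 12 + 8 * B * cs ≤ ε * K := by
    rw [← div_le_iff₀' hε]; linarith
  obtain ⟨hr1, hr2, hr3, hr4, hr5⟩ := bcs_const hcs hε hce hB0 hη0 hη1 hη2 hr hKa hKb
  have hr0 : 0 < r := by linarith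
  have hK0 : 0 < K := by linarith
  obtain ⟨K', hK'⟩ : ∃ K' : ℝ, K' = (K - B) / r := ⟨_, rfl⟩
  rw [← hK'] at hr3 hr4 hr5
  have hK'0 : 0 ≤ K' := by linarith
  obtain ⟨N0, hN0⟩ := hUT K' (by linarith)
  clear hUT hU hKb hpos1 hKa hK hr2 hr3
  obtain ⟨L0, hL0⟩ := exists_nat_ge (3 / η + K ^ 3 + ((4 * K + 5) / η) ^ 12 + |N0|)
  refine ⟨L0, ?_⟩
  intro L hLL b E hE
  have hLL' : (L0 : ℝ) ≤ L := by exact_mod_cast hLL
  have p1 : 0 ≤ 3 / η := by positivity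
  have p2 : 0 ≤ K ^ 3 := by positivity
  have p3 : 0 ≤ ((4 * K + 5) / η) ^ 12 := by positivity
  have p4 := abs_nonneg N0
  have hLa : 3 / η ≤ L := by linarith
  have hLb : K ^ 3 ≤ L := by linarith
  have hLc : ((4 * K + 5) / η) ^ 12 ≤ L := by linarith
  have hLd : N0 ≤ L := by linarith [le_abs_self N0]
  clear p1 p2 p3 p4 hLL hLL' hL0
  have h3η : 3 ≤ η * L := by rw [div_le_iff₀' hη0] at hLa; exact hLa
  have hL0' : (0 : ℝ) ≤ L := Nat.cast_nonneg L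
  have hLr : (1 : ℝ) ≤ L := by
    have : η * L ≤ 1 / 9 * L := by gcongr
    linarith
  have hLpos : (0 : ℝ) < L := by linarith
  have hL1 : 1 ≤ L := by exact_mod_cast hLr
  have hR1 : 1 ≤ (L : ℝ) ^ (2 / 3 : ℝ) := Real.one_le_rpow hLr (by norm_num)
  have hQ1 : 1 ≤ (L : ℝ) ^ (1 / 3 : ℝ) := Real.one_le_rpow hLr (by norm_num)
  have hQR : (L : ℝ) ^ (1 / 3 : ℝ) * (L : ℝ) ^ (2 / 3 : ℝ) = L := by
    rw [← Real.rpow_add hLpos]; norm_num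
  have hQQ : (L : ℝ) ^ (1 / 3 : ℝ) * (L : ℝ) ^ (1 / 3 : ℝ) = (L : ℝ) ^ (2 / 3 : ℝ) := by
    rw [← Real.rpow_add hLpos]; norm_num
  have hKQ : K ≤ (L : ℝ) ^ (1 / 3 : ℝ) := by
    calc K = (K ^ 3) ^ (1 / 3 : ℝ) := by
          rw [← Real.rpow_natCast, ← Real.rpow_mul hK0.le]; norm_num
      _ ≤ _ := Real.rpow_le_rpow (by positivity) hLb (by norm_num)
  obtain ⟨w, hw⟩ : ∃ w : ℤ, w = ⌊(L : ℝ) ^ (2 / 3 : ℝ)⌋ := ⟨_, rfl⟩
  have hcov := crossEv_subset q L b E (K * (L : ℝ) ^ (1 / 3 : ℝ))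
  rw [← hw] at hcov
  have hw1 : 1 ≤ w := by rw [hw]; exact Int.le_floor.2 (by exact_mod_cast hR1)
  have hwr : (w : ℝ) ≤ (L : ℝ) ^ (2 / 3 : ℝ) := by rw [hw]; exact Int.floor_le _
  have hw1r : (1 : ℝ) ≤ w := by exact_mod_cast hw1
  clear hw
  have hQ0 : 0 < (L : ℝ) ^ (1 / 3 : ℝ) := by linarith
  have hEL : |(E : ℝ) / (L : ℤ)| ≤ K / (L : ℝ) ^ (1 / 3 : ℝ) := by
    rw [abs_div]
    have e1 : |((L : ℤ) : ℝ)| = L := by
      rw [Int.cast_natCast]; exact abs_of_pos hLpos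
    rw [e1, div_le_div_iff₀ hLpos hQ0]
    calc |(E : ℝ)| * (L : ℝ) ^ (1 / 3 : ℝ) ≤
          (K * (L : ℝ) ^ (2 / 3 : ℝ)) * (L : ℝ) ^ (1 / 3 : ℝ) := by gcongr
      _ = K * ((L : ℝ) ^ (1 / 3 : ℝ) * (L : ℝ) ^ (2 / 3 : ℝ)) := by ring
      _ = K * L := by rw [hQR]
  have hEL1 : |(E : ℝ) / (L : ℤ)| ≤ 1 := hEL.trans (by rw [div_le_one hQ0]; exact hKQ)
  have hslope := bcs_slope hη0 hη1 hK0 hLr hLc hEL hwr
  clear hLa hLb hLc hE hKQ
  have hone : ∀ p : ℤ, (PE q).real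
      {ω | ∃ u ∈ box (b.1, b.2 - w) 1 (2 * w + 1) p,
        ∃ v ∈ box (b.1 + L, b.2 - w + E) 1
          (2 * w + 1) p, Reach u v ∧ par q u v + K * (L : ℝ) ^ (1 / 3 : ℝ) ≤ T ω u v} ≤
        4 * Real.exp (-(cs - ε / 2) * K' ^ (3 / 2 : ℝ)) := by
    intro p
    obtain ⟨u0, v0, g1, g2, g3, g4⟩ := box_pair_ext hq1 hK1 hhalf (b.1, b.2 - w) 1 (2 * w + 1) p
      (L : ℤ) E (η * L) (2 * w + 3) ((K - 2 * sg q) * (L : ℝ) ^ (1 / 3 : ℝ))
      (fun u v => par q u v + K * (L : ℝ) ^ (1 / 3 : ℝ))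
      le_rfl (by omega) (by linarith) (by exact_mod_cast hL1) (by push_cast; linarith)
      (by have := hEL1; push_cast at this ⊢; linarith)
      hslope
      (by
        intro u hu v hv _
        have hd := (cross_dev hq1 hL1 b E w p hu hv).2
        have e1 : sg q / 2 * (2 * (w : ℝ)) ^ 2 / L ≤ 2 * sg q * (L : ℝ) ^ (1 / 3 : ℝ) := by
          rw [div_le_iff₀ hLpos]
          have e2 : (w : ℝ) ^ 2 ≤ (L : ℝ) ^ (1 / 3 : ℝ) * L := by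
            calc (w : ℝ) ^ 2 ≤ ((L : ℝ) ^ (2 / 3 : ℝ)) ^ 2 := by gcongr
              _ = (L : ℝ) ^ (1 / 3 : ℝ) * L := by
                nth_rewrite 3 [← hQR]
                rw [sq, ← hQQ]; ring
          calc sg q / 2 * (2 * (w : ℝ)) ^ 2 = 2 * sg q * (w : ℝ) ^ 2 := by ring
            _ ≤ 2 * sg q * ((L : ℝ) ^ (1 / 3 : ℝ) * L) := by gcongr
            _ = _ := by ring
        linarith)
    refine g4.trans (mul_le_mul_of_nonneg_left ?_ (by norm_num))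
    have hM1 : η * L ≤ ((⌈η * L⌉ : ℤ) : ℝ) := Int.le_ceil _
    have hM2 : ((⌈η * L⌉ : ℤ) : ℝ) < η * L + 1 := Int.ceil_lt_add_one _
    have g2' : dt u0 v0 = 2 * ((⌈η * L⌉ : ℤ) : ℝ) + 1 + L := by
      rw [g2]; push_cast; ring
    have hd1 : (L : ℝ) ≤ dt u0 v0 := by linarith
    have hd2 : dt u0 v0 ≤ (1 + 3 * η) * L := by linarith
    have hd0 : 0 < dt u0 v0 := by linarith
    have hdQ : dt u0 v0 ^ (1 / 3 : ℝ) ≤ r * (L : ℝ) ^ (1 / 3 : ℝ) := by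
      rw [hr, ← Real.mul_rpow (by linarith) hLpos.le]
      exact Real.rpow_le_rpow hd0.le hd2 (by norm_num)
    have hdx : |dx u0 v0| ≤ 2 * K' * dt u0 v0 ^ (2 / 3 : ℝ) :=
      bcs_dx hK0 hQ0 (by linarith) hr4 hEL hdQ g3
    have hlt : u0.1 < v0.1 := lt_of_dt_pos hd0
    have hpl : par q u0 v0 ≤ lin q (E / (L : ℤ)) u0 v0 := par_le_lin hq1 _ hlt
    have h1 : K' * dt u0 v0 ^ (1 / 3 : ℝ) ≤ K' * (r * (L : ℝ) ^ (1 / 3 : ℝ)) := by gcongr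
    have h2 := bcs_fin hsg.le hη0 hη1 hK1 hr0 hLpos hw1r hwr hQR hQQ rfl hB hK'
    refine le_trans (measureReal_mono ?_ (measure_ne_top _ _))
      (hN0 u0 v0 g1 (by linarith) hdx)
    intro ω hω
    rw [Set.mem_ofPred_eq] at hω ⊢
    refine le_trans ?_ hω
    linarith
  have hsum : (PE q).real (crossEv q L b E (K * (L : ℝ) ^ (1 / 3 : ℝ))) ≤
      8 * Real.exp (-(cs - ε / 2) * K' ^ (3 / 2 : ℝ)) := by
    refine (measureReal_mono hcov (measure_ne_top _ _)).trans ?_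
    refine (measureReal_biUnion_finset_le _ _).trans ?_
    refine (Finset.sum_le_sum fun p _ => hone p).trans ?_
    rw [Finset.sum_const]
    have : (Finset.Icc (0 : ℤ) 1).card = 2 := by decide
    rw [this, nsmul_eq_mul]
    apply le_of_eq
    push_cast
    ring
  exact hsum.trans hr5

end Pool.Agent.H22.LPP
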