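import Pool.Agent.H22.LPP.AliDef

/-!
# Crossing lower bound: the deterministic part
-/

open MeasureTheory ProbabilityTheory
open Pool.Agent.H99.NS

namespace Pool.Agent.H22.LPP

theorem par_le_mu {q : ℝ} (hq : q < 1) {u v : Site} (h : u.1 < v.1) : par q u v ≤ mu q * dt u v := by
  rw [par_def]
  have h1 := sg_nonneg hq
  have h2 := dt_pos h
  have : 0 ≤ sg q / 2 * dx u v ^ 2 / dt u v := by positivity
  linarith

theorem sixth_le {t L : ℝ} (ht : 0 < t) (htL : t ≤ L) : (t * L) ^ (1 / 6 : ℝ) ≤ L ^ (1 / 3 : ℝ) := by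
  have hL : 0 < L := by linarith
  calc (t * L) ^ (1 / 6 : ℝ) ≤ (L * L) ^ (1 / 6 : ℝ) :=
        Real.rpow_le_rpow (by positivity) (by gcongr) (by norm_num)
    _ = L ^ (1 / 3 : ℝ) := by
        rw [Real.mul_rpow hL.le hL.le, ← Real.rpow_add hL]; norm_num

/-- From a bound for `Y ≥ Y₀` to a bound for all `Y ≥ 0`. -/
theorem tail_all {C c s₀ Y₀ K : ℝ} (hC : 0 < C) (hc : 0 < c) (hs₀ : 0 < s₀) (hK : 0 < K)
    (_hY₀ : 0 ≤ Y₀) : ∃ C' c' : ℝ, 0 < C' ∧ 0 < c' ∧ ∀ (p : ℝ → ℝ), (∀ Y, p Y ≤ 1) →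
      (∀ Y, Y₀ ≤ Y → p Y ≤ C * Real.exp (-c * ((Y - Y₀) / K) ^ s₀)) →
      ∀ Y, 0 ≤ Y → p Y ≤ C' * Real.exp (-c' * Y ^ s₀) := by
  set c' : ℝ := c / (2 * K) ^ s₀ with hc'
  have h2K : 0 < (2 * K) ^ s₀ := Real.rpow_pos_of_pos (by positivity) _
  have hc'0 : 0 < c' := by positivity
  refine ⟨C + Real.exp (c' * (2 * Y₀) ^ s₀), c', by positivity, hc'0, ?_⟩
  intro p hp1 hp2 Y hY
  rcases lt_or_ge Y (2 * Y₀) with h | h
  · have h1 : (1 : ℝ) ≤ Real.exp (c' * (2 * Y₀) ^ s₀) * Real.exp (-c' * Y ^ s₀) := by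
      rw [← Real.exp_add]
      apply Real.one_le_exp
      have h2 : Y ^ s₀ ≤ (2 * Y₀) ^ s₀ := Real.rpow_le_rpow hY h.le hs₀.le
      nlinarith
    refine (hp1 Y).trans (h1.trans ?_)
    apply mul_le_mul_of_nonneg_right _ (Real.exp_pos _).le
    linarith
  · refine (hp2 Y (by linarith)).trans ?_
    have h1 : Y / (2 * K) ≤ (Y - Y₀) / K := by
      rw [div_le_div_iff₀ (by positivity) hK]
      nlinarith
    have h2 : (Y / (2 * K)) ^ s₀ ≤ ((Y - Y₀) / K) ^ s₀ :=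
      Real.rpow_le_rpow (by positivity) h1 hs₀.le
    have h3 : c * (Y / (2 * K)) ^ s₀ = c' * Y ^ s₀ := by
      rw [hc', Real.div_rpow hY (by positivity)]
      field_simp
    have h4 : Real.exp (-c * ((Y - Y₀) / K) ^ s₀) ≤ Real.exp (-c' * Y ^ s₀) := by
      apply Real.exp_le_exp.2
      have : c * (Y / (2 * K)) ^ s₀ ≤ c * ((Y - Y₀) / K) ^ s₀ := by gcongr
      linarith
    calc C * Real.exp (-c * ((Y - Y₀) / K) ^ s₀) ≤ C * Real.exp (-c' * Y ^ s₀) := by gcongr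
      _ ≤ _ := by
        apply mul_le_mul_of_nonneg_right _ (Real.exp_pos _).le
        linarith [Real.exp_pos (c' * (2 * Y₀) ^ s₀)]

theorem half_pow {x : ℝ} (hx : 0 ≤ x) : (x ^ 2) ^ (1 / 2 : ℝ) = x := by
  rw [← Real.rpow_natCast, ← Real.rpow_mul hx]
  norm_num

theorem wg_le {L : ℝ} {b u v : Site} {lam R K : ℝ} (hR : L ^ (2 / 3 : ℝ) = R) (hR0 : 0 < R)
    (hK : 0 ≤ K) (ht : 0 ≤ dt u v ^ (2 / 3 : ℝ))
    (h : (1 + |dx u v - lam * dt u v| / dt u v ^ (2 / 3 : ℝ)) *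
      (1 + (|dx b u - lam * dt b u| + |dx u v - lam * dt u v|) / R) ≤ K ^ 2) :
    wg L b u v lam ≤ K := by
  unfold wg
  rw [hR]
  calc _ ≤ (K ^ 2) ^ (1 / 2 : ℝ) := Real.rpow_le_rpow (by positivity) h (by norm_num)
    _ = K := half_pow hK

/-- A pair which crosses the slab is a pair of the all pairs lower bound, of bounded weight. -/
theorem bl_pt {Reg : Set Site} {L : ℕ} (hL : 1 ≤ L) (h24 : (24 : ℝ) ≤ (L : ℝ) ^ (1 / 24 : ℝ))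
    {b : Site} {E x y : ℤ} (hE : |(E : ℝ)| ≤ XL L) (g1 : Reach (b.1, x) (b.1 + L, y))
    (g2 : |((x - b.2 : ℤ) : ℝ)| ≤ (L : ℝ) ^ (2 / 3 : ℝ))
    (g3 : |((y - (b.2 + E) : ℤ) : ℝ)| ≤ (L : ℝ) ^ (2 / 3 : ℝ))
    (g4 : NearIn Reg (b.1, x) (b.1 + L, y)) :
    AliPair Reg L b (b.1, x) (b.1 + L, y) ∧
      wg L b (b.1, x) (b.1 + L, y) (E / (L : ℤ)) ≤ 4 := by
  have hLr : (1 : ℝ) ≤ L := by exact_mod_cast hL
  have hLpos : (0 : ℝ) < L := by linarith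
  have hR1 : 1 ≤ (L : ℝ) ^ (2 / 3 : ℝ) := Real.one_le_rpow hLr (by norm_num)
  have hRL : (L : ℝ) ^ (2 / 3 : ℝ) ≤ L := by
    calc (L : ℝ) ^ (2 / 3 : ℝ) ≤ (L : ℝ) ^ (1 : ℝ) :=
          Real.rpow_le_rpow_of_exponent_le hLr (by norm_num)
      _ = L := Real.rpow_one _
  have hlt : ((b.1, x) : Site).1 < ((b.1 + L, y) : Site).1 := by
    simp only; omega
  have hdt : dt (b.1, x) (b.1 + L, y) = L := by unfold dt; simp
  have hdtb : dt b (b.1, x) = 0 := by unfold dt; simp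
  have hX34 : (L : ℝ) ^ (3 / 4 : ℝ) = (L : ℝ) ^ (17 / 24 : ℝ) * (L : ℝ) ^ (1 / 24 : ℝ) := by
    rw [← Real.rpow_add hLpos]; norm_num
  have hR17 : (L : ℝ) ^ (2 / 3 : ℝ) ≤ (L : ℝ) ^ (17 / 24 : ℝ) :=
    Real.rpow_le_rpow_of_exponent_le hLr (by norm_num)
  have hX0 : 0 < (L : ℝ) ^ (17 / 24 : ℝ) := Real.rpow_pos_of_pos hLpos _
  have h3X : 3 * (L : ℝ) ^ (17 / 24 : ℝ) ≤ (L : ℝ) ^ (3 / 4 : ℝ) / 8 := by
    rw [hX34]
    have : (L : ℝ) ^ (17 / 24 : ℝ) * 24 ≤ (L : ℝ) ^ (17 / 24 : ℝ) * (L : ℝ) ^ (1 / 24 : ℝ) := by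
      gcongr
    linarith
  have hE' : |(E : ℝ)| ≤ (L : ℝ) ^ (17 / 24 : ℝ) := hE
  have hdxb : dx b (b.1, x) = ((x - b.2 : ℤ) : ℝ) := rfl
  have hdev : dx (b.1, x) (b.1 + L, y) - E / (L : ℤ) * L =
      ((y - (b.2 + E) : ℤ) : ℝ) - ((x - b.2 : ℤ) : ℝ) := by
    unfold dx
    push_cast
    rw [div_mul_cancel₀ _ hLpos.ne']
    ring
  obtain ⟨R, hR⟩ : ∃ R : ℝ, (L : ℝ) ^ (2 / 3 : ℝ) = R := ⟨_, rfl⟩
  rw [hR] at hR1 hRL hR17 g2 g3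
  have hR0 : 0 < R := by linarith
  have hdevle : |dx (b.1, x) (b.1 + L, y) - E / (L : ℤ) * L| ≤ 2 * R := by
    rw [hdev]
    exact (abs_sub _ _).trans (by linarith)
  have hdxle : |dx (b.1, x) (b.1 + L, y)| ≤ (L : ℝ) ^ (17 / 24 : ℝ) + 2 * R := by
    have e1 : dx (b.1, x) (b.1 + L, y) = (dx (b.1, x) (b.1 + L, y) - E / (L : ℤ) * L) + E := by
      push_cast
      rw [div_mul_cancel₀ _ hLpos.ne']
      ring
    rw [e1]
    exact (abs_add_le _ _).trans (by linarith)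
  refine ⟨⟨le_rfl, hlt, ?_, g1, ?_, ?_, g4⟩, ?_⟩
  · unfold dt; simp
  · rw [hdt]; linarith
  · rw [hdxb]; linarith
  · apply wg_le hR hR0 (by norm_num) (Real.rpow_nonneg (by rw [hdt]; linarith) _)
    rw [hdt, hdtb, mul_zero, sub_zero, hdxb, hR]
    have e1 : |dx (b.1, x) (b.1 + L, y) - E / (L : ℤ) * L| / R ≤ 2 := by
      rw [div_le_iff₀ hR0]; exact hdevle
    have e2 : (|((x - b.2 : ℤ) : ℝ)| +
        |dx (b.1, x) (b.1 + L, y) - E / (L : ℤ) * L|) / R ≤ 3 := by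
      rw [div_le_iff₀ hR0]; linarith
    calc (1 + |dx (b.1, x) (b.1 + L, y) - E / (L : ℤ) * L| / R) *
          (1 + (|((x - b.2 : ℤ) : ℝ)| + |dx (b.1, x) (b.1 + L, y) - E / (L : ℤ) * L|) / R)
        ≤ (1 + 2) * (1 + 3) := by gcongr
      _ ≤ 4 ^ 2 := by norm_num

end Pool.Agent.H22.LPP
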