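import Mathlib

/-!
# Real inequalities for one pair of boxes at scale `L`
-/

namespace Pool.Agent.H22.LPP

theorem floor_ge_half {x : ℝ} (hx : 1 ≤ x) : x / 2 ≤ (⌊x⌋ : ℝ) := by
  have h1 := Int.lt_floor_add_one x
  have h2 : (1 : ℤ) ≤ ⌊x⌋ := Int.le_floor.2 (by exact_mod_cast hx)
  have h3 : (1 : ℝ) ≤ (⌊x⌋ : ℝ) := by exact_mod_cast h2
  linarith

theorem cube_root_eq {L : ℝ} (hL : 0 < L) : L ^ (2 / 3 : ℝ) * L ^ (2 / 3 : ℝ) / L = L ^ (1 / 3 : ℝ) := by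
  rw [← Real.rpow_add hL, div_eq_iff hL.ne']
  nth_rewrite 3 [← Real.rpow_one L]
  rw [← Real.rpow_add hL]
  norm_num

/-- The width of the boxes at scale `L`. -/
theorem bn_width {L : ℝ} (hL : (22 : ℝ) ^ (12 : ℕ) ≤ L) {w : ℤ} (hwL : w = ⌊L ^ (2 / 3 : ℝ)⌋) :
    1 ≤ w ∧ (w : ℝ) ^ 2 / L ≤ L ^ (1 / 3 : ℝ) ∧ L ^ (1 / 3 : ℝ) / 4 ≤ (w : ℝ) ^ 2 / L ∧
      (w : ℝ) ≤ L ^ (3 / 4 : ℝ) / 22 := by
  have hL1 : 1 ≤ L := le_trans (by norm_num) hL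
  have hL0 : 0 < L := by linarith
  have hR1 : 1 ≤ L ^ (2 / 3 : ℝ) := Real.one_le_rpow hL1 (by norm_num)
  have hw1 : 1 ≤ w := by rw [hwL]; exact Int.le_floor.2 (by exact_mod_cast hR1)
  have hw' : (1 : ℝ) ≤ w := by exact_mod_cast hw1
  have hwR : (w : ℝ) ≤ L ^ (2 / 3 : ℝ) := by rw [hwL]; exact Int.floor_le _
  have hwR' : L ^ (2 / 3 : ℝ) / 2 ≤ (w : ℝ) := by rw [hwL]; exact floor_ge_half hR1
  have hRR := cube_root_eq hL0
  have h22 : (22 : ℝ) ≤ L ^ (1 / 12 : ℝ) := by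
    calc (22 : ℝ) = ((22 : ℝ) ^ (12 : ℕ)) ^ (1 / 12 : ℝ) := by
          rw [← Real.rpow_natCast, ← Real.rpow_mul (by norm_num)]
          norm_num
      _ ≤ L ^ (1 / 12 : ℝ) := Real.rpow_le_rpow (by norm_num) hL (by norm_num)
  have h34 : L ^ (3 / 4 : ℝ) = L ^ (2 / 3 : ℝ) * L ^ (1 / 12 : ℝ) := by
    rw [← Real.rpow_add hL0]
    norm_num
  refine ⟨hw1, ?_, ?_, ?_⟩
  · rw [← hRR, sq]
    gcongr
  · rw [← hRR]
    have : L ^ (2 / 3 : ℝ) * L ^ (2 / 3 : ℝ) / 4 ≤ (w : ℝ) ^ 2 := by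
      calc L ^ (2 / 3 : ℝ) * L ^ (2 / 3 : ℝ) / 4
          = (L ^ (2 / 3 : ℝ) / 2) ^ 2 := by ring
        _ ≤ _ := by gcongr
    calc L ^ (2 / 3 : ℝ) * L ^ (2 / 3 : ℝ) / L / 4
        = L ^ (2 / 3 : ℝ) * L ^ (2 / 3 : ℝ) / 4 / L := by ring
      _ ≤ _ := by gcongr
  · rw [h34, le_div_iff₀ (by norm_num)]
    gcongr

/-- The durations of the boxes. -/
theorem bn_dur {η L h a : ℝ} (hL0 : 0 < L) (hη2 : η ≤ 1 / 100) (hh' : 1 ≤ h)
    (hhL : h ≤ η * L) (haL' : L - h ≤ a * h) :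
    0 < a * h ∧ 0 < a ∧ L / 2 ≤ a * h ∧ h ≤ 2 * η * (a * h) := by
  have h1 : h ≤ L / 100 := by
    calc h ≤ η * L := hhL
      _ ≤ 1 / 100 * L := by gcongr
      _ = _ := by ring
  have h2 : L / 2 ≤ a * h := by linarith
  have h3 : 0 < a * h := by linarith
  have hη0 : 0 ≤ η := by
    by_contra hcon
    push Not at hcon
    have : η * L < 0 := mul_neg_of_neg_of_pos hcon hL0
    linarith
  refine ⟨h3, ?_, h2, ?_⟩
  · exact (pos_iff_pos_of_mul_pos h3).2 (by linarith)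
  · calc h ≤ η * L := hhL
      _ = 2 * η * (L / 2) := by ring
      _ ≤ _ := by gcongr

/-- The slope between the boxes. -/
theorem bn_slope {s D w η L h a : ℝ} (hw : 0 ≤ w)
    (hah0 : 0 < a * h) (hahL : L / 2 ≤ a * h) (hhh : h ≤ 2 * η * (a * h))
    (hs : s = D * w / (a * h)) :
    |s| * h ≤ 2 * η * (|D| * w) ∧ |s| * (4 * L) ≤ 8 * (|D| * w) := by
  have hs1 : |s| = |D| * w / (a * h) := by
    rw [hs, abs_div, abs_mul, abs_of_pos hah0, abs_of_nonneg hw]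
  have hDw : 0 ≤ |D| * w := by positivity
  constructor
  · rw [hs1, div_mul_eq_mul_div, div_le_iff₀ hah0]
    calc |D| * w * h ≤ |D| * w * (2 * η * (a * h)) := by gcongr
      _ = _ := by ring
  · rw [hs1, div_mul_eq_mul_div, div_le_iff₀ hah0]
    calc |D| * w * (4 * L) = 8 * (|D| * w) * (L / 2) := by ring
      _ ≤ _ := by gcongr

/-- The error term squared. -/
theorem bn_err {e w η D : ℝ} (he : e = 2 * w + 4 * η * (|D| * w)) :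
    e ^ 2 ≤ (8 + 32 * η ^ 2 * D ^ 2) * w ^ 2 := by
  have h2 : e = (2 + 4 * (η * |D|)) * w := by rw [he]; ring
  rw [h2, mul_pow]
  have h3 : (η * |D|) ^ 2 = η ^ 2 * D ^ 2 := by rw [mul_pow, sq_abs]
  have h4 : (2 + 4 * (η * |D|)) ^ 2 ≤ 8 + 32 * (η * |D|) ^ 2 := by
    nlinarith [sq_nonneg (2 - 4 * (η * |D|))]
  have : (2 + 4 * (η * |D|)) ^ 2 ≤ 8 + 32 * η ^ 2 * D ^ 2 := by
    calc _ ≤ _ := h4
      _ = _ := by rw [h3]; ring
  gcongr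

/-- A displacement is at least a multiple of the width. -/
theorem bn_disp {x w D : ℝ} (hw : 0 ≤ w) (k1 : |x - D * w| ≤ w) :
    w ^ 2 * (D ^ 2 / 4 - 1) ≤ x ^ 2 := by
  have k5 : (|D| - 1) * w ≤ |x| := by
    have : |D * w| ≤ |x| + |x - D * w| := by
      calc |D * w| = |x - (x - D * w)| := by rw [sub_sub_cancel]
        _ ≤ _ := abs_sub _ _
    rw [abs_mul, abs_of_nonneg hw] at this
    linarith
  rcases le_or_gt (2 : ℝ) |D| with h6 | h6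
  · have h7 : |D| / 2 * w ≤ |x| := by
      have : 0 ≤ (|D| / 2 - 1) * w := by apply mul_nonneg _ hw; linarith
      linarith
    have h8 : (|D| / 2 * w) ^ 2 ≤ |x| ^ 2 := by
      apply pow_le_pow_left₀ (by positivity) h7
    rw [sq_abs, mul_pow, div_pow, sq_abs] at h8
    linarith [sq_nonneg w]
  · have h7 : D ^ 2 ≤ 4 := by
      rw [← sq_abs]
      calc |D| ^ 2 ≤ 2 ^ 2 := by gcongr
        _ = 4 := by norm_num
    have : w ^ 2 * (D ^ 2 / 4 - 1) ≤ 0 := by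
      apply mul_nonpos_of_nonneg_of_nonpos (sq_nonneg _); linarith
    linarith [sq_nonneg x]

/-- The final comparison of exponents. -/
theorem bn_exp {S θ η Q L w D e X y K : ℝ} (hS : 0 ≤ S) (hθ : θ ≤ 1) (hθ0 : 0 ≤ θ) (hη : 0 < η)
    (hη1 : 100 * η ≤ 1 - θ) (hQ0 : 0 < Q) (hDD : |D| ≤ D ^ 2)
    (hw2' : Q / 4 ≤ w ^ 2 / L) (hw2 : w ^ 2 / L ≤ Q)
    (he2 : S * e ^ 2 / L ≤ S * ((8 + 32 * η ^ 2 * D ^ 2) * Q))
    (hy : y = X - S / 2 * e ^ 2 / L + (1 - θ) * (S / 4) * (w ^ 2 * (D ^ 2 / 4 - 1)) / L) :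
    X / (3 * Q) + (1 - θ) * S / 384 * |D| - (13 * S / 3 + 2 * K) ≤
      (y - S * e ^ 2 / L) / (3 * Q) - 2 * K := by
  have h1θ : 0 ≤ 1 - θ := by linarith
  have g1 : (1 - θ) * (S / 4) * ((Q / 16) * D ^ 2 - Q) ≤
      (1 - θ) * (S / 4) * (w ^ 2 * (D ^ 2 / 4 - 1)) / L := by
    have : (Q / 16) * D ^ 2 - Q ≤ w ^ 2 * (D ^ 2 / 4 - 1) / L := by
      have : w ^ 2 * (D ^ 2 / 4 - 1) / L = (w ^ 2 / L) * (D ^ 2 / 4) - w ^ 2 / L := by ring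
      rw [this]
      have h7 : Q / 4 * (D ^ 2 / 4) ≤ (w ^ 2 / L) * (D ^ 2 / 4) := by gcongr
      linarith
    rw [mul_div_assoc]
    exact mul_le_mul_of_nonneg_left this (by positivity)
  have g2 : S / 2 * e ^ 2 / L = S * e ^ 2 / L / 2 := by ring
  have g3 : X + Q * ((1 - θ) * S / 128 * D ^ 2 - 13 * S) ≤ y - S * e ^ 2 / L := by
    have h9 : 48 * η ^ 2 ≤ (1 - θ) / 128 := by
      have h91 : 100 * η ≤ 1 := by linarith
      have h92 : η ^ 2 ≤ 1 / 100 * η := by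
        rw [sq]; apply mul_le_mul_of_nonneg_right _ hη.le; linarith
      linarith
    have h10 : S * (48 * η ^ 2) * D ^ 2 * Q ≤ S * ((1 - θ) / 128) * D ^ 2 * Q := by gcongr
    have h11 : (1 - θ) * (S / 4) * Q ≤ 1 * (S / 4) * Q := by
      gcongr; linarith
    have h12 : 0 ≤ S * Q := mul_nonneg hS hQ0.le
    rw [hy, g2]
    linarith
  have g4 : (X + Q * ((1 - θ) * S / 128 * D ^ 2 - 13 * S)) / (3 * Q) ≤
      (y - S * e ^ 2 / L) / (3 * Q) := by gcongr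
  have g5 : (X + Q * ((1 - θ) * S / 128 * D ^ 2 - 13 * S)) / (3 * Q) =
      X / (3 * Q) + (1 - θ) * S / 384 * D ^ 2 - 13 * S / 3 := by
    field_simp
    ring
  have g6 : (1 - θ) * S / 384 * |D| ≤ (1 - θ) * S / 384 * D ^ 2 := by
    gcongr
  linarith

end Pool.Agent.H22.LPP
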