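import Pool.Agent.H22.LPP.Par
import Pool.Agent.H22.LPP.BoxNum

/-!
# One pair of boxes at scale `L`: comparison of the tangent line with the soft parabola
-/

open MeasureTheory ProbabilityTheory
open Pool.Agent.H99.NS

namespace Pool.Agent.H22.LPP

/-- The comparison for one pair of sites. -/
theorem box_cond {q : ℝ} (hq : q < 1) {θ : ℝ} (hθ : θ ≤ 1) {s w D L e X : ℝ} (hL0 : 0 < L)
    (hw : 0 ≤ w) {u v : Site} (huv : u.1 < v.1) (hd1 : L ≤ dt u v) (hd2 : dt u v ≤ 2 * L)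
    (k1 : |dx u v - D * w| ≤ w) (k3 : |dx u v - s * dt u v| ≤ e) :
    lin q s u v + (X - sg q / 2 * e ^ 2 / L +
      (1 - θ) * (sg q / 4) * (w ^ 2 * (D ^ 2 / 4 - 1)) / L) ≤ parS q θ u v + X := by
  have hsg := sg_nonneg hq
  have k4 : w ^ 2 * (D ^ 2 / 4 - 1) ≤ dx u v ^ 2 := bn_disp hw k1
  rw [parS_eq, par_eq_lin q s huv]
  have hdt : 0 < dt u v := by linarith
  have k6 : sg q / 2 * (dx u v - s * dt u v) ^ 2 / dt u v ≤ sg q / 2 * e ^ 2 / L := by
    have h8 : (dx u v - s * dt u v) ^ 2 ≤ e ^ 2 := sq_le_sq' (by linarith [abs_le.1 k3])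
      (abs_le.1 k3).2
    apply div_le_div₀ (by positivity) (by gcongr) hL0 hd1
  have k7 : (1 - θ) * (sg q / 4) * (w ^ 2 * (D ^ 2 / 4 - 1)) / L ≤
      (1 - θ) * (sg q / 2) * dx u v ^ 2 / dt u v := by
    have h1θ : 0 ≤ 1 - θ := by linarith
    calc (1 - θ) * (sg q / 4) * (w ^ 2 * (D ^ 2 / 4 - 1)) / L
        ≤ (1 - θ) * (sg q / 4) * dx u v ^ 2 / L := by gcongr
      _ = (1 - θ) * (sg q / 2) * dx u v ^ 2 / (2 * L) := by field_simp; ring
      _ ≤ _ := by gcongr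
  linarith

/-- Displacement and duration between two boxes. -/
theorem box_near {u v c0 : Site} {h w a D : ℤ}
    (h1 : c0.1 ≤ u.1) (h2 : u.1 < c0.1 + h) (h3 : c0.2 ≤ u.2) (h4 : u.2 < c0.2 + w)
    (h1' : c0.1 + a * h ≤ v.1) (h2' : v.1 < c0.1 + a * h + h)
    (h3' : c0.2 + D * w ≤ v.2) (h4' : v.2 < c0.2 + D * w + w) :
    |dx u v - D * w| ≤ w ∧ |dt u v - a * h| ≤ h := by
  constructor
  · have : dx u v - D * w = (((v.2 - (c0.2 + D * w)) - (u.2 - c0.2) : ℤ) : ℝ) := by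
      unfold dx; push_cast; ring
    rw [this, ← Int.cast_abs]
    exact_mod_cast (by rw [abs_le]; constructor <;> linarith :
      |(v.2 - (c0.2 + D * w)) - (u.2 - c0.2)| ≤ w)
  · have : dt u v - a * h = (((v.1 - (c0.1 + a * h)) - (u.1 - c0.1) : ℤ) : ℝ) := by
      unfold dt; push_cast; ring
    rw [this, ← Int.cast_abs]
    exact_mod_cast (by rw [abs_le]; constructor <;> linarith :
      |(v.1 - (c0.1 + a * h)) - (u.1 - c0.1)| ≤ h)

end Pool.Agent.H22.LPP
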