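import Pool.Agent.H22.LPP.Real

/-!
# One pair of boxes
-/

open MeasureTheory ProbabilityTheory
open Pool.Agent.H99.NS

namespace Pool.Agent.H22.LPP

/-- The sites of parity `p` in the box with corner `c`, duration `h` and width `w`. -/
noncomputable def box (c : Site) (h w p : ℤ) : Finset Site :=
  (Finset.Icc (c.1, c.2) (c.1 + h - 1, c.2 + w - 1)).filter (fun u => Even (u.1 + u.2 + p))

theorem mem_box {c : Site} {h w p : ℤ} {u : Site} :
    u ∈ box c h w p ↔ (c.1 ≤ u.1 ∧ u.1 < c.1 + h ∧ c.2 ≤ u.2 ∧ u.2 < c.2 + w) ∧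
      Even (u.1 + u.2 + p) := by
  unfold box
  rw [Finset.mem_filter, Finset.mem_Icc, Prod.le_def, Prod.le_def]
  simp only
  constructor
  · rintro ⟨⟨⟨h1, h2⟩, h3, h4⟩, h5⟩
    exact ⟨⟨h1, by omega, h2, by omega⟩, h5⟩
  · rintro ⟨⟨h1, h2, h3, h4⟩, h5⟩
    exact ⟨⟨⟨h1, h3⟩, by omega, by omega⟩, h5⟩

/-- An integer of given parity close to a real number. -/
theorem exists_parity_near (r : ℝ) (p : ℤ) : ∃ m : ℤ, |(m : ℝ) - r| ≤ 1 ∧ Even (m + p) := by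
  rcases Int.even_or_odd (⌊r⌋ + p) with h | h
  · refine ⟨⌊r⌋, ?_, h⟩
    rw [abs_le]
    constructor
    · linarith [Int.lt_floor_add_one r]
    · linarith [Int.floor_le r]
  · refine ⟨⌊r⌋ + 1, ?_, ?_⟩
    · push_cast
      rw [abs_le]
      constructor
      · linarith [Int.lt_floor_add_one r]
      · linarith [Int.floor_le r]
    · have := h.add_one
      rwa [show ⌊r⌋ + 1 + p = ⌊r⌋ + p + 1 by ring]

/-- A pair of boxes at distance `H` in time, `E` in space; `L` is the height of the extensions. -/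
theorem box_pair_ext {q : ℝ} (hq : q < 1) {K : ℝ} (hK : 0 ≤ K)
    (hhalf : ∀ u v : Site, Reach u v → u.1 < v.1 → |dx u v| ≤ dt u v ^ (3 / 4 : ℝ) →
      1 / 2 ≤ (PE q).real {ω | par q u v - K * dt u v ^ (1 / 3 : ℝ) ≤ T ω u v})
    (c0 : Site) (h w p H E : ℤ) (L e y : ℝ) (f : Site → Site → ℝ)
    (hh : 1 ≤ h) (hw : 1 ≤ w) (hL : 1 ≤ L) (hH : 1 ≤ H) (hhL : (h : ℝ) ≤ L)
    (he : 1 + (w : ℝ) + |(E : ℝ) / H| * h ≤ e)
    (hsl : |(E : ℝ) / H| * (4 * L) + e ≤ L ^ (3 / 4 : ℝ))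
    (hf : ∀ u ∈ box c0 h w p, ∀ v ∈ box (c0.1 + H, c0.2 + E) h w p, Reach u v →
      lin q (E / H) u v + y ≤ f u v) :
    ∃ u0 v0 : Site, Reach u0 v0 ∧ dt u0 v0 = 2 * (⌈L⌉ : ℤ) + h + H ∧
      |dx u0 v0 - E / H * dt u0 v0| ≤ 2 ∧
      (PE q).real {ω | ∃ u ∈ box c0 h w p, ∃ v ∈ box (c0.1 + H, c0.2 + E) h w p,
        Reach u v ∧ f u v ≤ T ω u v} ≤
      4 * (PE q).real {ω | lin q (E / H) u0 v0 + y - sg q * e ^ 2 / L - 4 * K * L ^ (1 / 3 : ℝ) ≤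
        T ω u0 v0} := by
  set s : ℝ := (E : ℝ) / H with hs
  have hh' : (1 : ℝ) ≤ h := by exact_mod_cast hh
  have hw' : (1 : ℝ) ≤ w := by exact_mod_cast hw
  have hH' : (1 : ℝ) ≤ H := by exact_mod_cast hH
  obtain ⟨M, hM0, hM1, hM2⟩ : ∃ M : ℤ, M = ⌈L⌉ ∧ L ≤ M ∧ (M : ℝ) ≤ 2 * L :=
    ⟨⌈L⌉, rfl, Int.le_ceil L, by linarith [Int.ceil_lt_add_one L]⟩
  obtain ⟨m, hm, hmp⟩ := exists_parity_near (s * M) (c0.1 + c0.2 + M + p)
  obtain ⟨m', hm', hmp'⟩ := exists_parity_near (s * (M + h))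
    (c0.1 + c0.2 + H + E + M + h + p)
  have hs0 : 0 ≤ |s| := abs_nonneg s
  have he0 : 0 ≤ e := by
    have : 0 ≤ |s| * h := by positivity
    linarith
  have hLp : ∀ r : ℝ, L ≤ r → L ^ (3 / 4 : ℝ) ≤ r ^ (3 / 4 : ℝ) := fun r hr =>
    Real.rpow_le_rpow (by linarith) hr (by norm_num)
  have hLp1 : ∀ r : ℝ, L ≤ r → r ^ (3 / 4 : ℝ) ≤ r := fun r hr => by
    calc r ^ (3 / 4 : ℝ) ≤ r ^ (1 : ℝ) := Real.rpow_le_rpow_of_exponent_le (by linarith)
          (by norm_num)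
      _ = r := Real.rpow_one r
  -- from the deviation to the other properties
  have hgen : ∀ u v : Site, L ≤ dt u v → dt u v ≤ 4 * L → |dx u v - s * dt u v| ≤ e →
      Even ((v.1 - u.1) + (v.2 - u.2)) → Reach u v ∧ |dx u v| ≤ dt u v ^ (3 / 4 : ℝ) := by
    intro u v h1 h2 h3 h4
    have h5 : |dx u v| ≤ dt u v ^ (3 / 4 : ℝ) := by
      have e1 : |dx u v| ≤ |dx u v - s * dt u v| + |s * dt u v| := by
        calc |dx u v| = |(dx u v - s * dt u v) + s * dt u v| := by rw [sub_add_cancel]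
          _ ≤ _ := abs_add_le _ _
      have e2 : |s * dt u v| ≤ |s| * (4 * L) := by
        rw [abs_mul, abs_of_nonneg (by linarith : 0 ≤ dt u v)]
        gcongr
      linarith [hLp _ h1]
    refine ⟨⟨?_, h4⟩, h5⟩
    have h6 := h5.trans (hLp1 _ h1)
    unfold dx dt at h6
    exact_mod_cast h6
  have e1 : dt (c0.1 - M, c0.2 - m) (c0.1 + H + (M + h), c0.2 + E + m') =
      2 * M + h + H := by
    unfold dt; push_cast; ring
  have e2 : dx (c0.1 - M, c0.2 - m) (c0.1 + H + (M + h), c0.2 + E + m') =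
      (m : ℝ) + m' + E := by
    unfold dx; push_cast; ring
  have e3 : (E : ℝ) = s * H := by
    rw [hs]; field_simp
  have e4 : dx (c0.1 - M, c0.2 - m) (c0.1 + H + (M + h), c0.2 + E + m') -
      s * dt (c0.1 - M, c0.2 - m) (c0.1 + H + (M + h), c0.2 + E + m') =
      (m - s * M) + (m' - s * (M + h)) := by
    rw [e1, e2, e3]; ring
  have e5 : |dx (c0.1 - M, c0.2 - m) (c0.1 + H + (M + h), c0.2 + E + m') -
      s * dt (c0.1 - M, c0.2 - m) (c0.1 + H + (M + h), c0.2 + E + m')| ≤ 2 := by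
    rw [e4]
    exact (abs_add_le _ _).trans (by linarith)
  refine ⟨(c0.1 - M, c0.2 - m), (c0.1 + H + (M + h), c0.2 + E + m'), ?_, ?_, e5, ?_⟩
  · -- reach between the two fixed points
    refine ⟨?_, ?_⟩
    · have e7 : |s| ≤ 1 / 4 := by
        have e6 : L ^ (3 / 4 : ℝ) ≤ L := hLp1 L le_rfl
        have : |s| * (4 * L) ≤ L := by linarith
        by_contra hcon
        push Not at hcon
        nlinarith
      have e8 : |dx (c0.1 - M, c0.2 - m) (c0.1 + H + (M + h), c0.2 + E + m')| ≤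
          dt (c0.1 - M, c0.2 - m) (c0.1 + H + (M + h), c0.2 + E + m') := by
        have e9 : |dx (c0.1 - M, c0.2 - m) (c0.1 + H + (M + h), c0.2 + E + m')| ≤ 2 +
            |s * dt (c0.1 - M, c0.2 - m) (c0.1 + H + (M + h), c0.2 + E + m')| := by
          have := abs_sub_abs_le_abs_sub
            (dx (c0.1 - M, c0.2 - m) (c0.1 + H + (M + h), c0.2 + E + m'))
            (s * dt (c0.1 - M, c0.2 - m) (c0.1 + H + (M + h), c0.2 + E + m'))
          linarith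
        rw [abs_mul, e1, abs_of_nonneg (by linarith : 0 ≤ 2 * (M : ℝ) + h + H)] at e9
        rw [e1]
        refine e9.trans ?_
        have : |s| * (2 * M + h + H) ≤ 1 / 4 * (2 * M + h + H) :=
          mul_le_mul_of_nonneg_right e7 (by linarith)
        linarith
      unfold dx dt at e8
      exact_mod_cast e8
    · obtain ⟨k, hk⟩ := hmp
      obtain ⟨l, hl⟩ := hmp'
      refine ⟨k + l - c0.1 - c0.2 - p, ?_⟩
      simp only
      linarith
  · rw [e1, hM0]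
  refine box_ext hq hK hhalf (box c0 h w p) (box (c0.1 + H, c0.2 + E) h w p)
    (c0.1 - M, c0.2 - m) (c0.1 + H + (M + h), c0.2 + E + m') s L e y (by linarith) f ?_ ?_ hf
  · intro u hu
    rw [mem_box] at hu
    obtain ⟨⟨h1, h2, h3, h4⟩, h5⟩ := hu
    have e1 : dt (c0.1 - M, c0.2 - m) u = ((u.1 - c0.1 : ℤ) : ℝ) + M := by
      unfold dt; push_cast; ring
    have e2 : dx (c0.1 - M, c0.2 - m) u = ((u.2 - c0.2 : ℤ) : ℝ) + m := by
      unfold dx; push_cast; ring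
    have b1 : (0 : ℝ) ≤ ((u.1 - c0.1 : ℤ) : ℝ) := by exact_mod_cast (by omega : 0 ≤ u.1 - c0.1)
    have b2 : ((u.1 - c0.1 : ℤ) : ℝ) ≤ h := by exact_mod_cast (by omega : u.1 - c0.1 ≤ h)
    have b3 : (0 : ℝ) ≤ ((u.2 - c0.2 : ℤ) : ℝ) := by exact_mod_cast (by omega : 0 ≤ u.2 - c0.2)
    have b4 : ((u.2 - c0.2 : ℤ) : ℝ) ≤ w := by exact_mod_cast (by omega : u.2 - c0.2 ≤ w)
    have h6 : L ≤ dt (c0.1 - M, c0.2 - m) u := by rw [e1]; linarith
    have h7 : dt (c0.1 - M, c0.2 - m) u ≤ 4 * L := by rw [e1]; linarith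
    have h8 : |dx (c0.1 - M, c0.2 - m) u - s * dt (c0.1 - M, c0.2 - m) u| ≤ e := by
      rw [e1, e2]
      have : ((u.2 - c0.2 : ℤ) : ℝ) + m - s * (((u.1 - c0.1 : ℤ) : ℝ) + M) =
          (m - s * M) + ((u.2 - c0.2 : ℤ) : ℝ) + (-(s * ((u.1 - c0.1 : ℤ) : ℝ))) := by ring
      rw [this]
      refine (abs_add_three _ _ _).trans ?_
      rw [abs_neg, abs_mul, abs_of_nonneg b1, abs_of_nonneg b3]
      have : |s| * ((u.1 - c0.1 : ℤ) : ℝ) ≤ |s| * h := by gcongr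
      linarith
    have h9 : Even ((u.1 - (c0.1 - M)) + (u.2 - (c0.2 - m))) := by
      obtain ⟨k, hk⟩ := h5
      obtain ⟨l, hl⟩ := hmp
      exact ⟨k + l - p - c0.1 - c0.2, by omega⟩
    obtain ⟨h10, h11⟩ := hgen _ _ h6 h7 h8 h9
    exact ⟨h10, h11, h6, by linarith, h8⟩
  · intro v hv
    rw [mem_box] at hv
    obtain ⟨⟨h1, h2, h3, h4⟩, h5⟩ := hv
    simp only at h1 h2 h3 h4
    have e1 : dt v (c0.1 + H + (M + h), c0.2 + E + m') =
        (M : ℝ) + h - ((v.1 - (c0.1 + H) : ℤ) : ℝ) := by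
      unfold dt; push_cast; ring
    have e2 : dx v (c0.1 + H + (M + h), c0.2 + E + m') =
        (m' : ℝ) - ((v.2 - (c0.2 + E) : ℤ) : ℝ) := by
      unfold dx; push_cast; ring
    have b1 : (0 : ℝ) ≤ ((v.1 - (c0.1 + H) : ℤ) : ℝ) := by
      exact_mod_cast (by omega : 0 ≤ v.1 - (c0.1 + H))
    have b2 : ((v.1 - (c0.1 + H) : ℤ) : ℝ) ≤ h := by
      exact_mod_cast (by omega : v.1 - (c0.1 + H) ≤ h)
    have b3 : (0 : ℝ) ≤ ((v.2 - (c0.2 + E) : ℤ) : ℝ) := by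
      exact_mod_cast (by omega : 0 ≤ v.2 - (c0.2 + E))
    have b4 : ((v.2 - (c0.2 + E) : ℤ) : ℝ) ≤ w := by
      exact_mod_cast (by omega : v.2 - (c0.2 + E) ≤ w)
    have h6 : L ≤ dt v (c0.1 + H + (M + h), c0.2 + E + m') := by rw [e1]; linarith
    have h7 : dt v (c0.1 + H + (M + h), c0.2 + E + m') ≤ 4 * L := by rw [e1]; linarith
    have h8 : |dx v (c0.1 + H + (M + h), c0.2 + E + m') -
        s * dt v (c0.1 + H + (M + h), c0.2 + E + m')| ≤ e := by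
      rw [e1, e2]
      have : (m' : ℝ) - ((v.2 - (c0.2 + E) : ℤ) : ℝ) -
          s * ((M : ℝ) + h - ((v.1 - (c0.1 + H) : ℤ) : ℝ)) =
          (m' - s * (M + h)) + (-((v.2 - (c0.2 + E) : ℤ) : ℝ)) +
            (s * ((v.1 - (c0.1 + H) : ℤ) : ℝ)) := by ring
      rw [this]
      refine (abs_add_three _ _ _).trans ?_
      rw [abs_neg, abs_mul, abs_of_nonneg b1, abs_of_nonneg b3]
      have : |s| * ((v.1 - (c0.1 + H) : ℤ) : ℝ) ≤ |s| * h := by gcongr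
      linarith
    have h9 : Even ((c0.1 + H + (M + h) - v.1) + (c0.2 + E + m' - v.2)) := by
      obtain ⟨k, hk⟩ := h5
      obtain ⟨l, hl⟩ := hmp'
      refine ⟨l - k, ?_⟩
      linarith
    obtain ⟨h10, h11⟩ := hgen _ _ h6 h7 h8 h9
    exact ⟨h10, h11, h6, by linarith, h8⟩

/-- A pair of boxes, with the weak upper tail. -/
theorem box_pair {q C c : ℝ} (hq : q < 1) (hc : 0 ≤ c) (hUT : UT1 q C c)
    {K : ℝ} (hK : 0 ≤ K)
    (hhalf : ∀ u v : Site, Reach u v → u.1 < v.1 → |dx u v| ≤ dt u v ^ (3 / 4 : ℝ) →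
      1 / 2 ≤ (PE q).real {ω | par q u v - K * dt u v ^ (1 / 3 : ℝ) ≤ T ω u v})
    (c0 : Site) (h w p H E : ℤ) (L e y : ℝ) (f : Site → Site → ℝ)
    (hh : 1 ≤ h) (hw : 1 ≤ w) (hL : 1 ≤ L) (hH : 1 ≤ H) (hhL : (h : ℝ) ≤ L)
    (hHL : (H : ℝ) ≤ 4 * L)
    (he : 1 + (w : ℝ) + |(E : ℝ) / H| * h ≤ e)
    (hsl : |(E : ℝ) / H| * (4 * L) + e ≤ L ^ (3 / 4 : ℝ))
    (hf : ∀ u ∈ box c0 h w p, ∀ v ∈ box (c0.1 + H, c0.2 + E) h w p, Reach u v →
      lin q (E / H) u v + y ≤ f u v) :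
    (PE q).real {ω | ∃ u ∈ box c0 h w p, ∃ v ∈ box (c0.1 + H, c0.2 + E) h w p,
        Reach u v ∧ f u v ≤ T ω u v} ≤
      4 * (max C 1 * Real.exp (-c * ((y - sg q * e ^ 2 / L) / (3 * L ^ (1 / 3 : ℝ)) - 2 * K))) := by
  have hL0 : 0 < L := by linarith
  have hL3 : 0 < L ^ (1 / 3 : ℝ) := Real.rpow_pos_of_pos hL0 _
  have hh' : (1 : ℝ) ≤ h := by exact_mod_cast hh
  have hH' : (1 : ℝ) ≤ H := by exact_mod_cast hH
  obtain ⟨u0, v0, h1, h2, h3, h4⟩ := box_pair_ext hq hK hhalf c0 h w p H E L e y f hh hw hL hH hhL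
    he hsl hf
  have hM2 : ((⌈L⌉ : ℤ) : ℝ) ≤ 2 * L := by linarith [Int.ceil_lt_add_one L]
  have hM1 : L ≤ ((⌈L⌉ : ℤ) : ℝ) := Int.le_ceil L
  have h27 : dt u0 v0 ^ (1 / 3 : ℝ) ≤ 3 * L ^ (1 / 3 : ℝ) := by
    calc dt u0 v0 ^ (1 / 3 : ℝ) ≤ (27 * L) ^ (1 / 3 : ℝ) :=
          Real.rpow_le_rpow (by rw [h2]; linarith) (by rw [h2]; linarith) (by norm_num)
      _ = 3 * L ^ (1 / 3 : ℝ) := by
        rw [Real.mul_rpow (by norm_num) hL0.le]
        congr 1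
        rw [show (27 : ℝ) = 3 ^ (3 : ℝ) by norm_num, ← Real.rpow_mul (by norm_num)]
        norm_num
  refine h4.trans (mul_le_mul_of_nonneg_left ?_ (by norm_num))
  set X : ℝ := (y - sg q * e ^ 2 / L) / (3 * L ^ (1 / 3 : ℝ)) - 2 * K with hX
  rcases lt_or_ge X 0 with hX0 | hX0
  · have h5 : (1 : ℝ) ≤ Real.exp (-c * X) := Real.one_le_exp (by nlinarith)
    have h6 : (1 : ℝ) ≤ max C 1 * Real.exp (-c * X) := by
      have := le_max_right C 1
      nlinarith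
    exact le_trans measureReal_le_one h6
  have h03 : u0.1 < v0.1 := by
    have : (0 : ℝ) < dt u0 v0 := by rw [h2]; linarith
    unfold dt at this
    have := Int.cast_pos.1 this
    omega
  have hfin : (PE q).real {ω | lin q (E / H) u0 v0 + y - sg q * e ^ 2 / L -
      4 * K * L ^ (1 / 3 : ℝ) ≤ T ω u0 v0} ≤ C * Real.exp (-c * X) := by
    refine le_trans (measureReal_mono ?_) (hUT u0 v0 h1 h03 X hX0)
    intro ω hω
    simp only [Set.mem_ofPred_eq] at hω ⊢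
    refine le_trans ?_ hω
    have h5 := par_le_lin hq (E / H) h03
    have h6 : X * dt u0 v0 ^ (1 / 3 : ℝ) ≤ X * (3 * L ^ (1 / 3 : ℝ)) := by gcongr
    have h7 : X * (3 * L ^ (1 / 3 : ℝ)) = y - sg q * e ^ 2 / L - 6 * K * L ^ (1 / 3 : ℝ) := by
      rw [hX]
      field_simp
      ring
    nlinarith [mul_nonneg hK hL3.le]
  refine hfin.trans ?_
  gcongr
  exact le_max_left _ _

end Pool.Agent.H22.LPP
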