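import Pool.Agent.H22.LPP.BoxPair
import Pool.Agent.H22.LPP.BoxCond

/-!
# One pair of boxes at scale `L`, with the gain of the soft parabola
-/

open MeasureTheory ProbabilityTheory
open Pool.Agent.H99.NS

namespace Pool.Agent.H22.LPP

/-- One pair of boxes at scale `L`. -/
theorem box_scale {q C c : ℝ} (hq : q < 1) (hc : 0 ≤ c) (hUT : UT1 q C c)
    {K : ℝ} (hK : 0 ≤ K)
    (hhalf : ∀ u v : Site, Reach u v → u.1 < v.1 → |dx u v| ≤ dt u v ^ (3 / 4 : ℝ) →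
      1 / 2 ≤ (PE q).real {ω | par q u v - K * dt u v ^ (1 / 3 : ℝ) ≤ T ω u v})
    {θ η : ℝ} (hθ : θ ≤ 1) (hθ0 : 0 ≤ θ) (hη : 0 < η) (hη1 : 100 * η ≤ 1 - θ)
    (c0 : Site) (h w p a D : ℤ) (L X : ℝ)
    (hh : 1 ≤ h) (hL : (22 : ℝ) ^ (12 : ℕ) ≤ L) (hwL : w = ⌊L ^ (2 / 3 : ℝ)⌋)
    (hhL : (h : ℝ) ≤ η * L) (haL : (a : ℝ) * h ≤ 4 * L) (haL' : L - h ≤ (a : ℝ) * h)
    (hD : |(D : ℝ)| * w ≤ L ^ (3 / 4 : ℝ) / 18 + w) :
    (PE q).real {ω | ∃ u ∈ box c0 h w p, ∃ v ∈ box (c0.1 + a * h, c0.2 + D * w) h w p,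
        Reach u v ∧ L ≤ dt u v ∧ dt u v ≤ 2 * L ∧ parS q θ u v + X ≤ T ω u v} ≤
      4 * max C 1 * Real.exp (c * (13 * sg q / 3 + 2 * K)) *
        Real.exp (-c * (X / (3 * L ^ (1 / 3 : ℝ)) + (1 - θ) * sg q / 384 * |(D : ℝ)|)) := by
  classical
  have hL1 : 1 ≤ L := le_trans (by norm_num) hL
  have hL0 : 0 < L := by linarith
  have hsg := sg_nonneg hq
  have hη2 : η ≤ 1 / 100 := by linarith
  have hh' : (1 : ℝ) ≤ h := by exact_mod_cast hh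
  obtain ⟨hw1, hw2, hw2', hwE⟩ := bn_width hL hwL
  clear hwL
  have hw' : (1 : ℝ) ≤ w := by exact_mod_cast hw1
  have hw0 : (0 : ℝ) ≤ w := by linarith
  obtain ⟨hah0, ha0, hahL, hhh⟩ := bn_dur hL0 hη2 hh' hhL haL'
  have ha1 : 1 ≤ a := by
    have := Int.cast_pos.1 ha0
    omega
  have hQ0 : 0 < L ^ (1 / 3 : ℝ) := Real.rpow_pos_of_pos hL0 _
  obtain ⟨s, hs⟩ : ∃ s : ℝ, s = (D : ℝ) * w / (a * h) := ⟨_, rfl⟩
  obtain ⟨hsh, hsL⟩ := bn_slope hw0 hah0 hahL hhh hs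
  have hDw : 0 ≤ |(D : ℝ)| * w := by positivity
  obtain ⟨e, he⟩ : ∃ e : ℝ, e = 2 * w + 4 * η * (|(D : ℝ)| * w) := ⟨_, rfl⟩
  have h5 : 0 ≤ η * (|(D : ℝ)| * w) := by positivity
  have h6 : η * (|(D : ℝ)| * w) ≤ 1 / 100 * (|(D : ℝ)| * w) := by gcongr
  have he2 : sg q * e ^ 2 / L ≤
      sg q * ((8 + 32 * η ^ 2 * (D : ℝ) ^ 2) * L ^ (1 / 3 : ℝ)) := by
    rw [mul_div_assoc]
    apply mul_le_mul_of_nonneg_left _ hsg
    calc e ^ 2 / L ≤ (8 + 32 * η ^ 2 * (D : ℝ) ^ 2) * (w : ℝ) ^ 2 / L := by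
          gcongr
          exact bn_err he
      _ = (8 + 32 * η ^ 2 * (D : ℝ) ^ 2) * ((w : ℝ) ^ 2 / L) := by ring
      _ ≤ _ := by gcongr
  -- the excess
  obtain ⟨y, hy⟩ : ∃ y : ℝ, y = X - sg q / 2 * e ^ 2 / L +
    (1 - θ) * (sg q / 4) * ((w : ℝ) ^ 2 * ((D : ℝ) ^ 2 / 4 - 1)) / L := ⟨_, rfl⟩
  have hcond : ∀ u ∈ box c0 h w p, ∀ v ∈ box (c0.1 + a * h, c0.2 + D * w) h w p, Reach u v →
      L ≤ dt u v → dt u v ≤ 2 * L → lin q s u v + y ≤ parS q θ u v + X := by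
    intro u hu v hv _ hd1 hd2
    rw [mem_box] at hu hv
    obtain ⟨⟨h1, h2, h3, h4⟩, _⟩ := hu
    obtain ⟨⟨h1', h2', h3', h4'⟩, _⟩ := hv
    have huv : u.1 < v.1 := by
      have : (0 : ℝ) < dt u v := by linarith
      unfold dt at this
      have := Int.cast_pos.1 this
      omega
    obtain ⟨k1, k2⟩ := box_near h1 h2 h3 h4 h1' h2' h3' h4'
    have k3 : |dx u v - s * dt u v| ≤ e := by
      have e3 : (D : ℝ) * w = s * (a * h) := by
        rw [hs, div_mul_cancel₀ _ hah0.ne']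
      have e4 : dx u v - s * dt u v = (dx u v - D * w) + (-(s * (dt u v - a * h))) := by
        rw [e3]; ring
      rw [e4]
      refine (abs_add_le _ _).trans ?_
      rw [abs_neg, abs_mul]
      have : |s| * |dt u v - a * h| ≤ |s| * h := by gcongr
      linarith
    rw [hy]
    exact box_cond hq hθ hL0 hw0 huv hd1 hd2 k1 k3
  have key := box_pair hq hc hUT hK hhalf c0 h w p (a * h) (D * w) L e y
    (fun u v => if L ≤ dt u v ∧ dt u v ≤ 2 * L then parS q θ u v + X else lin q s u v + y)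
    hh hw1 hL1 (one_le_mul_of_one_le_of_one_le ha1 hh)
    (hhL.trans (by
      have : η * L ≤ 1 / 100 * L := by gcongr
      linarith))
    (by push_cast; exact haL)
    (by
      push_cast
      rw [← hs]
      linarith)
    (by
      push_cast
      rw [← hs]
      linarith)
    (by
      intro u hu v hv huv
      push_cast
      rw [← hs]
      split_ifs with hcd
      · exact hcond u hu v hv huv hcd.1 hcd.2
      · exact le_rfl)
  have hmono : (PE q).real {ω | ∃ u ∈ box c0 h w p,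
      ∃ v ∈ box (c0.1 + a * h, c0.2 + D * w) h w p,
        Reach u v ∧ L ≤ dt u v ∧ dt u v ≤ 2 * L ∧ parS q θ u v + X ≤ T ω u v} ≤
      (PE q).real {ω | ∃ u ∈ box c0 h w p,
      ∃ v ∈ box (c0.1 + a * h, c0.2 + D * w) h w p, Reach u v ∧
        (if L ≤ dt u v ∧ dt u v ≤ 2 * L then parS q θ u v + X else lin q s u v + y) ≤
          T ω u v} := by
    refine measureReal_mono ?_ (measure_ne_top _ _)
    rintro ω ⟨u, hu, v, hv, h1, h2, h3, h4⟩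
    exact ⟨u, hu, v, hv, h1, by rw [if_pos ⟨h2, h3⟩]; exact h4⟩
  refine hmono.trans (key.trans ?_)
  have hDD : |(D : ℝ)| ≤ (D : ℝ) ^ 2 := by
    rcases eq_or_ne D 0 with h0 | h0
    · rw [h0]; simp
    · have : (1 : ℝ) ≤ |(D : ℝ)| := by
        rw [← Int.cast_abs]; exact_mod_cast Int.one_le_abs h0
      rw [← sq_abs, sq]
      exact le_mul_of_one_le_left (abs_nonneg _) this
  have hY := bn_exp (K := K) hsg hθ hθ0 hη hη1 hQ0 hDD hw2' hw2 he2 hy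
  have hexp : Real.exp (-c * ((y - sg q * e ^ 2 / L) / (3 * L ^ (1 / 3 : ℝ)) - 2 * K)) ≤
      Real.exp (c * (13 * sg q / 3 + 2 * K)) *
        Real.exp (-c * (X / (3 * L ^ (1 / 3 : ℝ)) + (1 - θ) * sg q / 384 * |(D : ℝ)|)) := by
    rw [← Real.exp_add]
    apply Real.exp_le_exp.2
    have := mul_le_mul_of_nonneg_left hY hc
    linarith
  calc 4 * (max C 1 *
        Real.exp (-c * ((y - sg q * e ^ 2 / L) / (3 * L ^ (1 / 3 : ℝ)) - 2 * K)))
      ≤ 4 * (max C 1 * (Real.exp (c * (13 * sg q / 3 + 2 * K)) *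
        Real.exp (-c * (X / (3 * L ^ (1 / 3 : ℝ)) + (1 - θ) * sg q / 384 * |(D : ℝ)|)))) := by
        gcongr
    _ = _ := by ring

end Pool.Agent.H22.LPP
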