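import Pool.Agent.H22.LPP.Grid

/-!
# Chains of grid points
-/

open MeasureTheory ProbabilityTheory
open Pool.Agent.H99.NS

namespace Pool.Agent.H22.LPP

theorem gw_even {j : ℕ} (hj : 1 ≤ j) : Even (gw j) := by
  unfold gw
  obtain ⟨k, hk⟩ : ∃ k, (2 * j + 2) / 3 = k + 1 := ⟨(2 * j + 2) / 3 - 1, by omega⟩
  rw [hk, pow_succ]
  exact (even_two).mul_left _

theorem gp_even {j : ℕ} (hj : 1 ≤ j) (a β : ℤ) : Even (gp j a β).1 ∧ Even (gp j a β).2 := by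
  unfold gp
  simp only
  refine ⟨?_, (gw_even hj).mul_left _⟩
  obtain ⟨k, rfl⟩ : ∃ k, j = k + 1 := ⟨j - 1, by omega⟩
  rw [pow_succ, ← mul_assoc]
  exact (even_two).mul_left _

/-- The grid of scale `j + 1` is contained in the grid of scale `j`. -/
theorem gp_succ (j : ℕ) (a β : ℤ) : ∃ κ : ℤ, gp (j + 1) a β = gp j (2 * a) (κ * β) := by
  rcases (by omega : (2 * (j + 1) + 2) / 3 = (2 * j + 2) / 3 ∨
    (2 * (j + 1) + 2) / 3 = (2 * j + 2) / 3 + 1) with h | h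
  · refine ⟨1, ?_⟩
    unfold gp gw
    rw [h, pow_succ]
    exact Prod.ext (by simp only; ring) (by simp only; ring)
  · refine ⟨2, ?_⟩
    unfold gp gw
    rw [h, pow_succ, pow_succ]
    exact Prod.ext (by simp only; ring) (by simp only; ring)

theorem gw_succ_le (j : ℕ) : (gw (j + 1) : ℝ) ≤ 2 * gw j := by
  rcases (by omega : (2 * (j + 1) + 2) / 3 = (2 * j + 2) / 3 ∨
    (2 * (j + 1) + 2) / 3 = (2 * j + 2) / 3 + 1) with h | h
  · unfold gw
    rw [h]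
    have : (0 : ℝ) < ((2 ^ ((2 * j + 2) / 3) : ℤ) : ℝ) := by positivity
    linarith
  · unfold gw
    rw [h, pow_succ]
    push_cast
    linarith

/-- The environment is good at all scales up to `L`. -/
def GridGood {Ω : Type*} (X : Ω → Site → Site → ℝ) (Reg : Set Site) (q L : ℝ) (b : Site)
    (lam Y : ℝ) (ω : Ω) : Prop :=
  ∀ j : ℕ, (2 : ℝ) ^ j ≤ L → ω ∉ gridBad X Reg q L b lam Y j

theorem pow32 : (6 : ℝ) ≤ ((2 : ℝ) ^ 32) ^ (1 / 12 : ℝ) := by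
  calc (6 : ℝ) = ((6 : ℝ) ^ (12 : ℕ)) ^ (1 / 12 : ℝ) := by
        rw [← Real.rpow_natCast, ← Real.rpow_mul (by norm_num)]
        norm_num
    _ ≤ _ := Real.rpow_le_rpow (by norm_num) (by norm_num) (by norm_num)

/-- One step of the chain. -/
theorem chain_step {Ω : Type*} {X : Ω → Site → Site → ℝ} {Reg : Set Site} {q : ℝ} (hq : q < 1)
    {L : ℝ} {b : Site} {lam Y : ℝ} (hY : 0 ≤ Y)
    {ω : Ω} (hω : GridGood X Reg q L b lam Y ω) {j : ℕ} (hj : 32 ≤ j) (hjL : (2 : ℝ) ^ j ≤ L)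
    {g g' : Site} {a β m n : ℤ} (hg : g = gp j a β) (hg' : g' = gp j (a + m) (β + n))
    (hm1 : 1 ≤ m) (hm2 : m ≤ 32) (hRg : g ∈ Reg) (hRg' : g' ∈ Reg) (hb1 : b.1 ≤ g.1) (hb2 : dt b g ≤ L) (hb3 : |dx b g| ≤ 16 * L)
    {s M : ℝ} (hs : |s| * dt g g' ≤ dt g g' ^ (3 / 4 : ℝ) / 4)
    (hdev : |dx g g' - s * dt g g'| ≤ 3 * ((2 : ℝ) ^ j) ^ (2 / 3 : ℝ))
    (hM : Wt L b lam j g g' ≤ M) :
    Reach g g' ∧ lin q s g g' - (5 * sg q + 4 * (Y * M)) * ((2 : ℝ) ^ j * L) ^ (1 / 6 : ℝ) ≤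
      X ω g g' := by
  have hsg := sg_nonneg hq
  set r : ℝ := (2 : ℝ) ^ j with hr
  have hr1 : 1 ≤ r := one_le_pow₀ (by norm_num)
  have hr0 : 0 < r := by linarith
  have hL0 : 0 < L := by linarith
  have hdt : dt g g' = m * r := by
    rw [hg, hg', hr]; unfold dt gp; push_cast; ring
  have hm1' : (1 : ℝ) ≤ m := by exact_mod_cast hm1
  have hm2' : (m : ℝ) ≤ 32 := by exact_mod_cast hm2
  have hdt1 : r ≤ dt g g' := by rw [hdt]; nlinarith
  have hdt2 : dt g g' ≤ 32 * r := by rw [hdt]; nlinarith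
  have hdt0 : 0 < dt g g' := by linarith
  have hdt11 : 1 ≤ dt g g' := by linarith
  have hlt : g.1 < g'.1 := by
    have : (0 : ℝ) < dt g g' := hdt0
    unfold dt at this
    have := Int.cast_pos.1 this
    omega
  have hr12 : 6 ≤ r ^ (1 / 12 : ℝ) := by
    refine pow32.trans (Real.rpow_le_rpow (by positivity) ?_ (by norm_num))
    rw [hr]
    exact pow_le_pow_right₀ (by norm_num) hj
  have h34 : 6 * r ^ (2 / 3 : ℝ) ≤ dt g g' ^ (3 / 4 : ℝ) := by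
    calc 6 * r ^ (2 / 3 : ℝ) ≤ r ^ (1 / 12 : ℝ) * r ^ (2 / 3 : ℝ) := by gcongr
      _ = r ^ (3 / 4 : ℝ) := by rw [← Real.rpow_add hr0]; norm_num
      _ ≤ _ := Real.rpow_le_rpow hr0.le hdt1 (by norm_num)
  have hdx : |dx g g'| ≤ dt g g' ^ (3 / 4 : ℝ) := by
    have e1 : |dx g g'| ≤ |dx g g' - s * dt g g'| + |s * dt g g'| := by
      calc |dx g g'| = |(dx g g' - s * dt g g') + s * dt g g'| := by rw [sub_add_cancel]
        _ ≤ _ := abs_add_le _ _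
    rw [abs_mul, abs_of_pos hdt0] at e1
    have : 0 ≤ dt g g' ^ (3 / 4 : ℝ) := by positivity
    linarith
  have hreach : Reach g g' := by
    refine ⟨?_, ?_⟩
    · have h1 : dt g g' ^ (3 / 4 : ℝ) ≤ dt g g' := by
        calc dt g g' ^ (3 / 4 : ℝ) ≤ dt g g' ^ (1 : ℝ) :=
              Real.rpow_le_rpow_of_exponent_le hdt11 (by norm_num)
          _ = _ := Real.rpow_one _
      have h2 := hdx.trans h1
      unfold dx dt at h2
      exact_mod_cast h2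
    · have h1 := gp_even (by omega : 1 ≤ j) a β
      have h2 := gp_even (by omega : 1 ≤ j) (a + m) (β + n)
      rw [hg, hg']
      exact (h2.1.sub h1.1).add (h2.2.sub h1.2)
  refine ⟨hreach, ?_⟩
  -- the good event
  have hgood : par q g g' - Y * (L / 2 ^ j) ^ (1 / 6 : ℝ) * Wt L b lam j g g' *
      dt g g' ^ (1 / 3 : ℝ) ≤ X ω g g' := by
    by_contra hcon
    push Not at hcon
    apply hω j hjL
    refine ⟨a, β, m, n, hm1, hm2, ?_, ?_, ?_, ?_, ?_, ?_, ?_⟩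
    · rw [hg] at hb1; exact hb1
    · rw [hg] at hb2
      unfold dt gp at hb2
      simp only at hb2
      push_cast at hb2 ⊢
      linarith
    · rw [hg] at hb3; exact hb3
    · rw [← hg, ← hg']; exact ⟨hRg, hRg'⟩
    · rw [← hg, ← hg']; exact hreach
    · rw [← hg, ← hg']; exact hdx
    · rw [← hg, ← hg']; exact hcon.le
  refine le_trans ?_ hgood
  rw [par_eq_lin q s hlt]
  have hrL0 : 0 < r * L := by positivity
  have hrl : r ^ (1 / 3 : ℝ) ≤ (r * L) ^ (1 / 6 : ℝ) := by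
    calc r ^ (1 / 3 : ℝ) = (r * r) ^ (1 / 6 : ℝ) := by
          rw [Real.mul_rpow hr0.le hr0.le, ← Real.rpow_add hr0]; norm_num
      _ ≤ _ := Real.rpow_le_rpow (by positivity) (by gcongr) (by norm_num)
  have t1 : sg q / 2 * (dx g g' - s * dt g g') ^ 2 / dt g g' ≤ 5 * sg q * (r * L) ^ (1 / 6 : ℝ) := by
    have h1 : (dx g g' - s * dt g g') ^ 2 ≤ (3 * r ^ (2 / 3 : ℝ)) ^ 2 := by
      rw [← sq_abs (dx g g' - s * dt g g')]
      exact pow_le_pow_left₀ (abs_nonneg _) hdev 2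
    have h2 : r ^ (2 / 3 : ℝ) * r ^ (2 / 3 : ℝ) / r = r ^ (1 / 3 : ℝ) := cube_root_eq hr0
    calc sg q / 2 * (dx g g' - s * dt g g') ^ 2 / dt g g'
        ≤ sg q / 2 * (3 * r ^ (2 / 3 : ℝ)) ^ 2 / r := by
          apply div_le_div₀ (by positivity) (by gcongr) hr0 hdt1
      _ = 9 / 2 * sg q * (r ^ (2 / 3 : ℝ) * r ^ (2 / 3 : ℝ) / r) := by ring
      _ = 9 / 2 * sg q * r ^ (1 / 3 : ℝ) := by rw [h2]
      _ ≤ 9 / 2 * sg q * (r * L) ^ (1 / 6 : ℝ) := by gcongr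
      _ ≤ _ := by
          have : 0 ≤ sg q * (r * L) ^ (1 / 6 : ℝ) := by positivity
          nlinarith
  have hWt0 : 0 ≤ Wt L b lam j g g' := by unfold Wt; positivity
  have hdt13 : dt g g' ^ (1 / 3 : ℝ) ≤ 4 * r ^ (1 / 3 : ℝ) := by
    calc dt g g' ^ (1 / 3 : ℝ) ≤ (64 * r) ^ (1 / 3 : ℝ) :=
          Real.rpow_le_rpow hdt0.le (by linarith) (by norm_num)
      _ = 4 * r ^ (1 / 3 : ℝ) := by
        rw [Real.mul_rpow (by norm_num) hr0.le]
        congr 1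
        rw [show (64 : ℝ) = 4 ^ (3 : ℝ) by norm_num, ← Real.rpow_mul (by norm_num)]
        norm_num
  have hprod : (L / r) ^ (1 / 6 : ℝ) * r ^ (1 / 3 : ℝ) = (r * L) ^ (1 / 6 : ℝ) := by
    have : r ^ (1 / 3 : ℝ) = (r * r) ^ (1 / 6 : ℝ) := by
      rw [Real.mul_rpow hr0.le hr0.le, ← Real.rpow_add hr0]; norm_num
    rw [this, ← Real.mul_rpow (by positivity) (by positivity)]
    congr 1
    field_simp
  have t2 : Y * (L / r) ^ (1 / 6 : ℝ) * Wt L b lam j g g' * dt g g' ^ (1 / 3 : ℝ) ≤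
      4 * (Y * M) * (r * L) ^ (1 / 6 : ℝ) := by
    calc Y * (L / r) ^ (1 / 6 : ℝ) * Wt L b lam j g g' * dt g g' ^ (1 / 3 : ℝ)
        ≤ Y * (L / r) ^ (1 / 6 : ℝ) * M * (4 * r ^ (1 / 3 : ℝ)) := by
          have hM0 : 0 ≤ M := hWt0.trans hM
          gcongr
      _ = 4 * (Y * M) * ((L / r) ^ (1 / 6 : ℝ) * r ^ (1 / 3 : ℝ)) := by ring
      _ = _ := by rw [hprod]
  nlinarith

/-- Time index of the chain going up from `z`. -/
def aU (t : ℤ) (j : ℕ) : ℤ := t / 2 ^ j + 2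

theorem aU_bounds (t : ℤ) (j : ℕ) : t + 2 ^ j < aU t j * 2 ^ j ∧ aU t j * 2 ^ j ≤ t + 2 * 2 ^ j := by
  have hp : (0 : ℤ) < 2 ^ j := by positivity
  have h1 := Int.emod_add_mul_ediv t (2 ^ j)
  have h2 := Int.emod_nonneg t hp.ne'
  have h3 := Int.emod_lt_of_pos t hp
  unfold aU
  constructor
  · nlinarith
  · nlinarith

theorem aU_succ (t : ℤ) (j : ℕ) : 1 ≤ 2 * aU t (j + 1) - aU t j ∧ 2 * aU t (j + 1) - aU t j ≤ 3 := by
  have hp : (0 : ℤ) < 2 ^ j := by positivity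
  obtain ⟨h1, h2⟩ := aU_bounds t j
  obtain ⟨h3, h4⟩ := aU_bounds t (j + 1)
  rw [pow_succ] at h3 h4
  constructor
  · by_contra hcon
    push Not at hcon
    have : 2 * aU t (j + 1) - aU t j ≤ 0 := by omega
    have h5 : (2 * aU t (j + 1) - aU t j) * 2 ^ j ≤ 0 :=
      mul_nonpos_of_nonpos_of_nonneg this hp.le
    nlinarith
  · by_contra hcon
    push Not at hcon
    have : 4 ≤ 2 * aU t (j + 1) - aU t j := by omega
    have h5 : 4 * 2 ^ j ≤ (2 * aU t (j + 1) - aU t j) * 2 ^ j :=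
      mul_le_mul_of_nonneg_right this hp.le
    nlinarith

/-- The grid point of scale `j` with time index `a` near the line of slope `s` through `z`. -/
noncomputable def gl (z : Site) (s : ℝ) (j : ℕ) (a : ℤ) : Site :=
  gp j a (round (((z.2 : ℝ) + s * ((a * 2 ^ j - z.1 : ℤ) : ℝ)) / gw j))

theorem gl_dev (z : Site) (s : ℝ) (j : ℕ) (a : ℤ) :
    |dx z (gl z s j a) - s * dt z (gl z s j a)| ≤ ((2 : ℝ) ^ j) ^ (2 / 3 : ℝ) := by
  have hw : (0 : ℝ) < gw j := by exact_mod_cast gw_pos j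
  set x : ℝ := ((z.2 : ℝ) + s * ((a * 2 ^ j - z.1 : ℤ) : ℝ)) / gw j with hx
  have h1 := abs_sub_round x
  have e1 : dx z (gl z s j a) - s * dt z (gl z s j a) = -(gw j * (x - round x)) := by
    unfold gl dx dt gp
    simp only
    rw [← hx]
    have : (gw j : ℝ) * x = (z.2 : ℝ) + s * ((a * 2 ^ j - z.1 : ℤ) : ℝ) := by
      rw [hx]; field_simp
    push_cast at this ⊢
    linear_combination this
  rw [e1, abs_neg, abs_mul, abs_of_pos hw]
  have h2 := gw_le j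
  nlinarith

theorem gl_dt (z : Site) (s : ℝ) (j : ℕ) (a : ℤ) (b : Site) :
    dt b (gl z s j a) = ((a * 2 ^ j - b.1 : ℤ) : ℝ) := by
  unfold gl dt gp; rfl

end Pool.Agent.H22.LPP
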