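import Pool.Agent.H22.LPP.Prob

/-!
# Decoupling of a random maximiser and extension of passage times
-/

open MeasureTheory ProbabilityTheory
open Pool.Agent.H99.NS
open scoped ENNReal

namespace Pool.Agent.H22.LPP

/-- Decoupling with a stopping rule: the events `E i` depend on `A i`, the events `G i` on `B i`,
and `B i` is disjoint from `A j` whenever `r j ≤ r i`. -/
theorem cond_union_stop (q : ℝ) {ι : Type*} [DecidableEq ι] (r : ι → ℤ) (S : Finset ι)
    (A B : ι → Set Site) (E G : ι → Set Env) (κ : ℝ≥0∞)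
    (hAB : ∀ i ∈ S, ∀ j ∈ S, r j ≤ r i → Disjoint (A j) (B i))
    (hE : ∀ i ∈ S, MeasurableSet (E i)) (hG : ∀ i ∈ S, MeasurableSet (G i))
    (hEA : ∀ i ∈ S, DepOn (A i) (fun ω => ω ∈ E i))
    (hGB : ∀ i ∈ S, DepOn (B i) (fun ω => ω ∈ G i))
    (hκ : ∀ i ∈ S, κ ≤ PE q (G i)) :
    κ * PE q (⋃ i ∈ S, E i) ≤ PE q (⋃ i ∈ S, (E i ∩ G i)) := by
  induction S using Finset.induction_on_max_value r with
  | empty => simp
  | insert a S ha hmax ih =>
    have ih' := ih
      (fun i hi j hj => hAB i (Finset.mem_insert_of_mem hi) j (Finset.mem_insert_of_mem hj))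
      (fun i hi => hE i (Finset.mem_insert_of_mem hi))
      (fun i hi => hG i (Finset.mem_insert_of_mem hi))
      (fun i hi => hEA i (Finset.mem_insert_of_mem hi))
      (fun i hi => hGB i (Finset.mem_insert_of_mem hi))
      (fun i hi => hκ i (Finset.mem_insert_of_mem hi))
    have ma : a ∈ insert a S := Finset.mem_insert_self _ _
    have hU : MeasurableSet (⋃ i ∈ S, E i) :=
      Finset.measurableSet_biUnion _ fun i hi => hE i (Finset.mem_insert_of_mem hi)
    have hD : MeasurableSet (E a \ ⋃ i ∈ S, E i) := (hE a ma).diff hU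
    have hdep : DepOn (⋃ j ∈ insert a S, A j) (fun ω => ω ∈ E a \ ⋃ i ∈ S, E i) := by
      intro ω ω' h
      simp only [Set.mem_sdiff, Set.mem_iUnion, not_exists, eq_iff_iff]
      have h1 := hEA a ma ω ω' (fun x hx => h x (Set.mem_iUnion₂.2 ⟨a, ma, hx⟩))
      simp only [eq_iff_iff] at h1
      refine and_congr h1 (forall₂_congr fun i hi => not_congr ?_)
      have h2 := hEA i (Finset.mem_insert_of_mem hi) ω ω'
        (fun x hx => h x (Set.mem_iUnion₂.2 ⟨i, Finset.mem_insert_of_mem hi, hx⟩))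
      simpa only [eq_iff_iff] using h2
    have hdis : Disjoint (⋃ j ∈ insert a S, A j) (B a) := by
      rw [Set.disjoint_iUnion₂_left]
      intro j hj
      refine hAB a ma j hj ?_
      rcases Finset.mem_insert.1 hj with rfl | hj'
      · exact le_rfl
      · exact hmax j hj'
    have h1 : PE q ((E a \ ⋃ i ∈ S, E i) ∩ G a) = PE q (E a \ ⋃ i ∈ S, E i) * PE q (G a) :=
      measure_inter_of_depOn q hdis hD (hG a ma) hdep (hGB a ma)
    have h2 : PE q (⋃ i ∈ insert a S, E i) = PE q (⋃ i ∈ S, E i) + PE q (E a \ ⋃ i ∈ S, E i) := by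
      rw [Finset.set_biUnion_insert, Set.union_comm, ← Set.union_sdiff_self,
        measure_union Set.disjoint_sdiff_right hD]
    have h3 : PE q (⋃ i ∈ S, (E i ∩ G i)) + PE q ((E a \ ⋃ i ∈ S, E i) ∩ G a) ≤
        PE q (⋃ i ∈ insert a S, (E i ∩ G i)) := by
      rw [← measure_union]
      · apply measure_mono
        rw [Finset.set_biUnion_insert]
        apply Set.union_subset
        · exact Set.subset_union_right
        · rintro ω ⟨h4, h5⟩
          exact Or.inl ⟨h4.1, h5⟩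
      · rw [Set.disjoint_left]
        intro ω h4 h5
        simp only [Set.mem_iUnion] at h4
        obtain ⟨i, hi, h6⟩ := h4
        exact h5.1.2 (Set.mem_iUnion₂.2 ⟨i, hi, h6.1⟩)
      · exact hD.inter (hG a ma)
    calc κ * PE q (⋃ i ∈ insert a S, E i)
        = κ * PE q (⋃ i ∈ S, E i) + κ * PE q (E a \ ⋃ i ∈ S, E i) := by rw [h2, mul_add]
      _ ≤ PE q (⋃ i ∈ S, (E i ∩ G i)) + PE q ((E a \ ⋃ i ∈ S, E i) ∩ G a) := by
          apply add_le_add ih'
          rw [h1, mul_comm]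
          gcongr
          exact hκ a ma
      _ ≤ _ := h3

/-- Decoupling: the events `E i` depend on `A`, the events `G i` on a disjoint set `B` and have
probability at least `κ`; then the union of the `E i ∩ G i` has probability at least `κ` times
that of the union of the `E i`. -/
theorem cond_union (q : ℝ) {ι : Type*} [DecidableEq ι] (S : Finset ι) {A B : Set Site}
    (hAB : Disjoint A B) (E G : ι → Set Env) (κ : ℝ≥0∞)
    (hE : ∀ i ∈ S, MeasurableSet (E i)) (hG : ∀ i ∈ S, MeasurableSet (G i))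
    (hEA : ∀ i ∈ S, DepOn A (fun ω => ω ∈ E i)) (hGB : ∀ i ∈ S, DepOn B (fun ω => ω ∈ G i))
    (hκ : ∀ i ∈ S, κ ≤ PE q (G i)) :
    κ * PE q (⋃ i ∈ S, E i) ≤ PE q (⋃ i ∈ S, (E i ∩ G i)) :=
  cond_union_stop q (fun _ => 0) S (fun _ => A) (fun _ => B) E G κ (fun _ _ _ _ _ => hAB)
    hE hG hEA hGB hκ

/-- Extension of the best pair between two levels to fixed points outside the slab. -/
theorem ext_sup (q : ℝ) {s t : ℤ} (S : Finset (ℤ × ℤ)) (u0 v0 : Site) (f : ℤ × ℤ → ℝ)
    (α β : ℤ → ℝ) (κ : ℝ≥0∞) (z : ℝ)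
    (hr : ∀ p ∈ S, Reach (s, p.1) (t, p.2))
    (hα : ∀ p ∈ S, Reach u0 (s, p.1) ∧ κ ≤ PE q {ω | α p.1 ≤ T ω u0 (s, p.1)})
    (hβ : ∀ p ∈ S, Reach (t, p.2) v0 ∧ κ ≤ PE q {ω | β p.2 ≤ T ω (t, p.2) v0})
    (hz : ∀ p ∈ S, z ≤ α p.1 + f p + β p.2) :
    κ * κ * PE q {ω | ∃ p ∈ S, f p ≤ T ω (s, p.1) (t, p.2)} ≤ PE q {ω | z ≤ T ω u0 v0} := by
  classical
  rcases S.eq_empty_or_nonempty with rfl | ⟨p0, hp0⟩
  · simp
  have hst : s ≤ t := reach_le (hr p0 hp0)
  have hus : u0.1 ≤ s := reach_le (hα p0 hp0).1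
  have htv : t ≤ v0.1 := reach_le (hβ p0 hp0).1
  have key := cond_union q S (A := slab s t) (B := slab u0.1 s ∪ slab t v0.1)
    (by
      rw [Set.disjoint_union_right]
      exact ⟨(slab_disjoint le_rfl).symm, slab_disjoint le_rfl⟩)
    (fun p => {ω | f p ≤ T ω (s, p.1) (t, p.2)})
    (fun p => {ω | α p.1 ≤ T ω u0 (s, p.1)} ∩ {ω | β p.2 ≤ T ω (t, p.2) v0}) (κ * κ)
    (fun p _ => measurableSet_le measurable_const (measurable_T _ _))
    (fun p _ => (measurableSet_le measurable_const (measurable_T _ _)).inter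
      (measurableSet_le measurable_const (measurable_T _ _)))
    (fun p _ ω ω' h => by
      have := depOn_T_slab (s := s) (t := t) (u := (s, p.1)) (v := (t, p.2)) le_rfl le_rfl ω ω' h
      simp only [Set.mem_ofPred_eq]
      simp only at this
      rw [this])
    (fun p _ ω ω' h => by
      have h1 := depOn_T_slab (s := u0.1) (t := s) (u := u0) (v := (s, p.1)) le_rfl le_rfl ω ω'
        (fun x hx => h x (Or.inl hx))
      have h2 := depOn_T_slab (s := t) (t := v0.1) (u := (t, p.2)) (v := v0) le_rfl le_rfl ω ω'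
        (fun x hx => h x (Or.inr hx))
      simp only [Set.mem_inter_iff, Set.mem_ofPred_eq]
      simp only at h1 h2
      rw [h1, h2])
    (fun p hp => by
      rw [measure_inter_of_depOn q (A := slab u0.1 s) (B := slab t v0.1) (slab_disjoint hst)
        (measurableSet_le measurable_const (measurable_T _ _))
        (measurableSet_le measurable_const (measurable_T _ _))]
      · exact mul_le_mul' (hα p hp).2 (hβ p hp).2
      · intro ω ω' h
        have h1 := depOn_T_slab (s := u0.1) (t := s) (u := u0) (v := (s, p.1)) le_rfl le_rfl ω ω' h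
        simp only [Set.mem_ofPred_eq]
        simp only at h1
        rw [h1]
      · intro ω ω' h
        have h1 := depOn_T_slab (s := t) (t := v0.1) (u := (t, p.2)) (v := v0) le_rfl le_rfl ω ω' h
        simp only [Set.mem_ofPred_eq]
        simp only at h1
        rw [h1])
  have e1 : {ω | ∃ p ∈ S, f p ≤ T ω (s, p.1) (t, p.2)} =
      ⋃ p ∈ S, {ω | f p ≤ T ω (s, p.1) (t, p.2)} := by
    ext ω
    simp only [Set.mem_ofPred_eq, Set.mem_iUnion, exists_prop]
  rw [e1]
  refine key.trans (measure_mono ?_)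
  intro ω hω
  simp only [Set.mem_iUnion, Set.mem_inter_iff, Set.mem_ofPred_eq, exists_prop] at hω ⊢
  obtain ⟨p, hp, h1, h2, h3⟩ := hω
  have h4 := T_superadd ω (hr p hp) (hβ p hp).1
  have h5 := T_superadd ω (hα p hp).1 (reach_trans (hr p hp) (hβ p hp).1)
  have h6 := hz p hp
  linarith

/-- Extension of the end point of a passage time, the end point ranging over a finite set of
sites. The event `E v` may be any event of the past of `v`. -/
theorem ext_right (q : ℝ) (S : Finset Site) (s0 : ℤ) (v0 : Site) (E : Site → Set Env)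
    (β : Site → ℝ) (κ : ℝ≥0∞) (hE : ∀ v ∈ S, MeasurableSet (E v))
    (hEA : ∀ v ∈ S, DepOn (slab s0 v.1) (fun ω => ω ∈ E v))
    (hβ : ∀ v ∈ S, κ ≤ PE q {ω | β v ≤ T ω v v0}) :
    κ * PE q {ω | ∃ v ∈ S, ω ∈ E v} ≤ PE q {ω | ∃ v ∈ S, ω ∈ E v ∧ β v ≤ T ω v v0} := by
  classical
  have key := cond_union_stop q (fun v : Site => v.1) S (fun v => slab s0 v.1)
    (fun v => slab v.1 v0.1) E (fun v => {ω | β v ≤ T ω v v0}) κ
    (fun i _ j _ hij => slab_disjoint hij) hE
    (fun v _ => measurableSet_le measurable_const (measurable_T _ _)) hEA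
    (fun v _ ω ω' h => by
      have := depOn_T_slab (s := v.1) (t := v0.1) (u := v) (v := v0) le_rfl le_rfl ω ω' h
      simp only [Set.mem_ofPred_eq]
      simp only at this
      rw [this]) hβ
  have e1 : {ω | ∃ v ∈ S, ω ∈ E v} = ⋃ v ∈ S, E v := by
    ext ω
    simp only [Set.mem_ofPred_eq, Set.mem_iUnion, exists_prop]
  have e2 : {ω | ∃ v ∈ S, ω ∈ E v ∧ β v ≤ T ω v v0} = ⋃ v ∈ S, (E v ∩ {ω | β v ≤ T ω v v0}) := by
    ext ω
    simp only [Set.mem_ofPred_eq, Set.mem_iUnion, exists_prop, Set.mem_inter_iff]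
  rw [e1, e2]
  exact key

/-- Extension of the starting point of a passage time, the starting point ranging over a finite
set of sites. The event `E u` may be any event of the future of `u`. -/
theorem ext_left (q : ℝ) (S : Finset Site) (t0 : ℤ) (u0 : Site) (E : Site → Set Env)
    (α : Site → ℝ) (κ : ℝ≥0∞) (hE : ∀ u ∈ S, MeasurableSet (E u))
    (hEA : ∀ u ∈ S, DepOn (slab u.1 t0) (fun ω => ω ∈ E u))
    (hα : ∀ u ∈ S, κ ≤ PE q {ω | α u ≤ T ω u0 u}) :
    κ * PE q {ω | ∃ u ∈ S, ω ∈ E u} ≤ PE q {ω | ∃ u ∈ S, ω ∈ E u ∧ α u ≤ T ω u0 u} := by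
  classical
  have key := cond_union_stop q (fun u : Site => -u.1) S (fun u => slab u.1 t0)
    (fun u => slab u0.1 u.1) E (fun u => {ω | α u ≤ T ω u0 u}) κ
    (fun i _ j _ hij => (slab_disjoint (neg_le_neg_iff.1 hij)).symm) hE
    (fun u _ => measurableSet_le measurable_const (measurable_T _ _)) hEA
    (fun u _ ω ω' h => by
      have := depOn_T_slab (s := u0.1) (t := u.1) (u := u0) (v := u) le_rfl le_rfl ω ω' h
      simp only [Set.mem_ofPred_eq]
      simp only at this
      rw [this]) hα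
  have e1 : {ω | ∃ u ∈ S, ω ∈ E u} = ⋃ u ∈ S, E u := by
    ext ω
    simp only [Set.mem_ofPred_eq, Set.mem_iUnion, exists_prop]
  have e2 : {ω | ∃ u ∈ S, ω ∈ E u ∧ α u ≤ T ω u0 u} = ⋃ u ∈ S, (E u ∩ {ω | α u ≤ T ω u0 u}) := by
    ext ω
    simp only [Set.mem_ofPred_eq, Set.mem_iUnion, exists_prop, Set.mem_inter_iff]
  rw [e1, e2]
  exact key

/-- The best pair of sites in two finite sets, extended to fixed points on both sides. -/
theorem ext_both (q : ℝ) (U V : Finset Site) (u0 v0 : Site) (f : Site → Site → ℝ)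
    (α β : Site → ℝ) (κ : ℝ≥0∞) (z : ℝ)
    (hα : ∀ u ∈ U, Reach u0 u ∧ κ ≤ PE q {ω | α u ≤ T ω u0 u})
    (hβ : ∀ v ∈ V, Reach v v0 ∧ κ ≤ PE q {ω | β v ≤ T ω v v0})
    (hz : ∀ u ∈ U, ∀ v ∈ V, Reach u v → z ≤ α u + f u v + β v) :
    κ * (κ * PE q {ω | ∃ u ∈ U, ∃ v ∈ V, Reach u v ∧ f u v ≤ T ω u v}) ≤
      PE q {ω | z ≤ T ω u0 v0} := by
  classical
  rcases U.eq_empty_or_nonempty with rfl | hU
  · simp
  rcases V.eq_empty_or_nonempty with rfl | hV
  · simp
  obtain ⟨s0, hs0⟩ : ∃ s0 : ℤ, ∀ u ∈ U, s0 ≤ u.1 := ⟨(U.image Prod.fst).min' (hU.image _),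
    fun u hu => Finset.min'_le _ _ (Finset.mem_image_of_mem _ hu)⟩
  have step1 := ext_right q V s0 v0
    (fun v => {ω | ∃ u ∈ U, Reach u v ∧ f u v ≤ T ω u v}) β κ
    (fun v _ => by
      have : {ω | ∃ u ∈ U, Reach u v ∧ f u v ≤ T ω u v} =
          ⋃ u ∈ U.filter (fun u => Reach u v), {ω | f u v ≤ T ω u v} := by
        ext ω
        simp only [Set.mem_ofPred_eq, Set.mem_iUnion, exists_prop, Finset.mem_filter, and_assoc]
      rw [this]
      exact Finset.measurableSet_biUnion _ fun u _ =>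
        measurableSet_le measurable_const (measurable_T _ _))
    (fun v _ ω ω' h => by
      simp only [Set.mem_ofPred_eq, eq_iff_iff]
      refine exists_congr fun u => and_congr_right fun hu => ?_
      have := depOn_T_slab (s := s0) (t := v.1) (u := u) (v := v) (hs0 u hu) le_rfl ω ω' h
      simp only at this
      rw [this])
    (fun v hv => (hβ v hv).2)
  have step2 := ext_left q U v0.1 u0
    (fun u => {ω | ∃ v ∈ V, Reach u v ∧ f u v + β v ≤ T ω u v0}) α κ
    (fun u _ => by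
      have : {ω | ∃ v ∈ V, Reach u v ∧ f u v + β v ≤ T ω u v0} =
          ⋃ v ∈ V.filter (fun v => Reach u v), {ω | f u v + β v ≤ T ω u v0} := by
        ext ω
        simp only [Set.mem_ofPred_eq, Set.mem_iUnion, exists_prop, Finset.mem_filter, and_assoc]
      rw [this]
      exact Finset.measurableSet_biUnion _ fun v _ =>
        measurableSet_le measurable_const (measurable_T _ _))
    (fun u _ ω ω' h => by
      have := depOn_T_slab (s := u.1) (t := v0.1) (u := u) (v := v0) le_rfl le_rfl ω ω' h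
      simp only at this
      simp only [Set.mem_ofPred_eq]
      rw [this])
    (fun u hu => (hα u hu).2)
  have e0 : {ω | ∃ u ∈ U, ∃ v ∈ V, Reach u v ∧ f u v ≤ T ω u v} =
      {ω | ∃ v ∈ V, ω ∈ {ω | ∃ u ∈ U, Reach u v ∧ f u v ≤ T ω u v}} := by
    ext ω
    simp only [Set.mem_ofPred_eq]
    constructor
    · rintro ⟨u, hu, v, hv, h⟩
      exact ⟨v, hv, u, hu, h⟩
    · rintro ⟨v, hv, u, hu, h⟩
      exact ⟨u, hu, v, hv, h⟩
  rw [e0]
  refine (mul_le_mul_right step1 κ).trans ?_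
  refine le_trans ?_ (step2.trans ?_)
  · refine mul_le_mul_right (measure_mono ?_) κ
    intro ω hω
    simp only [Set.mem_ofPred_eq] at hω ⊢
    obtain ⟨v, hv, ⟨u, hu, h1, h2⟩, h3⟩ := hω
    refine ⟨u, hu, v, hv, h1, ?_⟩
    have := T_superadd ω h1 (hβ v hv).1
    linarith
  · apply measure_mono
    intro ω hω
    simp only [Set.mem_ofPred_eq] at hω ⊢
    obtain ⟨u, hu, ⟨v, hv, h1, h2⟩, h3⟩ := hω
    have h4 := T_superadd ω (hα u hu).1 (reach_trans h1 (hβ v hv).1)
    have h5 := hz u hu v hv h1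
    linarith

end Pool.Agent.H22.LPP
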