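import Pool.Agent.H22.LPP.Sup

/-!
# Crossing upper bound (B_BC)
-/

open MeasureTheory ProbabilityTheory
open Pool.Agent.H99.NS
open Pool.Agent.H84.GL (D_UT D_LT)

namespace Pool.Agent.H22.LPP

/-- The crossing event in the two windows. -/
def crossEv (q : ℝ) (L : ℕ) (b : Site) (E : ℤ) (X : ℝ) : Set Env :=
  {ω | ∃ x y : ℤ, Reach (b.1, x) (b.1 + L, y) ∧
      |((x - b.2 : ℤ) : ℝ)| ≤ (L : ℝ) ^ (2 / 3 : ℝ) ∧
      |((y - (b.2 + E) : ℤ) : ℝ)| ≤ (L : ℝ) ^ (2 / 3 : ℝ) ∧
      par q (b.1, x) (b.1 + L, y) + X ≤ T ω (b.1, x) (b.1 + L, y)}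

/-- Covering of the crossing event by two pairs of boxes of thickness one. -/
theorem crossEv_subset (q : ℝ) (L : ℕ) (b : Site) (E : ℤ) (X : ℝ) :
    crossEv q L b E X ⊆ ⋃ p ∈ Finset.Icc (0 : ℤ) 1,
      {ω | ∃ u ∈ box (b.1, b.2 - ⌊(L : ℝ) ^ (2 / 3 : ℝ)⌋) 1 (2 * ⌊(L : ℝ) ^ (2 / 3 : ℝ)⌋ + 1) p,
        ∃ v ∈ box (b.1 + L, b.2 - ⌊(L : ℝ) ^ (2 / 3 : ℝ)⌋ + E) 1
          (2 * ⌊(L : ℝ) ^ (2 / 3 : ℝ)⌋ + 1) p, Reach u v ∧ par q u v + X ≤ T ω u v} := by
  rintro ω ⟨x, y, g1, g2, g3, g4⟩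
  have h2 : |x - b.2| ≤ ⌊(L : ℝ) ^ (2 / 3 : ℝ)⌋ := by
    rw [Int.le_floor, Int.cast_abs]; exact g2
  have h3 : |y - (b.2 + E)| ≤ ⌊(L : ℝ) ^ (2 / 3 : ℝ)⌋ := by
    rw [Int.le_floor, Int.cast_abs]; exact g3
  rw [abs_le] at h2 h3
  rw [Set.mem_iUnion₂]
  set p : ℤ := (b.1 + x) % 2 with hp
  have hpu : Even (b.1 + x + p) := by rw [Int.even_iff]; omega
  have hpv : Even (b.1 + L + y + p) := by
    obtain ⟨m, hm⟩ := g1.2
    obtain ⟨n, hn⟩ := hpu
    simp only at hm
    exact ⟨m + n, by linarith⟩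
  refine ⟨p, by rw [Finset.mem_Icc]; omega, (b.1, x), ?_, (b.1 + L, y), ?_, g1, g4⟩
  · rw [mem_box]
    exact ⟨⟨le_rfl, by simp only; omega, by simp only; omega, by simp only; omega⟩, hpu⟩
  · rw [mem_box]
    exact ⟨⟨le_rfl, by simp only; omega, by simp only; omega, by simp only; omega⟩, hpv⟩

/-- The deviation of a pair of sites in the two windows from the slope `E / L`. -/
theorem cross_dev {q : ℝ} (hq : q < 1) {L : ℕ} (hL : 1 ≤ L) (b : Site) (E w p : ℤ)
    {u v : Site}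
    (hu : u ∈ box (b.1, b.2 - w) 1 (2 * w + 1) p)
    (hv : v ∈ box (b.1 + L, b.2 - w + E) 1 (2 * w + 1) p) :
    dt u v = L ∧ lin q (E / (L : ℤ)) u v - sg q / 2 * (2 * (w : ℝ)) ^ 2 / L ≤ par q u v := by
  rw [mem_box] at hu hv
  obtain ⟨⟨h1, h2, h3, h4⟩, _⟩ := hu
  obtain ⟨⟨h1', h2', h3', h4'⟩, _⟩ := hv
  simp only at h1 h2 h3 h4 h1' h2' h3' h4'
  have hdt : dt u v = L := by
    unfold dt
    have : v.1 - u.1 = L := by omega
    rw [this]
    simp
  have hlt : u.1 < v.1 := by omega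
  have hLr : (1 : ℝ) ≤ L := by exact_mod_cast hL
  refine ⟨hdt, ?_⟩
  rw [par_eq_lin q (E / (L : ℤ)) hlt, hdt]
  have hsg := sg_nonneg hq
  have h5 : |dx u v - E / (L : ℤ) * L| ≤ 2 * w := by
    have : dx u v - E / (L : ℤ) * L = ((v.2 - u.2 - E : ℤ) : ℝ) := by
      unfold dx
      push_cast
      field_simp
    rw [this, ← Int.cast_abs]
    exact_mod_cast (by rw [abs_le]; constructor <;> omega : |v.2 - u.2 - E| ≤ 2 * w)
  have h6 : (dx u v - E / (L : ℤ) * L) ^ 2 ≤ (2 * (w : ℝ)) ^ 2 := by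
    rw [← sq_abs (dx u v - E / (L : ℤ) * L)]
    exact pow_le_pow_left₀ (abs_nonneg _) h5 2
  have h7 : sg q / 2 * (dx u v - E / (L : ℤ) * L) ^ 2 / L ≤ sg q / 2 * (2 * (w : ℝ)) ^ 2 / L := by
    gcongr
  linarith

theorem b_bc (hU : D_UT) (hL : D_LT) : B_BC := by
  classical
  intro q hq0 hq1
  obtain ⟨C, c, hC, hc, hUT⟩ := ut1_of hU hq0 hq1
  obtain ⟨A, cl, _, hcl, hLT⟩ := lt1_of hL hq0 hq1
  obtain ⟨K, hK, hhalf⟩ := exists_half hcl (by norm_num) hLT
  have hsg := sg_pos hq0 hq1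
  set L1 : ℕ := 9 ^ 24 with hL1
  refine ⟨2 * (4 * max C 1 * Real.exp (c * (10 * sg q + 2 * K))) + (3 * (L1 : ℝ)) ^ 2 * C + 1,
    c / 3, by positivity, by positivity, ?_⟩
  intro L hL b E hE Y hY
  have hLr : (1 : ℝ) ≤ L := by exact_mod_cast hL
  have hLpos : (0 : ℝ) < L := by linarith
  set R : ℝ := (L : ℝ) ^ (2 / 3 : ℝ) with hR
  set Q : ℝ := (L : ℝ) ^ (1 / 3 : ℝ) with hQ
  have hR1 : 1 ≤ R := Real.one_le_rpow hLr (by norm_num)
  have hQ0 : 0 < Q := Real.rpow_pos_of_pos hLpos _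
  have hRL : R ≤ L := by
    calc R ≤ (L : ℝ) ^ (1 : ℝ) := Real.rpow_le_rpow_of_exponent_le hLr (by norm_num)
      _ = L := Real.rpow_one _
  set w : ℤ := ⌊R⌋ with hw
  have hw1 : 1 ≤ w := Int.le_floor.2 (by exact_mod_cast hR1)
  have hwr : (w : ℝ) ≤ R := Int.floor_le _
  have hw1r : (1 : ℝ) ≤ w := by exact_mod_cast hw1
  have hcov := crossEv_subset q L b E (Y * Q)
  have hgoal : (PE q).real (crossEv q L b E (Y * Q)) ≤
      (2 * (4 * max C 1 * Real.exp (c * (10 * sg q + 2 * K))) + (3 * (L1 : ℝ)) ^ 2 * C + 1) *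
        Real.exp (-(c / 3) * Y) := by
    rcases lt_or_ge L L1 with hsm | hbig
    · -- small slabs: union bound
      set I : Finset (ℤ × ℤ) := (Finset.Icc (-w) w) ×ˢ (Finset.Icc (-w) w) with hI
      set G : ℤ × ℤ → Set Env := fun z => {ω | Reach (b.1, b.2 + z.1) (b.1 + L, b.2 + E + z.2) ∧
        par q (b.1, b.2 + z.1) (b.1 + L, b.2 + E + z.2) + Y * Q ≤
          T ω (b.1, b.2 + z.1) (b.1 + L, b.2 + E + z.2)} with hG
      have hc1 : crossEv q L b E (Y * Q) ⊆ ⋃ z ∈ I, G z := by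
        rintro ω ⟨x, y, g1, g2, g3, g4⟩
        have h2 : |x - b.2| ≤ w := by
          rw [hw, Int.le_floor, Int.cast_abs]; exact g2
        have h3 : |y - (b.2 + E)| ≤ w := by
          rw [hw, Int.le_floor, Int.cast_abs]; exact g3
        rw [abs_le] at h2 h3
        rw [Set.mem_iUnion₂]
        refine ⟨(x - b.2, y - (b.2 + E)), ?_, ?_⟩
        · rw [hI, Finset.mem_product, Finset.mem_Icc, Finset.mem_Icc]
          exact ⟨h2, h3⟩
        · rw [hG]
          simp only [Set.mem_ofPred_eq, add_sub_cancel]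
          exact ⟨g1, g4⟩
      have hc2 : ∀ z ∈ I, (PE q).real (G z) ≤ C * Real.exp (-c * Y) := by
        intro z _
        by_cases hr : Reach (b.1, b.2 + z.1) (b.1 + L, b.2 + E + z.2)
        · have hlt : ((b.1, b.2 + z.1) : Site).1 < ((b.1 + L, b.2 + E + z.2) : Site).1 := by
            simp only; omega
          have h1 := hUT _ _ hr hlt Y hY
          refine le_trans (measureReal_mono ?_ (measure_ne_top _ _)) h1
          intro ω hω
          rw [hG] at hω
          simp only [Set.mem_ofPred_eq] at hω ⊢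
          have hdt : dt (b.1, b.2 + z.1) (b.1 + L, b.2 + E + z.2) = L := by
            unfold dt; simp
          rw [hdt]
          exact hω.2
        · have : G z = ∅ := by
            rw [hG]
            ext ω
            simp only [Set.mem_ofPred_eq, Set.mem_empty_iff_false, iff_false]
            exact fun h => hr h.1
          rw [this, measureReal_empty]
          positivity
      refine (real_iUnion_le I G _ _ hc1 hc2).trans ?_
      rw [Finset.sum_const, nsmul_eq_mul, hI, Finset.card_product, Int.card_Icc, Nat.cast_mul]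
      have e2 : (((w + 1 - -w).toNat : ℕ) : ℝ) = 2 * (w : ℝ) + 1 := by
        have : (((w + 1 - -w).toNat : ℕ) : ℤ) = 2 * w + 1 := by
          rw [Int.toNat_of_nonneg (by omega)]; ring
        exact_mod_cast this
      rw [e2]
      have e3 : 2 * (w : ℝ) + 1 ≤ 3 * (L1 : ℝ) := by
        have : (L : ℝ) ≤ L1 := by exact_mod_cast hsm.le
        linarith
      have e4 : Real.exp (-c * Y) ≤ Real.exp (-(c / 3) * Y) := by
        apply Real.exp_le_exp.2; nlinarith
      have e5 : 0 < Real.exp (-(c / 3) * Y) := Real.exp_pos _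
      calc (2 * (w : ℝ) + 1) * (2 * (w : ℝ) + 1) * (C * Real.exp (-c * Y))
          ≤ (3 * (L1 : ℝ)) * (3 * (L1 : ℝ)) * (C * Real.exp (-(c / 3) * Y)) := by
            have h0 : (0 : ℝ) ≤ 2 * (w : ℝ) + 1 := by linarith
            have h1 := mul_le_mul e3 e3 h0 (h0.trans e3)
            exact mul_le_mul h1 (mul_le_mul_of_nonneg_left e4 hC.le) (by positivity)
              (mul_nonneg (h0.trans e3) (h0.trans e3))
        _ = (3 * (L1 : ℝ)) ^ 2 * C * Real.exp (-(c / 3) * Y) := by ring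
        _ ≤ _ := by
            apply mul_le_mul_of_nonneg_right _ e5.le
            have : 0 ≤ 2 * (4 * max C 1 * Real.exp (c * (10 * sg q + 2 * K))) := by positivity
            linarith
    · -- large slabs
      have hbigr : (9 : ℝ) ^ (24 : ℕ) ≤ L := by
        have h1 : (L1 : ℝ) ≤ L := by exact_mod_cast hbig
        have h2 : (9 : ℝ) ^ (24 : ℕ) = (L1 : ℝ) := by rw [hL1]; norm_num
        rw [h2]
        exact h1
      have h24 : (9 : ℝ) ≤ (L : ℝ) ^ (1 / 24 : ℝ) := by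
        calc (9 : ℝ) = ((9 : ℝ) ^ (24 : ℕ)) ^ (1 / 24 : ℝ) := by
              rw [← Real.rpow_natCast, ← Real.rpow_mul (by norm_num)]
              norm_num
          _ ≤ _ := Real.rpow_le_rpow (by norm_num) hbigr (by norm_num)
      have hX34 : (L : ℝ) ^ (3 / 4 : ℝ) = (L : ℝ) ^ (17 / 24 : ℝ) * (L : ℝ) ^ (1 / 24 : ℝ) := by
        rw [← Real.rpow_add hLpos]; norm_num
      have hR17 : R ≤ (L : ℝ) ^ (17 / 24 : ℝ) :=
        Real.rpow_le_rpow_of_exponent_le hLr (by norm_num)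
      have hX0 : 0 < (L : ℝ) ^ (17 / 24 : ℝ) := Real.rpow_pos_of_pos hLpos _
      have hX : 9 * (L : ℝ) ^ (17 / 24 : ℝ) ≤ (L : ℝ) ^ (3 / 4 : ℝ) := by
        rw [hX34]; nlinarith
      have hE' : |(E : ℝ)| ≤ (L : ℝ) ^ (17 / 24 : ℝ) := hE
      have hEL : |(E : ℝ)| ≤ L := by
        refine hE'.trans ?_
        calc (L : ℝ) ^ (17 / 24 : ℝ) ≤ (L : ℝ) ^ (1 : ℝ) :=
              Real.rpow_le_rpow_of_exponent_le hLr (by norm_num)
          _ = L := Real.rpow_one _
      have habs : |(E : ℝ) / (L : ℤ)| = |(E : ℝ)| / L := by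
        rw [abs_div]; congr 1; push_cast; exact abs_of_pos hLpos
      have hRQ : R ^ 2 / L = Q := by rw [sq]; exact cube_root_eq hLpos
      set e : ℝ := 2 * w + 3 with he
      have he0 : 0 ≤ e := by rw [he]; linarith
      have he5 : e ≤ 5 * R := by rw [he]; linarith
      have he2 : sg q * e ^ 2 / L ≤ 25 * sg q * Q := by
        rw [← hRQ]
        calc sg q * e ^ 2 / L ≤ sg q * (5 * R) ^ 2 / L := by gcongr
          _ = _ := by ring
      have hw2 : sg q / 2 * (2 * (w : ℝ)) ^ 2 / L ≤ 2 * sg q * Q := by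
        rw [← hRQ]
        calc sg q / 2 * (2 * (w : ℝ)) ^ 2 / L ≤ sg q / 2 * (2 * R) ^ 2 / L := by gcongr
          _ = _ := by ring
      have hone : ∀ p ∈ Finset.Icc (0 : ℤ) 1,
          (PE q).real {ω | ∃ u ∈ box (b.1, b.2 - w) 1 (2 * w + 1) p,
            ∃ v ∈ box (b.1 + L, b.2 - w + E) 1 (2 * w + 1) p,
              Reach u v ∧ par q u v + Y * Q ≤ T ω u v} ≤
          4 * max C 1 * Real.exp (c * (10 * sg q + 2 * K)) * Real.exp (-(c / 3) * Y) := by
        intro p _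
        have key := box_pair hq1 hc.le hUT hK hhalf (b.1, b.2 - w) 1 (2 * w + 1) p (L : ℤ) E
          (L : ℝ) e (Y * Q - 2 * sg q * Q) (fun u v => par q u v + Y * Q) le_rfl (by omega) hLr
          (by exact_mod_cast hL) (by push_cast; exact hLr) (by push_cast; linarith)
          (by
            rw [habs]
            have : |(E : ℝ)| / L ≤ 1 := by rw [div_le_one hLpos]; exact hEL
            push_cast
            rw [he]
            linarith)
          (by
            rw [habs]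
            have : |(E : ℝ)| / L * (4 * L) = 4 * |(E : ℝ)| := by field_simp
            rw [this]
            linarith)
          (by
            intro u hu v hv _
            have h1 := (cross_dev hq1 hL b E w p hu hv).2
            linarith)
        refine key.trans ?_
        have hexp : Real.exp (-c * ((Y * Q - 2 * sg q * Q - sg q * e ^ 2 / L) / (3 * Q) - 2 * K)) ≤
            Real.exp (c * (10 * sg q + 2 * K)) * Real.exp (-(c / 3) * Y) := by
          rw [← Real.exp_add]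
          apply Real.exp_le_exp.2
          have h1 : (Y * Q - 2 * sg q * Q - 25 * sg q * Q) / (3 * Q) ≤
              (Y * Q - 2 * sg q * Q - sg q * e ^ 2 / L) / (3 * Q) := by
            gcongr
          have h2 : (Y * Q - 2 * sg q * Q - 25 * sg q * Q) / (3 * Q) = Y / 3 - 9 * sg q := by
            field_simp; ring
          nlinarith
        calc 4 * (max C 1 * Real.exp (-c * ((Y * Q - 2 * sg q * Q - sg q * e ^ 2 / L) /
              (3 * Q) - 2 * K)))
            ≤ 4 * (max C 1 * (Real.exp (c * (10 * sg q + 2 * K)) *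
              Real.exp (-(c / 3) * Y))) := by gcongr
          _ = _ := by ring
      refine (real_iUnion_le _ _ _ _ hcov hone).trans ?_
      rw [Finset.sum_const, nsmul_eq_mul]
      have hcard : ((Finset.Icc (0 : ℤ) 1).card : ℝ) = 2 := by
        have : (Finset.Icc (0 : ℤ) 1).card = 2 := rfl
        rw [this]; norm_num
      rw [hcard]
      have e5 : 0 < Real.exp (-(c / 3) * Y) := Real.exp_pos _
      have e6 : 0 ≤ (3 * (L1 : ℝ)) ^ 2 * C := mul_nonneg (sq_nonneg _) hC.le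
      nlinarith
  exact hgoal

end Pool.Agent.H22.LPP
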