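import Pool.Agent.H22.LPP.BoxNum

/-!
# Counting the boxes of one scale
-/

namespace Pool.Agent.H22.LPP

theorem summable_exp_int {c : ℝ} (hc : 0 < c) : Summable fun D : ℤ => Real.exp (-c * |(D : ℝ)|) := by
  have h1 : Summable fun n : ℕ => Real.exp (-c * n) := by
    have : (fun n : ℕ => Real.exp (-c * n)) = fun n : ℕ => Real.exp (-c) ^ n := by
      funext n
      rw [← Real.exp_nat_mul]
      congr 1
      ring
    rw [this]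
    exact summable_geometric_of_lt_one (Real.exp_pos _).le (by rw [Real.exp_lt_one_iff]; linarith)
  apply Summable.of_nat_of_neg
  · simpa using h1
  · simpa using h1

theorem pow_mul_exp_le {a z : ℝ} (ha : 0 < a) (hz : 0 ≤ z) (n : ℕ) :
    z ^ n * Real.exp (-a * z) ≤ n.factorial / a ^ n := by
  have h1 := Real.pow_div_factorial_le_exp (a * z) (by positivity) n
  have h2 : 0 < (n.factorial : ℝ) := by exact_mod_cast n.factorial_pos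
  rw [div_le_iff₀ h2, mul_pow] at h1
  rw [le_div_iff₀ (by positivity)]
  have h3 : Real.exp (-a * z) * Real.exp (a * z) = 1 := by
    rw [← Real.exp_add]; simp
  have h4 : 0 < Real.exp (-a * z) := Real.exp_pos _
  calc z ^ n * Real.exp (-a * z) * a ^ n = (a ^ n * z ^ n) * Real.exp (-a * z) := by ring
    _ ≤ (Real.exp (a * z) * n.factorial) * Real.exp (-a * z) := by gcongr
    _ = n.factorial * (Real.exp (-a * z) * Real.exp (a * z)) := by ring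
    _ = n.factorial := by rw [h3, mul_one]

/-- Sum of the powers of two below a bound. -/
theorem sum_two_pow_le (F : Finset ℕ) (B : ℝ) (hB : 0 ≤ B) (hF : ∀ j ∈ F, (2 : ℝ) ^ j ≤ B) :
    ∑ j ∈ F, (2 : ℝ) ^ j ≤ 2 * B := by
  rcases F.eq_empty_or_nonempty with rfl | hne
  · simpa using hB
  · have h1 : ∑ k ∈ F, 2 ^ k < 2 ^ (F.max' hne + 1) :=
      Nat.geomSum_lt le_rfl fun k hk => Nat.lt_succ_of_le (Finset.le_max' _ _ hk)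
    have h2 : (∑ k ∈ F, (2 : ℝ) ^ k) ≤ 2 ^ (F.max' hne + 1) := by exact_mod_cast h1.le
    have h3 := hF _ (Finset.max'_mem F hne)
    rw [pow_succ] at h2
    linarith

theorem sum5 (A B C D E : Finset ℤ) (f : ℤ → ℝ) :
    ∑ z ∈ A ×ˢ B ×ˢ C ×ˢ D ×ˢ E, f z.2.2.2.1 =
      (A.card : ℝ) * ((B.card : ℝ) * ((C.card : ℝ) * ((∑ d ∈ D, f d) * (E.card : ℝ)))) := by
  simp only [Finset.sum_product, Finset.sum_const, nsmul_eq_mul]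
  congr 3
  rw [Finset.sum_mul]
  exact Finset.sum_congr rfl fun d _ => mul_comm _ _

theorem card_Icc0 {N : ℤ} (hN : 0 ≤ N) : ((Finset.Icc 0 N).card : ℝ) = (N : ℝ) + 1 := by
  rw [Int.card_Icc]
  have : (((N + 1 - 0).toNat : ℕ) : ℤ) = N + 1 := by
    rw [Int.toNat_of_nonneg (by omega)]; ring
  exact_mod_cast this

theorem card_Iccs {N : ℤ} (hN : 0 ≤ N) : ((Finset.Icc (-N) N).card : ℝ) = 2 * (N : ℝ) + 1 := by
  rw [Int.card_Icc]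
  have : (((N + 1 - -N).toNat : ℕ) : ℤ) = 2 * N + 1 := by
    rw [Int.toNat_of_nonneg (by omega)]; ring
  exact_mod_cast this

theorem card_Icc1 {N : ℤ} (hN : 0 ≤ N) : ((Finset.Icc 1 N).card : ℝ) = (N : ℝ) := by
  rw [Int.card_Icc]
  have : (((N + 1 - 1).toNat : ℕ) : ℤ) = N := by
    rw [Int.toNat_of_nonneg (by omega)]; ring
  exact_mod_cast this

/-- The number of boxes in time. -/
theorem sn_time {η L ℓ h : ℝ} (hη0 : 0 < η) (hη1 : η ≤ 1 / 100) (hL : 0 < L) (hLℓ : L ≤ ℓ)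
    (hh : 1 ≤ h) (hh2 : η * L / 2 ≤ h) :
    ((Finset.Icc 0 ⌊ℓ / h⌋).card : ℝ) ≤ 3 / η * (ℓ / L) := by
  have hℓ : 0 < ℓ := by linarith
  have hρ1 : 1 ≤ ℓ / L := by rw [le_div_iff₀ hL]; linarith
  rw [card_Icc0 (Int.floor_nonneg.2 (by positivity))]
  have e2 : (⌊ℓ / h⌋ : ℝ) ≤ ℓ / h := Int.floor_le _
  have e3 : ℓ / h ≤ 2 / η * (ℓ / L) := by
    rw [div_mul_div_comm, div_le_div_iff₀ (by linarith) (by positivity)]
    calc ℓ * (η * L) = 2 * ℓ * (η * L / 2) := by ring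
      _ ≤ 2 * ℓ * h := by gcongr
  have e4 : 1 ≤ 1 / η * (ℓ / L) := by
    have : 1 ≤ 1 / η := by rw [le_div_iff₀ hη0]; linarith
    exact one_le_mul_of_one_le_of_one_le this hρ1
  have e5 : 3 / η * (ℓ / L) = 2 / η * (ℓ / L) + 1 / η * (ℓ / L) := by ring
  linarith

/-- The number of boxes in space. -/
theorem sn_space {L ℓ w : ℝ} (hL : 0 < L) (hLℓ : L ≤ ℓ) (hw : 1 ≤ w)
    (hw2 : L ^ (2 / 3 : ℝ) / 2 ≤ w) :
    ((Finset.Icc (-(⌊ℓ ^ (2 / 3 : ℝ) / w⌋ + 1)) (⌊ℓ ^ (2 / 3 : ℝ) / w⌋ + 1)).card : ℝ) ≤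
      7 * (ℓ / L) ^ (2 / 3 : ℝ) := by
  have hℓ : 0 < ℓ := by linarith
  have hρ1 : 1 ≤ ℓ / L := by rw [le_div_iff₀ hL]; linarith
  have hℓp : 0 < ℓ ^ (2 / 3 : ℝ) := Real.rpow_pos_of_pos hℓ _
  have hNk0 : 0 ≤ ⌊ℓ ^ (2 / 3 : ℝ) / w⌋ + 1 := by
    have : 0 ≤ ⌊ℓ ^ (2 / 3 : ℝ) / w⌋ := Int.floor_nonneg.2 (by positivity)
    omega
  rw [card_Iccs hNk0]
  have hR : 0 < L ^ (2 / 3 : ℝ) := Real.rpow_pos_of_pos hL _
  have e2 := Int.floor_le (ℓ ^ (2 / 3 : ℝ) / w)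
  have e3 : ℓ ^ (2 / 3 : ℝ) / w ≤ 2 * (ℓ / L) ^ (2 / 3 : ℝ) := by
    rw [Real.div_rpow hℓ.le hL.le, ← mul_div_assoc, div_le_div_iff₀ (by linarith) hR]
    calc ℓ ^ (2 / 3 : ℝ) * L ^ (2 / 3 : ℝ) = 2 * ℓ ^ (2 / 3 : ℝ) * (L ^ (2 / 3 : ℝ) / 2) := by ring
      _ ≤ _ := by gcongr
  have e4 : 1 ≤ (ℓ / L) ^ (2 / 3 : ℝ) := Real.one_le_rpow hρ1 (by norm_num)
  push_cast
  linarith

/-- The number of durations. -/
theorem sn_dur {η L h : ℝ} (hη0 : 0 < η) (hη1 : η ≤ 1 / 100) (hL : 0 < L)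
    (hh : 1 ≤ h) (hh2 : η * L / 2 ≤ h) :
    ((Finset.Icc 1 ⌊(2 * L + h) / h⌋).card : ℝ) ≤ 5 / η := by
  rw [card_Icc1 (Int.floor_nonneg.2 (by positivity))]
  refine (Int.floor_le _).trans ?_
  rw [div_le_div_iff₀ (by linarith) hη0]
  have : h * η ≤ h * (1 / 100) := by gcongr
  linarith

/-- The number of all boxes times the sum of the weights. -/
theorem sn_total {η L ℓ h w c1 F B0 G S : ℝ} (hη0 : 0 < η) (hη1 : η ≤ 1 / 100) (hL : 0 < L)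
    (hLℓ : L ≤ ℓ) (hh : 1 ≤ h) (hh2 : η * L / 2 ≤ h) (hw : 1 ≤ w)
    (hw2 : L ^ (2 / 3 : ℝ) / 2 ≤ w) (hc10 : 0 < c1) (hB0 : 0 ≤ B0) (hG : 0 ≤ G)
    (hF : F = B0 * G) (hS : S = ∑' D : ℤ, Real.exp (-c1 * |(D : ℝ)|)) (Nd : ℤ) :
    ∑ z ∈ (Finset.Icc 0 ⌊ℓ / h⌋) ×ˢ
        (Finset.Icc (-(⌊ℓ ^ (2 / 3 : ℝ) / w⌋ + 1)) (⌊ℓ ^ (2 / 3 : ℝ) / w⌋ + 1)) ×ˢ
        (Finset.Icc 1 ⌊(2 * L + h) / h⌋) ×ˢ (Finset.Icc (-Nd) Nd) ×ˢ (Finset.Icc (0 : ℤ) 1),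
        F * Real.exp (-c1 * |(z.2.2.2.1 : ℝ)|) ≤
      210 / η ^ 2 * (S + 1) * B0 * (ℓ / L) ^ (5 / 3 : ℝ) * G := by
  have hρ1 : 1 ≤ ℓ / L := by rw [le_div_iff₀ hL]; linarith
  have n1 := sn_time hη0 hη1 hL hLℓ hh hh2
  have n2 := sn_space hL hLℓ hw hw2
  have n3 := sn_dur hη0 hη1 hL hh hh2
  have hF0 : 0 ≤ F := by rw [hF]; positivity
  have hS0 : 0 ≤ S := by rw [hS]; exact tsum_nonneg fun _ => (Real.exp_pos _).le
  have s2 := sum5 (Finset.Icc 0 ⌊ℓ / h⌋)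
    (Finset.Icc (-(⌊ℓ ^ (2 / 3 : ℝ) / w⌋ + 1)) (⌊ℓ ^ (2 / 3 : ℝ) / w⌋ + 1))
    (Finset.Icc 1 ⌊(2 * L + h) / h⌋) (Finset.Icc (-Nd) Nd)
    (Finset.Icc 0 1) (fun D => F * Real.exp (-c1 * |(D : ℝ)|))
  rw [s2]
  clear s2
  have h2 : (Finset.Icc (0 : ℤ) 1).card = 2 := rfl
  rw [h2, Nat.cast_ofNat]
  have s3 : ∑ D ∈ Finset.Icc (-Nd) Nd, F * Real.exp (-c1 * |(D : ℝ)|) ≤ F * S := by
    rw [← Finset.mul_sum, hS]
    apply mul_le_mul_of_nonneg_left _ hF0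
    exact Summable.sum_le_tsum _ (fun _ _ => (Real.exp_pos _).le) (summable_exp_int hc10)
  have t0 : 0 ≤ ∑ D ∈ Finset.Icc (-Nd) Nd, F * Real.exp (-c1 * |(D : ℝ)|) :=
    Finset.sum_nonneg fun _ _ => mul_nonneg hF0 (Real.exp_pos _).le
  have h5 : (ℓ / L) ^ (5 / 3 : ℝ) = (ℓ / L) * (ℓ / L) ^ (2 / 3 : ℝ) := by
    nth_rewrite 2 [← Real.rpow_one (ℓ / L)]
    rw [← Real.rpow_add (by linarith)]
    norm_num
  have hρ2 : 0 ≤ (ℓ / L) ^ (2 / 3 : ℝ) := Real.rpow_nonneg (by linarith) _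
  have hη3 : 0 ≤ 5 / η := (div_pos (by norm_num) hη0).le
  generalize (∑ D ∈ Finset.Icc (-Nd) Nd, F * Real.exp (-c1 * |(D : ℝ)|)) = W at *
  generalize ((Finset.Icc 0 ⌊ℓ / h⌋).card : ℕ) = m1 at *
  generalize ((Finset.Icc (-(⌊ℓ ^ (2 / 3 : ℝ) / w⌋ + 1)) (⌊ℓ ^ (2 / 3 : ℝ) / w⌋ + 1)).card) = m2
    at *
  generalize ((Finset.Icc 1 ⌊(2 * L + h) / h⌋).card) = m3 at *
  have t1 : W * 2 ≤ F * S * 2 := mul_le_mul_of_nonneg_right s3 (by norm_num)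
  have t2 := mul_le_mul n3 t1 (mul_nonneg t0 (by norm_num)) hη3
  have t3 := mul_le_mul n2 t2 (mul_nonneg (Nat.cast_nonneg _) (mul_nonneg t0 (by norm_num)))
    (mul_nonneg (by norm_num) hρ2)
  have t4 := mul_le_mul n1 t3 (mul_nonneg (Nat.cast_nonneg _)
    (mul_nonneg (Nat.cast_nonneg _) (mul_nonneg t0 (by norm_num))))
    (mul_nonneg (div_pos (by norm_num) hη0).le (by linarith))
  refine t4.trans ?_
  have hη2 : 210 / η ^ 2 = 3 / η * 7 * (5 / η) * 2 := by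
    field_simp
    norm_num
  rw [h5, hF, hη2]
  have t5 : 0 ≤ 3 / η * (ℓ / L) * (7 * (ℓ / L) ^ (2 / 3 : ℝ)) * (5 / η) * 2 * (B0 * G) := by
    positivity
  linarith

end Pool.Agent.H22.LPP
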