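import Pool.Agent.H22.LPP.TargetsB
import Pool.Agent.H22.LPP.ScaleNum

/-!
# Lower tails for all pairs of a grid
-/

open MeasureTheory ProbabilityTheory
open Pool.Agent.H99.NS

namespace Pool.Agent.H22.LPP

/-- Spacing of the grid of scale `j` in space. -/
def gw (j : ℕ) : ℤ := 2 ^ ((2 * j + 2) / 3)

theorem gw_pos (j : ℕ) : 0 < gw j := by unfold gw; positivity

theorem two_pow_rpow (j : ℕ) (x : ℝ) : ((2 : ℝ) ^ j) ^ x = (2 : ℝ) ^ ((j : ℝ) * x) := by
  rw [← Real.rpow_natCast, ← Real.rpow_mul (by norm_num)]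

theorem gw_eq (j : ℕ) : (gw j : ℝ) = (2 : ℝ) ^ (((2 * j + 2) / 3 : ℕ) : ℝ) := by
  unfold gw
  push_cast
  rw [← Real.rpow_natCast]

theorem gw_ge (j : ℕ) : ((2 : ℝ) ^ j) ^ (2 / 3 : ℝ) ≤ (gw j : ℝ) := by
  rw [gw_eq, two_pow_rpow]
  apply Real.rpow_le_rpow_of_exponent_le (by norm_num)
  have h1 : 2 * j ≤ 3 * ((2 * j + 2) / 3) := by omega
  have h2 : (2 : ℝ) * j ≤ 3 * (((2 * j + 2) / 3 : ℕ) : ℝ) := by exact_mod_cast h1
  linarith

theorem gw_le (j : ℕ) : (gw j : ℝ) ≤ 2 * ((2 : ℝ) ^ j) ^ (2 / 3 : ℝ) := by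
  rw [gw_eq, two_pow_rpow]
  have h1 : 3 * ((2 * j + 2) / 3) ≤ 2 * j + 2 := by omega
  have h2 : 3 * (((2 * j + 2) / 3 : ℕ) : ℝ) ≤ (2 : ℝ) * j + 2 := by exact_mod_cast h1
  calc (2 : ℝ) ^ (((2 * j + 2) / 3 : ℕ) : ℝ) ≤ (2 : ℝ) ^ (1 + (j : ℝ) * (2 / 3)) := by
        apply Real.rpow_le_rpow_of_exponent_le (by norm_num)
        linarith
    _ = 2 * (2 : ℝ) ^ ((j : ℝ) * (2 / 3)) := by
        rw [Real.rpow_add (by norm_num), Real.rpow_one]

/-- A sum over a shifted lattice. -/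
theorem lat_sum {s : ℝ} (hs : 0 < s) (t : ℝ) (F : Finset ℤ) :
    ∑ n ∈ F, 1 / (1 + |s * n - t|) ^ 2 ≤ 1 + 4 / s := by
  classical
  set n0 : ℤ := round (t / s) with hn0
  set g : ℕ → ℝ := fun m => 1 / (1 + s * m / 2) ^ 2 with hg
  have hg0 : ∀ m, 0 ≤ g m := fun m => by rw [hg]; positivity
  have h1 : ∀ n : ℤ, 1 / (1 + |s * n - t|) ^ 2 ≤ g (n - n0).natAbs := by
    intro n
    rw [hg]
    simp only
    have h2 : s * ((n - n0).natAbs : ℝ) / 2 ≤ |s * n - t| := by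
      have h3 : |t / s - n0| ≤ 1 / 2 := by rw [hn0]; exact abs_sub_round _
      have h4 : |t - s * n0| ≤ s / 2 := by
        have : t - s * n0 = s * (t / s - n0) := by field_simp
        rw [this, abs_mul, abs_of_pos hs]
        nlinarith
      have h5 : s * |((n - n0 : ℤ) : ℝ)| ≤ |s * n - t| + |t - s * n0| := by
        have : s * |((n - n0 : ℤ) : ℝ)| = |(s * n - t) + (t - s * n0)| := by
          have e : (s * n - t) + (t - s * n0) = s * ((n - n0 : ℤ) : ℝ) := by push_cast; ring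
          rw [e, abs_mul, abs_of_pos hs]
        rw [this]
        exact abs_add_le _ _
      have h6 : ((n - n0).natAbs : ℝ) = |((n - n0 : ℤ) : ℝ)| := by
        rw [Nat.cast_natAbs, Int.cast_abs]
      rw [h6]
      rcases eq_or_ne (n - n0) 0 with h7 | h7
      · rw [h7]; simp
      · have h8 : (1 : ℝ) ≤ |((n - n0 : ℤ) : ℝ)| := by
          rw [← Int.cast_abs]; exact_mod_cast Int.one_le_abs h7
        nlinarith
    have h3 : 0 ≤ s * ((n - n0).natAbs : ℝ) / 2 := by positivity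
    apply one_div_le_one_div_of_le (by positivity)
    apply pow_le_pow_left₀ (by positivity)
    linarith
  -- the sum over natural numbers
  have h2 : ∀ M : ℕ, ∑ m ∈ Finset.range M, g (m + 1) ≤ 2 / s := by
    intro M
    have h3 : ∀ m : ℕ, g (m + 1) ≤ 2 / s * (1 / (1 + s * m / 2) - 1 / (1 + s * (m + 1 : ℕ) / 2)) := by
      intro m
      rw [hg]
      simp only
      have e1 : 0 < 1 + s * m / 2 := by positivity
      have e2 : 0 < 1 + s * (m + 1 : ℕ) / 2 := by positivity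
      have e3 : 2 / s * (1 / (1 + s * m / 2) - 1 / (1 + s * (m + 1 : ℕ) / 2)) =
          1 / ((1 + s * m / 2) * (1 + s * (m + 1 : ℕ) / 2)) := by
        push_cast at e2 ⊢
        field_simp
        ring
      rw [e3]
      apply one_div_le_one_div_of_le (by positivity)
      rw [sq]
      apply mul_le_mul_of_nonneg_right _ e2.le
      push_cast
      nlinarith
    calc ∑ m ∈ Finset.range M, g (m + 1)
        ≤ ∑ m ∈ Finset.range M,
          2 / s * (1 / (1 + s * m / 2) - 1 / (1 + s * (m + 1 : ℕ) / 2)) :=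
          Finset.sum_le_sum fun m _ => h3 m
      _ = 2 / s * (1 / (1 + s * (0 : ℕ) / 2) - 1 / (1 + s * (M : ℕ) / 2)) := by
          rw [← Finset.mul_sum, Finset.sum_range_sub' (fun m : ℕ => 1 / (1 + s * m / 2))]
      _ ≤ 2 / s * 1 := by
          apply mul_le_mul_of_nonneg_left _ (by positivity)
          have : 0 ≤ 1 / (1 + s * (M : ℕ) / 2) := by positivity
          simp only [Nat.cast_zero, mul_zero, zero_div, add_zero, div_one]
          linarith
      _ = _ := mul_one _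
  -- a large interval
  obtain ⟨M, hM⟩ : ∃ M : ℕ, ∀ n ∈ F, (n - n0).natAbs < M + 1 := by
    refine ⟨F.sup (fun n => (n - n0).natAbs), fun n hn => ?_⟩
    exact Nat.lt_succ_of_le (Finset.le_sup (f := fun n => (n - n0).natAbs) hn)
  have h3 : ∑ n ∈ F, g (n - n0).natAbs ≤
      ∑ m ∈ Finset.range (M + 1), (g m + (if m = 0 then 0 else g m)) := by
    have h4 : ∀ m ∈ Finset.range (M + 1),
        ∑ n ∈ F with (n - n0).natAbs = m, g (n - n0).natAbs ≤
          g m + (if m = 0 then 0 else g m) := by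
      intro m _
      have h5 : (F.filter (fun n => (n - n0).natAbs = m)) ⊆ {n0 + m, n0 - m} := by
        intro n hn
        rw [Finset.mem_filter] at hn
        rw [Finset.mem_insert, Finset.mem_singleton]
        omega
      split_ifs with hm
      · subst hm
        calc ∑ n ∈ F with (n - n0).natAbs = 0, g (n - n0).natAbs
            ≤ ∑ n ∈ {n0}, g (n - n0).natAbs := by
              apply Finset.sum_le_sum_of_subset_of_nonneg
              · intro n hn
                rw [Finset.mem_filter] at hn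
                rw [Finset.mem_singleton]
                omega
              · intro _ _ _; exact hg0 _
          _ = _ := by simp
      · calc ∑ n ∈ F with (n - n0).natAbs = m, g (n - n0).natAbs
            = ∑ n ∈ F with (n - n0).natAbs = m, g m := by
              refine Finset.sum_congr rfl fun n hn => ?_
              rw [Finset.mem_filter] at hn
              rw [hn.2]
          _ = ((F.filter (fun n => (n - n0).natAbs = m)).card : ℝ) * g m := by
              rw [Finset.sum_const, nsmul_eq_mul]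
          _ ≤ 2 * g m := by
              apply mul_le_mul_of_nonneg_right _ (hg0 m)
              have h6 := (Finset.card_le_card h5).trans Finset.card_le_two
              exact_mod_cast h6
          _ = _ := by ring
    calc ∑ n ∈ F, g (n - n0).natAbs
        = ∑ m ∈ Finset.range (M + 1), ∑ n ∈ F with (n - n0).natAbs = m, g (n - n0).natAbs := by
          rw [Finset.sum_fiberwise_of_maps_to]
          intro n hn
          rw [Finset.mem_range]
          exact hM n hn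
      _ ≤ _ := Finset.sum_le_sum h4
  have h4 : ∑ m ∈ Finset.range (M + 1), (g m + (if m = 0 then 0 else g m)) =
      g 0 + 2 * ∑ m ∈ Finset.range M, g (m + 1) := by
    rw [Finset.sum_range_succ', Finset.mul_sum]
    simp only [Nat.add_eq_zero_iff, one_ne_zero, and_false, if_false, if_true, add_zero]
    rw [add_comm]
    congr 1
    refine Finset.sum_congr rfl fun m _ => ?_
    ring
  have hg00 : g 0 = 1 := by rw [hg]; norm_num
  calc ∑ n ∈ F, 1 / (1 + |s * n - t|) ^ 2 ≤ ∑ n ∈ F, g (n - n0).natAbs :=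
        Finset.sum_le_sum fun n _ => h1 n
    _ ≤ _ := h3
    _ = _ := h4
    _ ≤ 1 + 2 * (2 / s) := by
        rw [hg00]
        have := h2 M
        linarith
    _ = _ := by ring

/-- The finite union bound, any measure. -/
theorem real_iUnion_le' {Ω : Type*} [MeasurableSpace Ω] (P : Measure Ω) [IsProbabilityMeasure P]
    {ι : Type*} (I : Finset ι) (E : ι → Set Ω) (S : Set Ω)
    (B : ι → ℝ) (hS : S ⊆ ⋃ i ∈ I, E i) (hB : ∀ i ∈ I, P.real (E i) ≤ B i) :
    P.real S ≤ ∑ i ∈ I, B i := by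
  calc P.real S ≤ P.real (⋃ i ∈ I, E i) := measureReal_mono hS (measure_ne_top _ _)
    _ ≤ ∑ i ∈ I, P.real (E i) := measureReal_biUnion_finset_le _ _
    _ ≤ _ := Finset.sum_le_sum hB

/-- One-point lower tail of a random field on a region. -/
def LTX {Ω : Type*} [MeasurableSpace Ω] (P : Measure Ω) (X : Ω → Site → Site → ℝ) (Reg : Set Site)
    (q A c s : ℝ) : Prop :=
  ∀ u v : Site, u ∈ Reg → v ∈ Reg → Reach u v → u.1 < v.1 →
    |dx u v| ≤ dt u v ^ (3 / 4 : ℝ) → ∀ x : ℝ, 0 ≤ x →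
    P.real {ω | X ω u v ≤ par q u v - x * dt u v ^ (1 / 3 : ℝ)} ≤ A * Real.exp (-c * x ^ s)

/-- The point of the grid. -/
def gp (j : ℕ) (a β : ℤ) : Site := (a * 2 ^ j, β * gw j)

/-- Weight of a pair of grid points. -/
noncomputable def Wt (L : ℝ) (b : Site) (lam : ℝ) (j : ℕ) (g g' : Site) : ℝ :=
  ((1 + |dx g g' - lam * dt g g'| / ((2 : ℝ) ^ j) ^ (2 / 3 : ℝ)) *
    (1 + |dx b g - lam * dt b g| / L ^ (2 / 3 : ℝ))) ^ (1 / 2 : ℝ)

/-- The bad event of scale `j`. -/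
def gridBad {Ω : Type*} (X : Ω → Site → Site → ℝ) (Reg : Set Site) (q L : ℝ) (b : Site)
    (lam Y : ℝ) (j : ℕ) : Set Ω :=
  {ω | ∃ a β m n : ℤ, 1 ≤ m ∧ m ≤ 32 ∧ b.1 ≤ a * 2 ^ j ∧ ((a * 2 ^ j : ℤ) : ℝ) ≤ b.1 + L ∧
    |((β * gw j - b.2 : ℤ) : ℝ)| ≤ 16 * L ∧
    (gp j a β ∈ Reg ∧ gp j (a + m) (β + n) ∈ Reg) ∧
    Reach (gp j a β) (gp j (a + m) (β + n)) ∧
    |dx (gp j a β) (gp j (a + m) (β + n))| ≤
      dt (gp j a β) (gp j (a + m) (β + n)) ^ (3 / 4 : ℝ) ∧
    X ω (gp j a β) (gp j (a + m) (β + n)) ≤ par q (gp j a β) (gp j (a + m) (β + n)) -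
      Y * (L / 2 ^ j) ^ (1 / 6 : ℝ) * Wt L b lam j (gp j a β) (gp j (a + m) (β + n)) *
        dt (gp j a β) (gp j (a + m) (β + n)) ^ (1 / 3 : ℝ)}

theorem grid_prob {A c s₀ : ℝ} (hA : 0 < A) (hc : 0 < c) (hs₀ : 0 < s₀) :
    ∃ C : ℝ, 0 < C ∧ ∀ {Ω : Type*} [MeasurableSpace Ω] (P : Measure Ω) [IsProbabilityMeasure P]
      (X : Ω → Site → Site → ℝ) (Reg : Set Site) (q : ℝ), LTX P X Reg q A c s₀ →
      ∀ (L : ℝ) (j : ℕ), 1 ≤ L → (2 : ℝ) ^ j ≤ L → ∀ (b : Site) (lam Y : ℝ),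
      1 ≤ Y → P.real (gridBad X Reg q L b lam Y j) ≤
        C * ((2 : ℝ) ^ j / L) * Real.exp (-(c / 2) * Y ^ s₀) := by
  classical
  obtain ⟨N, hN⟩ := exists_nat_ge (16 / s₀)
  rw [div_le_iff₀ hs₀] at hN
  set K1 : ℝ := (Nat.factorial N : ℝ) / (c / 6) ^ N with hK1
  set K2 : ℝ := (Nat.factorial N : ℝ) / (c / 6) ^ N with hK2
  have hK10 : 0 < K1 := by rw [hK1]; positivity
  have hK20 : 0 < K2 := by rw [hK2]; positivity
  refine ⟨A * K1 * (2 * (K2 * 5)) * (32 * (K2 * 5)), by positivity, ?_⟩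
  intro Ω _ P _ X Reg q hLT L j hL hj b lam Y hY
  have hL0 : 0 < L := by linarith
  set r : ℝ := (2 : ℝ) ^ j with hr
  have hr1 : 1 ≤ r := one_le_pow₀ (by norm_num)
  have hr0 : 0 < r := by linarith
  have hrr : 0 < r ^ (2 / 3 : ℝ) := Real.rpow_pos_of_pos hr0 _
  have hLL : 0 < L ^ (2 / 3 : ℝ) := Real.rpow_pos_of_pos hL0 _
  have hw0 : (0 : ℝ) < gw j := by exact_mod_cast gw_pos j
  set ρ : ℝ := L / r with hρ
  have hρ1 : 1 ≤ ρ := by rw [hρ, le_div_iff₀ hr0]; linarith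
  have hρ0 : 0 < ρ := by linarith
  set z : ℝ := ρ ^ (s₀ / 6) with hz
  have hz1 : 1 ≤ z := Real.one_le_rpow hρ1 (by positivity)
  have hz0 : 0 < z := by linarith
  set y : ℝ := Y ^ s₀ with hy
  have hy1 : 1 ≤ y := Real.one_le_rpow hY hs₀.le
  -- index sets
  set I1 : Finset (ℤ × ℤ) := (Finset.Icc ⌈(b.1 : ℝ) / r⌉ ⌊((b.1 : ℝ) + L) / r⌋) ×ˢ
    (Finset.Icc (-(⌈16 * L⌉ + |b.2|)) (⌈16 * L⌉ + |b.2|)) with hI1
  set I2 : Finset (ℤ × ℤ) := (Finset.Icc 1 32) ×ˢ
    (Finset.Icc (-(32 * 2 ^ j)) (32 * 2 ^ j)) with hI2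
  set E : (ℤ × ℤ) × (ℤ × ℤ) → Set Ω := fun w =>
    {ω | 1 ≤ w.2.1 ∧ (gp j w.1.1 w.1.2 ∈ Reg ∧ gp j (w.1.1 + w.2.1) (w.1.2 + w.2.2) ∈ Reg) ∧
    Reach (gp j w.1.1 w.1.2) (gp j (w.1.1 + w.2.1) (w.1.2 + w.2.2)) ∧
    |dx (gp j w.1.1 w.1.2) (gp j (w.1.1 + w.2.1) (w.1.2 + w.2.2))| ≤
      dt (gp j w.1.1 w.1.2) (gp j (w.1.1 + w.2.1) (w.1.2 + w.2.2)) ^ (3 / 4 : ℝ) ∧
    X ω (gp j w.1.1 w.1.2) (gp j (w.1.1 + w.2.1) (w.1.2 + w.2.2)) ≤
      par q (gp j w.1.1 w.1.2) (gp j (w.1.1 + w.2.1) (w.1.2 + w.2.2)) -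
      Y * (L / 2 ^ j) ^ (1 / 6 : ℝ) *
        Wt L b lam j (gp j w.1.1 w.1.2) (gp j (w.1.1 + w.2.1) (w.1.2 + w.2.2)) *
        dt (gp j w.1.1 w.1.2) (gp j (w.1.1 + w.2.1) (w.1.2 + w.2.2)) ^ (1 / 3 : ℝ)} with hE
  have hcover : gridBad X Reg q L b lam Y j ⊆ ⋃ w ∈ I1 ×ˢ I2, E w := by
    rintro ω ⟨a, β, m, n, h1, h2, h3, h4, h5, hReg, h6, h7, h8⟩
    rw [Set.mem_iUnion₂]
    refine ⟨((a, β), (m, n)), ?_, h1, hReg, h6, h7, h8⟩
    rw [Finset.mem_product, hI1, hI2, Finset.mem_product, Finset.mem_product]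
    simp only [Finset.mem_Icc]
    have hwz := gw_pos j
    refine ⟨⟨⟨?_, ?_⟩, ?_⟩, ⟨h1, h2⟩, ?_⟩
    · rw [Int.ceil_le, div_le_iff₀ hr0, hr]
      exact_mod_cast h3
    · rw [Int.le_floor, le_div_iff₀ hr0, hr]
      push_cast at h4
      exact h4
    · have h9 : |β * gw j - b.2| ≤ ⌈16 * L⌉ := by
        have : ((|β * gw j - b.2| : ℤ) : ℝ) ≤ (⌈16 * L⌉ : ℤ) := by
          rw [Int.cast_abs]
          exact h5.trans (Int.le_ceil _)
        exact_mod_cast this
      have h10 : |β| ≤ |β * gw j| := by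
        rw [abs_mul, abs_of_pos hwz]
        nlinarith [abs_nonneg β]
      have h11 : |β * gw j| ≤ |β * gw j - b.2| + |b.2| := by
        have := abs_add_le (β * gw j - b.2) b.2
        rwa [sub_add_cancel] at this
      exact abs_le.1 (by linarith)
    · have h9 := h6.1
      unfold gp at h9
      simp only at h9
      have e1 : (β + n) * gw j - β * gw j = n * gw j := by ring
      have e2 : (a + m) * 2 ^ j - a * 2 ^ j = m * 2 ^ j := by ring
      rw [e1, e2] at h9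
      have h10 : |n| ≤ |n * gw j| := by
        rw [abs_mul, abs_of_pos hwz]
        nlinarith [abs_nonneg n]
      have h11 : m * 2 ^ j ≤ 32 * 2 ^ j := by
        have : (0 : ℤ) < 2 ^ j := by positivity
        nlinarith
      exact abs_le.1 (by linarith)
  -- functions of the two parts
  set f1 : ℤ × ℤ → ℝ := fun w =>
    K2 * (1 / (1 + |(gw j : ℝ) / L ^ (2 / 3 : ℝ) * (w.2 : ℝ) -
      (b.2 + lam * (w.1 * r - b.1)) / L ^ (2 / 3 : ℝ)|) ^ 2) with hf1
  set f2 : ℤ × ℤ → ℝ := fun w =>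
    K2 * (1 / (1 + |(gw j : ℝ) / r ^ (2 / 3 : ℝ) * (w.2 : ℝ) -
      (lam * (w.1 * r)) / r ^ (2 / 3 : ℝ)|) ^ 2) with hf2
  have hf10 : ∀ w, 0 ≤ f1 w := fun w => by rw [hf1]; positivity
  have hf20 : ∀ w, 0 ≤ f2 w := fun w => by rw [hf2]; positivity
  have hexp2 : ∀ k : ℝ, 0 ≤ k → Real.exp (-(c / 6) * (1 + k) ^ (s₀ / 2)) ≤
      K2 * (1 / (1 + k) ^ 2) := by
    intro k hk
    set κ : ℝ := (1 + k) ^ (s₀ / 2) with hκ
    have hκ0 : 0 < κ := Real.rpow_pos_of_pos (by linarith) _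
    have e1 := pow_mul_exp_le (a := c / 6) (z := κ) (by positivity) hκ0.le N
    have e2 : (1 + k) ^ 2 ≤ κ ^ N := by
      rw [hκ, ← Real.rpow_natCast, ← Real.rpow_natCast, ← Real.rpow_mul (by linarith)]
      apply Real.rpow_le_rpow_of_exponent_le (by linarith)
      push_cast
      linarith
    rw [mul_one_div, le_div_iff₀ (by positivity)]
    calc Real.exp (-(c / 6) * κ) * (1 + k) ^ 2 ≤ Real.exp (-(c / 6) * κ) * κ ^ N := by gcongr
      _ = κ ^ N * Real.exp (-(c / 6) * κ) := by ring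
      _ ≤ _ := e1
  have hbound : ∀ w ∈ I1 ×ˢ I2, P.real (E w) ≤
      A * Real.exp (-(c / 2) * y) * (K1 * (1 / z ^ N)) * (f1 w.1 * f2 w.2) := by
    rintro ⟨⟨a, β⟩, ⟨m, n⟩⟩ _
    simp only
    have hnn : 0 ≤ A * Real.exp (-(c / 2) * y) * (K1 * (1 / z ^ N)) *
        (f1 (a, β) * f2 (m, n)) :=
      mul_nonneg (by positivity) (mul_nonneg (hf10 _) (hf20 _))
    by_cases hcond : 1 ≤ m ∧ (gp j a β ∈ Reg ∧ gp j (a + m) (β + n) ∈ Reg) ∧
        Reach (gp j a β) (gp j (a + m) (β + n)) ∧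
        |dx (gp j a β) (gp j (a + m) (β + n))| ≤
          dt (gp j a β) (gp j (a + m) (β + n)) ^ (3 / 4 : ℝ)
    · obtain ⟨h1, hReg, h2, h3⟩ := hcond
      have hlt : (gp j a β).1 < (gp j (a + m) (β + n)).1 := by
        unfold gp
        simp only
        have : (0 : ℤ) < 2 ^ j := by positivity
        nlinarith
      set k : ℝ := |dx (gp j a β) (gp j (a + m) (β + n)) -
        lam * dt (gp j a β) (gp j (a + m) (β + n))| / r ^ (2 / 3 : ℝ) with hk
      set d : ℝ := |dx b (gp j a β) - lam * dt b (gp j a β)| / L ^ (2 / 3 : ℝ) with hd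
      have hk0 : 0 ≤ k := by positivity
      have hd0 : 0 ≤ d := by positivity
      have hWt : Wt L b lam j (gp j a β) (gp j (a + m) (β + n)) =
          ((1 + k) * (1 + d)) ^ (1 / 2 : ℝ) := rfl
      set x : ℝ := Y * ρ ^ (1 / 6 : ℝ) * ((1 + k) * (1 + d)) ^ (1 / 2 : ℝ) with hx
      have hx0 : 0 ≤ x := by positivity
      have hsub : E ((a, β), (m, n)) ⊆ {ω | X ω (gp j a β) (gp j (a + m) (β + n)) ≤
          par q (gp j a β) (gp j (a + m) (β + n)) -
            x * dt (gp j a β) (gp j (a + m) (β + n)) ^ (1 / 3 : ℝ)} := by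
        intro ω hω
        rw [hE] at hω
        simp only [Set.mem_ofPred_eq] at hω ⊢
        rw [hx, ← hWt]
        exact hω.2.2.2.2
      refine (measureReal_mono hsub (measure_ne_top _ _)).trans
        ((hLT _ _ hReg.1 hReg.2 h2 hlt h3 x hx0).trans ?_)
      have hx32 : x ^ s₀ = y * z * (1 + k) ^ (s₀ / 2) * (1 + d) ^ (s₀ / 2) := by
        rw [hx, Real.mul_rpow (by positivity) (by positivity), Real.mul_rpow (by positivity)
          (by positivity), ← Real.rpow_mul (by positivity), ← Real.rpow_mul (by positivity),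
          Real.mul_rpow (by positivity) (by positivity), hy, hz,
          show (1 : ℝ) / 6 * s₀ = s₀ / 6 by ring, show (1 : ℝ) / 2 * s₀ = s₀ / 2 by ring]
        ring
      have hk1 : 1 ≤ (1 + k) ^ (s₀ / 2) := Real.one_le_rpow (by linarith) (by positivity)
      have hd1 : 1 ≤ (1 + d) ^ (s₀ / 2) := Real.one_le_rpow (by linarith) (by positivity)
      set κ : ℝ := (1 + k) ^ (s₀ / 2) with hκ
      set δ : ℝ := (1 + d) ^ (s₀ / 2) with hδ
      have hprod : y / 2 + z / 6 + κ / 6 + δ / 6 ≤ y * z * κ * δ := by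
        have p1 : 1 ≤ y * z := by nlinarith
        have p2 : 1 ≤ κ * δ := by nlinarith
        have q1 : y ≤ y * z * (κ * δ) := by
          calc y = y * 1 * 1 := by ring
            _ ≤ y * z * (κ * δ) := by gcongr
        have q2 : z ≤ y * z * (κ * δ) := by
          calc z = 1 * z * 1 := by ring
            _ ≤ y * z * (κ * δ) := by gcongr
        have q3 : κ ≤ y * z * (κ * δ) := by
          calc κ = 1 * (κ * 1) := by ring
            _ ≤ y * z * (κ * δ) := by gcongr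
        have q4 : δ ≤ y * z * (κ * δ) := by
          calc δ = 1 * (1 * δ) := by ring
            _ ≤ y * z * (κ * δ) := by gcongr
        nlinarith
      have e0 : Real.exp (-c * x ^ s₀) ≤ Real.exp (-(c / 2) * y) *
          Real.exp (-(c / 6) * z) * (Real.exp (-(c / 6) * δ) * Real.exp (-(c / 6) * κ)) := by
        rw [← Real.exp_add, ← Real.exp_add, ← Real.exp_add]
        apply Real.exp_le_exp.2
        rw [hx32]
        nlinarith
      have e1 : Real.exp (-(c / 6) * z) ≤ K1 * (1 / z ^ N) := by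
        have := pow_mul_exp_le (a := c / 6) (z := z) (by positivity) hz0.le N
        rw [mul_one_div, le_div_iff₀ (by positivity), mul_comm]
        exact this
      have hkeq : k = |(gw j : ℝ) / r ^ (2 / 3 : ℝ) * (n : ℝ) -
          (lam * (m * r)) / r ^ (2 / 3 : ℝ)| := by
        rw [hk]
        have : (gw j : ℝ) / r ^ (2 / 3 : ℝ) * (n : ℝ) - (lam * (m * r)) / r ^ (2 / 3 : ℝ) =
            (dx (gp j a β) (gp j (a + m) (β + n)) -
              lam * dt (gp j a β) (gp j (a + m) (β + n))) / r ^ (2 / 3 : ℝ) := by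
          unfold dx dt gp
          push_cast
          rw [hr]
          ring
        rw [this, abs_div, abs_of_pos hrr]
      have hdeq : d = |(gw j : ℝ) / L ^ (2 / 3 : ℝ) * (β : ℝ) -
          (b.2 + lam * (a * r - b.1)) / L ^ (2 / 3 : ℝ)| := by
        rw [hd]
        have : (gw j : ℝ) / L ^ (2 / 3 : ℝ) * (β : ℝ) -
            (b.2 + lam * (a * r - b.1)) / L ^ (2 / 3 : ℝ) =
            (dx b (gp j a β) - lam * dt b (gp j a β)) / L ^ (2 / 3 : ℝ) := by
          unfold dx dt gp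
          push_cast
          rw [hr]
          ring
        rw [this, abs_div, abs_of_pos hLL]
      have e2 : Real.exp (-(c / 6) * κ) ≤ f2 (m, n) := by
        rw [hf2]
        simp only
        rw [← hkeq]
        exact hexp2 k hk0
      have e3 : Real.exp (-(c / 6) * δ) ≤ f1 (a, β) := by
        rw [hf1]
        simp only
        rw [← hdeq]
        exact hexp2 d hd0
      calc A * Real.exp (-c * x ^ s₀)
          ≤ A * (Real.exp (-(c / 2) * y) * Real.exp (-(c / 6) * z) *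
            (Real.exp (-(c / 6) * δ) * Real.exp (-(c / 6) * κ))) := by gcongr
        _ ≤ A * (Real.exp (-(c / 2) * y) * (K1 * (1 / z ^ N)) *
            (f1 (a, β) * f2 (m, n))) := by
            have := hf10 (a, β)
            gcongr
        _ = _ := by ring
    · have : E ((a, β), (m, n)) = ∅ := by
        rw [hE]
        ext ω
        simp only [Set.mem_ofPred_eq, Set.mem_empty_iff_false, iff_false]
        exact fun h => hcond ⟨h.1, h.2.1, h.2.2.1, h.2.2.2.1⟩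
      rw [this, measureReal_empty]
      exact hnn
  refine (real_iUnion_le' P _ E _ _ hcover hbound).trans ?_
  rw [← Finset.mul_sum, Finset.sum_product]
  simp only
  have hfac : ∑ x ∈ I1, ∑ w ∈ I2, f1 x * f2 w = (∑ x ∈ I1, f1 x) * ∑ w ∈ I2, f2 w := by
    rw [Finset.sum_mul_sum]
  rw [hfac]
  have hs1 : ∑ x ∈ I1, f1 x ≤ (2 * ρ) * (K2 * (5 * ρ ^ (2 / 3 : ℝ))) := by
    rw [hI1, Finset.sum_product]
    have h1 : ∀ a ∈ Finset.Icc ⌈(b.1 : ℝ) / r⌉ ⌊((b.1 : ℝ) + L) / r⌋,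
        ∑ β ∈ Finset.Icc (-(⌈16 * L⌉ + |b.2|)) (⌈16 * L⌉ + |b.2|), f1 (a, β) ≤
          K2 * (5 * ρ ^ (2 / 3 : ℝ)) := by
      intro a _
      rw [hf1]
      simp only
      rw [← Finset.mul_sum]
      apply mul_le_mul_of_nonneg_left _ hK20.le
      refine (lat_sum (by positivity) _ _).trans ?_
      have h2 : 4 / ((gw j : ℝ) / L ^ (2 / 3 : ℝ)) ≤ 4 * ρ ^ (2 / 3 : ℝ) := by
        rw [hρ, Real.div_rpow hL0.le hr0.le]
        have := gw_ge j
        rw [← hr] at this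
        rw [div_div_eq_mul_div, mul_div_assoc]
        gcongr
      have h3 : 1 ≤ ρ ^ (2 / 3 : ℝ) := Real.one_le_rpow hρ1 (by norm_num)
      linarith
    refine (Finset.sum_le_sum h1).trans ?_
    rw [Finset.sum_const, nsmul_eq_mul]
    apply mul_le_mul_of_nonneg_right _ (by positivity)
    rw [Int.card_Icc]
    have h2 : (((⌊((b.1 : ℝ) + L) / r⌋ + 1 - ⌈(b.1 : ℝ) / r⌉).toNat : ℕ) : ℝ) ≤
        max (((b.1 : ℝ) + L) / r + 1 - (b.1 : ℝ) / r) 0 := by
      rcases le_total 0 (⌊((b.1 : ℝ) + L) / r⌋ + 1 - ⌈(b.1 : ℝ) / r⌉) with h3 | h3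
      · have h4 : (((⌊((b.1 : ℝ) + L) / r⌋ + 1 - ⌈(b.1 : ℝ) / r⌉).toNat : ℕ) : ℝ) =
            (⌊((b.1 : ℝ) + L) / r⌋ : ℝ) + 1 - (⌈(b.1 : ℝ) / r⌉ : ℝ) := by
          have : (((⌊((b.1 : ℝ) + L) / r⌋ + 1 - ⌈(b.1 : ℝ) / r⌉).toNat : ℕ) : ℤ) =
            ⌊((b.1 : ℝ) + L) / r⌋ + 1 - ⌈(b.1 : ℝ) / r⌉ := Int.toNat_of_nonneg h3
          exact_mod_cast this
        rw [h4]
        apply le_max_of_le_left
        have h5 := Int.floor_le (((b.1 : ℝ) + L) / r)
        have h6 := Int.le_ceil ((b.1 : ℝ) / r)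
        linarith
      · rw [Int.toNat_of_nonpos h3]
        simp
    refine h2.trans (max_le ?_ (by positivity))
    have h3 : ((b.1 : ℝ) + L) / r + 1 - (b.1 : ℝ) / r = ρ + 1 := by
      rw [hρ]; field_simp; ring
    rw [h3]
    linarith
  have hs2 : ∑ w ∈ I2, f2 w ≤ 32 * (K2 * 5) := by
    rw [hI2, Finset.sum_product]
    have h1 : ∀ m ∈ Finset.Icc (1 : ℤ) 32,
        ∑ n ∈ Finset.Icc (-(32 * 2 ^ j : ℤ)) (32 * 2 ^ j), f2 (m, n) ≤ K2 * 5 := by
      intro m _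
      rw [hf2]
      simp only
      rw [← Finset.mul_sum]
      apply mul_le_mul_of_nonneg_left _ hK20.le
      refine (lat_sum (by positivity) _ _).trans ?_
      have h2 : 4 / ((gw j : ℝ) / r ^ (2 / 3 : ℝ)) ≤ 4 := by
        have := gw_ge j
        rw [← hr] at this
        rw [div_le_iff₀ (by positivity)]
        have : 1 ≤ (gw j : ℝ) / r ^ (2 / 3 : ℝ) := by rw [le_div_iff₀ hrr]; linarith
        linarith
      linarith
    refine (Finset.sum_le_sum h1).trans ?_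
    rw [Finset.sum_const, nsmul_eq_mul, Int.card_Icc,
      show ((32 : ℤ) + 1 - 1).toNat = 32 from rfl, Nat.cast_ofNat]
  have hzN : ρ * ρ ^ (2 / 3 : ℝ) * ρ ≤ z ^ N := by
    have e1 : ρ * ρ ^ (2 / 3 : ℝ) * ρ = ρ ^ (8 / 3 : ℝ) := by
      have : ρ * ρ ^ (2 / 3 : ℝ) * ρ = ρ ^ (1 : ℝ) * ρ ^ (2 / 3 : ℝ) * ρ ^ (1 : ℝ) := by
        rw [Real.rpow_one]
      rw [this, ← Real.rpow_add hρ0, ← Real.rpow_add hρ0]
      norm_num
    rw [e1, hz, ← Real.rpow_natCast, ← Real.rpow_mul hρ0.le]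
    apply Real.rpow_le_rpow_of_exponent_le hρ1
    linarith
  have hfin : (1 / z ^ N) * (ρ * ρ ^ (2 / 3 : ℝ)) ≤ r / L := by
    have h1 : r / L = 1 / ρ := by rw [hρ]; field_simp
    rw [h1, one_div_mul_eq_div, div_le_div_iff₀ (by positivity) hρ0]
    linarith
  have hS1 : 0 ≤ ∑ x ∈ I1, f1 x := Finset.sum_nonneg fun _ _ => hf10 _
  have hS2 : 0 ≤ ∑ w ∈ I2, f2 w := Finset.sum_nonneg fun _ _ => hf20 _
  have hmul : (∑ x ∈ I1, f1 x) * ∑ w ∈ I2, f2 w ≤
      ((2 * ρ) * (K2 * (5 * ρ ^ (2 / 3 : ℝ)))) * (32 * (K2 * 5)) :=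
    mul_le_mul hs1 hs2 hS2 (by positivity)
  calc A * Real.exp (-(c / 2) * y) * (K1 * (1 / z ^ N)) * ((∑ x ∈ I1, f1 x) * ∑ w ∈ I2, f2 w)
      ≤ A * Real.exp (-(c / 2) * y) * (K1 * (1 / z ^ N)) *
        (((2 * ρ) * (K2 * (5 * ρ ^ (2 / 3 : ℝ)))) * (32 * (K2 * 5))) :=
        mul_le_mul_of_nonneg_left hmul (by positivity)
    _ = A * K1 * (2 * (K2 * 5)) * (32 * (K2 * 5)) * ((1 / z ^ N) * (ρ * ρ ^ (2 / 3 : ℝ))) *
        Real.exp (-(c / 2) * y) := by ring
    _ ≤ A * K1 * (2 * (K2 * 5)) * (32 * (K2 * 5)) * (r / L) * Real.exp (-(c / 2) * y) := by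
        apply mul_le_mul_of_nonneg_right _ (Real.exp_pos _).le
        exact mul_le_mul_of_nonneg_left hfin (by positivity)

end Pool.Agent.H22.LPP
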