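import Pool.Agent.H22.LPP.Cond

/-!
# The parabolic approximation and its tangent lines
-/

open MeasureTheory ProbabilityTheory
open Pool.Agent.H99.NS

namespace Pool.Agent.H22.LPP

/-- Duration, as a real number. -/
def dt (u v : Site) : ℝ := ((v.1 - u.1 : ℤ) : ℝ)

/-- Displacement, as a real number. -/
def dx (u v : Site) : ℝ := ((v.2 - u.2 : ℤ) : ℝ)

theorem par_def (q : ℝ) (u v : Site) : par q u v = mu q * dt u v - sg q / 2 * dx u v ^ 2 / dt u v :=
  rfl

theorem dt_add (u v w : Site) : dt u v + dt v w = dt u w := by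
  unfold dt; push_cast; ring

theorem dx_add (u v w : Site) : dx u v + dx v w = dx u w := by
  unfold dx; push_cast; ring

theorem dt_nonneg {u v : Site} (h : u.1 ≤ v.1) : 0 ≤ dt u v := by
  unfold dt; exact_mod_cast (by omega : 0 ≤ v.1 - u.1)

theorem one_le_dt {u v : Site} (h : u.1 < v.1) : 1 ≤ dt u v := by
  unfold dt; exact_mod_cast (by omega : 1 ≤ v.1 - u.1)

theorem dt_pos {u v : Site} (h : u.1 < v.1) : 0 < dt u v := by
  linarith [one_le_dt h]

theorem abs_dx_le {u v : Site} (h : Reach u v) : |dx u v| ≤ dt u v := by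
  unfold dx dt
  exact_mod_cast h.1

theorem mu_nonneg {q : ℝ} (h1 : q < 1) : 0 ≤ mu q := by
  unfold mu
  have h2 : √q < 1 := by rw [Real.sqrt_lt' one_pos]; simpa using h1
  exact div_nonneg (Real.sqrt_nonneg _) (by linarith)

theorem sg_nonneg {q : ℝ} (h1 : q < 1) : 0 ≤ sg q := by
  unfold sg
  exact div_nonneg (Real.sqrt_nonneg _) (by linarith)

theorem mu_pos {q : ℝ} (h0 : 0 < q) (h1 : q < 1) : 0 < mu q := by
  unfold mu
  have h2 : √q < 1 := by rw [Real.sqrt_lt' one_pos]; simpa using h1
  exact div_pos (Real.sqrt_pos.2 h0) (by linarith)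

theorem sg_pos {q : ℝ} (h0 : 0 < q) (h1 : q < 1) : 0 < sg q := by
  unfold sg
  exact div_pos (Real.sqrt_pos.2 h0) (by linarith)

/-- The tangent line of slope `s`: an additive function of the displacement. -/
noncomputable def lin (q s : ℝ) (u v : Site) : ℝ :=
  (mu q + sg q / 2 * s ^ 2) * dt u v - sg q * s * dx u v

theorem lin_add (q s : ℝ) (u v w : Site) : lin q s u v + lin q s v w = lin q s u w := by
  unfold lin
  rw [← dt_add u v w, ← dx_add u v w]
  ring

theorem lin_self (q s : ℝ) (u : Site) : lin q s u u = 0 := by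
  unfold lin dt dx; simp

theorem par_eq_lin (q s : ℝ) {u v : Site} (h : u.1 < v.1) :
    par q u v = lin q s u v - sg q / 2 * (dx u v - s * dt u v) ^ 2 / dt u v := by
  have := (dt_pos h).ne'
  rw [par_def]
  unfold lin
  field_simp
  ring

theorem par_le_lin {q : ℝ} (hq : q < 1) (s : ℝ) {u v : Site} (h : u.1 < v.1) :
    par q u v ≤ lin q s u v := by
  rw [par_eq_lin q s h]
  have h1 := sg_nonneg hq
  have h2 := (dt_pos h)
  have : 0 ≤ sg q / 2 * (dx u v - s * dt u v) ^ 2 / dt u v := by positivity
  linarith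

/-- The tangent line at the direction of `(u, v)`. -/
theorem lin_at {q : ℝ} {u v : Site} (h : u.1 < v.1) : lin q (dx u v / dt u v) u v = par q u v := by
  have := (dt_pos h).ne'
  rw [par_eq_lin q (dx u v / dt u v) h]
  field_simp
  ring

/-- Superadditivity of the parabola. -/
theorem par_superadd {q : ℝ} (hq : q < 1) {u v w : Site} (h : u.1 < v.1) (h' : v.1 < w.1) :
    par q u v + par q v w ≤ par q u w := by
  rw [← lin_at (h.trans h'), ← lin_add _ _ u v w]
  exact add_le_add (par_le_lin hq _ h) (par_le_lin hq _ h')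

/-- Exact deficit in the superadditivity of the parabola. -/
theorem par_deficit (q : ℝ) {u v w : Site} (h : u.1 < v.1) (h' : v.1 < w.1) :
    par q u w - par q u v - par q v w =
      sg q / 2 * (dt v w * dx u v - dt u v * dx v w) ^ 2 / (dt u v * dt v w * dt u w) := by
  have h1 := (dt_pos h)
  have h2 := (dt_pos h')
  have h3 := (dt_pos (h.trans h'))
  rw [par_def, par_def, par_def]
  rw [← dt_add u v w] at h3 ⊢
  rw [← dx_add u v w]
  field_simp
  ring

/-- The parabola with a smaller curvature. -/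
noncomputable def parS (q θ : ℝ) (u v : Site) : ℝ :=
  mu q * dt u v - θ * (sg q / 2) * dx u v ^ 2 / dt u v

theorem parS_one (q : ℝ) (u v : Site) : parS q 1 u v = par q u v := by
  rw [par_def]; unfold parS; ring

theorem parS_eq (q θ : ℝ) (u v : Site) :
    parS q θ u v = par q u v + (1 - θ) * (sg q / 2) * dx u v ^ 2 / dt u v := by
  rw [par_def]; unfold parS; ring

end Pool.Agent.H22.LPP
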