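import Pool.Agent.H19.GL.CA1
import Pool.Agent.H19.GL.CA3
import Pool.Agent.H19.GL.CA4
import Pool.Agent.H19.GL.CA5
import Pool.Agent.H19.GL.PAR
import Pool.Agent.H19.GL.PEL
import Pool.Agent.H19.GL.PRE
import Pool.Agent.H19.GL.PSI
import Pool.Agent.H19.GL.PSL
import Pool.Agent.H19.GL.PSS
import Pool.Agent.H19.GL.UT
import Pool.Agent.H19.GL.VRO
import Pool.Agent.H2.GL.ELU
import Pool.Agent.H2.GL.EXB
import Pool.Agent.H2.GL.FUB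
import Pool.Agent.H20.GL.GEO
import Pool.Agent.H20.GL.GGP
import Pool.Agent.H20.GL.HRO
import Pool.Agent.H20.GL.MG2
import Pool.Agent.H20.GL.MO1
import Pool.Agent.H20.GL.PLS
import Pool.Agent.H20.GL.SH1
import Pool.Agent.H20.GL.SH2
import Pool.Agent.H20.GL.TLB
import Pool.Agent.H26.GL.CEL
import Pool.Agent.H26.GL.COL
import Pool.Agent.H26.GL.MGF
import Pool.Agent.H4.GL.CA2
import Pool.Agent.H4.GL.INC
import Pool.Agent.H4.GL.LTP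
import Pool.Agent.H54.GL.Det
import Pool.Agent.H59.GL.ELS
import Pool.Agent.H59.GL.LMG
import Pool.Agent.H65.GL.EXP
import Pool.Agent.H65.GL.RWK
import Pool.Agent.H65.GL.RWM
import Pool.Agent.H65.GL.VAR
import Pool.Agent.H66.GL.GLO
import Pool.Agent.H66.GL.WIN
import Pool.Agent.H7.GL.GHM
import Pool.Agent.H7.GL.GHU
import Pool.Agent.H7.GL.UMS
import Pool.Agent.H7.GL.WNS
import Pool.Agent.H76.GL.HW
import Pool.Agent.H76.GL.MGS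
import Pool.Agent.H76.GL.UMQ
import Pool.Agent.H77.GL.GHL
import Pool.Agent.H77.GL.MOP
import Pool.Agent.H77.GL.PZ
import Pool.Agent.H84.GL.BAS
import Pool.Agent.H84.GL.LTS
import Pool.Agent.H84.GL.UTM
import Pool.Agent.H84.GL.UTMS
import Pool.Agent.H84.GL.UTS
import Pool.Agent.H95.GL.LT
import Pool.Agent.H95.GL.LTQ
import Pool.Agent.H95.GL.NEC

/-!
# Part A: assembly
-/

open Pool.Agent.H84.GL

namespace Pool.Agent.H22.LPP.A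

theorem a_GEO : T_GEO := Pool.Agent.H20.GL.GEO.pf_GEO

theorem a_GEM : T_GEM := Pool.Agent.H20.GL.GEO.pf_GEM

theorem a_SH1 : T_SH1 := Pool.Agent.H20.GL.SH1.pf_SH1

theorem a_SH2 : T_SH2 := Pool.Agent.H20.GL.SH2.pf_SH2

theorem a_CEL : T_CEL := Pool.Agent.H26.GL.pf_CEL

theorem a_COL : T_COL := Pool.Agent.H26.GL.pf_COL a_CEL a_SH1

theorem a_PEL : T_PEL := Pool.Agent.H19.GL.pf_PEL

theorem a_MGF : T_MGF := Pool.Agent.H26.GL.pf_MGF a_GEO a_GEM a_SH1 a_SH2 a_COL a_PEL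

theorem a_EXI : T_EXI := Pool.Agent.H54.GL.pf_EXI

theorem a_PLS : T_PLS := Pool.Agent.H20.GL.PLS.pf_PLS

theorem a_MG2 : T_MG2 := Pool.Agent.H20.GL.MG2.pf_MG2 a_MGF a_EXI a_PLS

theorem a_WIN : T_WIN := Pool.Agent.H66.GL.pf_WIN

theorem a_RWK : T_RWK := Pool.Agent.H65.GL.pf_RWK a_SH1

theorem a_PSI : T_PSI := Pool.Agent.H19.GL.pf_PSI

theorem a_RWM : T_RWM := Pool.Agent.H65.GL.pf_RWM a_GEM a_SH1 a_RWK a_PSI

theorem a_PAR : T_PAR := Pool.Agent.H19.GL.pf_PAR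

theorem a_UMQ : T_UMQ := Pool.Agent.H76.GL.pf_UMQ a_MGF a_EXI a_PSI a_PAR

theorem a_TLB : T_TLB := Pool.Agent.H20.GL.TLB.pf_TLB

theorem a_UTM : D_UTM := Pool.Agent.H84.GL.pf_UTM a_UMQ a_TLB

theorem a_CA1 : T_CA1 := Pool.Agent.H19.GL.pf_CA1

theorem a_CA2 : T_CA2 := Pool.Agent.H4.GL.pf_CA2 a_CA1

theorem a_CA3 : T_CA3 := Pool.Agent.H19.GL.pf_CA3

theorem a_GLO : T_GLO := Pool.Agent.H66.GL.pf_GLO a_MGF a_CA2 a_CA3

theorem a_MO1 : T_MO1 := Pool.Agent.H20.GL.MO1.pf_MO1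

theorem a_MOP : T_MOP := Pool.Agent.H77.GL.pf_MOP a_SH1 a_MO1

theorem a_EXS : T_EXS := Pool.Agent.H54.GL.pf_EXS

theorem a_GHM : T_GHM := Pool.Agent.H7.GL.pf_GHM a_GEM a_SH1 a_MOP a_MGF a_EXI a_EXS

theorem a_CA4 : T_CA4 := Pool.Agent.H19.GL.pf_CA4

theorem a_GHU : T_GHU := Pool.Agent.H7.GL.pf_GHU a_GHM a_CA2 a_CA3 a_CA4

theorem a_EXB : T_EXB := Pool.Agent.H2.GL.pf_EXB a_GLO a_GHU

theorem a_GHL : T_GHL := Pool.Agent.H77.GL.pf_GHL a_GHM a_CA2 a_CA3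

theorem a_NEC : T_NEC := Pool.Agent.H95.GL.pf_NEC a_GLO a_GHL a_EXI

theorem a_VRO : T_VRO := Pool.Agent.H19.GL.pf_VRO a_SH1 a_SH2 a_COL a_PEL

theorem a_TRA : T_TRA := Pool.Agent.H54.GL.pf_TRA

theorem a_HRO : T_HRO := Pool.Agent.H20.GL.HRO.pf_HRO a_VRO a_TRA

theorem a_REV : T_REV := Pool.Agent.H54.GL.pf_REV

theorem a_CMV : T_CMV := Pool.Agent.H54.GL.pf_CMV

theorem a_INC : T_INC := Pool.Agent.H4.GL.pf_INC a_GEM a_SH1 a_RWK a_HRO a_REV a_CMV a_EXI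

theorem a_CA5 : T_CA5 := Pool.Agent.H19.GL.pf_CA5

theorem a_LTP : T_LTP := Pool.Agent.H4.GL.LTP.pf_LTP a_EXB a_NEC a_INC a_EXI a_TRA a_CA2 a_CA5

theorem a_LTQ : T_LTQ := Pool.Agent.H95.GL.pf_LTQ a_LTP

theorem a_GGP : T_GGP := Pool.Agent.H20.GL.GGP.pf_GGP

theorem a_GET : T_GET := Pool.Agent.H20.GL.GEO.pf_GET

theorem a_LT : D_LT := Pool.Agent.H95.GL.pf_LT a_LTQ a_GGP a_TLB a_GET

theorem a_FUB : T_FUB := Pool.Agent.H2.GL.pf_FUB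

theorem a_PRE : T_PRE := Pool.Agent.H19.GL.pf_PRE

theorem a_ELU : T_ELU := Pool.Agent.H2.GL.pf_ELU a_UTM a_LT a_FUB a_PRE

theorem a_PSS : T_PSS := Pool.Agent.H19.GL.pf_PSS

theorem a_UMS : T_UMS := Pool.Agent.H7.GL.pf_UMS a_MGF a_EXI a_PSS a_PAR

theorem a_UTMS : D_UTMS := Pool.Agent.H84.GL.pf_UTMS a_UMS a_TLB

theorem a_ELS : T_ELS := Pool.Agent.H59.GL.pf_ELS a_UTMS a_LT a_FUB a_PRE

theorem a_WNS : T_WNS := Pool.Agent.H7.GL.pf_WNS a_MG2 a_WIN a_RWM a_ELU a_ELS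

theorem a_LMG : D_LMG := Pool.Agent.H59.GL.pf_LMG a_WNS a_LT a_FUB a_PRE

theorem a_LTS : D_LTS := Pool.Agent.H84.GL.pf_LTS a_LMG a_UTMS

theorem a_BASE : D_BASE := Pool.Agent.H84.GL.pf_BAS a_LTS

theorem a_EXP : D_EXP := Pool.Agent.H65.GL.pf_EXP a_UTM a_LT

theorem a_HW : D_HW := Pool.Agent.H76.GL.pf_HW a_BASE

theorem a_PSL : T_PSL := Pool.Agent.H19.GL.pf_PSL

theorem a_MGS : T_MGS := Pool.Agent.H76.GL.pf_MGS a_MGF a_EXI a_PSL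

theorem a_PZ : T_PZ := Pool.Agent.H77.GL.pf_PZ

theorem a_UT : D_UT := Pool.Agent.H19.GL.pf_UT a_UTM

theorem a_UTS : D_UTS := Pool.Agent.H84.GL.pf_UTS a_UTMS

theorem a_VAR : D_VAR := Pool.Agent.H65.GL.pf_VAR a_BASE a_EXP a_UT a_LT

end Pool.Agent.H22.LPP.A
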