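import Pool.Agent.H22.LPP.Par

/-!
# One-point hypotheses, real-valued forms of the decoupling lemmas, one pair of boxes
-/

open MeasureTheory ProbabilityTheory
open Pool.Agent.H99.NS

namespace Pool.Agent.H22.LPP

/-- Upper tail, all directions (weak exponential form). -/
def UT1 (q C c : ℝ) : Prop :=
  ∀ u v : Site, Reach u v → u.1 < v.1 → ∀ x : ℝ, 0 ≤ x →
    (PE q).real {ω | par q u v + x * dt u v ^ (1 / 3 : ℝ) ≤ T ω u v} ≤ C * Real.exp (-c * x)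

/-- Lower tail, moderate directions. -/
def LT1 (q A c s : ℝ) : Prop :=
  ∀ u v : Site, Reach u v → u.1 < v.1 → |dx u v| ≤ dt u v ^ (3 / 4 : ℝ) → ∀ x : ℝ, 0 ≤ x →
    (PE q).real {ω | T ω u v ≤ par q u v - x * dt u v ^ (1 / 3 : ℝ)} ≤ A * Real.exp (-c * x ^ s)

theorem ext_both_real (q : ℝ) (U V : Finset Site) (u0 v0 : Site) (f : Site → Site → ℝ)
    (α β : Site → ℝ) (κ : ℝ) (hκ : 0 ≤ κ) (z : ℝ)
    (hα : ∀ u ∈ U, Reach u0 u ∧ κ ≤ (PE q).real {ω | α u ≤ T ω u0 u})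
    (hβ : ∀ v ∈ V, Reach v v0 ∧ κ ≤ (PE q).real {ω | β v ≤ T ω v v0})
    (hz : ∀ u ∈ U, ∀ v ∈ V, Reach u v → z ≤ α u + f u v + β v) :
    κ * (κ * (PE q).real {ω | ∃ u ∈ U, ∃ v ∈ V, Reach u v ∧ f u v ≤ T ω u v}) ≤
      (PE q).real {ω | z ≤ T ω u0 v0} := by
  have key := ext_both q U V u0 v0 f α β (ENNReal.ofReal κ) z
    (fun u hu => ⟨(hα u hu).1, by
      rw [ENNReal.ofReal_le_iff_le_toReal (measure_ne_top _ _)]; exact (hα u hu).2⟩)
    (fun v hv => ⟨(hβ v hv).1, by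
      rw [ENNReal.ofReal_le_iff_le_toReal (measure_ne_top _ _)]; exact (hβ v hv).2⟩) hz
  have h2 := ENNReal.toReal_mono (measure_ne_top _ _) key
  rw [ENNReal.toReal_mul, ENNReal.toReal_mul, ENNReal.toReal_ofReal hκ] at h2
  exact h2

/-- Passing from a lower tail to the probability of the complementary event. -/
theorem prob_ge_half {q a : ℝ} {u v : Site} (h : (PE q).real {ω | T ω u v ≤ a} ≤ 1 / 2) :
    1 / 2 ≤ (PE q).real {ω | a ≤ T ω u v} := by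
  have h1 : (1 : ℝ) ≤ (PE q).real {ω | T ω u v ≤ a} + (PE q).real {ω | a ≤ T ω u v} := by
    have h2 : (Set.univ : Set Env) ⊆ {ω | T ω u v ≤ a} ∪ {ω | a ≤ T ω u v} := by
      intro ω _
      rcases le_total (T ω u v) a with h | h
      · exact Or.inl h
      · exact Or.inr h
    calc (1 : ℝ) = (PE q).real Set.univ := by simp
      _ ≤ (PE q).real ({ω | T ω u v ≤ a} ∪ {ω | a ≤ T ω u v}) := measureReal_mono h2
      _ ≤ _ := measureReal_union_le _ _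
  linarith

/-- A constant `K` with lower tail at most one half. -/
theorem exists_half {q A c s : ℝ} (hc : 0 < c) (hs : 0 < s) (h : LT1 q A c s) :
    ∃ K : ℝ, 0 ≤ K ∧ ∀ u v : Site, Reach u v → u.1 < v.1 → |dx u v| ≤ dt u v ^ (3 / 4 : ℝ) →
      1 / 2 ≤ (PE q).real {ω | par q u v - K * dt u v ^ (1 / 3 : ℝ) ≤ T ω u v} := by
  have hlim : Filter.Tendsto (fun x : ℝ => A * Real.exp (-c * x ^ s)) Filter.atTop (nhds 0) := by
    rw [show (0 : ℝ) = A * 0 by ring]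
    apply Filter.Tendsto.const_mul
    apply Real.tendsto_exp_atBot.comp
    have h1 := (tendsto_rpow_atTop hs).const_mul_atTop hc
    have h2 := Filter.tendsto_neg_atTop_atBot.comp h1
    refine h2.congr fun x => ?_
    simp
  obtain ⟨K, hK⟩ := ((hlim.eventually (gt_mem_nhds (by norm_num : (0 : ℝ) < 1 / 2))).and
    (Filter.eventually_ge_atTop 0)).exists
  refine ⟨K, hK.2, fun u v h1 h2 h3 => prob_ge_half ?_⟩
  exact (h u v h1 h2 h3 K hK.2).trans hK.1.le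

/-- Extension of the best pair of two finite sets of sites, relative to the tangent line of
slope `s`: `e` bounds the deviations from the line, `y` is the excess, `L` the height of the
extensions. -/
theorem box_ext {q : ℝ} (hq : q < 1) {K : ℝ} (hK : 0 ≤ K)
    (hhalf : ∀ u v : Site, Reach u v → u.1 < v.1 → |dx u v| ≤ dt u v ^ (3 / 4 : ℝ) →
      1 / 2 ≤ (PE q).real {ω | par q u v - K * dt u v ^ (1 / 3 : ℝ) ≤ T ω u v})
    (U V : Finset Site) (u0 v0 : Site) (s L e y : ℝ) (hL : 0 < L)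
    (f : Site → Site → ℝ)
    (hU : ∀ u ∈ U, Reach u0 u ∧ |dx u0 u| ≤ dt u0 u ^ (3 / 4 : ℝ) ∧ L ≤ dt u0 u ∧
      dt u0 u ≤ 8 * L ∧ |dx u0 u - s * dt u0 u| ≤ e)
    (hV : ∀ v ∈ V, Reach v v0 ∧ |dx v v0| ≤ dt v v0 ^ (3 / 4 : ℝ) ∧ L ≤ dt v v0 ∧
      dt v v0 ≤ 8 * L ∧ |dx v v0 - s * dt v v0| ≤ e)
    (hf : ∀ u ∈ U, ∀ v ∈ V, Reach u v → lin q s u v + y ≤ f u v) :
    (PE q).real {ω | ∃ u ∈ U, ∃ v ∈ V, Reach u v ∧ f u v ≤ T ω u v} ≤
      4 * (PE q).real {ω | lin q s u0 v0 + y - sg q * e ^ 2 / L - 4 * K * L ^ (1 / 3 : ℝ) ≤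
        T ω u0 v0} := by
  have hL0 : 0 < L := hL
  have hsg := sg_nonneg hq
  have hL3 : 0 < L ^ (1 / 3 : ℝ) := Real.rpow_pos_of_pos hL0 _
  have h8 : ∀ r : ℝ, 0 ≤ r → r ≤ 8 * L → r ^ (1 / 3 : ℝ) ≤ 2 * L ^ (1 / 3 : ℝ) := by
    intro r hr0 hr
    calc r ^ (1 / 3 : ℝ) ≤ (8 * L) ^ (1 / 3 : ℝ) := Real.rpow_le_rpow hr0 hr (by norm_num)
      _ = 2 * L ^ (1 / 3 : ℝ) := by
        rw [Real.mul_rpow (by norm_num) hL0.le]
        congr 1
        rw [show (8 : ℝ) = 2 ^ (3 : ℝ) by norm_num, ← Real.rpow_mul (by norm_num)]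
        norm_num
  -- the deviation cost of one side
  have hside : ∀ a b : Site, Reach a b → |dx a b| ≤ dt a b ^ (3 / 4 : ℝ) → L ≤ dt a b →
      dt a b ≤ 8 * L → |dx a b - s * dt a b| ≤ e →
      1 / 2 ≤ (PE q).real {ω | lin q s a b - sg q / 2 * e ^ 2 / L - 2 * K * L ^ (1 / 3 : ℝ) ≤
        T ω a b} := by
    intro a b h1 h2 h3 h4 h5
    have h6 : a.1 < b.1 := by
      have : (0 : ℝ) < dt a b := by linarith
      unfold dt at this
      have := Int.cast_pos.1 this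
      omega
    refine (hhalf a b h1 h6 h2).trans (measureReal_mono ?_)
    intro ω hω
    simp only [Set.mem_ofPred_eq] at hω ⊢
    refine le_trans ?_ hω
    rw [par_eq_lin q s h6]
    have h7 : sg q / 2 * (dx a b - s * dt a b) ^ 2 / dt a b ≤ sg q / 2 * e ^ 2 / L := by
      have h8 : (dx a b - s * dt a b) ^ 2 ≤ e ^ 2 := sq_le_sq' (by linarith [abs_le.1 h5])
        (abs_le.1 h5).2
      apply div_le_div₀ (by positivity) (by gcongr) hL0 h3
    have h9 := h8 (dt a b) (by linarith) h4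
    nlinarith
  have key := ext_both_real q U V u0 v0 f
    (fun u => lin q s u0 u - sg q / 2 * e ^ 2 / L - 2 * K * L ^ (1 / 3 : ℝ))
    (fun v => lin q s v v0 - sg q / 2 * e ^ 2 / L - 2 * K * L ^ (1 / 3 : ℝ)) (1 / 2) (by norm_num)
    (lin q s u0 v0 + y - sg q * e ^ 2 / L - 4 * K * L ^ (1 / 3 : ℝ))
    (fun u hu => by
      obtain ⟨h1, h2, h3, h4, h5⟩ := hU u hu
      exact ⟨h1, hside u0 u h1 h2 h3 h4 h5⟩)
    (fun v hv => by
      obtain ⟨h1, h2, h3, h4, h5⟩ := hV v hv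
      exact ⟨h1, hside v v0 h1 h2 h3 h4 h5⟩)
    (fun u hu v hv huv => by
      have h1 := hf u hu v hv huv
      have h2 := lin_add q s u0 u v
      have h3 := lin_add q s u0 v v0
      have h4 : sg q * e ^ 2 / L = sg q / 2 * e ^ 2 / L + sg q / 2 * e ^ 2 / L := by ring
      linarith)
  linarith

end Pool.Agent.H22.LPP
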