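import Pool.Agent.H22.LPP.BoxPair

/-!
# The boxes of one scale cover all pairs
-/

open MeasureTheory ProbabilityTheory
open Pool.Agent.H99.NS

namespace Pool.Agent.H22.LPP

theorem cell_lo (x : ℤ) {h : ℤ} (hh : 1 ≤ h) : x / h * h ≤ x ∧ x < x / h * h + h := by
  have h1 := Int.emod_add_mul_ediv x h
  have h2 := Int.emod_nonneg x (by omega : h ≠ 0)
  have h3 := Int.emod_lt_of_pos x (by omega : 0 < h)
  constructor <;> linarith

theorem cell_diff {x y i i' h : ℤ} (h1 : i * h ≤ x) (h2 : x < i * h + h) (h1' : i' * h ≤ y)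
    (h2' : y < i' * h + h) : |((i' - i : ℤ) : ℝ) * h - ((y - x : ℤ) : ℝ)| ≤ h := by
  rw [← Int.cast_mul, ← Int.cast_sub, ← Int.cast_abs]
  have : |(i' - i) * h - (y - x)| ≤ h := by
    rw [abs_le]
    constructor <;> linarith
  exact_mod_cast this

theorem cell_floor {m : ℤ} {y z : ℝ} (hz : 0 < z) (hm : (m : ℝ) * z ≤ y) : m ≤ ⌊y / z⌋ := by
  rw [Int.le_floor, le_div_iff₀ hz]
  exact hm

theorem cell_t {b x h : ℤ} {ℓ : ℝ} (hh : 1 ≤ h) (hx1 : b ≤ x) (hx2 : ((x - b : ℤ) : ℝ) ≤ ℓ) :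
    0 ≤ (x - b) / h ∧ (x - b) / h ≤ ⌊ℓ / h⌋ := by
  have hR : (0 : ℝ) < h := by exact_mod_cast (by omega : 0 < h)
  refine ⟨Int.ediv_nonneg (by omega) (by omega), cell_floor hR ?_⟩
  have e3 := (cell_lo (x - b) hh).1
  have e4 : (((x - b) / h * h : ℤ) : ℝ) ≤ ((x - b : ℤ) : ℝ) := by exact_mod_cast e3
  rw [Int.cast_mul] at e4
  exact e4.trans hx2

theorem cell_x {b x w : ℤ} {r : ℝ} (hw : 1 ≤ w) (hx : |((x - b : ℤ) : ℝ)| ≤ r) :
    -(⌊r / w⌋ + 1) ≤ (x - b) / w ∧ (x - b) / w ≤ ⌊r / w⌋ + 1 := by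
  have hR : (0 : ℝ) < w := by exact_mod_cast (by omega : 0 < w)
  rw [abs_le] at hx
  obtain ⟨e1, e2⟩ := cell_lo (x - b) hw
  generalize (x - b) / w = k at e1 e2 ⊢
  generalize x - b = d at *
  have e4 : k ≤ ⌊r / w⌋ := by
    apply cell_floor hR
    have e6 : ((k * w : ℤ) : ℝ) ≤ ((d : ℤ) : ℝ) := by exact_mod_cast e1
    rw [Int.cast_mul] at e6
    exact e6.trans hx.2
  have e5 : -k - 1 ≤ ⌊r / w⌋ := by
    apply cell_floor hR
    have e5 : (-k - 1) * w ≤ -d := by linarith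
    have e6 : (((-k - 1) * w : ℤ) : ℝ) ≤ ((-d : ℤ) : ℝ) := by
      exact_mod_cast e5
    rw [Int.cast_mul] at e6
    refine e6.trans ?_
    push_cast
    linarith [hx.1]
  constructor <;> omega

/-- The corner of the box of the first site. -/
def cor (b : Site) (side : Bool) (h w : ℤ) (z : ℤ × ℤ × ℤ × ℤ × ℤ) : Site :=
  if side then (b.1 + z.1 * h, b.2 + z.2.1 * w)
  else (b.1 + (z.1 - z.2.2.1) * h, b.2 + (z.2.1 - z.2.2.2.1) * w)

theorem scale_index (b u v : Site) (side : Bool) {h w : ℤ} {L ℓ r : ℝ} (hh1 : 1 ≤ h) (hw1 : 1 ≤ w)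
    (hhL : (h : ℝ) ≤ L / 100) (g1 : b.1 ≤ u.1) (g2 : dt b v ≤ ℓ)
    (g3 : Reach u v) (g4 : |dx b (if side then u else v)| ≤ ℓ ^ (2 / 3 : ℝ)) (g5 : L ≤ dt u v)
    (g6 : dt u v ≤ 2 * L) (g7 : |dx u v| ≤ r) :
    ∃ z : ℤ × ℤ × ℤ × ℤ × ℤ,
      (z ∈ (Finset.Icc 0 ⌊ℓ / h⌋) ×ˢ
        (Finset.Icc (-(⌊ℓ ^ (2 / 3 : ℝ) / w⌋ + 1)) (⌊ℓ ^ (2 / 3 : ℝ) / w⌋ + 1)) ×ˢ
        (Finset.Icc 1 ⌊(2 * L + h) / h⌋) ×ˢ (Finset.Icc (-⌊r + w⌋) ⌊r + w⌋) ×ˢ
        (Finset.Icc (0 : ℤ) 1)) ∧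
      ((z.2.2.1 : ℝ) * h ≤ 4 * L ∧ L - h ≤ (z.2.2.1 : ℝ) * h ∧ |(z.2.2.2.1 : ℝ)| * w ≤ r + w) ∧
      u ∈ box (cor b side h w z) h w z.2.2.2.2 ∧
      v ∈ box ((cor b side h w z).1 + z.2.2.1 * h, (cor b side h w z).2 + z.2.2.2.1 * w) h w
        z.2.2.2.2 := by
  have hR : (0 : ℝ) < h := by exact_mod_cast (by omega : 0 < h)
  have hRw : (1 : ℝ) ≤ w := by exact_mod_cast hw1
  obtain ⟨a1, a2⟩ := cell_lo (u.1 - b.1) hh1
  obtain ⟨b1, b2⟩ := cell_lo (u.2 - b.2) hw1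
  obtain ⟨a1', a2'⟩ := cell_lo (v.1 - b.1) hh1
  obtain ⟨b1', b2'⟩ := cell_lo (v.2 - b.2) hw1
  obtain ⟨p, hp0, hp1, hpu⟩ : ∃ p : ℤ, 0 ≤ p ∧ p ≤ 1 ∧ Even (u.1 + u.2 + p) :=
    ⟨(u.1 + u.2) % 2, by omega, by omega, by rw [Int.even_iff]; omega⟩
  have hpv : Even (v.1 + v.2 + p) := by
    obtain ⟨m, hm⟩ := g3.2
    obtain ⟨n, hn⟩ := hpu
    exact ⟨m + n, by linarith⟩
  have hbv : b.1 ≤ v.1 := g1.trans (reach_le g3)
  have hdtu : dt b u ≤ ℓ := by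
    have h1 : dt b u ≤ dt b v := by
      rw [← dt_add b u v]
      linarith [dt_nonneg (reach_le g3)]
    linarith
  have r1 := cell_diff a1 a2 a1' a2'
  have r3 := cell_diff b1 b2 b1' b2'
  rw [show v.1 - b.1 - (u.1 - b.1) = v.1 - u.1 by ring] at r1
  rw [show v.2 - b.2 - (u.2 - b.2) = v.2 - u.2 by ring] at r3
  have t1u := cell_t hh1 g1 hdtu
  have t1v := cell_t hh1 hbv g2
  have t2u : side = true → _ := fun hs => cell_x (x := u.2) (b := b.2) (r := ℓ ^ (2 / 3 : ℝ)) hw1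
    (by rw [hs, if_pos rfl] at g4; exact g4)
  have t2v : side = false → _ := fun hs => cell_x (x := v.2) (b := b.2) (r := ℓ ^ (2 / 3 : ℝ)) hw1
    (by rw [hs, if_neg Bool.false_ne_true] at g4; exact g4)
  generalize (u.1 - b.1) / h = i at *
  generalize (v.1 - b.1) / h = i' at *
  generalize (u.2 - b.2) / w = k at *
  generalize (v.2 - b.2) / w = k' at *
  change |((i' - i : ℤ) : ℝ) * h - dt u v| ≤ h at r1
  change |((k' - k : ℤ) : ℝ) * w - dx u v| ≤ w at r3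
  have hDw : |((k' - k : ℤ) : ℝ)| * w ≤ r + w := by
    have e1 : |((k' - k : ℤ) : ℝ)| * w = |((k' - k : ℤ) : ℝ) * w| := by
      rw [abs_mul, abs_of_nonneg (by linarith : (0 : ℝ) ≤ w)]
    have e2 : ((k' - k : ℤ) : ℝ) * w = (((k' - k : ℤ) : ℝ) * w - dx u v) + dx u v := by ring
    rw [e1, e2]
    exact (abs_add_le _ _).trans (by linarith)
  rw [abs_le] at r1
  have hal : L - h ≤ ((i' - i : ℤ) : ℝ) * h := by linarith
  have hau : ((i' - i : ℤ) : ℝ) * h ≤ 2 * L + h := by linarith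
  have hau' : ((i' - i : ℤ) : ℝ) * h ≤ 4 * L := by linarith
  have ha1 : 1 ≤ i' - i := by
    have h1 : (0 : ℝ) < ((i' - i : ℤ) : ℝ) * h := by linarith
    have h2 := Int.cast_pos.1 ((pos_iff_pos_of_mul_pos h1).2 hR)
    omega
  have hDd : |k' - k| ≤ ⌊r + w⌋ := by
    rw [Int.le_floor, Int.cast_abs]
    refine le_trans ?_ hDw
    exact le_mul_of_one_le_right (abs_nonneg _) hRw
  have hNa1 : i' - i ≤ ⌊(2 * L + h) / h⌋ := cell_floor hR hau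
  have hDd' := abs_le.1 hDd
  cases side with
  | true =>
    refine ⟨(i, k, i' - i, k' - k, p), ?_, ⟨hau', hal, hDw⟩, ?_, ?_⟩
    · simp only [Finset.mem_product, Finset.mem_Icc]
      exact ⟨t1u, t2u rfl, ⟨ha1, hNa1⟩, hDd', hp0, hp1⟩
    · rw [mem_box]
      simp only [cor, if_true]
      exact ⟨⟨by linarith, by linarith, by linarith, by linarith⟩, hpu⟩
    · rw [mem_box]
      simp only [cor, if_true]
      exact ⟨⟨by linarith, by linarith, by linarith, by linarith⟩, hpv⟩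
  | false =>
    refine ⟨(i', k', i' - i, k' - k, p), ?_, ⟨hau', hal, hDw⟩, ?_, ?_⟩
    · simp only [Finset.mem_product, Finset.mem_Icc]
      exact ⟨t1v, t2v rfl, ⟨ha1, hNa1⟩, hDd', hp0, hp1⟩
    · rw [mem_box]
      simp only [cor, Bool.false_eq_true, if_false]
      exact ⟨⟨by linarith, by linarith, by linarith, by linarith⟩, hpu⟩
    · rw [mem_box]
      simp only [cor, Bool.false_eq_true, if_false]
      exact ⟨⟨by linarith, by linarith, by linarith, by linarith⟩, hpv⟩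

end Pool.Agent.H22.LPP
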