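import Pool.Agent.H22.LPP.Real

/-!
# A finite union bound
-/

open MeasureTheory ProbabilityTheory
open Pool.Agent.H99.NS

namespace Pool.Agent.H22.LPP

/-- The finite union bound with an index set and a weight. -/
theorem real_iUnion_le {q : ℝ} {ι : Type*} (I : Finset ι) (E : ι → Set Env) (S : Set Env)
    (B : ι → ℝ) (hS : S ⊆ ⋃ i ∈ I, E i) (hB : ∀ i ∈ I, (PE q).real (E i) ≤ B i) :
    (PE q).real S ≤ ∑ i ∈ I, B i := by
  calc (PE q).real S ≤ (PE q).real (⋃ i ∈ I, E i) := measureReal_mono hS (measure_ne_top _ _)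
    _ ≤ ∑ i ∈ I, (PE q).real (E i) := measureReal_biUnion_finset_le _ _
    _ ≤ _ := Finset.sum_le_sum hB

end Pool.Agent.H22.LPP
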