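import Pool.Agent.H22.LPP.BoxScale
import Pool.Agent.H22.LPP.ScaleNum
import Pool.Agent.H22.LPP.ScaleCov
import Pool.Agent.H22.LPP.Union

/-!
# All pairs of one scale, moderate directions
-/

open MeasureTheory ProbabilityTheory
open Pool.Agent.H99.NS

namespace Pool.Agent.H22.LPP

theorem scale_sup {q C c : ℝ} (hq : q < 1) (hc : 0 < c) (hsg : 0 < sg q) (hUT : UT1 q C c)
    {K : ℝ} (hK : 0 ≤ K)
    (hhalf : ∀ u v : Site, Reach u v → u.1 < v.1 → |dx u v| ≤ dt u v ^ (3 / 4 : ℝ) →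
      1 / 2 ≤ (PE q).real {ω | par q u v - K * dt u v ^ (1 / 3 : ℝ) ≤ T ω u v})
    {θ : ℝ} (hθ0 : 0 ≤ θ) (hθ1 : θ < 1) :
    ∃ C' c' L₀ : ℝ, 0 < C' ∧ 0 < c' ∧ 1 ≤ L₀ ∧ ∀ L ℓ X : ℝ, L₀ ≤ L → L ≤ ℓ → 0 ≤ X →
      ∀ (b : Site) (side : Bool),
      (PE q).real {ω | ∃ u v : Site, b.1 ≤ u.1 ∧ dt b v ≤ ℓ ∧ Reach u v ∧
        |dx b (if side then u else v)| ≤ ℓ ^ (2 / 3 : ℝ) ∧ L ≤ dt u v ∧ dt u v ≤ 2 * L ∧
        |dx u v| ≤ L ^ (3 / 4 : ℝ) / 18 ∧ parS q θ u v + X ≤ T ω u v} ≤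
      C' * (ℓ / L) ^ (5 / 3 : ℝ) * Real.exp (-c' * (X / L ^ (1 / 3 : ℝ))) := by
  classical
  have h1θ : 0 < 1 - θ := by linarith
  obtain ⟨η, hη⟩ : ∃ η : ℝ, η = (1 - θ) / 100 := ⟨_, rfl⟩
  have hη0 : 0 < η := by rw [hη]; linarith
  have hη1 : η ≤ 1 / 100 := by rw [hη]; linarith
  obtain ⟨c1, hc1⟩ : ∃ c1 : ℝ, c1 = c * ((1 - θ) * sg q / 384) := ⟨_, rfl⟩
  have hc10 : 0 < c1 := by
    rw [hc1]
    positivity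
  obtain ⟨S, hSdef⟩ : ∃ S : ℝ, S = ∑' D : ℤ, Real.exp (-c1 * |(D : ℝ)|) := ⟨_, rfl⟩
  have hS0 : 0 ≤ S := by rw [hSdef]; exact tsum_nonneg fun _ => (Real.exp_pos _).le
  obtain ⟨B0, hB0⟩ : ∃ B0 : ℝ, B0 = 4 * max C 1 * Real.exp (c * (13 * sg q / 3 + 2 * K)) :=
    ⟨_, rfl⟩
  have hB00 : 0 < B0 := by
    rw [hB0]
    have : (0 : ℝ) < max C 1 := lt_of_lt_of_le one_pos (le_max_right _ _)
    positivity
  refine ⟨210 / η ^ 2 * (S + 1) * B0, c / 3, 100 * (22 : ℝ) ^ (12 : ℕ) / (1 - θ), by positivity,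
    by positivity, ?_, ?_⟩
  · rw [le_div_iff₀ (by linarith)]
    have : (1 : ℝ) ≤ 100 * (22 : ℝ) ^ (12 : ℕ) := by norm_num
    linarith
  intro L ℓ X hL0 hLℓ hX b side
  have hL0' : 100 * (22 : ℝ) ^ (12 : ℕ) ≤ L * (1 - θ) := by
    rwa [div_le_iff₀ h1θ] at hL0
  have hLpos : 0 < L := by
    refine lt_of_lt_of_le ?_ hL0
    positivity
  have hLbig : (22 : ℝ) ^ (12 : ℕ) ≤ L := by
    have h1 : L * (1 - θ) ≤ L * 1 := by gcongr; linarith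
    have h2 : (0 : ℝ) < (22 : ℝ) ^ (12 : ℕ) := by positivity
    linarith
  have hηL : 1 ≤ η * L := by
    rw [hη]
    have h2 : (100 : ℝ) ≤ 100 * (22 : ℝ) ^ (12 : ℕ) := by norm_num
    rw [div_mul_eq_mul_div, le_div_iff₀ (by norm_num)]
    linarith
  have hL1 : 1 ≤ L := le_trans (by norm_num) hLbig
  clear hL0 hL0'
  have hR1 : 1 ≤ L ^ (2 / 3 : ℝ) := Real.one_le_rpow hL1 (by norm_num)
  obtain ⟨h, hh⟩ : ∃ h : ℤ, h = ⌊η * L⌋ := ⟨_, rfl⟩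
  obtain ⟨w, hw⟩ : ∃ w : ℤ, w = ⌊L ^ (2 / 3 : ℝ)⌋ := ⟨_, rfl⟩
  have hh1 : 1 ≤ h := by rw [hh]; exact Int.le_floor.2 (by exact_mod_cast hηL)
  have hw1 : 1 ≤ w := by rw [hw]; exact Int.le_floor.2 (by exact_mod_cast hR1)
  have hhR : (1 : ℝ) ≤ h := by exact_mod_cast hh1
  have hwR1 : (1 : ℝ) ≤ w := by exact_mod_cast hw1
  have hhL : (h : ℝ) ≤ η * L := by rw [hh]; exact Int.floor_le _
  have hhL2 : η * L / 2 ≤ (h : ℝ) := by rw [hh]; exact floor_ge_half hηL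
  have hwR2 : L ^ (2 / 3 : ℝ) / 2 ≤ (w : ℝ) := by rw [hw]; exact floor_ge_half hR1
  have hhL3 : (h : ℝ) ≤ L / 100 := by
    have : η * L ≤ 1 / 100 * L := by gcongr
    linarith
  clear hh
  -- index set
  obtain ⟨I, hI⟩ : ∃ I : Finset (ℤ × ℤ × ℤ × ℤ × ℤ), I = (Finset.Icc 0 ⌊ℓ / h⌋) ×ˢ
        (Finset.Icc (-(⌊ℓ ^ (2 / 3 : ℝ) / w⌋ + 1)) (⌊ℓ ^ (2 / 3 : ℝ) / w⌋ + 1)) ×ˢ
        (Finset.Icc 1 ⌊(2 * L + h) / h⌋) ×ˢ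
        (Finset.Icc (-⌊L ^ (3 / 4 : ℝ) / 18 + w⌋) ⌊L ^ (3 / 4 : ℝ) / 18 + w⌋) ×ˢ
        (Finset.Icc (0 : ℤ) 1) := ⟨_, rfl⟩
  obtain ⟨E, hE⟩ : ∃ E : ℤ × ℤ × ℤ × ℤ × ℤ → Set Env, E = fun z =>
    {ω | ∃ u ∈ box (cor b side h w z) h w z.2.2.2.2,
      ∃ v ∈ box ((cor b side h w z).1 + z.2.2.1 * h, (cor b side h w z).2 + z.2.2.2.1 * w) h w
        z.2.2.2.2,
      Reach u v ∧ L ≤ dt u v ∧ dt u v ≤ 2 * L ∧ parS q θ u v + X ≤ T ω u v} := ⟨_, rfl⟩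
  obtain ⟨J, hJ⟩ : ∃ J : Finset (ℤ × ℤ × ℤ × ℤ × ℤ), J = I.filter (fun z =>
    (z.2.2.1 : ℝ) * h ≤ 4 * L ∧ L - h ≤ (z.2.2.1 : ℝ) * h ∧
      |(z.2.2.2.1 : ℝ)| * w ≤ L ^ (3 / 4 : ℝ) / 18 + w) := ⟨_, rfl⟩
  have hcover : {ω | ∃ u v : Site, b.1 ≤ u.1 ∧ dt b v ≤ ℓ ∧ Reach u v ∧
        |dx b (if side then u else v)| ≤ ℓ ^ (2 / 3 : ℝ) ∧ L ≤ dt u v ∧ dt u v ≤ 2 * L ∧
        |dx u v| ≤ L ^ (3 / 4 : ℝ) / 18 ∧ parS q θ u v + X ≤ T ω u v} ⊆ ⋃ z ∈ J, E z := by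
    rintro ω ⟨u, v, g1, g2, g3, g4, g5, g6, g7, g8⟩
    obtain ⟨z, z1, z2, z3, z4⟩ := scale_index b u v side hh1 hw1 hhL3 g1 g2 g3 g4 g5 g6 g7
    rw [Set.mem_iUnion₂]
    refine ⟨z, ?_, ?_⟩
    · rw [hJ, Finset.mem_filter, hI]
      exact ⟨z1, z2⟩
    · rw [hE]
      exact ⟨u, z3, v, z4, g3, g5, g6, g8⟩
  -- the bound for one index
  have hbound : ∀ z ∈ J, (PE q).real (E z) ≤
      B0 * Real.exp (-(c / 3) * (X / L ^ (1 / 3 : ℝ))) *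
        Real.exp (-c1 * |(z.2.2.2.1 : ℝ)|) := by
    intro z hz
    rw [hJ, Finset.mem_filter] at hz
    obtain ⟨hzI, hz1, hz2, hz3⟩ := hz
    rw [hE]
    have key := box_scale hq hc.le hUT hK hhalf hθ1.le hθ0 hη0 (by rw [hη]; linarith)
      (cor b side h w z) h w z.2.2.2.2 z.2.2.1 z.2.2.2.1 L X hh1 hLbig hw hhL hz1 hz2 hz3
    refine key.trans (le_of_eq ?_)
    rw [← hB0, mul_assoc B0, ← Real.exp_add]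
    congr 2
    rw [hc1]
    ring
  have hsum := real_iUnion_le J E _ _ hcover hbound
  refine hsum.trans ?_
  -- summation
  have s1 : ∑ z ∈ J, B0 * Real.exp (-(c / 3) * (X / L ^ (1 / 3 : ℝ))) *
        Real.exp (-c1 * |(z.2.2.2.1 : ℝ)|) ≤
      ∑ z ∈ I, B0 * Real.exp (-(c / 3) * (X / L ^ (1 / 3 : ℝ))) *
        Real.exp (-c1 * |(z.2.2.2.1 : ℝ)|) := by
    rw [hJ]
    exact Finset.sum_le_sum_of_subset_of_nonneg (Finset.filter_subset _ _)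
      fun _ _ _ => by positivity
  refine s1.trans ?_
  rw [hI]
  exact sn_total hη0 hη1 hLpos hLℓ hhR hhL2 hwR1 hwR2 hc10 hB00.le (Real.exp_pos _).le rfl hSdef _

end Pool.Agent.H22.LPP
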