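import Pool.Agent.H22.LPP.Union
import Pool.Agent.H22.LPP.ScaleNum

/-!
# Steep pairs and short pairs
-/

open MeasureTheory ProbabilityTheory
open Pool.Agent.H99.NS

namespace Pool.Agent.H22.LPP

/-- Pairs which are steep or shorter than `L₀`. -/
theorem steep_sup {q C c : ℝ} (hC : 0 < C) (hc : 0 < c) (hsg : 0 < sg q) (hUT : UT1 q C c)
    {θ : ℝ} (hθ1 : θ < 1) (L₀ : ℝ) (hL₀ : 1 ≤ L₀) :
    ∃ C' c' : ℝ, 0 < C' ∧ 0 < c' ∧ ∀ ℓ Y : ℝ, 1 ≤ ℓ → 1 ≤ Y → ∀ (b : Site) (side : Bool),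
      (PE q).real {ω | ∃ u v : Site, b.1 ≤ u.1 ∧ dt b v ≤ ℓ ∧ u.1 < v.1 ∧ Reach u v ∧
        |dx b (if side then u else v)| ≤ ℓ ^ (2 / 3 : ℝ) ∧
        (dt u v < L₀ ∨ dt u v ^ (3 / 4 : ℝ) / 36 < |dx u v|) ∧
        parS q θ u v + Y * ℓ ^ (1 / 3 : ℝ) ≤ T ω u v} ≤
      C' * Real.exp (-c' * Y) := by
  classical
  have h1θ : 0 < 1 - θ := by linarith
  set c2 : ℝ := c * (1 - θ) * sg q / 2592 with hc2
  have hc20 : 0 < c2 := by rw [hc2]; positivity
  set c3 : ℝ := c2 * L₀ ^ (1 / 6 : ℝ) with hc3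
  set A2 : ℝ := (Nat.factorial 5 : ℝ) / (c / 2) ^ 5 with hA2
  set A3 : ℝ := (Nat.factorial 28 : ℝ) / c2 ^ 28 with hA3
  have hA20 : 0 < A2 := by rw [hA2]; positivity
  have hA30 : 0 < A3 := by rw [hA3]; positivity
  set S : ℝ := ∑' n : ℕ, 1 / ((n : ℝ) ^ 2) with hS
  have hSs : Summable fun n : ℕ => 1 / ((n : ℝ) ^ 2) := Real.summable_one_div_nat_pow.2 (by norm_num)
  have hS0 : 0 ≤ S := tsum_nonneg fun _ => by positivity
  refine ⟨18 * C * Real.exp c3 * A2 * A3 * (S + 1), c / 2, by positivity, by positivity, ?_⟩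
  intro ℓ Y hℓ hY b side
  have hℓ0 : 0 < ℓ := by linarith
  set R : ℝ := ℓ ^ (2 / 3 : ℝ) with hR
  have hR1 : 1 ≤ R := Real.one_le_rpow hℓ (by norm_num)
  set Ni : ℤ := ⌊ℓ⌋ with hNi
  set Nk : ℤ := ⌊R⌋ with hNk
  have hNi1 : 1 ≤ Ni := Int.le_floor.2 (by exact_mod_cast hℓ)
  have hNk1 : 1 ≤ Nk := Int.le_floor.2 (by exact_mod_cast hR1)
  set I : Finset ((ℤ × ℤ) × (Σ _ : ℤ, ℤ)) := ((Finset.Icc 0 Ni) ×ˢ (Finset.Icc (-Nk) Nk)) ×ˢ
    ((Finset.Icc 1 Ni).sigma fun t => Finset.Icc (-t) t) with hI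
  set uu : (ℤ × ℤ) × (Σ _ : ℤ, ℤ) → Site := fun z =>
    if side then (b.1 + z.1.1, b.2 + z.1.2) else (b.1 + z.1.1 - z.2.1, b.2 + z.1.2 - z.2.2) with huu
  set vv : (ℤ × ℤ) × (Σ _ : ℤ, ℤ) → Site := fun z => ((uu z).1 + z.2.1, (uu z).2 + z.2.2) with hvv
  set E : (ℤ × ℤ) × (Σ _ : ℤ, ℤ) → Set Env := fun z =>
    {ω | Reach (uu z) (vv z) ∧
      (dt (uu z) (vv z) < L₀ ∨ dt (uu z) (vv z) ^ (3 / 4 : ℝ) / 36 < |dx (uu z) (vv z)|) ∧
      parS q θ (uu z) (vv z) + Y * ℓ ^ (1 / 3 : ℝ) ≤ T ω (uu z) (vv z)} with hE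
  have hcover : {ω | ∃ u v : Site, b.1 ≤ u.1 ∧ dt b v ≤ ℓ ∧ u.1 < v.1 ∧ Reach u v ∧
        |dx b (if side then u else v)| ≤ R ∧
        (dt u v < L₀ ∨ dt u v ^ (3 / 4 : ℝ) / 36 < |dx u v|) ∧
        parS q θ u v + Y * ℓ ^ (1 / 3 : ℝ) ≤ T ω u v} ⊆ ⋃ z ∈ I, E z := by
    rintro ω ⟨u, v, g1, g2, g3, g4, g5, g6, g7⟩
    rw [Set.mem_iUnion₂]
    have hv : v.1 - b.1 ≤ Ni := by
      rw [hNi, Int.le_floor]; exact g2
    have hD := g4.1
    rw [abs_le] at hD
    have hreg : ∀ x : Site, |dx b x| ≤ R → -Nk ≤ x.2 - b.2 ∧ x.2 - b.2 ≤ Nk := by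
      intro x hx
      have : |x.2 - b.2| ≤ Nk := by
        rw [hNk, Int.le_floor, Int.cast_abs]; exact hx
      exact abs_le.1 this
    cases side with
    | true =>
      simp only [if_true] at g5
      have t1 := hreg u g5
      refine ⟨((u.1 - b.1, u.2 - b.2), ⟨v.1 - u.1, v.2 - u.2⟩), ?_, ?_⟩
      · rw [hI]
        simp only [Finset.mem_product, Finset.mem_Icc, Finset.mem_sigma]
        exact ⟨⟨⟨by omega, by omega⟩, t1⟩, ⟨by omega, by omega⟩, by omega, by omega⟩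
      · have e1 : uu ((u.1 - b.1, u.2 - b.2), ⟨v.1 - u.1, v.2 - u.2⟩) = u := by
          rw [huu]
          simp only [if_true]
          exact Prod.ext (by simp only; ring) (by simp only; ring)
        have e2 : vv ((u.1 - b.1, u.2 - b.2), ⟨v.1 - u.1, v.2 - u.2⟩) = v := by
          rw [hvv]
          simp only [e1]
          exact Prod.ext (by simp only; ring) (by simp only; ring)
        rw [hE]
        simp only [Set.mem_ofPred_eq, e1, e2]
        exact ⟨g4, g6, g7⟩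
    | false =>
      simp only [Bool.false_eq_true, if_false] at g5
      have t1 := hreg v g5
      refine ⟨((v.1 - b.1, v.2 - b.2), ⟨v.1 - u.1, v.2 - u.2⟩), ?_, ?_⟩
      · rw [hI]
        simp only [Finset.mem_product, Finset.mem_Icc, Finset.mem_sigma]
        exact ⟨⟨⟨by omega, by omega⟩, t1⟩, ⟨by omega, by omega⟩, by omega, by omega⟩
      · have e1 : uu ((v.1 - b.1, v.2 - b.2), ⟨v.1 - u.1, v.2 - u.2⟩) = u := by
          rw [huu]
          simp only [Bool.false_eq_true, if_false]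
          exact Prod.ext (by simp only; ring) (by simp only; ring)
        have e2 : vv ((v.1 - b.1, v.2 - b.2), ⟨v.1 - u.1, v.2 - u.2⟩) = v := by
          rw [hvv]
          simp only [e1]
          exact Prod.ext (by simp only; ring) (by simp only; ring)
        rw [hE]
        simp only [Set.mem_ofPred_eq, e1, e2]
        exact ⟨g4, g6, g7⟩
  -- the bound for one pair
  set g : ℝ → ℝ := fun t => C * Real.exp c3 * Real.exp (-c * (Y * (ℓ / t) ^ (1 / 3 : ℝ))) *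
    Real.exp (-c2 * t ^ (1 / 6 : ℝ)) with hg
  have hgnn : ∀ t : ℝ, 0 ≤ g t := fun t => by
    rw [hg]
    exact mul_nonneg (mul_nonneg (mul_nonneg hC.le (Real.exp_pos _).le) (Real.exp_pos _).le)
      (Real.exp_pos _).le
  have hbound : ∀ z ∈ I, (PE q).real (E z) ≤ g (z.2.1 : ℝ) := by
    intro z hz
    rw [hI] at hz
    simp only [Finset.mem_product, Finset.mem_Icc, Finset.mem_sigma] at hz
    obtain ⟨_, ⟨ht1, _⟩, _⟩ := hz
    have hgn : 0 ≤ g (z.2.1 : ℝ) := by rw [hg]; positivity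
    by_cases hcond : Reach (uu z) (vv z) ∧
      (dt (uu z) (vv z) < L₀ ∨ dt (uu z) (vv z) ^ (3 / 4 : ℝ) / 36 < |dx (uu z) (vv z)|)
    · obtain ⟨hr, hst⟩ := hcond
      have hdt : dt (uu z) (vv z) = (z.2.1 : ℝ) := by
        rw [hvv]; unfold dt; simp only; push_cast; ring
      set t : ℝ := (z.2.1 : ℝ) with ht
      have ht1' : 1 ≤ t := by rw [ht]; exact_mod_cast ht1
      have ht0 : 0 < t := by linarith
      have hlt : (uu z).1 < (vv z).1 := by
        have : (0 : ℝ) < dt (uu z) (vv z) := by rw [hdt]; exact ht0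
        unfold dt at this
        have := Int.cast_pos.1 this
        omega
      set d : ℝ := dx (uu z) (vv z) with hd
      have hth : 0 < t ^ (1 / 3 : ℝ) := Real.rpow_pos_of_pos ht0 _
      -- the steepness gain
      have hgain : c2 * t ^ (1 / 6 : ℝ) - c3 ≤
          c * ((1 - θ) * (sg q / 2) * d ^ 2 / t / t ^ (1 / 3 : ℝ)) := by
        rcases hst with h1 | h1
        · rw [hdt] at h1
          have : t ^ (1 / 6 : ℝ) ≤ L₀ ^ (1 / 6 : ℝ) :=
            Real.rpow_le_rpow ht0.le h1.le (by norm_num)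
          have h2 : c2 * t ^ (1 / 6 : ℝ) ≤ c3 := by rw [hc3]; gcongr
          have h3 : 0 ≤ c * ((1 - θ) * (sg q / 2) * d ^ 2 / t / t ^ (1 / 3 : ℝ)) := by positivity
          linarith
        · rw [hdt] at h1
          have hc30 : 0 ≤ c3 := by rw [hc3]; positivity
          have h2 : (t ^ (3 / 4 : ℝ) / 36) ^ 2 ≤ d ^ 2 := by
            rw [← sq_abs d]
            exact pow_le_pow_left₀ (by positivity) h1.le 2
          have h3 : t ^ (1 / 6 : ℝ) * (t * t ^ (1 / 3 : ℝ)) = (t ^ (3 / 4 : ℝ)) ^ 2 := by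
            rw [← Real.rpow_natCast, ← Real.rpow_mul ht0.le]
            nth_rewrite 2 [← Real.rpow_one t]
            rw [← Real.rpow_add ht0, ← Real.rpow_add ht0]
            norm_num
          have h4 : t ^ (1 / 6 : ℝ) / 1296 ≤ d ^ 2 / t / t ^ (1 / 3 : ℝ) := by
            rw [div_div, div_le_div_iff₀ (by norm_num) (by positivity), h3]
            rw [div_pow] at h2
            linarith
          have h5 : c2 * t ^ (1 / 6 : ℝ) = c * ((1 - θ) * (sg q / 2) * (t ^ (1 / 6 : ℝ) / 1296)) := by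
            rw [hc2]; ring
          have h6 : c * ((1 - θ) * (sg q / 2) * (t ^ (1 / 6 : ℝ) / 1296)) ≤
              c * ((1 - θ) * (sg q / 2) * (d ^ 2 / t / t ^ (1 / 3 : ℝ))) := by gcongr
          have h7 : c * ((1 - θ) * (sg q / 2) * (d ^ 2 / t / t ^ (1 / 3 : ℝ))) =
              c * ((1 - θ) * (sg q / 2) * d ^ 2 / t / t ^ (1 / 3 : ℝ)) := by ring
          linarith
      set x : ℝ := Y * (ℓ / t) ^ (1 / 3 : ℝ) + (1 - θ) * (sg q / 2) * d ^ 2 / t / t ^ (1 / 3 : ℝ)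
        with hx
      have hx0 : 0 ≤ x := by positivity
      have hsub : E z ⊆ {ω | par q (uu z) (vv z) + x * dt (uu z) (vv z) ^ (1 / 3 : ℝ) ≤
          T ω (uu z) (vv z)} := by
        intro ω hω
        rw [hE] at hω
        simp only [Set.mem_ofPred_eq] at hω ⊢
        refine le_trans (le_of_eq ?_) hω.2.2
        rw [parS_eq, hdt, hx, add_mul, Real.div_rpow hℓ0.le ht0.le]
        field_simp
        ring
      refine (measureReal_mono hsub (measure_ne_top _ _)).trans ((hUT _ _ hr hlt x hx0).trans ?_)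
      rw [hg]
      simp only
      rw [mul_assoc, mul_assoc, ← Real.exp_add, ← Real.exp_add]
      apply mul_le_mul_of_nonneg_left _ hC.le
      apply Real.exp_le_exp.2
      rw [hx]
      have : c * ((1 - θ) * (sg q / 2) * d ^ 2 / t / t ^ (1 / 3 : ℝ)) ≥
        c2 * t ^ (1 / 6 : ℝ) - c3 := hgain
      linarith
    · have : E z = ∅ := by
        rw [hE]
        ext ω
        simp only [Set.mem_ofPred_eq, Set.mem_empty_iff_false, iff_false]
        rintro ⟨h1, h2, _⟩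
        exact hcond ⟨h1, h2⟩
      rw [this]
      simpa using hgn
  have hsum := real_iUnion_le I E _ _ hcover hbound
  refine hsum.trans ?_
  -- summation
  have s1 : ∑ z ∈ I, g (z.2.1 : ℝ) = (((Finset.Icc 0 Ni) ×ˢ (Finset.Icc (-Nk) Nk)).card : ℝ) *
      ∑ t ∈ Finset.Icc 1 Ni, ((Finset.Icc (-t) t).card : ℝ) * g (t : ℝ) := by
    rw [hI, Finset.sum_product]
    simp only [Finset.sum_const, nsmul_eq_mul]
    congr 1
    rw [Finset.sum_sigma]
    refine Finset.sum_congr rfl fun t _ => ?_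
    simp only [Finset.sum_const, nsmul_eq_mul]
  have s2 : (((Finset.Icc 0 Ni) ×ˢ (Finset.Icc (-Nk) Nk)).card : ℝ) ≤ 6 * (ℓ * R) := by
    rw [Finset.card_product, Int.card_Icc, Int.card_Icc, Nat.cast_mul]
    have e1 : (((Ni + 1 - 0).toNat : ℕ) : ℝ) = (Ni : ℝ) + 1 := by
      have : (((Ni + 1 - 0).toNat : ℕ) : ℤ) = Ni + 1 := by
        rw [Int.toNat_of_nonneg (by omega)]; ring
      exact_mod_cast this
    have e2 : (((Nk + 1 - -Nk).toNat : ℕ) : ℝ) = 2 * (Nk : ℝ) + 1 := by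
      have : (((Nk + 1 - -Nk).toNat : ℕ) : ℤ) = 2 * Nk + 1 := by
        rw [Int.toNat_of_nonneg (by omega)]; ring
      exact_mod_cast this
    rw [e1, e2]
    have e3 : (Ni : ℝ) + 1 ≤ 2 * ℓ := by
      have : (Ni : ℝ) ≤ ℓ := Int.floor_le _
      linarith
    have e4 : 2 * (Nk : ℝ) + 1 ≤ 3 * R := by
      have : (Nk : ℝ) ≤ R := Int.floor_le _
      linarith
    have e5 : (0 : ℝ) ≤ 2 * (Nk : ℝ) + 1 := by
      have : (1 : ℝ) ≤ Nk := by exact_mod_cast hNk1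
      linarith
    calc ((Ni : ℝ) + 1) * (2 * (Nk : ℝ) + 1) ≤ (2 * ℓ) * (3 * R) := by
          apply mul_le_mul e3 e4 e5 (by linarith)
      _ = _ := by ring
  have s3 : ∀ t ∈ Finset.Icc 1 Ni, (ℓ * R) * (((Finset.Icc (-t) t).card : ℝ) * g (t : ℝ)) ≤
      3 * C * Real.exp c3 * A2 * A3 * Real.exp (-(c / 2) * Y) * (1 / (t : ℝ) ^ 2) := by
    intro t ht
    rw [Finset.mem_Icc] at ht
    have ht1 : (1 : ℝ) ≤ t := by exact_mod_cast ht.1
    have ht0 : (0 : ℝ) < t := by linarith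
    have e1 : ((Finset.Icc (-t) t).card : ℝ) ≤ 3 * t := by
      rw [Int.card_Icc]
      have : (((t + 1 - -t).toNat : ℕ) : ℝ) = 2 * (t : ℝ) + 1 := by
        have : (((t + 1 - -t).toNat : ℕ) : ℤ) = 2 * t + 1 := by
          rw [Int.toNat_of_nonneg (by omega)]; ring
        exact_mod_cast this
      rw [this]
      linarith
    set z : ℝ := (ℓ / t) ^ (1 / 3 : ℝ) with hz
    have hz1 : 0 ≤ z := by positivity
    have hz1' : 1 ≤ z := by
      apply Real.one_le_rpow _ (by norm_num)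
      rw [le_div_iff₀ ht0]
      have : (Ni : ℝ) ≤ ℓ := Int.floor_le _
      have h2 : (t : ℝ) ≤ Ni := by exact_mod_cast ht.2
      linarith
    set y : ℝ := (t : ℝ) ^ (1 / 6 : ℝ) with hy
    have hy0 : 0 ≤ y := by positivity
    have e2 : ℓ * R = z ^ 5 * ((t : ℝ) * (t : ℝ) ^ (2 / 3 : ℝ)) := by
      have h1 : ℓ * R = ℓ ^ (5 / 3 : ℝ) := by
        rw [hR]
        nth_rewrite 1 [← Real.rpow_one ℓ]
        rw [← Real.rpow_add hℓ0]
        norm_num
      have h2 : (t : ℝ) * (t : ℝ) ^ (2 / 3 : ℝ) = (t : ℝ) ^ (5 / 3 : ℝ) := by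
        nth_rewrite 1 [← Real.rpow_one (t : ℝ)]
        rw [← Real.rpow_add ht0]
        norm_num
      have h3 : z ^ 5 = (ℓ / t) ^ (5 / 3 : ℝ) := by
        rw [hz, ← Real.rpow_natCast, ← Real.rpow_mul (by positivity)]
        norm_num
      rw [h1, h2, h3, Real.div_rpow hℓ0.le ht0.le]
      field_simp
    have e3 : Real.exp (-c * (Y * z)) ≤ Real.exp (-(c / 2) * Y) * Real.exp (-(c / 2) * z) := by
      rw [← Real.exp_add]
      apply Real.exp_le_exp.2
      nlinarith [mul_nonneg (by linarith : 0 ≤ Y - 1) (by linarith : 0 ≤ z - 1)]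
    have e4 := pow_mul_exp_le (a := c / 2) (z := z) (by positivity) hz1 5
    have e5 := pow_mul_exp_le (a := c2) (z := y) hc20 hy0 28
    have e6 : (t : ℝ) * (t : ℝ) ^ (2 / 3 : ℝ) * (t : ℝ) = y ^ 16 := by
      rw [hy, ← Real.rpow_natCast, ← Real.rpow_mul ht0.le]
      have h2 : (t : ℝ) * (t : ℝ) ^ (2 / 3 : ℝ) * (t : ℝ) =
          (t : ℝ) ^ (1 : ℝ) * (t : ℝ) ^ (2 / 3 : ℝ) * (t : ℝ) ^ (1 : ℝ) := by
        rw [Real.rpow_one]
      rw [h2, ← Real.rpow_add ht0, ← Real.rpow_add ht0]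
      norm_num
    have e7 : (t : ℝ) ^ 2 = y ^ 12 := by
      rw [hy, ← Real.rpow_natCast, ← Real.rpow_natCast, ← Real.rpow_mul ht0.le]
      norm_num
    have e8 : y ^ 16 * Real.exp (-c2 * y) ≤ A3 * (1 / (t : ℝ) ^ 2) := by
      rw [e7, mul_one_div, le_div_iff₀ (by positivity)]
      calc y ^ 16 * Real.exp (-c2 * y) * y ^ 12 = y ^ 28 * Real.exp (-c2 * y) := by ring
        _ ≤ _ := e5
    have hgt : g (t : ℝ) ≤ C * Real.exp c3 * (Real.exp (-(c / 2) * Y) * Real.exp (-(c / 2) * z)) *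
        Real.exp (-c2 * y) := by
      rw [hg]
      simp only
      gcongr
    have hg0 : 0 ≤ g (t : ℝ) := by rw [hg]; positivity
    calc (ℓ * R) * (((Finset.Icc (-t) t).card : ℝ) * g (t : ℝ))
        ≤ (ℓ * R) * ((3 * t) * (C * Real.exp c3 *
          (Real.exp (-(c / 2) * Y) * Real.exp (-(c / 2) * z)) * Real.exp (-c2 * y))) := by
          gcongr
      _ = 3 * C * Real.exp c3 * Real.exp (-(c / 2) * Y) * (z ^ 5 * Real.exp (-(c / 2) * z)) *
          (y ^ 16 * Real.exp (-c2 * y)) := by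
          rw [e2, ← e6]; ring
      _ ≤ 3 * C * Real.exp c3 * Real.exp (-(c / 2) * Y) * A2 * (A3 * (1 / (t : ℝ) ^ 2)) := by
          gcongr
      _ = _ := by ring
  have s4 : ∑ t ∈ Finset.Icc 1 Ni, (1 / (t : ℝ) ^ 2) ≤ S := by
    have e1 : ∑ t ∈ Finset.Icc 1 Ni, (1 / (t : ℝ) ^ 2) =
        ∑ n ∈ Finset.Icc 1 Ni.toNat, (1 / (n : ℝ) ^ 2) := by
      refine Finset.sum_nbij' (fun t => t.toNat) (fun n => (n : ℤ)) ?_ ?_ ?_ ?_ ?_
      · intro t ht
        rw [Finset.mem_Icc] at ht ⊢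
        omega
      · intro n hn
        rw [Finset.mem_Icc] at hn ⊢
        omega
      · intro t ht
        rw [Finset.mem_Icc] at ht
        exact Int.toNat_of_nonneg (by omega)
      · intro n _
        simp
      · intro t ht
        rw [Finset.mem_Icc] at ht
        have : ((t.toNat : ℕ) : ℝ) = (t : ℝ) := by
          have : ((t.toNat : ℕ) : ℤ) = t := Int.toNat_of_nonneg (by omega)
          exact_mod_cast this
        rw [this]
    rw [e1]
    exact Summable.sum_le_tsum _ (fun _ _ => by positivity) hSs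
  rw [s1]
  have hsum0 : 0 ≤ ∑ t ∈ Finset.Icc 1 Ni, ((Finset.Icc (-t) t).card : ℝ) * g (t : ℝ) :=
    Finset.sum_nonneg fun t _ => mul_nonneg (Nat.cast_nonneg _) (hgnn _)
  calc (((Finset.Icc 0 Ni) ×ˢ (Finset.Icc (-Nk) Nk)).card : ℝ) *
      ∑ t ∈ Finset.Icc 1 Ni, ((Finset.Icc (-t) t).card : ℝ) * g (t : ℝ)
      ≤ (6 * (ℓ * R)) * ∑ t ∈ Finset.Icc 1 Ni, ((Finset.Icc (-t) t).card : ℝ) * g (t : ℝ) :=
        mul_le_mul_of_nonneg_right s2 hsum0
    _ = 6 * ∑ t ∈ Finset.Icc 1 Ni, (ℓ * R) * (((Finset.Icc (-t) t).card : ℝ) * g (t : ℝ)) := by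
        rw [← Finset.mul_sum]; ring
    _ ≤ 6 * ∑ t ∈ Finset.Icc 1 Ni, 3 * C * Real.exp c3 * A2 * A3 * Real.exp (-(c / 2) * Y) *
          (1 / (t : ℝ) ^ 2) := by
        exact mul_le_mul_of_nonneg_left (Finset.sum_le_sum s3) (by norm_num)
    _ = 18 * C * Real.exp c3 * A2 * A3 * Real.exp (-(c / 2) * Y) *
          ∑ t ∈ Finset.Icc 1 Ni, (1 / (t : ℝ) ^ 2) := by
        rw [← Finset.mul_sum]; ring
    _ ≤ 18 * C * Real.exp c3 * A2 * A3 * Real.exp (-(c / 2) * Y) * (S + 1) := by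
        gcongr
        linarith
    _ = _ := by ring

end Pool.Agent.H22.LPP
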