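import Pool.Agent.H22.LPP.ScaleSup
import Pool.Agent.H22.LPP.SteepSup
import Pool.Agent.H22.LPP.Tails

/-!
# All pairs upper bound (B_SUP, B_BA)
-/

open MeasureTheory ProbabilityTheory
open Pool.Agent.H99.NS
open Pool.Agent.H84.GL (D_UT D_LT)

namespace Pool.Agent.H22.LPP

/-- All pairs upper bound in a slab. -/
theorem all_sup {q C c A cl s : ℝ} (hq0 : 0 < q) (hq : q < 1) (hC : 0 < C) (hc : 0 < c)
    (hcl : 0 < cl) (hs : 0 < s) (hUT : UT1 q C c) (hLT : LT1 q A cl s)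
    {θ : ℝ} (hθ0 : 0 ≤ θ) (hθ1 : θ < 1) :
    ∃ C' c' : ℝ, 0 < C' ∧ 0 < c' ∧ ∀ ℓ Y : ℝ, 1 ≤ ℓ → 0 ≤ Y → ∀ (b : Site) (side : Bool),
      (PE q).real {ω | ∃ u v : Site, b.1 ≤ u.1 ∧ dt b v ≤ ℓ ∧ u.1 < v.1 ∧ Reach u v ∧
        |dx b (if side then u else v)| ≤ ℓ ^ (2 / 3 : ℝ) ∧
        parS q θ u v + Y * ℓ ^ (1 / 3 : ℝ) ≤ T ω u v} ≤
      C' * Real.exp (-c' * Y) := by
  classical
  have hsg := sg_pos hq0 hq
  obtain ⟨K, hK, hhalf⟩ := exists_half hcl hs hLT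
  obtain ⟨C1, c1, L₀, hC1, hc1, hL₀, hscale⟩ := scale_sup hq hc hsg hUT hK hhalf hθ0 hθ1
  obtain ⟨C2, c2, hC2, hc2, hsteep⟩ := steep_sup hC hc hsg hUT hθ1 L₀ hL₀
  set A8 : ℝ := (Nat.factorial 8 : ℝ) / (c1 / 2) ^ 8 with hA8
  have hA80 : 0 < A8 := by rw [hA8]; positivity
  set c' : ℝ := min (c1 / 2) c2 with hc'
  have hc'0 : 0 < c' := lt_min (by positivity) hc2
  refine ⟨C2 + 2 * C1 * A8 + Real.exp c', c', by positivity, hc'0, ?_⟩
  intro ℓ Y hℓ hY b side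
  rcases lt_or_ge Y 1 with hY1 | hY1
  · have h1 : (1 : ℝ) ≤ Real.exp c' * Real.exp (-c' * Y) := by
      rw [← Real.exp_add]
      apply Real.one_le_exp
      nlinarith
    refine le_trans measureReal_le_one (h1.trans ?_)
    apply mul_le_mul_of_nonneg_right _ (Real.exp_pos _).le
    have : 0 ≤ 2 * C1 * A8 := by positivity
    linarith
  have hℓ0 : 0 < ℓ := by linarith
  set F : Finset ℕ := (Finset.range (⌊ℓ⌋₊ + 1)).filter (fun j => L₀ * 2 ^ j ≤ ℓ) with hF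
  set E : ℕ → Set Env := fun j => {ω | ∃ u v : Site, b.1 ≤ u.1 ∧ dt b v ≤ ℓ ∧ Reach u v ∧
        |dx b (if side then u else v)| ≤ ℓ ^ (2 / 3 : ℝ) ∧ (L₀ * 2 ^ j) ≤ dt u v ∧
        dt u v ≤ 2 * (L₀ * 2 ^ j) ∧ |dx u v| ≤ (L₀ * 2 ^ j) ^ (3 / 4 : ℝ) / 18 ∧
        parS q θ u v + Y * ℓ ^ (1 / 3 : ℝ) ≤ T ω u v} with hE
  have hcover : {ω | ∃ u v : Site, b.1 ≤ u.1 ∧ dt b v ≤ ℓ ∧ u.1 < v.1 ∧ Reach u v ∧
        |dx b (if side then u else v)| ≤ ℓ ^ (2 / 3 : ℝ) ∧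
        parS q θ u v + Y * ℓ ^ (1 / 3 : ℝ) ≤ T ω u v} ⊆
      {ω | ∃ u v : Site, b.1 ≤ u.1 ∧ dt b v ≤ ℓ ∧ u.1 < v.1 ∧ Reach u v ∧
        |dx b (if side then u else v)| ≤ ℓ ^ (2 / 3 : ℝ) ∧
        (dt u v < L₀ ∨ dt u v ^ (3 / 4 : ℝ) / 36 < |dx u v|) ∧
        parS q θ u v + Y * ℓ ^ (1 / 3 : ℝ) ≤ T ω u v} ∪ ⋃ j ∈ F, E j := by
    rintro ω ⟨u, v, g1, g2, g3, g4, g5, g6⟩
    by_cases hst : dt u v < L₀ ∨ dt u v ^ (3 / 4 : ℝ) / 36 < |dx u v|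
    · exact Or.inl ⟨u, v, g1, g2, g3, g4, g5, hst, g6⟩
    · right
      push Not at hst
      obtain ⟨h1, h2⟩ := hst
      have h3 : 1 ≤ dt u v / L₀ := by rw [le_div_iff₀ (by linarith)]; linarith
      obtain ⟨j, hj1, hj2⟩ := exists_nat_pow_near h3 (by norm_num : (1 : ℝ) < 2)
      rw [le_div_iff₀ (by linarith)] at hj1
      rw [div_lt_iff₀ (by linarith)] at hj2
      have hτℓ : dt u v ≤ ℓ := by
        have h4 : dt b v = dt b u + dt u v := (dt_add b u v).symm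
        have h5 := dt_nonneg g1
        linarith
      have hτ0 : 0 ≤ dt u v := by linarith
      have hLj : L₀ * 2 ^ j ≤ dt u v := by linarith
      have hLj0 : 0 ≤ L₀ * 2 ^ j := by positivity
      rw [Set.mem_iUnion₂]
      refine ⟨j, ?_, u, v, g1, g2, g4, g5, hLj, ?_, ?_, g6⟩
      · rw [hF, Finset.mem_filter, Finset.mem_range]
        refine ⟨?_, by linarith⟩
        have h4 : j < 2 ^ j := Nat.lt_two_pow_self
        have h5 : ((2 ^ j : ℕ) : ℝ) ≤ ℓ := by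
          push_cast
          have : (2 : ℝ) ^ j ≤ L₀ * 2 ^ j := by
            have : (0 : ℝ) < 2 ^ j := by positivity
            nlinarith
          linarith
        have h6 : 2 ^ j ≤ ⌊ℓ⌋₊ := Nat.le_floor h5
        omega
      · rw [pow_succ] at hj2
        linarith
      · have h4 : dt u v ≤ 2 * (L₀ * 2 ^ j) := by
          rw [pow_succ] at hj2
          linarith
        have h5 : dt u v ^ (3 / 4 : ℝ) ≤ 2 * (L₀ * 2 ^ j) ^ (3 / 4 : ℝ) := by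
          calc dt u v ^ (3 / 4 : ℝ) ≤ (2 * (L₀ * 2 ^ j)) ^ (3 / 4 : ℝ) :=
                Real.rpow_le_rpow hτ0 h4 (by norm_num)
            _ = 2 ^ (3 / 4 : ℝ) * (L₀ * 2 ^ j) ^ (3 / 4 : ℝ) :=
                Real.mul_rpow (by norm_num) hLj0
            _ ≤ 2 ^ (1 : ℝ) * (L₀ * 2 ^ j) ^ (3 / 4 : ℝ) := by
                gcongr
                · norm_num
                · norm_num
            _ = _ := by rw [Real.rpow_one]
        linarith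
  have hb1 := hsteep ℓ Y hℓ hY1 b side
  have hb2 : ∀ j ∈ F, (PE q).real (E j) ≤
      C1 * A8 * Real.exp (-(c1 / 2) * Y) * (L₀ / ℓ) * 2 ^ j := by
    intro j hj
    rw [hF, Finset.mem_filter] at hj
    have hLj : L₀ * 2 ^ j ≤ ℓ := hj.2
    have h2j : (1 : ℝ) ≤ 2 ^ j := one_le_pow₀ (by norm_num)
    have hLj1 : L₀ ≤ L₀ * 2 ^ j := by nlinarith
    have hLj0 : 0 < L₀ * 2 ^ j := by nlinarith
    have h1 := hscale (L₀ * 2 ^ j) ℓ (Y * ℓ ^ (1 / 3 : ℝ)) hLj1 hLj (by positivity) b side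
    refine h1.trans ?_
    set L : ℝ := L₀ * 2 ^ j with hL
    set z : ℝ := (ℓ / L) ^ (1 / 3 : ℝ) with hz
    have hz1 : 1 ≤ z := by
      apply Real.one_le_rpow _ (by norm_num)
      rw [le_div_iff₀ hLj0]; linarith
    have hz0 : 0 < z := by linarith
    have e1 : Y * ℓ ^ (1 / 3 : ℝ) / L ^ (1 / 3 : ℝ) = Y * z := by
      rw [hz, Real.div_rpow hℓ0.le hLj0.le]; ring
    have e2 : (ℓ / L) ^ (5 / 3 : ℝ) = z ^ 5 := by
      rw [hz, ← Real.rpow_natCast, ← Real.rpow_mul (by positivity)]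
      norm_num
    have e3 : z ^ 3 = ℓ / L := by
      rw [hz, ← Real.rpow_natCast, ← Real.rpow_mul (by positivity)]
      norm_num
    have e4 := pow_mul_exp_le (a := c1 / 2) (z := z) (by positivity) hz0.le 8
    have e5 : Real.exp (-c1 * (Y * z)) ≤ Real.exp (-(c1 / 2) * Y) * Real.exp (-(c1 / 2) * z) := by
      rw [← Real.exp_add]
      apply Real.exp_le_exp.2
      nlinarith [mul_nonneg (by linarith : 0 ≤ Y - 1) (by linarith : 0 ≤ z - 1)]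
    have e6 : z ^ 5 * Real.exp (-(c1 / 2) * z) ≤ A8 * (L / ℓ) := by
      have : z ^ 5 * Real.exp (-(c1 / 2) * z) * z ^ 3 ≤ A8 := by
        calc z ^ 5 * Real.exp (-(c1 / 2) * z) * z ^ 3 = z ^ 8 * Real.exp (-(c1 / 2) * z) := by ring
          _ ≤ _ := e4
      rw [e3] at this
      rw [show A8 * (L / ℓ) = A8 / (ℓ / L) by field_simp, le_div_iff₀ (by positivity)]
      exact this
    rw [e1, e2]
    calc C1 * z ^ 5 * Real.exp (-c1 * (Y * z))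
        ≤ C1 * z ^ 5 * (Real.exp (-(c1 / 2) * Y) * Real.exp (-(c1 / 2) * z)) := by gcongr
      _ = C1 * Real.exp (-(c1 / 2) * Y) * (z ^ 5 * Real.exp (-(c1 / 2) * z)) := by ring
      _ ≤ C1 * Real.exp (-(c1 / 2) * Y) * (A8 * (L / ℓ)) := by gcongr
      _ = _ := by rw [hL]; ring
  have hb3 : (PE q).real (⋃ j ∈ F, E j) ≤ 2 * C1 * A8 * Real.exp (-(c1 / 2) * Y) := by
    refine (real_iUnion_le F E _ _ subset_rfl hb2).trans ?_
    rw [← Finset.mul_sum]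
    have h1 : ∑ j ∈ F, (2 : ℝ) ^ j ≤ 2 * (ℓ / L₀) := by
      apply sum_two_pow_le F (ℓ / L₀) (by positivity)
      intro j hj
      rw [hF, Finset.mem_filter] at hj
      rw [le_div_iff₀ (by linarith)]
      linarith [hj.2]
    calc C1 * A8 * Real.exp (-(c1 / 2) * Y) * (L₀ / ℓ) * ∑ j ∈ F, (2 : ℝ) ^ j
        ≤ C1 * A8 * Real.exp (-(c1 / 2) * Y) * (L₀ / ℓ) * (2 * (ℓ / L₀)) := by gcongr
      _ = _ := by field_simp
  have hexp1 : Real.exp (-(c1 / 2) * Y) ≤ Real.exp (-c' * Y) := by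
    apply Real.exp_le_exp.2
    have : c' ≤ c1 / 2 := min_le_left _ _
    nlinarith
  have hexp2 : Real.exp (-c2 * Y) ≤ Real.exp (-c' * Y) := by
    apply Real.exp_le_exp.2
    have : c' ≤ c2 := min_le_right _ _
    nlinarith
  calc (PE q).real {ω | ∃ u v : Site, b.1 ≤ u.1 ∧ dt b v ≤ ℓ ∧ u.1 < v.1 ∧ Reach u v ∧
        |dx b (if side then u else v)| ≤ ℓ ^ (2 / 3 : ℝ) ∧
        parS q θ u v + Y * ℓ ^ (1 / 3 : ℝ) ≤ T ω u v}
      ≤ _ := measureReal_mono hcover (measure_ne_top _ _)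
    _ ≤ _ := measureReal_union_le _ _
    _ ≤ C2 * Real.exp (-c2 * Y) + 2 * C1 * A8 * Real.exp (-(c1 / 2) * Y) := add_le_add hb1 hb3
    _ ≤ C2 * Real.exp (-c' * Y) + 2 * C1 * A8 * Real.exp (-c' * Y) := by gcongr
    _ ≤ _ := by
        have := Real.exp_pos c'
        have h2 := Real.exp_pos (-c' * Y)
        nlinarith [mul_pos this h2]

theorem b_sup (hU : D_UT) (hL : D_LT) : B_SUP := by
  intro q hq0 hq1 θ hθ0 hθ1
  obtain ⟨C, c, hC, hc, hUT⟩ := ut1_of hU hq0 hq1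
  obtain ⟨A, cl, _, hcl, hLT⟩ := lt1_of hL hq0 hq1
  obtain ⟨C', c', hC', hc', h⟩ := all_sup hq0 hq1 hC hc hcl (by norm_num) hUT hLT hθ0 hθ1
  refine ⟨2 * C', c', by positivity, hc', ?_⟩
  intro L hL1 b Y hY
  have hLr : (1 : ℝ) ≤ L := by exact_mod_cast hL1
  have h1 := h L Y hLr hY b true
  have h2 := h L Y hLr hY b false
  have hsub : {ω | ∃ u v : Site, b.1 ≤ u.1 ∧ u.1 < v.1 ∧ v.1 ≤ b.1 + L ∧ Reach u v ∧
      (|dx b u| ≤ (L : ℝ) ^ (2 / 3 : ℝ) ∨ |dx b v| ≤ (L : ℝ) ^ (2 / 3 : ℝ)) ∧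
      parS q θ u v + Y * (L : ℝ) ^ (1 / 3 : ℝ) ≤ T ω u v} ⊆
      {ω | ∃ u v : Site, b.1 ≤ u.1 ∧ dt b v ≤ L ∧ u.1 < v.1 ∧ Reach u v ∧
        |dx b (if true then u else v)| ≤ (L : ℝ) ^ (2 / 3 : ℝ) ∧
        parS q θ u v + Y * (L : ℝ) ^ (1 / 3 : ℝ) ≤ T ω u v} ∪
      {ω | ∃ u v : Site, b.1 ≤ u.1 ∧ dt b v ≤ L ∧ u.1 < v.1 ∧ Reach u v ∧
        |dx b (if false then u else v)| ≤ (L : ℝ) ^ (2 / 3 : ℝ) ∧
        parS q θ u v + Y * (L : ℝ) ^ (1 / 3 : ℝ) ≤ T ω u v} := by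
    rintro ω ⟨u, v, g1, g2, g3, g4, g5, g6⟩
    have hdt : dt b v ≤ L := by
      unfold dt
      exact_mod_cast (by omega : v.1 - b.1 ≤ (L : ℤ))
    rcases g5 with g5 | g5
    · exact Or.inl ⟨u, v, g1, hdt, g2, g4, by simpa using g5, g6⟩
    · exact Or.inr ⟨u, v, g1, hdt, g2, g4, by simpa using g5, g6⟩
  refine (measureReal_mono hsub (measure_ne_top _ _)).trans ((measureReal_union_le _ _).trans ?_)
  simp only [Bool.false_eq_true, if_true, if_false] at h1 h2 ⊢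
  linarith

theorem b_ba (h : B_SUP) : B_BA := by
  intro q hq0 hq1 δ hδ
  obtain ⟨C, c, hC, hc, h1⟩ := h q hq0 hq1 (1 / (1 + δ)) (by positivity)
    (by rw [div_lt_one (by linarith)]; linarith)
  refine ⟨C, c, hC, hc, fun L hL b Y hY => le_trans (measureReal_mono ?_ (measure_ne_top _ _))
    (h1 L hL b Y hY)⟩
  rintro ω ⟨u, v, g1, g2, g3, g4, g5, g6⟩
  refine ⟨u, v, g1, g2, g3, g4, g5, le_trans ?_ g6⟩
  have hsg := (sg_pos hq0 hq1).le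
  have hdt := dt_pos g2
  have hτL : dt u v ≤ L := by
    unfold dt
    exact_mod_cast (by omega : v.1 - u.1 ≤ (L : ℤ))
  have hLr : (1 : ℝ) ≤ L := by exact_mod_cast hL
  unfold parS
  have key : sg q / 2 * dx u v ^ 2 / (dt u v + δ * L) ≤
      1 / (1 + δ) * (sg q / 2) * dx u v ^ 2 / dt u v := by
    rw [div_le_div_iff₀ (by positivity) hdt]
    have h2 : dt u v ≤ 1 / (1 + δ) * (dt u v + δ * L) := by
      rw [div_mul_eq_mul_div, le_div_iff₀ (by linarith)]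
      nlinarith
    have h3 : 0 ≤ sg q / 2 * dx u v ^ 2 := by positivity
    nlinarith
  linarith

end Pool.Agent.H22.LPP
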