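import Pool.Agent.H22.LPP.Real
import Pool.Agent.H84.GL.Targets2

/-!
# Part B: estimates uniform over end points. Statements
-/

open MeasureTheory ProbabilityTheory
open Pool.Agent.H99.NS
open Pool.Agent.H84.GL (D_UT D_LT)

namespace Pool.Agent.H22.LPP

/-- The largest displacement considered over a slab of height `L`. -/
noncomputable def XL (L : ℕ) : ℝ := (L : ℝ) ^ (17 / 24 : ℝ)

/-- Weight of the all pairs lower bound: deviation of the pair from the slope `lam`, and of its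
sites from the line of slope `lam` through `b`. -/
noncomputable def wgt (L : ℕ) (b : Site) (lam : ℝ) (u v : Site) : ℝ :=
  ((1 + |dx u v - lam * dt u v| / dt u v ^ (2 / 3 : ℝ)) *
    (1 + (|dx b u - lam * dt b u| + |dx u v - lam * dt u v|) / (L : ℝ) ^ (2 / 3 : ℝ))) ^
      (1 / 2 : ℝ)

/-- (ALI) All pairs lower bound around a direction. -/
def B_ALI : Prop := ∀ q : ℝ, 0 < q → q < 1 → ∃ C c : ℝ, 0 < C ∧ 0 < c ∧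
  ∀ L : ℕ, 1 ≤ L → ∀ b : Site, ∀ lam : ℝ, |lam| ≤ 1 → ∀ Y : ℝ, 0 ≤ Y →
    (PE q).real {ω | ∃ u v : Site, b.1 ≤ u.1 ∧ u.1 < v.1 ∧ v.1 ≤ b.1 + L ∧ Reach u v ∧
      |dx u v| ≤ dt u v ^ (3 / 4 : ℝ) / 8 + 2 ∧ |dx b u| ≤ 8 * L ∧
      T ω u v ≤ par q u v - Y * (dt u v * L) ^ (1 / 6 : ℝ) * wgt L b lam u v} ≤
    C * Real.exp (-c * Y ^ (3 / 2 : ℝ))

/-- (BLI) Interior lower bound, downwards and upwards. -/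
def B_BLI : Prop := ∀ q : ℝ, 0 < q → q < 1 → ∃ C c : ℝ, 0 < C ∧ 0 < c ∧
  ∀ L : ℕ, 1 ≤ L → ∀ b : Site, ∀ Y : ℝ, 0 ≤ Y →
    (PE q).real {ω | ∃ u v : Site, ∃ lam : ℝ, b.1 ≤ u.1 ∧ u.1 < v.1 ∧ v.1 ≤ b.1 + L ∧ Reach u v ∧
      |lam| ≤ XL L / L ∧ |dx u v - lam * dt u v| ≤ 2 ∧
      (|dx b u| ≤ (L : ℝ) ^ (2 / 3 : ℝ) ∨ |dx b v| ≤ (L : ℝ) ^ (2 / 3 : ℝ)) ∧
      T ω u v ≤ mu q * dt u v - sg q / 2 * lam ^ 2 * dt u v -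
        Y * (1 + |lam| * (L : ℝ) ^ (1 / 3 : ℝ)) * (L : ℝ) ^ (1 / 3 : ℝ)} ≤
    C * Real.exp (-c * Y ^ (3 / 2 : ℝ))

/-- (BL) Crossing lower bound, exact parabola. -/
def B_BL : Prop := ∀ q : ℝ, 0 < q → q < 1 → ∃ C c : ℝ, 0 < C ∧ 0 < c ∧
  ∀ L : ℕ, 1 ≤ L → ∀ b : Site, ∀ E : ℤ, |(E : ℝ)| ≤ XL L → ∀ Y : ℝ, 0 ≤ Y →
    (PE q).real {ω | ∃ x y : ℤ, Reach (b.1, x) (b.1 + L, y) ∧
      |((x - b.2 : ℤ) : ℝ)| ≤ (L : ℝ) ^ (2 / 3 : ℝ) ∧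
      |((y - (b.2 + E) : ℤ) : ℝ)| ≤ (L : ℝ) ^ (2 / 3 : ℝ) ∧
      T ω (b.1, x) (b.1 + L, y) ≤ par q (b.1, x) (b.1 + L, y) - Y * (L : ℝ) ^ (1 / 3 : ℝ)} ≤
    C * Real.exp (-c * Y ^ (3 / 2 : ℝ))

/-- (BC) Crossing upper bound, exact parabola. -/
def B_BC : Prop := ∀ q : ℝ, 0 < q → q < 1 → ∃ C c : ℝ, 0 < C ∧ 0 < c ∧
  ∀ L : ℕ, 1 ≤ L → ∀ b : Site, ∀ E : ℤ, |(E : ℝ)| ≤ XL L → ∀ Y : ℝ, 0 ≤ Y →
    (PE q).real {ω | ∃ x y : ℤ, Reach (b.1, x) (b.1 + L, y) ∧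
      |((x - b.2 : ℤ) : ℝ)| ≤ (L : ℝ) ^ (2 / 3 : ℝ) ∧
      |((y - (b.2 + E) : ℤ) : ℝ)| ≤ (L : ℝ) ^ (2 / 3 : ℝ) ∧
      par q (b.1, x) (b.1 + L, y) + Y * (L : ℝ) ^ (1 / 3 : ℝ) ≤ T ω (b.1, x) (b.1 + L, y)} ≤
    C * Real.exp (-c * Y)

/-- (BA) All pairs upper bound, parabola of smaller curvature, the starting point or the end point
in a window; no restriction on the displacement. -/
def B_SUP : Prop := ∀ q : ℝ, 0 < q → q < 1 → ∀ θ : ℝ, 0 ≤ θ → θ < 1 → ∃ C c : ℝ, 0 < C ∧ 0 < c ∧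
  ∀ L : ℕ, 1 ≤ L → ∀ b : Site, ∀ Y : ℝ, 0 ≤ Y →
    (PE q).real {ω | ∃ u v : Site, b.1 ≤ u.1 ∧ u.1 < v.1 ∧ v.1 ≤ b.1 + L ∧ Reach u v ∧
      (|dx b u| ≤ (L : ℝ) ^ (2 / 3 : ℝ) ∨ |dx b v| ≤ (L : ℝ) ^ (2 / 3 : ℝ)) ∧
      parS q θ u v + Y * (L : ℝ) ^ (1 / 3 : ℝ) ≤ T ω u v} ≤
    C * Real.exp (-c * Y)

/-- (BA) in the form of the sheet. -/
def B_BA : Prop := ∀ q : ℝ, 0 < q → q < 1 → ∀ δ : ℝ, 0 < δ → ∃ C c : ℝ, 0 < C ∧ 0 < c ∧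
  ∀ L : ℕ, 1 ≤ L → ∀ b : Site, ∀ Y : ℝ, 0 ≤ Y →
    (PE q).real {ω | ∃ u v : Site, b.1 ≤ u.1 ∧ u.1 < v.1 ∧ v.1 ≤ b.1 + L ∧ Reach u v ∧
      (|dx b u| ≤ (L : ℝ) ^ (2 / 3 : ℝ) ∨ |dx b v| ≤ (L : ℝ) ^ (2 / 3 : ℝ)) ∧
      mu q * dt u v - sg q / 2 * dx u v ^ 2 / (dt u v + δ * L) + Y * (L : ℝ) ^ (1 / 3 : ℝ) ≤
        T ω u v} ≤
    C * Real.exp (-c * Y)

/-- Sites of a box of side `2 n ^ β`. -/
def inBox (n β : ℝ) (u : Site) : Prop := |(u.1 : ℝ)| ≤ n ^ β ∧ |(u.2 : ℝ)| ≤ n ^ β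

/-- The crude regularity event. -/
def CR (q β c₁ n : ℝ) (ω : Env) : Prop := ∀ u v : Site, inBox n β u → inBox n β v → Reach u v →
  u.1 < v.1 → T ω u v ≤ par q u v + n ^ c₁ * dt u v ^ (1 / 3 : ℝ) ∧
    (|dx u v| ≤ dt u v ^ (3 / 4 : ℝ) → par q u v - n ^ c₁ * dt u v ^ (1 / 3 : ℝ) ≤ T ω u v)

/-- (CR) Crude regularity. -/
def B_CR : Prop := ∀ q : ℝ, 0 < q → q < 1 → ∀ β c₁ : ℝ, 0 < β → 0 < c₁ → ∃ C c₂ : ℝ, 0 < C ∧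
  0 < c₂ ∧ ∀ n : ℕ, 1 ≤ n → (PE q).real {ω | ¬ CR q β c₁ n ω} ≤ C * Real.exp (-(n : ℝ) ^ c₂)

/-- (REG) Regularity of near geodesics on the crude regularity event: `κ = max c c₁` is the
exponent of the loss; the times must be at distance at least `n ^ (13 κ)`. -/
def B_REG : Prop := ∀ q : ℝ, 0 < q → q < 1 → ∃ A : ℝ, 0 < A ∧ ∀ β c c₁ κ : ℝ, 1 ≤ β → 0 ≤ c →
  0 < c₁ → 0 < κ → c ≤ κ → c₁ ≤ κ → ∃ n₀ : ℕ, ∀ n : ℕ, n₀ ≤ n → ∀ ω : Env, CR q β c₁ n ω →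
  ∀ N y : ℤ, 1 ≤ N → N ≤ n → |(y : ℝ)| ≤ (N : ℝ) ^ (2 / 3 + c) → Reach (0, 0) (N, y) →
  ∀ γ : ℤ → ℤ, Conn (0, 0) (N, y) γ → ∀ g : ℝ, 0 ≤ g → T ω (0, 0) (N, y) - g ≤ wt ω 0 N γ →
  ∀ s t : ℤ, 0 ≤ s → s < t → t ≤ N → (n : ℝ) ^ (13 * κ) ≤ ((t - s : ℤ) : ℝ) →
    g ≤ (n : ℝ) ^ c₁ * ((t - s : ℤ) : ℝ) ^ (1 / 3 : ℝ) →
    |((γ t - γ s : ℤ) : ℝ)| ≤ A * (n : ℝ) ^ κ * ((t - s : ℤ) : ℝ) ^ (2 / 3 : ℝ) ∧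
    ∀ r : ℤ, s < r → r < t →
      |((γ r - γ s : ℤ) : ℝ) - ((γ t - γ s : ℤ) : ℝ) * ((r - s : ℤ) : ℝ) / ((t - s : ℤ) : ℝ)| ≤
        A * (n : ℝ) ^ (κ / 2) * ((t - s : ℤ) : ℝ) ^ (2 / 3 : ℝ)

/-- (GR) The greedy bound, general form: `Z l D x` is a functional of the slab `(l H, (l+1) H]`
(index of the slab, increment, starting window); the sum over the increments of the exponential
of minus the penalty is at most `S`. -/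
def B_GR : Prop := ∀ (q : ℝ) (H : ℤ) (Dm : ℕ) (Z : ℕ → ℤ → ℤ → Env → ℝ) (pen : ℤ → ℝ)
  (θ C S : ℝ), 0 < H → 0 < θ → 1 ≤ C → 1 ≤ S →
  (∀ l D x, Measurable (Z l D x)) → (∀ (l : ℕ) D x, DepOn (slab ((l : ℤ) * H) (((l : ℤ) + 1) * H)) (Z l D x)) →
  (∀ l D x, ∫⁻ ω, ENNReal.ofReal (Real.exp (θ * Z l D x ω)) ∂(PE q) ≤ ENNReal.ofReal C) →
  (∑ D ∈ Finset.Icc (-(Dm : ℤ)) Dm, Real.exp (-θ * pen D) ≤ S) →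
  ∀ (M : ℕ) (x₀ : ℤ),
    (PE q).real {ω | ∃ x : ℕ → ℤ, x 0 = x₀ ∧ (∀ l < M, |x (l + 1) - x l| ≤ Dm) ∧
      (Real.log (C * S) + 1) / θ * M ≤
        ∑ l ∈ Finset.range M, (Z l (x (l + 1) - x l) (x l) ω - pen (x (l + 1) - x l))} ≤
    Real.exp (-(M : ℝ))

/-! ### Leftmost geodesics -/

/-- `γ` is a geodesic from `o` to `e`. -/
def Geod (ω : Env) (o e : Site) (γ : ℤ → ℤ) : Prop := Conn o e γ ∧ wt ω o.1 e.1 γ = T ω o e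

/-- The leftmost geodesic (time clipped to the interval). -/
noncomputable def Lam (ω : Env) (o e : Site) (r : ℤ) : ℤ :=
  sInf {y : ℤ | ∃ γ, Geod ω o e γ ∧ γ (max o.1 (min r e.1)) = y}

/-- Two paths of the same parity that exchange their order meet. -/
def B_MEET : Prop := ∀ (s t : ℤ) (γ γ' : ℤ → ℤ), s ≤ t → IsPath s t γ → IsPath s t γ' →
  Even (γ s - γ' s) → γ s ≤ γ' s → γ' t ≤ γ t → ∃ r, s ≤ r ∧ r ≤ t ∧ γ r = γ' r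

/-- The leftmost geodesic is a geodesic and is to the left of every geodesic. -/
def B_LAM : Prop := ∀ (ω : Env) (o e : Site), Reach o e → Geod ω o e (Lam ω o e) ∧
  ∀ γ, Geod ω o e γ → ∀ r, o.1 ≤ r → r ≤ e.1 → Lam ω o e r ≤ γ r

/-- Restriction of the leftmost geodesic. -/
def B_LAMR : Prop := ∀ (ω : Env) (o e : Site), Reach o e → ∀ s t : ℤ, o.1 ≤ s → s ≤ t → t ≤ e.1 →
  ∀ r, s ≤ r → r ≤ t → Lam ω (s, Lam ω o e s) (t, Lam ω o e t) r = Lam ω o e r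

/-- The leftmost geodesic depends on the weights of `dom o e` and is measurable; it is compatible
with translations. -/
def B_LAMM : Prop := ∀ (o e : Site) (r : ℤ), DepOn (dom o e) (fun ω => Lam ω o e r) ∧
  Measurable (fun ω => Lam ω o e r) ∧
  ∀ (a : Site) (ω : Env), Reach o e → Lam (shiftE a ω) o e r + a.2 = Lam ω (o + a) (e + a) (r + a.1)

/-- Ordered end points give ordered leftmost geodesics. -/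
def B_LAMO : Prop := ∀ (ω : Env) (s t x x' y y' : ℤ), Reach (s, x) (t, y) → Reach (s, x') (t, y') →
  Even (x - x') → x ≤ x' → y ≤ y' → ∀ r, s ≤ r → r ≤ t →
    Lam ω (s, x) (t, y) r ≤ Lam ω (s, x') (t, y') r

/-! ### Sharp crossing bound -/

/-- Sharp upper tail at the constant `cs` (input). -/
def UTS (q cs : ℝ) : Prop := ∀ ε : ℝ, 0 < ε → ∃ K₀ : ℝ, 0 < K₀ ∧ ∀ K : ℝ, K₀ ≤ K → ∃ N₀ : ℝ,
  ∀ u v : Site, Reach u v → N₀ ≤ dt u v → |dx u v| ≤ 2 * K * dt u v ^ (2 / 3 : ℝ) →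
    (PE q).real {ω | par q u v + K * dt u v ^ (1 / 3 : ℝ) ≤ T ω u v} ≤
      Real.exp (-(cs - ε) * K ^ (3 / 2 : ℝ))

/-- (BCS) Sharp crossing upper bound. -/
def B_BCS : Prop := ∀ q cs : ℝ, 0 < q → q < 1 → 0 < cs → UTS q cs → ∀ ε : ℝ, 0 < ε →
  ∃ K₀ : ℝ, 0 < K₀ ∧ ∀ K : ℝ, K₀ ≤ K → ∃ L₀ : ℕ, ∀ L : ℕ, L₀ ≤ L → ∀ b : Site, ∀ E : ℤ,
    |(E : ℝ)| ≤ K * (L : ℝ) ^ (2 / 3 : ℝ) →
    (PE q).real {ω | ∃ x y : ℤ, Reach (b.1, x) (b.1 + L, y) ∧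
      |((x - b.2 : ℤ) : ℝ)| ≤ (L : ℝ) ^ (2 / 3 : ℝ) ∧
      |((y - (b.2 + E) : ℤ) : ℝ)| ≤ (L : ℝ) ^ (2 / 3 : ℝ) ∧
      par q (b.1, x) (b.1 + L, y) + K * (L : ℝ) ^ (1 / 3 : ℝ) ≤ T ω (b.1, x) (b.1 + L, y)} ≤
    Real.exp (-(cs - ε) * K ^ (3 / 2 : ℝ))

end Pool.Agent.H22.LPP
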