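import Pool.Agent.H22.LPP.Sup
import Pool.Agent.H22.LPP.Bl1
import Pool.Agent.H76.ND.Defs

/-!
# One-point lower tail in a tube
-/

open MeasureTheory ProbabilityTheory
open Pool.Agent.H99.NS Pool.Agent.H22.LPP
open Pool.Agent.H76.ND (cutE)
open Pool.Agent.H84.GL (D_UT D_LT)

namespace Pool.Agent.H22.PNM

theorem cutE_le (R : ℤ) (ω : Env) (x : Site) : cutE R ω x ≤ ω x := by
  unfold cutE
  split_ifs
  · exact le_rfl
  · exact Nat.zero_le _

theorem T_cutE_le (R : ℤ) (ω : Env) (u v : Site) : T (cutE R ω) u v ≤ T ω u v :=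
  T_mono fun x _ => cutE_le R ω x

theorem wt_cutE_le (R : ℤ) (ω : Env) (s t : ℤ) (g : ℤ → ℤ) : wt (cutE R ω) s t g ≤ wt ω s t g := by
  unfold wt
  refine Finset.sum_le_sum fun r _ => ?_
  exact_mod_cast cutE_le R ω (r, g r)

/-- If the cut passage time is smaller then a geodesic leaves the strip. -/
theorem exit_of_lt {R : ℤ} {ω : Env} {u v : Site} (h : Reach u v) (hv : |v.2| < R)
    (hlt : T (cutE R ω) u v < T ω u v) : ∃ z : Site, u.1 < z.1 ∧ z.1 < v.1 ∧ R ≤ |z.2| ∧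
      Reach u z ∧ Reach z v ∧ T ω u v ≤ T ω u z + T ω z v := by
  obtain ⟨γ, hγ, hT, _⟩ := T_attained ω h
  have huv := reach_le h
  have hex : ∃ r, u.1 < r ∧ r ≤ v.1 ∧ R ≤ |γ r| := by
    by_contra hcon
    push Not at hcon
    have h1 : wt (cutE R ω) u.1 v.1 γ = wt ω u.1 v.1 γ := by
      refine wt_congr fun r hr1 hr2 => ?_
      unfold cutE
      rw [if_pos (hcon r hr1 hr2)]
    have h2 := le_T (cutE R ω) huv hγ
    rw [h1, ← hT] at h2
    linarith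
  obtain ⟨r, h1, h2, h3⟩ := hex
  have h4 : r ≠ v.1 := by
    rintro rfl
    rw [hγ.2.2] at h3
    omega
  refine ⟨(r, γ r), h1, by simp only; omega, h3, (hγ.left h2).reach h1.le,
    (hγ.right h1.le).reach h2, ?_⟩
  rw [hT, wt_add ω h1.le h2]
  exact add_le_add (le_T ω h1.le (hγ.left h2)) (le_T ω h2 (hγ.right h1.le))

/-- The probability that a geodesic leaves the strip. -/
theorem exit_prob (hU : D_UT) (hL : D_LT) {q : ℝ} (hq0 : 0 < q) (hq1 : q < 1) :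
    ∃ C c : ℝ, 0 < C ∧ 0 < c ∧ ∀ (R : ℤ) (u v : Site), Reach u v → u.1 < v.1 →
      |dx u v| ≤ dt u v ^ (3 / 4 : ℝ) → |(u.2 : ℝ)| ≤ R / 4 → |(v.2 : ℝ)| ≤ R / 4 → 0 < R →
      ∀ Y : ℝ, 1 ≤ Y → 20 * Y * (dt u v * dt u v ^ (1 / 3 : ℝ)) ≤ sg q * (R : ℝ) ^ 2 →
      (PE q).real {ω | T (cutE R ω) u v < T ω u v} ≤ C * Real.exp (-c * Y) := by
  obtain ⟨C1, c1, hC1, hc1, hS⟩ := b_sup hU hL q hq0 hq1 (1 / 2) (by norm_num) (by norm_num)
  obtain ⟨A, c2, hA, hc2, hLT⟩ := lt1_of hL hq0 hq1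
  have hsg := sg_pos hq0 hq1
  refine ⟨2 * C1 + A, min c1 c2, by positivity, lt_min hc1 hc2, ?_⟩
  intro R u v huv hlt hdx hu hv hR Y hY hYR
  have hRr : (0 : ℝ) < R := by exact_mod_cast hR
  obtain ⟨L, hL'⟩ : ∃ L : ℕ, (L : ℤ) = v.1 - u.1 := ⟨(v.1 - u.1).toNat, by omega⟩
  have hL1 : 1 ≤ L := by omega
  have hLr : (L : ℝ) = dt u v := by
    unfold dt
    rw [← hL']
    simp
  have hdt0 := dt_pos hlt
  set ℓ := dt u v with hℓ
  set S1 : Set Env := {ω | ∃ u' v' : Site, u.1 ≤ u'.1 ∧ u'.1 < v'.1 ∧ v'.1 ≤ u.1 + L ∧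
    Reach u' v' ∧ (|dx u u'| ≤ (L : ℝ) ^ (2 / 3 : ℝ) ∨ |dx u v'| ≤ (L : ℝ) ^ (2 / 3 : ℝ)) ∧
      parS q (1 / 2) u' v' + Y * (L : ℝ) ^ (1 / 3 : ℝ) ≤ T ω u' v'} with hS1
  set b : Site := (u.1, v.2) with hb
  set S2 : Set Env := {ω | ∃ u' v' : Site, b.1 ≤ u'.1 ∧ u'.1 < v'.1 ∧ v'.1 ≤ b.1 + L ∧
    Reach u' v' ∧ (|dx b u'| ≤ (L : ℝ) ^ (2 / 3 : ℝ) ∨ |dx b v'| ≤ (L : ℝ) ^ (2 / 3 : ℝ)) ∧
      parS q (1 / 2) u' v' + Y * (L : ℝ) ^ (1 / 3 : ℝ) ≤ T ω u' v'} with hS2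
  set S3 : Set Env := {ω | T ω u v ≤ par q u v - Y * dt u v ^ (1 / 3 : ℝ)} with hS3
  have hsub : {ω | T (cutE R ω) u v < T ω u v} ⊆ (S1 ∪ S2) ∪ S3 := by
    intro ω hω
    by_contra hcon
    rw [Set.mem_union, Set.mem_union, not_or, not_or] at hcon
    obtain ⟨⟨n1, n2⟩, n3⟩ := hcon
    have hv' : |v.2| < R := by
      have : |(v.2 : ℝ)| < R := by linarith
      rw [← Int.cast_abs] at this
      exact_mod_cast this
    obtain ⟨z, z1, z2, z3, z4, z5, z6⟩ := exit_of_lt huv hv' hω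
    have hzr : (R : ℝ) ≤ |(z.2 : ℝ)| := by
      rw [← Int.cast_abs]
      exact_mod_cast z3
    have hL0 : (0 : ℝ) ≤ (L : ℝ) ^ (2 / 3 : ℝ) := by positivity
    have e1 : T ω u z < parS q (1 / 2) u z + Y * (L : ℝ) ^ (1 / 3 : ℝ) := by
      by_contra h
      push Not at h
      apply n1
      rw [hS1]
      refine ⟨u, z, le_rfl, z1, by omega, z4, Or.inl ?_, h⟩
      have : dx u u = 0 := by unfold dx; simp
      rw [this, abs_zero]
      exact hL0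
    have e2 : T ω z v < parS q (1 / 2) z v + Y * (L : ℝ) ^ (1 / 3 : ℝ) := by
      by_contra h
      push Not at h
      apply n2
      rw [hS2]
      refine ⟨z, v, z1.le, z2, by simp only [hb]; omega, z5, Or.inr ?_, h⟩
      have : dx b v = 0 := by unfold dx; simp [hb]
      rw [this, abs_zero]
      exact hL0
    have e3 : par q u v - Y * ℓ ^ (1 / 3 : ℝ) < T ω u v := by
      by_contra h
      push Not at h
      exact n3 h
    rw [hLr] at e1 e2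
    have d1 : 0 < dt u z := dt_pos z1
    have d2 : 0 < dt z v := dt_pos z2
    have d3 : dt u z + dt z v = ℓ := dt_add u z v
    have x1 : 3 / 4 * (R : ℝ) ≤ |dx u z| := by
      have : |(z.2 : ℝ)| ≤ |dx u z| + |(u.2 : ℝ)| := by
        have e : (z.2 : ℝ) = dx u z + u.2 := by unfold dx; push_cast; ring
        rw [e]
        exact abs_add_le _ _
      linarith
    have x2 : 3 / 4 * (R : ℝ) ≤ |dx z v| := by
      have : |(z.2 : ℝ)| ≤ |dx z v| + |(v.2 : ℝ)| := by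
        have e : (z.2 : ℝ) = -dx z v + v.2 := by unfold dx; push_cast; ring
        calc |(z.2 : ℝ)| = |-dx z v + v.2| := by rw [← e]
          _ ≤ |-dx z v| + |(v.2 : ℝ)| := abs_add_le _ _
          _ = _ := by rw [abs_neg]
      linarith
    have x3 : |dx u v| ≤ 1 / 2 * (R : ℝ) := by
      have e : dx u v = v.2 - u.2 := by unfold dx; push_cast; ring
      rw [e]
      exact (abs_sub _ _).trans (by linarith)
    have y1 : (3 / 4 * (R : ℝ)) ^ 2 / ℓ ≤ dx u z ^ 2 / dt u z := by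
      rw [← sq_abs (dx u z)]
      gcongr
      linarith
    have y2 : (3 / 4 * (R : ℝ)) ^ 2 / ℓ ≤ dx z v ^ 2 / dt z v := by
      rw [← sq_abs (dx z v)]
      gcongr
      linarith
    have y3 : dx u v ^ 2 / ℓ ≤ (1 / 2 * (R : ℝ)) ^ 2 / ℓ := by
      rw [← sq_abs (dx u v)]
      gcongr
    unfold parS at e1 e2
    rw [par_def, ← hℓ] at e3
    have w1 : sg q / 2 * (dx u v ^ 2 / ℓ) ≤ sg q / 2 * ((1 / 2 * (R : ℝ)) ^ 2 / ℓ) := by gcongr
    have w2 : sg q / 4 * ((3 / 4 * (R : ℝ)) ^ 2 / ℓ) ≤ sg q / 4 * (dx u z ^ 2 / dt u z) := by gcongr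
    have w3 : sg q / 4 * ((3 / 4 * (R : ℝ)) ^ 2 / ℓ) ≤ sg q / 4 * (dx z v ^ 2 / dt z v) := by gcongr
    have w4 : Y * ℓ ^ (1 / 3 : ℝ) ≤ sg q * (R : ℝ) ^ 2 / ℓ / 20 := by
      rw [div_div, le_div_iff₀ (by positivity)]
      calc Y * ℓ ^ (1 / 3 : ℝ) * (ℓ * 20) = 20 * Y * (ℓ * ℓ ^ (1 / 3 : ℝ)) := by ring
        _ ≤ _ := hYR
    have w5 : 0 < sg q * (R : ℝ) ^ 2 / ℓ := by positivity
    have w6 : mu q * dt u z + mu q * dt z v = mu q * ℓ := by rw [← d3]; ring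
    have a1 : sg q / 2 * dx u v ^ 2 / ℓ = sg q / 2 * (dx u v ^ 2 / ℓ) := by ring
    have a2 : 1 / 2 * (sg q / 2) * dx u z ^ 2 / dt u z = sg q / 4 * (dx u z ^ 2 / dt u z) := by ring
    have a3 : 1 / 2 * (sg q / 2) * dx z v ^ 2 / dt z v = sg q / 4 * (dx z v ^ 2 / dt z v) := by ring
    rw [a1] at e3
    rw [a2] at e1
    rw [a3] at e2
    have a4 : sg q / 4 * ((3 / 4 * (R : ℝ)) ^ 2 / ℓ) = 9 / 64 * (sg q * (R : ℝ) ^ 2 / ℓ) := by ring
    have a5 : sg q / 2 * ((1 / 2 * (R : ℝ)) ^ 2 / ℓ) = 1 / 8 * (sg q * (R : ℝ) ^ 2 / ℓ) := by ring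
    rw [a4] at w2 w3
    rw [a5] at w1
    have a6 : sg q * (R : ℝ) ^ 2 / ℓ / 20 = 1 / 20 * (sg q * (R : ℝ) ^ 2 / ℓ) := by ring
    rw [a6] at w4
    linarith only [z6, e1, e2, e3, w1, w2, w3, w4, w5, w6]
  have p1 : (PE q).real S1 ≤ C1 * Real.exp (-c1 * Y) := hS L hL1 u Y (by linarith)
  have p2 : (PE q).real S2 ≤ C1 * Real.exp (-c1 * Y) := hS L hL1 b Y (by linarith)
  have p3 : (PE q).real S3 ≤ A * Real.exp (-c2 * Y ^ (3 / 2 : ℝ)) :=
    hLT u v huv hlt hdx Y (by linarith)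
  have hY32 : Y ≤ Y ^ (3 / 2 : ℝ) := by
    nth_rewrite 1 [← Real.rpow_one Y]
    exact Real.rpow_le_rpow_of_exponent_le hY (by norm_num)
  have q1 : Real.exp (-c1 * Y) ≤ Real.exp (-(min c1 c2) * Y) := by
    apply Real.exp_le_exp.2
    have := min_le_left c1 c2
    nlinarith only [this, hq0, hq1, hY]
  have q3 : Real.exp (-c2 * Y ^ (3 / 2 : ℝ)) ≤ Real.exp (-(min c1 c2) * Y) := by
    apply Real.exp_le_exp.2
    have := min_le_right c1 c2
    have h0 : 0 < min c1 c2 := lt_min hc1 hc2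
    nlinarith only [this, hq0, hq1, hc2, hY32, hY]
  calc (PE q).real {ω | T (cutE R ω) u v < T ω u v} ≤ (PE q).real ((S1 ∪ S2) ∪ S3) :=
        measureReal_mono hsub (measure_ne_top _ _)
    _ ≤ ((PE q).real S1 + (PE q).real S2) + (PE q).real S3 := by
        refine (measureReal_union_le _ _).trans ?_
        gcongr
        exact measureReal_union_le _ _
    _ ≤ (C1 * Real.exp (-(min c1 c2) * Y) + C1 * Real.exp (-(min c1 c2) * Y)) +
        A * Real.exp (-(min c1 c2) * Y) := by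
        gcongr
        · exact p1.trans (by gcongr)
        · exact p2.trans (by gcongr)
        · exact p3.trans (by gcongr)
    _ = _ := by ring

end Pool.Agent.H22.PNM
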