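import Pool.Agent.H22.LPP.Tub
import Pool.Agent.H22.LPP.Bl

/-!
# One-point lower tail in a tube: blocks
-/

open MeasureTheory ProbabilityTheory
open Pool.Agent.H99.NS Pool.Agent.H22.LPP
open Pool.Agent.H76.ND (cutE)
open Pool.Agent.H84.GL (D_UT D_LT)

namespace Pool.Agent.H22.PNM

/-- Intermediate times. -/
noncomputable def bt (u v : Site) (m l : ℕ) : ℤ := ⌊(l : ℝ) * dt u v / m⌋

/-- Intermediate points. -/
noncomputable def bp (u v : Site) (m l : ℕ) : Site :=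
  (u.1 + bt u v m l, u.2 + bt u v m l + 2 * ⌊(dx u v / dt u v - 1) * (bt u v m l) / 2⌋)

theorem bt_zero (u v : Site) (m : ℕ) : bt u v m 0 = 0 := by
  unfold bt; simp

theorem bt_last {u v : Site} {m : ℕ} (hm : 0 < m) : bt u v m m = v.1 - u.1 := by
  unfold bt
  have : (0 : ℝ) < m := by exact_mod_cast hm
  rw [mul_div_assoc, mul_div_cancel₀]
  · unfold dt; exact Int.floor_intCast _
  · exact this.ne'

theorem bt_diff (u v : Site) (m l : ℕ) : dt u v / m - 1 ≤ ((bt u v m (l + 1) - bt u v m l : ℤ) : ℝ) ∧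
    ((bt u v m (l + 1) - bt u v m l : ℤ) : ℝ) ≤ dt u v / m + 1 := by
  unfold bt
  have e : ((l + 1 : ℕ) : ℝ) * dt u v / m = (l : ℝ) * dt u v / m + dt u v / m := by
    push_cast; ring
  rw [e]
  have h1 := Int.floor_le ((l : ℝ) * dt u v / m)
  have h2 := Int.lt_floor_add_one ((l : ℝ) * dt u v / m)
  have h3 := Int.floor_le ((l : ℝ) * dt u v / m + dt u v / m)
  have h4 := Int.lt_floor_add_one ((l : ℝ) * dt u v / m + dt u v / m)
  push_cast
  constructor <;> linarith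

theorem bt_nonneg {u v : Site} (h : u.1 < v.1) (m l : ℕ) : 0 ≤ bt u v m l := by
  unfold bt
  have := dt_pos h
  exact Int.floor_nonneg.2 (by positivity)

theorem bt_le {u v : Site} (h : u.1 < v.1) {m l : ℕ} (hl : l ≤ m) (hm : 0 < m) :
    (bt u v m l : ℝ) ≤ dt u v := by
  unfold bt
  have h1 := dt_pos h
  have h2 : (0 : ℝ) < m := by exact_mod_cast hm
  have h3 : (l : ℝ) ≤ m := by exact_mod_cast hl
  refine (Int.floor_le _).trans ?_
  rw [div_le_iff₀ h2]
  nlinarith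

theorem bp_zero (u v : Site) (m : ℕ) : bp u v m 0 = u := by
  unfold bp
  rw [bt_zero]
  simp

theorem bp_last {u v : Site} {m : ℕ} (h : Reach u v) (hlt : u.1 < v.1) (hm : 0 < m) :
    bp u v m m = v := by
  unfold bp
  rw [bt_last hm]
  have h1 := dt_pos hlt
  obtain ⟨n, hn⟩ : ∃ n : ℤ, (v.2 - u.2) - (v.1 - u.1) = 2 * n := by
    obtain ⟨m', hm'⟩ := h.2
    exact ⟨m' - (v.1 - u.1), by linarith⟩
  have e : (dx u v / dt u v - 1) * ((v.1 - u.1 : ℤ) : ℝ) / 2 = (n : ℝ) := by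
    have e1 : ((v.1 - u.1 : ℤ) : ℝ) = dt u v := rfl
    rw [e1, sub_mul, div_mul_cancel₀ _ h1.ne', one_mul]
    have e2 : dx u v - dt u v = 2 * n := by
      unfold dx dt
      exact_mod_cast hn
    linarith
  rw [e, Int.floor_intCast]
  ext
  · simp
  · simp only
    linarith

/-- The rounding error. -/
theorem bp_err (u v : Site) (m l : ℕ) :
    -2 ≤ dx u (bp u v m l) - dx u v / dt u v * bt u v m l ∧
      dx u (bp u v m l) - dx u v / dt u v * bt u v m l ≤ 0 := by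
  set a : ℝ := (dx u v / dt u v - 1) * (bt u v m l) / 2 with ha
  have e : dx u (bp u v m l) - dx u v / dt u v * bt u v m l = 2 * (⌊a⌋ - a) := by
    have e1 : dx u (bp u v m l) = ((u.2 + bt u v m l + 2 * ⌊a⌋ - u.2 : ℤ) : ℝ) := rfl
    have e2 : 2 * a = (dx u v / dt u v - 1) * (bt u v m l) := by rw [ha]; ring
    rw [e1]
    push_cast
    linarith
  rw [e]
  have h1 := Int.floor_le a
  have h2 := Int.lt_floor_add_one a
  constructor <;> linarith

theorem bp_dt (u v : Site) (m l : ℕ) :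
    dt (bp u v m l) (bp u v m (l + 1)) = ((bt u v m (l + 1) - bt u v m l : ℤ) : ℝ) := by
  unfold dt bp
  simp only
  congr 1
  ring

theorem bp_dev (u v : Site) (m l : ℕ) :
    |dx (bp u v m l) (bp u v m (l + 1)) -
      dx u v / dt u v * dt (bp u v m l) (bp u v m (l + 1))| ≤ 2 := by
  have h1 := bp_err u v m l
  have h2 := bp_err u v m (l + 1)
  have h3 : dx (bp u v m l) (bp u v m (l + 1)) = dx u (bp u v m (l + 1)) - dx u (bp u v m l) := by
    rw [← dx_add u (bp u v m l) (bp u v m (l + 1))]; ring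
  rw [bp_dt, h3, abs_le]
  push_cast
  constructor <;> nlinarith

/-- Position of the intermediate points. -/
theorem bp_pos {u v : Site} (h : u.1 < v.1) {m l : ℕ} (hl : l ≤ m) (hm : 0 < m) {B : ℝ}
    (hu : |(u.2 : ℝ)| ≤ B) (hv : |(v.2 : ℝ)| ≤ B) : |((bp u v m l).2 : ℝ)| ≤ B + 2 := by
  have h1 := bp_err u v m l
  have h2 := bt_le h hl hm
  have h3 : (0 : ℝ) ≤ bt u v m l := by exact_mod_cast bt_nonneg h m l
  have h4 := dt_pos h
  obtain ⟨r, hr⟩ : ∃ r : ℝ, r = bt u v m l / dt u v := ⟨_, rfl⟩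
  have hr0 : 0 ≤ r := by rw [hr]; positivity
  have hr1 : r ≤ 1 := by rw [hr, div_le_one h4]; exact h2
  have e1 : dx u v / dt u v * bt u v m l = r * dx u v := by rw [hr]; ring
  rw [e1] at h1
  have e2 : dx u (bp u v m l) = ((bp u v m l).2 : ℝ) - u.2 := by unfold dx; push_cast; ring
  have e3 : dx u v = (v.2 : ℝ) - u.2 := by unfold dx; push_cast; ring
  rw [e2, e3] at h1
  rw [abs_le] at hu hv ⊢
  constructor
  · nlinarith
  · nlinarith

/-- The intermediate points are reachable, the blocks are moderate. -/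
theorem bp_block {u v : Site} (hlt : u.1 < v.1) (hdx : |dx u v| ≤ dt u v ^ (3 / 4 : ℝ)) {m l : ℕ}
    (hm : 32 ≤ m) (hτ : 32 ≤ dt u v / m) :
    Reach (bp u v m l) (bp u v m (l + 1)) ∧ (bp u v m l).1 < (bp u v m (l + 1)).1 ∧
    16 ≤ dt (bp u v m l) (bp u v m (l + 1)) ∧
    dt u v / m / 2 ≤ dt (bp u v m l) (bp u v m (l + 1)) ∧
    dt (bp u v m l) (bp u v m (l + 1)) ≤ 2 * (dt u v / m) ∧
    |dx (bp u v m l) (bp u v m (l + 1))| ≤
      dt (bp u v m l) (bp u v m (l + 1)) ^ (3 / 4 : ℝ) := by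
  have h1 := bt_diff u v m l
  have h2 := bp_dt u v m l
  have h3 := bp_dev u v m l
  rw [← h2] at h1
  set ℓ := dt (bp u v m l) (bp u v m (l + 1)) with hℓ
  set D := dx (bp u v m l) (bp u v m (l + 1)) with hD
  have hτ0 := dt_pos hlt
  have hm0 : (32 : ℝ) ≤ m := by exact_mod_cast hm
  have a1 : 16 ≤ ℓ := by linarith
  have a2 : dt u v / m / 2 ≤ ℓ := by linarith
  have a3 : ℓ ≤ 2 * (dt u v / m) := by linarith
  have hℓ0 : 0 < ℓ := by linarith
  have a4 : 16 * ℓ ≤ dt u v := by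
    have : dt u v / m ≤ dt u v / 32 := by gcongr
    linarith
  have a5 : |D| ≤ ℓ ^ (3 / 4 : ℝ) := by
    have b1 : |dx u v / dt u v * ℓ| ≤ ℓ ^ (3 / 4 : ℝ) / 2 := by
      rw [abs_mul, abs_div, abs_of_pos hτ0, abs_of_pos hℓ0]
      have c1 : |dx u v| / dt u v ≤ 1 / dt u v ^ (1 / 4 : ℝ) := by
        rw [div_le_div_iff₀ hτ0 (by positivity)]
        calc |dx u v| * dt u v ^ (1 / 4 : ℝ) ≤ dt u v ^ (3 / 4 : ℝ) * dt u v ^ (1 / 4 : ℝ) := by
              gcongr
          _ = 1 * dt u v := by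
              rw [← Real.rpow_add hτ0]; norm_num
      have c2 : 2 * ℓ ^ (1 / 4 : ℝ) ≤ dt u v ^ (1 / 4 : ℝ) := by
        calc 2 * ℓ ^ (1 / 4 : ℝ) = (16 * ℓ) ^ (1 / 4 : ℝ) := by
              rw [Real.mul_rpow (by norm_num) hℓ0.le]
              congr 1
              rw [show (16 : ℝ) = 2 ^ (4 : ℝ) by norm_num, ← Real.rpow_mul (by norm_num)]
              norm_num
          _ ≤ _ := Real.rpow_le_rpow (by positivity) a4 (by norm_num)
      have c3 : ℓ = ℓ ^ (3 / 4 : ℝ) * ℓ ^ (1 / 4 : ℝ) := by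
        rw [← Real.rpow_add hℓ0]; norm_num
      have c4 : 0 < ℓ ^ (3 / 4 : ℝ) := by positivity
      have c5 : 0 < ℓ ^ (1 / 4 : ℝ) := by positivity
      have c6 : 0 < dt u v ^ (1 / 4 : ℝ) := by positivity
      calc |dx u v| / dt u v * ℓ ≤ 1 / dt u v ^ (1 / 4 : ℝ) * ℓ := by gcongr
        _ = ℓ ^ (3 / 4 : ℝ) * ℓ ^ (1 / 4 : ℝ) / dt u v ^ (1 / 4 : ℝ) := by
            rw [← c3]; ring
        _ ≤ ℓ ^ (3 / 4 : ℝ) / 2 := by
            rw [div_le_div_iff₀ c6 (by norm_num)]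
            calc ℓ ^ (3 / 4 : ℝ) * ℓ ^ (1 / 4 : ℝ) * 2 = ℓ ^ (3 / 4 : ℝ) * (2 * ℓ ^ (1 / 4 : ℝ)) := by
                  ring
              _ ≤ _ := by gcongr
    have b2 : 4 ≤ ℓ ^ (3 / 4 : ℝ) := by
      calc (4 : ℝ) ≤ (16 : ℝ) ^ (3 / 4 : ℝ) := by
            rw [show (16 : ℝ) = 2 ^ (4 : ℝ) by norm_num, ← Real.rpow_mul (by norm_num)]
            norm_num
        _ ≤ _ := Real.rpow_le_rpow (by norm_num) a1 (by norm_num)
    have b3 : D = (D - dx u v / dt u v * ℓ) + dx u v / dt u v * ℓ := by ring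
    rw [b3]
    exact (abs_add_le _ _).trans (by linarith)
  have a6 : |D| ≤ ℓ := by
    refine a5.trans ?_
    calc ℓ ^ (3 / 4 : ℝ) ≤ ℓ ^ (1 : ℝ) :=
          Real.rpow_le_rpow_of_exponent_le (by linarith) (by norm_num)
      _ = ℓ := Real.rpow_one _
  refine ⟨⟨?_, ?_⟩, ?_, a1, a2, a3, a5⟩
  · have : |(((bp u v m (l + 1)).2 - (bp u v m l).2 : ℤ) : ℝ)| ≤
        (((bp u v m (l + 1)).1 - (bp u v m l).1 : ℤ) : ℝ) := a6
    rw [← Int.cast_abs] at this
    exact_mod_cast this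
  · unfold bp
    simp only
    refine ⟨(bt u v m (l + 1) - bt u v m l) +
      (⌊(dx u v / dt u v - 1) * (bt u v m (l + 1)) / 2⌋ -
        ⌊(dx u v / dt u v - 1) * (bt u v m l) / 2⌋), ?_⟩
    ring
  · have : (0 : ℝ) < (((bp u v m (l + 1)).1 - (bp u v m l).1 : ℤ) : ℝ) := hℓ0
    have h5 : 0 < (bp u v m (l + 1)).1 - (bp u v m l).1 := by exact_mod_cast this
    omega

/-- The bound along the blocks. -/
theorem chain_blocks {X : Site → Site → ℝ} (hX : Super X) {q : ℝ} (hq : q < 1) {u v : Site}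
    (huv : Reach u v) (hlt : u.1 < v.1) (hdx : |dx u v| ≤ dt u v ^ (3 / 4 : ℝ)) {m : ℕ}
    (hm : 32 ≤ m) (hτ : 32 ≤ dt u v / m) {κ : ℝ}
    (hb : ∀ l < m, par q (bp u v m l) (bp u v m (l + 1)) - κ ≤
      X (bp u v m l) (bp u v m (l + 1))) :
    par q u v - m * (κ + 4 * sg q / (dt u v / m)) ≤ X u v := by
  have hsg := sg_nonneg hq
  have hm0 : (0 : ℝ) < m := by
    have : (32 : ℝ) ≤ m := by exact_mod_cast hm
    linarith
  have key : ∀ l ≤ m, Reach u (bp u v m l) ∧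
      lin q (dx u v / dt u v) u (bp u v m l) - l * (κ + 4 * sg q / (dt u v / m)) ≤
        X u (bp u v m l) := by
    intro l
    induction l with
    | zero =>
      intro _
      rw [bp_zero, lin_self]
      refine ⟨reach_refl u, ?_⟩
      simp only [Nat.cast_zero, zero_mul, sub_zero]
      exact hX.1 u u
    | succ l ih =>
      intro hl
      obtain ⟨h1, h2⟩ := ih (by omega)
      obtain ⟨g1, g2, g3, g4, g5, g6⟩ := bp_block (l := l) hlt hdx hm hτ
      refine ⟨reach_trans h1 g1, ?_⟩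
      have h3 := hX.2 _ _ _ h1 g1
      have h4 := hb l (by omega)
      rw [par_eq_lin q (dx u v / dt u v) g2] at h4
      have h5 := bp_dev u v m l
      rw [← lin_add q _ u (bp u v m l) (bp u v m (l + 1))]
      set ℓ := dt (bp u v m l) (bp u v m (l + 1)) with hℓ
      set D := dx (bp u v m l) (bp u v m (l + 1)) with hD
      have h6 : sg q / 2 * (D - dx u v / dt u v * ℓ) ^ 2 / ℓ ≤ 4 * sg q / (dt u v / m) := by
        have e1 : (D - dx u v / dt u v * ℓ) ^ 2 ≤ 2 ^ 2 := by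
          rw [← sq_abs]
          exact pow_le_pow_left₀ (abs_nonneg _) h5 2
        calc sg q / 2 * (D - dx u v / dt u v * ℓ) ^ 2 / ℓ ≤ sg q / 2 * 2 ^ 2 / (dt u v / m / 2) := by
              gcongr
          _ = 4 * sg q / (dt u v / m) := by
              have : dt u v / m ≠ 0 := by linarith
              field_simp
              ring
      push_cast
      linarith
  have h := (key m le_rfl).2
  rw [bp_last huv hlt (by omega), lin_at hlt] at h
  exact h

end Pool.Agent.H22.PNM
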