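import Pool.Agent.H22.LPP.Tub2

/-!
# One-point lower tail in a tube: the bound
-/

open MeasureTheory ProbabilityTheory
open Pool.Agent.H99.NS Pool.Agent.H22.LPP
open Pool.Agent.H76.ND (cutE)
open Pool.Agent.H84.GL (D_UT D_LT)

namespace Pool.Agent.H22.PNM

/-- Real number facts of the choice of the blocks. -/
theorem tub_real {μ σ τ x h t3 : ℝ} {m : ℕ} (hμ : 0 < μ) (hσ : 0 < σ) (hτ : 0 < τ)
    (ht3 : 0 < t3) (h3 : t3 ^ 3 = τ) (hh : 4 ≤ h) (hx : x = h ^ 4)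
    (hm1 : h ^ 3 ≤ m) (hm2 : (m : ℝ) ≤ 2 * h ^ 3) (hxμ : x ≤ μ * t3 ^ 2)
    (hx1 : 256 * μ ^ 2 ≤ x) (hx2 : 64 * σ * μ ^ 2 ≤ x) :
    32 ≤ m ∧ 32 ≤ τ / m ∧ 4 ≤ t3 / h ∧
      (∀ ℓ : ℝ, 0 < ℓ → ℓ ≤ 2 * (τ / m) → ℓ ^ (1 / 3 : ℝ) ≤ 2 * (t3 / h)) ∧
      m * (h ^ 2 / 8 * (2 * (t3 / h)) + 4 * σ / (τ / m)) < x * t3 := by
  have hh0 : 0 < h := by linarith
  have hh3 : (64 : ℝ) ≤ h ^ 3 := by
    calc (64 : ℝ) = 4 ^ 3 := by norm_num
      _ ≤ h ^ 3 := by gcongr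
  have hmr : (64 : ℝ) ≤ m := by linarith
  have hm0 : (0 : ℝ) < m := by linarith
  have hm : 32 ≤ m := by
    have : (64 : ℕ) ≤ m := by exact_mod_cast hmr
    omega
  -- `t3 / h ≥ 4`
  have e1 : 16 * μ ≤ h ^ 2 := by
    by_contra hcon
    push Not at hcon
    have : h ^ 4 < 256 * μ ^ 2 := by
      calc h ^ 4 = (h ^ 2) ^ 2 := by ring
        _ < (16 * μ) ^ 2 := by gcongr
        _ = _ := by ring
    linarith
  have e2 : 4 * h ≤ t3 := by
    by_contra hcon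
    push Not at hcon
    have : μ * t3 ^ 2 < h ^ 4 := by
      calc μ * t3 ^ 2 < μ * (4 * h) ^ 2 := by gcongr
        _ = (16 * μ) * h ^ 2 := by ring
        _ ≤ h ^ 2 * h ^ 2 := by gcongr
        _ = _ := by ring
    linarith
  have hr : 4 ≤ t3 / h := by rw [le_div_iff₀ hh0]; exact e2
  have e3 : 32 ≤ τ / m := by
    rw [le_div_iff₀ hm0, ← h3]
    calc 32 * (m : ℝ) ≤ 32 * (2 * h ^ 3) := by gcongr
      _ = (4 * h) ^ 3 := by ring
      _ ≤ t3 ^ 3 := by gcongr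
  refine ⟨hm, e3, hr, ?_, ?_⟩
  · intro ℓ hℓ hℓ2
    have a1 : ℓ ≤ (2 * (t3 / h)) ^ 3 := by
      refine hℓ2.trans ?_
      have : τ / m ≤ τ / h ^ 3 := by gcongr
      have e : (2 * (t3 / h)) ^ 3 = 8 * (τ / h ^ 3) := by rw [← h3]; ring
      rw [e]
      have : 0 ≤ τ / h ^ 3 := by positivity
      linarith
    calc ℓ ^ (1 / 3 : ℝ) ≤ ((2 * (t3 / h)) ^ 3) ^ (1 / 3 : ℝ) :=
          Real.rpow_le_rpow hℓ.le a1 (by norm_num)
      _ = _ := by
          rw [← Real.rpow_natCast, ← Real.rpow_mul (by positivity)]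
          norm_num
  · have b1 : h ^ 2 / 8 * (2 * (t3 / h)) = h * t3 / 4 := by field_simp; ring
    have b2 : 4 * σ / (τ / m) ≤ 8 * σ * h ^ 3 / t3 ^ 3 := by
      rw [h3, div_div_eq_mul_div]
      apply div_le_div_of_nonneg_right _ hτ.le
      nlinarith only [hσ, hm2]
    -- `32 σ h ^ 2 < t3 ^ 4`
    have b3 : 32 * σ * h ^ 2 < t3 ^ 4 := by
      have c1 : 64 * σ * μ ≤ t3 ^ 2 := by
        have : μ * (64 * σ * μ) ≤ μ * t3 ^ 2 := by nlinarith only [hxμ, hx2]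
        exact le_of_mul_le_mul_left this hμ
      have c2 : h ^ 4 ≤ μ * t3 ^ 2 := by rw [← hx]; exact hxμ
      have c3 : h ^ 2 ≤ h ^ 4 := by
        have : 1 ≤ h := by linarith
        exact pow_le_pow_right₀ this (by norm_num)
      calc 32 * σ * h ^ 2 ≤ 32 * σ * (μ * t3 ^ 2) := by gcongr; linarith
        _ = (64 * σ * μ) / 2 * t3 ^ 2 := by ring
        _ ≤ t3 ^ 2 / 2 * t3 ^ 2 := by gcongr
        _ < t3 ^ 2 * t3 ^ 2 := by
            have : 0 < t3 ^ 2 := by positivity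
            nlinarith only [hμ, hx, hxμ, e1, c3]
        _ = t3 ^ 4 := by ring
    calc m * (h ^ 2 / 8 * (2 * (t3 / h)) + 4 * σ / (τ / m)) ≤
        (2 * h ^ 3) * (h * t3 / 4 + 8 * σ * h ^ 3 / t3 ^ 3) := by
          rw [b1]
          gcongr
      _ = h ^ 4 * t3 / 2 + (16 * σ * h ^ 6 / t3 ^ 3) := by ring
      _ < h ^ 4 * t3 / 2 + h ^ 4 * t3 / 2 := by
          have d1 : 16 * σ * h ^ 6 / t3 ^ 3 < h ^ 4 * t3 / 2 := by
            rw [div_lt_iff₀ (by positivity)]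
            calc 16 * σ * h ^ 6 = h ^ 4 / 2 * (32 * σ * h ^ 2) := by ring
              _ < h ^ 4 / 2 * t3 ^ 4 := by gcongr
              _ = _ := by ring
          linarith
      _ = x * t3 := by rw [hx]; ring

/-- One-point lower tail in a tube. -/
theorem tub (hU : D_UT) (hL : D_LT) {q : ℝ} (hq0 : 0 < q) (hq1 : q < 1) :
    ∃ A c : ℝ, 0 < A ∧ 0 < c ∧ ∀ (R : ℤ) (u v : Site), Reach u v → u.1 < v.1 →
      |dx u v| ≤ dt u v ^ (3 / 4 : ℝ) → |(u.2 : ℝ)| ≤ R / 8 → |(v.2 : ℝ)| ≤ R / 8 →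
      dt u v ^ (2 / 3 : ℝ) ≤ R → ∀ x : ℝ, 0 ≤ x →
      (PE q).real {ω | T (cutE R ω) u v ≤ par q u v - x * dt u v ^ (1 / 3 : ℝ)} ≤
        A * Real.exp (-c * x ^ (3 / 4 : ℝ)) := by
  obtain ⟨C1, c1, hC1, hc1, hexit⟩ := exit_prob hU hL hq0 hq1
  obtain ⟨A2, c2, hA2, hc2, hLT⟩ := lt1_of hL hq0 hq1
  have hsg := sg_pos hq0 hq1
  have hmu := mu_pos hq0 hq1
  obtain ⟨c3, hc3⟩ : ∃ c3 : ℝ, c3 = min (c2 / 32) (c1 * sg q / 320) := ⟨_, rfl⟩
  have hc30 : 0 < c3 := by rw [hc3]; exact lt_min (by positivity) (by positivity)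
  have hc3a : c3 ≤ c2 / 32 := by rw [hc3]; exact min_le_left _ _
  have hc3b : c3 ≤ c1 * sg q / 320 := by rw [hc3]; exact min_le_right _ _
  obtain ⟨x0, hx0⟩ : ∃ x0 : ℝ, x0 = 256 + 256 * mu q ^ 2 + 64 * sg q * mu q ^ 2 + 16 * mu q +
    320 / sg q := ⟨_, rfl⟩
  have hx00 : 0 < x0 := by rw [hx0]; positivity
  refine ⟨Real.exp (c3 / 2 * x0 ^ (3 / 4 : ℝ)) + 4 / c3 * (A2 + C1), c3 / 2, by positivity,
    by positivity, ?_⟩
  intro R u v huv hlt hdx hu hv hR x hx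
  have hτ1 := one_le_dt hlt
  have hτ0 := dt_pos hlt
  have hexp0 : 0 < Real.exp (-(c3 / 2) * x ^ (3 / 4 : ℝ)) := Real.exp_pos _
  rcases lt_or_ge x x0 with hxs | hxb
  · have h1 : (1 : ℝ) ≤ Real.exp (c3 / 2 * x0 ^ (3 / 4 : ℝ)) *
        Real.exp (-(c3 / 2) * x ^ (3 / 4 : ℝ)) := by
      rw [← Real.exp_add]
      apply Real.one_le_exp
      have h2 : x ^ (3 / 4 : ℝ) ≤ x0 ^ (3 / 4 : ℝ) := Real.rpow_le_rpow hx hxs.le (by norm_num)
      nlinarith only [hq0, hq1, hc30, h2]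
    refine measureReal_le_one.trans (h1.trans ?_)
    apply mul_le_mul_of_nonneg_right _ hexp0.le
    have : 0 ≤ 4 / c3 * (A2 + C1) := by positivity
    linarith
  obtain ⟨t3, ht3⟩ : ∃ t3 : ℝ, t3 = dt u v ^ (1 / 3 : ℝ) := ⟨_, rfl⟩
  have ht30 : 0 < t3 := by rw [ht3]; positivity
  have ht33 : t3 ^ 3 = dt u v := by
    rw [ht3, ← Real.rpow_natCast, ← Real.rpow_mul hτ0.le]; norm_num
  have ht32 : t3 ^ 2 = dt u v ^ (2 / 3 : ℝ) := by
    rw [ht3, ← Real.rpow_natCast, ← Real.rpow_mul hτ0.le]; norm_num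
  rw [← ht3]
  rcases lt_or_ge (mu q * t3 ^ 2) x with hbig | hxμ
  · -- the field is nonnegative
    have : {ω | T (cutE R ω) u v ≤ par q u v - x * t3} = ∅ := by
      ext ω
      simp only [Set.mem_ofPred_eq, Set.mem_empty_iff_false, iff_false, not_le]
      have h1 := T_nonneg (cutE R ω) u v
      have h2 := par_le_mu hq1 hlt
      have h3 : mu q * dt u v < x * t3 := by
        rw [← ht33]
        calc mu q * t3 ^ 3 = (mu q * t3 ^ 2) * t3 := by ring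
          _ < x * t3 := by gcongr
      linarith
    rw [this, measureReal_empty]
    positivity
  -- main case
  have z1 : 0 ≤ 256 * mu q ^ 2 := by positivity
  have z2 : 0 ≤ 64 * sg q * mu q ^ 2 := by positivity
  have z3 : 0 ≤ 16 * mu q := by positivity
  have z4 : 0 ≤ 320 / sg q := by positivity
  have px1 : 256 ≤ x := by linarith
  have px2 : 256 * mu q ^ 2 ≤ x := by linarith
  have px3 : 64 * sg q * mu q ^ 2 ≤ x := by linarith
  have px4 : 16 * mu q ≤ x := by linarith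
  have px5 : 320 / sg q ≤ x := by linarith
  obtain ⟨h, hh⟩ : ∃ h : ℝ, h = x ^ (1 / 4 : ℝ) := ⟨_, rfl⟩
  have hh4 : h ^ 4 = x := by
    rw [hh, ← Real.rpow_natCast, ← Real.rpow_mul hx]; norm_num
  have hh3 : h ^ 3 = x ^ (3 / 4 : ℝ) := by
    rw [hh, ← Real.rpow_natCast, ← Real.rpow_mul hx]; norm_num
  have hh40 : 4 ≤ h := by
    rw [hh]
    calc (4 : ℝ) = (256 : ℝ) ^ (1 / 4 : ℝ) := by
          rw [show (256 : ℝ) = 4 ^ (4 : ℝ) by norm_num, ← Real.rpow_mul (by norm_num)]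
          norm_num
      _ ≤ _ := Real.rpow_le_rpow (by norm_num) px1 (by norm_num)
  have hh0 : 0 < h := by linarith
  obtain ⟨m, hm⟩ : ∃ m : ℕ, m = ⌈h ^ 3⌉₊ := ⟨_, rfl⟩
  have hm1 : h ^ 3 ≤ m := by rw [hm]; exact Nat.le_ceil _
  have h31 : 1 ≤ h ^ 3 := one_le_pow₀ (by linarith)
  have hm2 : (m : ℝ) ≤ 2 * h ^ 3 := by
    rw [hm]
    have := Nat.ceil_lt_add_one (a := h ^ 3) (by positivity)
    linarith
  obtain ⟨r1, r2, r3, r4, r5⟩ := tub_real hmu hsg hτ0 ht30 ht33 hh40 hh4.symm hm1 hm2 hxμ px2 px3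
  have hm0 : 0 < m := by omega
  rw [← ht32] at hR
  have hR16 : (16 : ℝ) ≤ R := by
    have : mu q * 16 ≤ mu q * t3 ^ 2 := by linarith only [hq0, hq1, hx0, hxb, hxμ, z1, z2, z4]
    have := le_of_mul_le_mul_left this hmu
    linarith
  have hR0 : (0 : ℤ) < R := by
    have : (0 : ℝ) < R := by linarith
    exact_mod_cast this
  obtain ⟨y, hy⟩ : ∃ y : ℝ, y = h ^ 2 / 8 := ⟨_, rfl⟩
  have hy0 : 0 ≤ y := by rw [hy]; positivity
  set B1 : ℕ → Set Env := fun l => {ω | T ω (bp u v m l) (bp u v m (l + 1)) ≤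
    par q (bp u v m l) (bp u v m (l + 1)) -
      y * dt (bp u v m l) (bp u v m (l + 1)) ^ (1 / 3 : ℝ)} with hB1
  set B2 : ℕ → Set Env := fun l => {ω | T (cutE R ω) (bp u v m l) (bp u v m (l + 1)) <
    T ω (bp u v m l) (bp u v m (l + 1))} with hB2
  have hsub : {ω | T (cutE R ω) u v ≤ par q u v - x * t3} ⊆
      ⋃ l ∈ Finset.range m, (B1 l ∪ B2 l) := by
    intro ω hω
    by_contra hcon
    rw [Set.mem_iUnion₂] at hcon
    push Not at hcon
    have hb : ∀ l < m, par q (bp u v m l) (bp u v m (l + 1)) - y * (2 * (t3 / h)) ≤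
        T (cutE R ω) (bp u v m l) (bp u v m (l + 1)) := by
      intro l hl
      have h1 := hcon l (Finset.mem_range.2 hl)
      rw [Set.mem_union, not_or] at h1
      obtain ⟨n1, n2⟩ := h1
      have h2 : par q (bp u v m l) (bp u v m (l + 1)) -
          y * dt (bp u v m l) (bp u v m (l + 1)) ^ (1 / 3 : ℝ) <
          T ω (bp u v m l) (bp u v m (l + 1)) := by
        by_contra h
        push Not at h
        exact n1 h
      have h3 : T ω (bp u v m l) (bp u v m (l + 1)) ≤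
          T (cutE R ω) (bp u v m l) (bp u v m (l + 1)) := by
        by_contra h
        push Not at h
        exact n2 h
      obtain ⟨g1, g2, g3, g4, g5, g6⟩ := bp_block (l := l) hlt hdx r1 r2
      have h4 := r4 _ (by linarith) g5
      have h5 : y * dt (bp u v m l) (bp u v m (l + 1)) ^ (1 / 3 : ℝ) ≤ y * (2 * (t3 / h)) := by
        gcongr
      linarith only [h2, h3, h5]
    have h6 := chain_blocks (super_T (cutE R ω)) hq1 huv hlt hdx r1 r2 hb
    rw [← hy] at r5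
    have h7 : T (cutE R ω) u v ≤ par q u v - x * t3 := hω
    linarith
  have hone : ∀ l ∈ Finset.range m, (PE q).real (B1 l ∪ B2 l) ≤
      (A2 + C1) * Real.exp (-c3 * x ^ (3 / 4 : ℝ)) := by
    intro l hl
    rw [Finset.mem_range] at hl
    obtain ⟨g1, g2, g3, g4, g5, g6⟩ := bp_block (l := l) hlt hdx r1 r2
    have p1 : (PE q).real (B1 l) ≤ A2 * Real.exp (-c3 * x ^ (3 / 4 : ℝ)) := by
      refine (hLT _ _ g1 g2 g6 y hy0).trans ?_
      apply mul_le_mul_of_nonneg_left _ hA2.le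
      apply Real.exp_le_exp.2
      have e1 : h ^ 3 / 32 ≤ y ^ (3 / 2 : ℝ) := by
        have e2 : h ^ 3 / 32 = ((h ^ 2 / 8) ^ (3 / 2 : ℝ)) * ((8 : ℝ) ^ (3 / 2 : ℝ) / 32) := by
          rw [Real.div_rpow (by positivity) (by norm_num)]
          have e3 : (h ^ 2) ^ (3 / 2 : ℝ) = h ^ 3 := by
            rw [← Real.rpow_natCast, ← Real.rpow_natCast, ← Real.rpow_mul hh0.le]
            norm_num
          rw [e3]
          have : (0 : ℝ) < (8 : ℝ) ^ (3 / 2 : ℝ) := by positivity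
          field_simp
        have e4 : (8 : ℝ) ^ (3 / 2 : ℝ) ≤ 32 := by
          have e5 : (8 : ℝ) ^ (3 / 2 : ℝ) ≤ (8 : ℝ) ^ (5 / 3 : ℝ) :=
            Real.rpow_le_rpow_of_exponent_le (by norm_num) (by norm_num)
          have e6 : (8 : ℝ) ^ (5 / 3 : ℝ) = 32 := by
            rw [show (8 : ℝ) = 2 ^ (3 : ℝ) by norm_num, ← Real.rpow_mul (by norm_num)]
            norm_num
          linarith only [e5]
        rw [e2, hy]
        have e7 : 0 ≤ (h ^ 2 / 8) ^ (3 / 2 : ℝ) := by positivity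
        have e8 : (8 : ℝ) ^ (3 / 2 : ℝ) / 32 ≤ 1 := by
          rw [div_le_one (by norm_num)]; exact e4
        nlinarith only [e4, e7]
      rw [← hh3]
      have e9 : c3 * h ^ 3 ≤ c2 / 32 * h ^ 3 := by gcongr
      have e10 : c2 * (h ^ 3 / 32) ≤ c2 * y ^ (3 / 2 : ℝ) := by gcongr
      linarith only [e9, e10]
    have p2 : (PE q).real (B2 l) ≤ C1 * Real.exp (-c3 * x ^ (3 / 4 : ℝ)) := by
      have hY1 : 1 ≤ sg q * x / 320 := by
        rw [div_le_iff₀ hsg] at px5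
        rw [le_div_iff₀ (by norm_num)]
        linarith
      have hpu := bp_pos hlt (l := l) hl.le hm0 hu hv
      have hpv := bp_pos hlt (l := l + 1) (by omega) hm0 hu hv
      have hexp := hexit R (bp u v m l) (bp u v m (l + 1)) g1 g2 g6 (by linarith) (by linarith) hR0
        (sg q * x / 320) hY1 (by
          have h4 := r4 _ (by linarith) g5
          set ℓ := dt (bp u v m l) (bp u v m (l + 1)) with hℓ
          have hℓ0 : 0 < ℓ := by linarith
          have k1 : ℓ * ℓ ^ (1 / 3 : ℝ) ≤ (2 * (t3 / h)) ^ 4 := by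
            have k2 : ℓ = (ℓ ^ (1 / 3 : ℝ)) ^ 3 := by
              rw [← Real.rpow_natCast, ← Real.rpow_mul hℓ0.le]; norm_num
            have k3 : ℓ * ℓ ^ (1 / 3 : ℝ) = (ℓ ^ (1 / 3 : ℝ)) ^ 4 := by
              nth_rewrite 1 [k2]; ring
            rw [k3]
            gcongr
          calc 20 * (sg q * x / 320) * (ℓ * ℓ ^ (1 / 3 : ℝ)) ≤
              20 * (sg q * x / 320) * (2 * (t3 / h)) ^ 4 := by gcongr
            _ = sg q * (t3 ^ 2) ^ 2 := by rw [← hh4]; field_simp; ring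
            _ ≤ sg q * (R : ℝ) ^ 2 := by gcongr)
      refine hexp.trans ?_
      apply mul_le_mul_of_nonneg_left _ hC1.le
      apply Real.exp_le_exp.2
      rw [← hh3]
      have k5 : h ^ 3 ≤ x := by
        rw [← hh4]; exact pow_le_pow_right₀ (by linarith) (by norm_num)
      have k6 : c3 * h ^ 3 ≤ c1 * sg q / 320 * x := by gcongr
      linarith only [k6]
    calc (PE q).real (B1 l ∪ B2 l) ≤ (PE q).real (B1 l) + (PE q).real (B2 l) :=
          measureReal_union_le _ _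
      _ ≤ _ := by rw [add_mul]; exact add_le_add p1 p2
  calc (PE q).real {ω | T (cutE R ω) u v ≤ par q u v - x * t3} ≤
      (PE q).real (⋃ l ∈ Finset.range m, (B1 l ∪ B2 l)) :=
        measureReal_mono hsub (measure_ne_top _ _)
    _ ≤ ∑ l ∈ Finset.range m, (PE q).real (B1 l ∪ B2 l) := measureReal_biUnion_finset_le _ _
    _ ≤ ∑ _l ∈ Finset.range m, (A2 + C1) * Real.exp (-c3 * x ^ (3 / 4 : ℝ)) :=
        Finset.sum_le_sum hone
    _ = m * ((A2 + C1) * Real.exp (-c3 * x ^ (3 / 4 : ℝ))) := by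
        rw [Finset.sum_const, Finset.card_range, nsmul_eq_mul]
    _ ≤ (2 * h ^ 3) * ((A2 + C1) * Real.exp (-c3 * x ^ (3 / 4 : ℝ))) := by gcongr
    _ ≤ 4 / c3 * (A2 + C1) * Real.exp (-(c3 / 2) * x ^ (3 / 4 : ℝ)) := by
        rw [← hh3]
        have k1 : c3 / 2 * h ^ 3 ≤ Real.exp (c3 / 2 * h ^ 3) := by
          have := Real.add_one_le_exp (c3 / 2 * h ^ 3)
          linarith
        have k2 : Real.exp (-c3 * h ^ 3) = Real.exp (-(c3 / 2) * h ^ 3) *
            Real.exp (-(c3 / 2) * h ^ 3) := by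
          rw [← Real.exp_add]; congr 1; ring
        have k3 : h ^ 3 * Real.exp (-(c3 / 2) * h ^ 3) ≤ 2 / c3 := by
          rw [neg_mul, Real.exp_neg, ← div_eq_mul_inv, div_le_div_iff₀ (Real.exp_pos _) hc30]
          linarith
        rw [k2]
        have k4 : 0 < Real.exp (-(c3 / 2) * h ^ 3) := Real.exp_pos _
        calc 2 * h ^ 3 * ((A2 + C1) * (Real.exp (-(c3 / 2) * h ^ 3) *
            Real.exp (-(c3 / 2) * h ^ 3))) = (h ^ 3 * Real.exp (-(c3 / 2) * h ^ 3)) *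
              (2 * (A2 + C1) * Real.exp (-(c3 / 2) * h ^ 3)) := by ring
          _ ≤ 2 / c3 * (2 * (A2 + C1) * Real.exp (-(c3 / 2) * h ^ 3)) := by gcongr
          _ = _ := by ring
    _ ≤ _ := by
        apply mul_le_mul_of_nonneg_right _ hexp0.le
        have := Real.exp_pos (c3 / 2 * x0 ^ (3 / 4 : ℝ))
        linarith

end Pool.Agent.H22.PNM
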