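import Pool.Agent.H22.LPP.Tub3
import Pool.Agent.H95.ND.Defs

/-!
# Crossing and interior lower bounds in a tube
-/

open MeasureTheory ProbabilityTheory
open Pool.Agent.H99.NS Pool.Agent.H22.LPP
open Pool.Agent.H76.ND (cutE)
open Pool.Agent.H95.ND (CLow ILow I_TL I_TI tl)
open Pool.Agent.H84.GL (D_UT D_LT)

namespace Pool.Agent.H22.PNM

/-- The piece of the tube over the slab. -/
def tubeReg (b : Site) (L : ℕ) (R : ℤ) : Set Site :=
  {g | b.1 ≤ g.1 ∧ g.1 ≤ b.1 + L ∧ |(g.2 : ℝ)| ≤ R / 8}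

theorem ltx_tube (hU : D_UT) (hL : D_LT) {q : ℝ} (hq0 : 0 < q) (hq1 : q < 1) :
    ∃ A c : ℝ, 0 < A ∧ 0 < c ∧ ∀ (b : Site) (L : ℕ) (R : ℤ), (L : ℝ) ^ (2 / 3 : ℝ) ≤ R →
      LTX (PE q) (fun ω u v => T (cutE R ω) u v) (tubeReg b L R) q A c (3 / 4) := by
  obtain ⟨A, c, hA, hc, h⟩ := tub hU hL hq0 hq1
  refine ⟨A, c, hA, hc, ?_⟩
  intro b L R hR u v hu hv hr hlt hdx x hx
  refine h R u v hr hlt hdx hu.2.2 hv.2.2 ?_ x hx
  refine le_trans (Real.rpow_le_rpow (dt_nonneg hlt.le) ?_ (by norm_num)) hR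
  have h1 := hu.1
  have h2 := hv.2.1
  unfold dt
  exact_mod_cast (by omega : v.1 - u.1 ≤ (L : ℤ))

theorem nearIn_tube {b u v : Site} {L : ℕ} {R : ℤ} (hu : b.1 ≤ u.1) (hlt : u.1 < v.1)
    (hv : v.1 ≤ b.1 + L) (h : |(u.2 : ℝ)| + |dx u v| + 2 * (L : ℝ) ^ (2 / 3 : ℝ) ≤ R / 8) :
    NearIn (tubeReg b L R) u v := by
  intro g g1 g2 g3
  refine ⟨hu.trans g1, g2.trans hv, ?_⟩
  have hdt := dt_pos hlt
  have hdg : 0 ≤ dt u g := dt_nonneg g1
  have hdg2 : dt u g ≤ dt u v := by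
    unfold dt
    exact_mod_cast (by omega : g.1 - u.1 ≤ v.1 - u.1)
  have hdL : dt u v ≤ L := by
    unfold dt
    exact_mod_cast (by omega : v.1 - u.1 ≤ (L : ℤ))
  have e1 : |dx u v / dt u v * dt u g| ≤ |dx u v| := by
    rw [abs_mul, abs_div, abs_of_pos hdt, abs_of_nonneg hdg, div_mul_eq_mul_div, div_le_iff₀ hdt]
    gcongr
  have e2 : dt u v ^ (2 / 3 : ℝ) ≤ (L : ℝ) ^ (2 / 3 : ℝ) :=
    Real.rpow_le_rpow hdt.le hdL (by norm_num)
  have e3 : (g.2 : ℝ) = u.2 + ((dx u g - dx u v / dt u v * dt u g) + dx u v / dt u v * dt u g) := by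
    unfold dx
    push_cast
    ring
  rw [e3]
  refine (abs_add_le _ _).trans ?_
  have e4 := abs_add_le (dx u g - dx u v / dt u v * dt u g) (dx u v / dt u v * dt u g)
  linarith

theorem tl_of_real {q C c s Y : ℝ} (hC : 0 ≤ C) {S : Set Env}
    (h : (PE q).real S ≤ C * Real.exp (-c * Y ^ s)) : PE q S ≤ tl C c s Y := by
  unfold tl
  rw [← ENNReal.ofReal_toReal (measure_ne_top (PE q) S)]
  apply ENNReal.ofReal_le_ofReal
  rw [← neg_mul]
  exact h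

/-- Crossing lower bounds in the tube. -/
theorem i_TL (hU : D_UT) (hL : D_LT) {q : ℝ} (hq0 : 0 < q) (hq1 : q < 1) : I_TL q := by
  obtain ⟨A, c, hA, hc, hltx⟩ := ltx_tube hU hL hq0 hq1
  obtain ⟨C1, c1, hC1, hc1, h1⟩ := bl_gen hA hc (by norm_num : (0 : ℝ) < 3 / 4) hq1
  refine ⟨C1, c1, 3 / 4, hC1, hc1, by norm_num, ?_⟩
  intro L R hL1 hLR b E Y hb hbE hE hY
  apply tl_of_real hC1.le
  have hLp : (1 : ℝ) ≤ (L : ℝ) ^ (2 / 3 : ℝ) :=
    Real.one_le_rpow (by exact_mod_cast hL1) (by norm_num)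
  refine le_trans (measureReal_mono ?_ (measure_ne_top _ _))
    (h1 (PE q) (fun ω u v => T (cutE R ω) u v) (tubeReg b L R) (hltx b L R (by linarith))
      (fun ω => super_T (cutE R ω)) L hL1 b E hE Y hY)
  rintro ω ⟨x, y, g1, g2, g3, g4⟩
  refine ⟨x, y, g1, g2, g3, ?_, g4⟩
  have hx : |(x : ℝ)| ≤ (R : ℝ) / 60 := by
    have e : (x : ℝ) = ((x - b.2 : ℤ) : ℝ) + b.2 := by push_cast; ring
    rw [e]
    exact (abs_add_le _ _).trans (by linarith)
  have hy : |(y : ℝ)| ≤ (R : ℝ) / 60 := by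
    have e : (y : ℝ) = ((y - (b.2 + E) : ℤ) : ℝ) + ((b.2 + E : ℤ) : ℝ) := by push_cast; ring
    rw [e]
    exact (abs_add_le _ _).trans (by linarith)
  apply nearIn_tube (le_refl _) (by simp only; omega) (le_refl _)
  have hd : |dx (b.1, x) (b.1 + L, y)| ≤ (R : ℝ) / 60 + R / 60 := by
    have e : dx (b.1, x) (b.1 + L, y) = (y : ℝ) - x := by unfold dx; push_cast; ring
    rw [e]
    exact (abs_sub _ _).trans (by linarith)
  simp only
  linarith

/-- Interior lower bounds in the tube. -/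
theorem i_TI (hU : D_UT) (hL : D_LT) {q : ℝ} (hq0 : 0 < q) (hq1 : q < 1) : I_TI q := by
  obtain ⟨A, c, hA, hc, hltx⟩ := ltx_tube hU hL hq0 hq1
  obtain ⟨C1, c1, hC1, hc1, h1⟩ := bli_gen hA hc (by norm_num : (0 : ℝ) < 3 / 4) hq1
  refine ⟨C1, c1, 3 / 4, hC1, hc1, by norm_num, ?_⟩
  intro L R hL1 hLR b Y hb hY
  apply tl_of_real hC1.le
  have hLp : (1 : ℝ) ≤ (L : ℝ) ^ (2 / 3 : ℝ) :=
    Real.one_le_rpow (by exact_mod_cast hL1) (by norm_num)
  refine le_trans (measureReal_mono ?_ (measure_ne_top _ _))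
    (h1 (PE q) (fun ω u v => T (cutE R ω) u v) (tubeReg b L R) (hltx b L R (by linarith))
      (fun ω => super_T (cutE R ω)) L hL1 b Y hY)
  rintro ω ⟨u, v, g1, g2, g3, g4, g5, g6, g7⟩
  refine ⟨u, v, 0, g1, g2, g3, g4, ?_, ?_, g6, ?_, ?_⟩
  · rw [abs_zero]
    unfold XL
    positivity
  · rw [zero_mul, sub_zero]; exact g5
  · apply nearIn_tube g1 g2 g3
    have hu : |(u.2 : ℝ)| ≤ R / 80 + (L : ℝ) ^ (2 / 3 : ℝ) + 2 := by
      rcases g6 with h | h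
      · have e : (u.2 : ℝ) = dx b u + b.2 := by unfold dx; push_cast; ring
        rw [e]
        exact (abs_add_le _ _).trans (by linarith)
      · have e : (u.2 : ℝ) = dx b v + b.2 - dx u v := by unfold dx; push_cast; ring
        rw [e]
        refine (abs_sub _ _).trans ?_
        have := abs_add_le (dx b v) (b.2 : ℝ)
        linarith
    linarith
  · refine g7.trans (le_of_eq ?_)
    rw [abs_zero]
    ring

end Pool.Agent.H22.PNM
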